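import Pool.Agent.Wex.Targets2
import Pool.Agent.Wey.WIE
import Pool.Agent.Wey.CNV

/-!
# MP_5ab805_an, arbitrary spectra: AMA (amalgam norm of a Fourier transform)
-/

set_option autoImplicit false

namespace Wex

open MeasureTheory Set Filter
open scoped ENNReal NNReal Topology
open Pool.Agent.Restr (u E QQ)
open TriL (Sq n2)
open Wey (nq lam hat gup gdn blk Tk Sl Wi InD)

namespace AMA_

open scoped FourierTransform ContDiff
open Wey.WIE_ (bb u_add norm_u continuous_u)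

/-- the cut-off -/
noncomputable def th (s : ℝ) : ℂ := ((bb s : ℝ) : ℂ)

lemma th_contDiff : ContDiff ℝ ∞ th := Complex.ofRealCLM.contDiff.comp bb.contDiff

lemma th_support : HasCompactSupport th :=
  bb.hasCompactSupport.comp_left (g := fun r : ℝ => (r : ℂ)) (by simp)

lemma th_eq (s : ℝ) (hs : s ∈ Icc (-(1 / 2) : ℝ) (1 / 2)) : th s = 1 := by
  unfold th
  have h : bb s = 1 := by
    apply bb.one_of_mem_closedBall
    rw [Metric.mem_closedBall, Real.dist_eq, sub_zero]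
    exact abs_le.2 ⟨hs.1, hs.2⟩
  rw [h]
  simp

/-- the Fourier transform -/
noncomputable def kk (w : ℝ) : ℂ := ((2 * Real.pi)⁻¹ : ℝ) * 𝓕 th ((2 * Real.pi)⁻¹ * w)

lemma F_integrable : Integrable (𝓕 th) := by
  have h := (𝓕 (th_support.toSchwartzMap th_contDiff)).integrable (μ := volume)
  rw [SchwartzMap.fourier_coe] at h
  exact h

lemma kk_integrable : Integrable kk := by
  unfold kk
  have hpi : (2 * Real.pi)⁻¹ ≠ 0 := by positivity
  exact (F_integrable.comp_mul_left' hpi).const_mul _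

lemma kk_eq (s : ℝ) : th s = ∫ w : ℝ, u (-(w * s)) * kk w := by
  have h1 : 𝓕⁻ (𝓕 th) s = th s := by
    rw [th_contDiff.continuous.fourierInv_fourier_eq
      (th_contDiff.continuous.integrable_of_hasCompactSupport th_support) F_integrable]
  rw [← h1, Real.fourierInv_eq']
  have hpi : (0 : ℝ) < (2 * Real.pi)⁻¹ := by positivity
  have h2 := Measure.integral_comp_mul_left
    (fun v : ℝ => Complex.exp (↑(2 * Real.pi * inner ℝ v s) * Complex.I) • 𝓕 th v)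
    (2 * Real.pi)⁻¹
  rw [inv_inv, abs_of_pos (by positivity)] at h2
  have h3 : ∫ w : ℝ, u (-(w * s)) * kk w = ((2 * Real.pi)⁻¹ : ℝ) •
      ∫ x : ℝ, (fun v : ℝ => Complex.exp (↑(2 * Real.pi * inner ℝ v s) * Complex.I) • 𝓕 th v)
        ((2 * Real.pi)⁻¹ * x) := by
    rw [← integral_smul]
    congr 1
    funext w
    unfold kk u
    have h4 : Complex.exp (-(Complex.I * ((-(w * s) : ℝ) : ℂ))) =
        Complex.exp (((2 * Real.pi * inner ℝ ((2 * Real.pi)⁻¹ * w) s : ℝ) : ℂ) * Complex.I) := by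
      congr 1
      have h5 : 2 * Real.pi * inner ℝ ((2 * Real.pi)⁻¹ * w) s = w * s := by
        simp only [RCLike.inner_apply, conj_trivial]
        field_simp
      rw [h5]
      push_cast
      ring
    rw [h4]
    simp only [Complex.real_smul, smul_eq_mul]
    ring
  rw [h3, h2, smul_smul, inv_mul_cancel₀ (by positivity), one_smul]

/-- the majorant -/
noncomputable def hh (v : ℝ) : ℝ≥0∞ := ENNReal.ofReal (1 / (1 + v ^ 2))

lemma kk_decay : ∃ D : ℝ, 0 < D ∧ ∀ w, ‖kk w‖ ≤ D * (1 / (1 + w ^ 2)) := by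
  obtain ⟨C0, hC0, h0⟩ := (𝓕 (th_support.toSchwartzMap th_contDiff)).decay 0 0
  obtain ⟨C2, hC2, h2⟩ := (𝓕 (th_support.toSchwartzMap th_contDiff)).decay 2 0
  have hpi : 3 < Real.pi := Real.pi_gt_three
  refine ⟨2 * Real.pi * (C0 + C2), by positivity, fun w => ?_⟩
  set x : ℝ := (2 * Real.pi)⁻¹ * w with hx
  have e0 := h0 x
  have e2 := h2 x
  rw [norm_iteratedFDeriv_zero, SchwartzMap.fourier_coe] at e0 e2
  have hcoe : (⇑(th_support.toSchwartzMap th_contDiff) : ℝ → ℂ) = th := rfl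
  rw [hcoe] at e0 e2
  rw [pow_zero, one_mul] at e0
  rw [Real.norm_eq_abs, sq_abs] at e2
  have h3 : ‖kk w‖ = (2 * Real.pi)⁻¹ * ‖𝓕 th x‖ := by
    unfold kk
    rw [norm_mul, Complex.norm_real, Real.norm_eq_abs, abs_of_pos (by positivity)]
  have h4 : w = 2 * Real.pi * x := by
    rw [hx]
    field_simp
  have h5 : (1 + x ^ 2) * ‖𝓕 th x‖ ≤ C0 + C2 := by nlinarith
  have h6 : (0 : ℝ) ≤ ‖𝓕 th x‖ := norm_nonneg _
  rw [h3, mul_one_div, le_div_iff₀ (by positivity)]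
  rw [inv_mul_eq_div, div_mul_eq_mul_div, div_le_iff₀ (by positivity)]
  have h7 : 1 + w ^ 2 ≤ (2 * Real.pi) ^ 2 * (1 + x ^ 2) := by
    rw [h4]
    nlinarith
  calc ‖𝓕 th x‖ * (1 + w ^ 2) ≤ ‖𝓕 th x‖ * ((2 * Real.pi) ^ 2 * (1 + x ^ 2)) := by gcongr
    _ = (2 * Real.pi) ^ 2 * ((1 + x ^ 2) * ‖𝓕 th x‖) := by ring
    _ ≤ (2 * Real.pi) ^ 2 * (C0 + C2) := by gcongr
    _ = 2 * Real.pi * (C0 + C2) * (2 * Real.pi) := by ring

/-- the product -/
noncomputable def k2 (w : ℝ × ℝ) : ℂ := kk w.1 * kk w.2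

lemma k2_integrable : Integrable k2 := kk_integrable.mul_prod kk_integrable

lemma k2_eq (x : ℝ × ℝ) : th x.1 * th x.2 =
    ∫ w : ℝ × ℝ, u (-(w.1 * x.1 + w.2 * x.2)) * k2 w := by
  rw [kk_eq, kk_eq, ← integral_prod_mul]
  congr 1
  funext w
  have h : -(w.1 * x.1 + w.2 * x.2) = -(w.1 * x.1) + -(w.2 * x.2) := by ring
  rw [h, u_add]
  unfold k2
  ring

lemma g_eq {g : ℝ × ℝ → ℂ} (hg : Sq g) (x : ℝ × ℝ) : g x = th x.1 * th x.2 * g x := by
  by_cases hx : x ∈ QQ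
  · have hx' : x.1 ∈ Icc (-(1 / 2) : ℝ) (1 / 2) ∧ x.2 ∈ Icc (-(1 / 2) : ℝ) (1 / 2) := hx
    rw [th_eq _ hx'.1, th_eq _ hx'.2]
    ring
  · rw [hg.2 x hx]
    simp

lemma hat_rep {g : ℝ × ℝ → ℂ} (hg : Sq g) (hi : Integrable g) (y : ℝ × ℝ) :
    hat g y = ∫ w : ℝ × ℝ, k2 w * hat g (y - w) := by
  have hint : Integrable (fun p : (ℝ × ℝ) × (ℝ × ℝ) =>
      u ((y.1 - p.2.1) * p.1.1 + (y.2 - p.2.2) * p.1.2) * (g p.1 * k2 p.2))
      ((volume : Measure (ℝ × ℝ)).prod volume) := by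
    apply (hi.mul_prod k2_integrable).bdd_mul (c := 1)
    · exact (continuous_u.comp (by fun_prop)).aestronglyMeasurable
    · exact Eventually.of_forall fun p => (norm_u _).le
  calc hat g y = ∫ x : ℝ × ℝ, ∫ w : ℝ × ℝ,
        u ((y.1 - w.1) * x.1 + (y.2 - w.2) * x.2) * (g x * k2 w) := by
        unfold hat
        congr 1
        funext x
        conv_lhs => rw [g_eq hg x, k2_eq x]
        rw [← integral_mul_const, ← integral_const_mul]
        congr 1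
        funext w
        have h : (y.1 - w.1) * x.1 + (y.2 - w.2) * x.2 =
            (y.1 * x.1 + y.2 * x.2) + -(w.1 * x.1 + w.2 * x.2) := by ring
        rw [h, u_add (y.1 * x.1 + y.2 * x.2) (-(w.1 * x.1 + w.2 * x.2))]
        ring
    _ = ∫ w : ℝ × ℝ, ∫ x : ℝ × ℝ,
        u ((y.1 - w.1) * x.1 + (y.2 - w.2) * x.2) * (g x * k2 w) := integral_integral_swap hint
    _ = _ := by
        congr 1
        funext w
        unfold hat
        rw [← integral_const_mul]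
        congr 1
        funext x
        simp only [Prod.fst_sub, Prod.snd_sub]
        ring

lemma hat_le {g : ℝ × ℝ → ℂ} (hg : Sq g) (hi : Integrable g) (y : ℝ × ℝ) :
    ‖hat g y‖ₑ ≤ ∫⁻ z : ℝ × ℝ, ‖k2 (y - z)‖ₑ * ‖hat g z‖ₑ := by
  rw [hat_rep hg hi y]
  refine (enorm_integral_le_lintegral_enorm _).trans (le_of_eq ?_)
  rw [← lintegral_sub_left_eq_self (fun z : ℝ × ℝ => ‖k2 (y - z)‖ₑ * ‖hat g z‖ₑ) y]
  congr 1
  funext w
  rw [enorm_mul, sub_sub_cancel]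

/-- Jensen's inequality -/
lemma jensen {s : ℝ} (hs : 1 ≤ s) {a G : ℝ × ℝ → ℝ≥0∞} (ha : Measurable a) (hG : Measurable G) :
    (∫⁻ z, a z * G z) ^ s ≤ (∫⁻ z, a z) ^ (s - 1) * ∫⁻ z, a z * G z ^ s := by
  rcases hs.eq_or_lt with h1 | h1
  · rw [← h1]
    simp
  have hs0 : 0 < s := by linarith
  have hs1 : 0 < s - 1 := by linarith
  set q : ℝ := s / (s - 1) with hq
  have hpq : q.HolderConjugate s := by
    rw [Real.holderConjugate_iff]
    refine ⟨?_, ?_⟩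
    · rw [hq, lt_div_iff₀ hs1]; linarith
    · rw [hq]; field_simp; ring
  have hq0 : 0 < q := by positivity
  have e1 : ∀ z, a z * G z = a z ^ (1 / q) * (a z ^ (1 / s) * G z) := by
    intro z
    rw [← mul_assoc, ← ENNReal.rpow_add_of_nonneg _ _ (by positivity) (by positivity)]
    have : 1 / q + 1 / s = 1 := by
      rw [hq]; field_simp; ring
    rw [this, ENNReal.rpow_one]
  have h2 := ENNReal.lintegral_mul_le_Lp_mul_Lq (volume : Measure (ℝ × ℝ)) hpq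
    (f := fun z => a z ^ (1 / q)) (g := fun z => a z ^ (1 / s) * G z)
    (ha.pow_const _).aemeasurable ((ha.pow_const _).mul hG).aemeasurable
  have e2 : ∫⁻ z, (a z ^ (1 / q)) ^ q = ∫⁻ z, a z := by
    congr 1
    funext z
    rw [← ENNReal.rpow_mul, one_div, inv_mul_cancel₀ hq0.ne', ENNReal.rpow_one]
  have e3 : ∫⁻ z, (a z ^ (1 / s) * G z) ^ s = ∫⁻ z, a z * G z ^ s := by
    congr 1
    funext z
    rw [ENNReal.mul_rpow_of_nonneg _ _ hs0.le, ← ENNReal.rpow_mul, one_div,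
      inv_mul_cancel₀ hs0.ne', ENNReal.rpow_one]
  have e4 : ∫⁻ z, a z * G z =
      ∫⁻ z, ((fun z => a z ^ (1 / q)) * fun z => a z ^ (1 / s) * G z) z := by
    congr 1
    funext z
    exact e1 z
  rw [e4]
  calc _ ≤ ((∫⁻ z, (a z ^ (1 / q)) ^ q) ^ (1 / q) *
        (∫⁻ z, (a z ^ (1 / s) * G z) ^ s) ^ (1 / s)) ^ s :=
        ENNReal.rpow_le_rpow h2 hs0.le
    _ = _ := by
        rw [e2, e3, ENNReal.mul_rpow_of_nonneg _ _ hs0.le, ← ENNReal.rpow_mul,
          ← ENNReal.rpow_mul]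
        congr 1
        · congr 1
          rw [hq]; field_simp
        · rw [one_div, inv_mul_cancel₀ hs0.ne', ENNReal.rpow_one]

lemma hh_le {a b : ℝ} (h : |a - b| ≤ 1) : hh a ≤ 3 * hh b := by
  unfold hh
  rw [← ENNReal.ofReal_ofNat 3, ← ENNReal.ofReal_mul (by norm_num)]
  apply ENNReal.ofReal_le_ofReal
  rw [mul_one_div, div_le_div_iff₀ (by positivity) (by positivity)]
  have h1 := abs_le.1 h
  nlinarith [sq_nonneg (2 * a - b), sq_nonneg (a - b), sq_nonneg (b - 2 * a)]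

lemma hh_sum0 : ∑' n : ℤ, hh (n : ℝ) ≠ ⊤ := by
  have h1 : Summable (fun n : ℤ => 1 / ((n : ℝ)) ^ 2) := Real.summable_one_div_int_pow.2 one_lt_two
  have h2 : Summable (fun n : ℤ => if n = 0 then (1 : ℝ) else 0) := (hasSum_ite_eq 0 1).summable
  have h3 : Summable (fun n : ℤ => 1 / (1 + (n : ℝ) ^ 2)) := by
    refine Summable.of_nonneg_of_le (fun n => by positivity) (fun n => ?_) (h2.add h1)
    by_cases hn : n = 0
    · simp [hn]
    · rw [if_neg hn, zero_add]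
      have : (0 : ℝ) < (n : ℝ) ^ 2 := by positivity
      exact one_div_le_one_div_of_le this (by linarith)
  have h4 := h3.tsum_ofReal_ne_top
  exact h4

lemma hh_sum (v : ℝ) : ∑' n : ℤ, hh (n - v) ≤ 3 * ∑' n : ℤ, hh (n : ℝ) := by
  rw [← (Equiv.addRight ⌊v⌋).tsum_eq (fun n : ℤ => hh ((n : ℝ) - v)), ← ENNReal.tsum_mul_left]
  refine ENNReal.tsum_le_tsum fun n => hh_le ?_
  rw [Equiv.coe_addRight]
  push_cast
  have h1 := Int.floor_le v
  have h2 := Int.lt_floor_add_one v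
  rw [abs_le]
  constructor <;> linarith

lemma cell_volume (k : ℤ × ℤ) : volume (cell k) = 1 := by
  unfold cell
  rw [Measure.volume_eq_prod, Measure.prod_prod, Real.volume_Ico, Real.volume_Ico]
  simp

lemma cell_meas (k : ℤ × ℤ) : MeasurableSet (cell k) := measurableSet_Ico.prod measurableSet_Ico

lemma k2_le {D : ℝ} (hD : 0 < D) (h : ∀ w, ‖kk w‖ ≤ D * (1 / (1 + w ^ 2))) (k : ℤ × ℤ)
    {y : ℝ × ℝ} (hy : y ∈ cell k) (z : ℝ × ℝ) :
    ‖k2 (y - z)‖ₑ ≤ ENNReal.ofReal D ^ 2 * 9 * (hh (k.1 - z.1) * hh (k.2 - z.2)) := by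
  have h1 : ∀ w, ‖kk w‖ₑ ≤ ENNReal.ofReal D * hh w := by
    intro w
    unfold hh
    rw [← ENNReal.ofReal_mul hD.le, ← ofReal_norm]
    exact ENNReal.ofReal_le_ofReal (h w)
  have hy1 : (k.1 : ℝ) ≤ y.1 ∧ y.1 < k.1 + 1 := hy.1
  have hy2 : (k.2 : ℝ) ≤ y.2 ∧ y.2 < k.2 + 1 := hy.2
  have h2 : hh (y.1 - z.1) ≤ 3 * hh (k.1 - z.1) := hh_le (by
    rw [abs_le]; constructor <;> linarith [hy1.1, hy1.2])
  have h3 : hh (y.2 - z.2) ≤ 3 * hh (k.2 - z.2) := hh_le (by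
    rw [abs_le]; constructor <;> linarith [hy2.1, hy2.2])
  unfold k2
  rw [enorm_mul]
  calc ‖kk (y - z).1‖ₑ * ‖kk (y - z).2‖ₑ
      ≤ (ENNReal.ofReal D * (3 * hh (k.1 - z.1))) * (ENNReal.ofReal D * (3 * hh (k.2 - z.2))) :=
        mul_le_mul' ((h1 _).trans (mul_le_mul_right h2 _)) ((h1 _).trans (mul_le_mul_right h3 _))
    _ = _ := by ring

lemma k2_measurable : Measurable k2 := by
  unfold k2 kk
  have h1 : Measurable (𝓕 th) := by
    have h2 := (𝓕 (th_support.toSchwartzMap th_contDiff)).continuous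
    rw [SchwartzMap.fourier_coe] at h2
    exact h2.measurable
  fun_prop

lemma hh_measurable : Measurable hh := by
  unfold hh
  fun_prop

end AMA_

open AMA_

/-- AMA: local constancy of a Fourier transform -/
theorem p_AMA : T_AMA := by
  intro s hs1 hs2
  obtain ⟨D, hD, hk⟩ := kk_decay
  have hs0 : 0 < s := by linarith
  set K1 : ℝ≥0∞ := ∫⁻ w, ‖k2 w‖ₑ with hK1
  have hK1t : K1 ≠ ⊤ := k2_integrable.2.ne
  set H : ℝ≥0∞ := 3 * ∑' n : ℤ, hh (n : ℝ) with hH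
  have hHt : H ≠ ⊤ := ENNReal.mul_ne_top (by norm_num) hh_sum0
  set A : ℝ≥0∞ := K1 ^ (s - 1) * (ENNReal.ofReal D ^ 2 * 9) with hA
  have hAt : A ≠ ⊤ := ENNReal.mul_ne_top (ENNReal.rpow_ne_top_of_nonneg (by linarith) hK1t)
    (ENNReal.mul_ne_top (ENNReal.pow_ne_top ENNReal.ofReal_ne_top) (by norm_num))
  set B : ℝ≥0∞ := (A * (H * H)) ^ (1 / s) with hB
  have hBt : B ≠ ⊤ := ENNReal.rpow_ne_top_of_nonneg (by positivity)
    (ENNReal.mul_ne_top hAt (ENNReal.mul_ne_top hHt hHt))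
  refine ⟨B.toNNReal, fun g hg hi => ?_⟩
  rw [ENNReal.coe_toNNReal hBt]
  have hGm : Measurable (hat g) := Wey.CNV_hat_meas hg.1
  have hk2m : Measurable fun w : ℝ × ℝ => ‖k2 w‖ₑ := k2_measurable.enorm
  -- the bound on a cell
  have hcell : ∀ k : ℤ × ℤ, ∀ y ∈ cell k, ‖hat g y‖ₑ ^ s ≤
      A * ∫⁻ z : ℝ × ℝ, hh (k.1 - z.1) * hh (k.2 - z.2) * ‖hat g z‖ₑ ^ s := by
    intro k y hy
    calc ‖hat g y‖ₑ ^ s ≤ (∫⁻ z : ℝ × ℝ, ‖k2 (y - z)‖ₑ * ‖hat g z‖ₑ) ^ s :=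
          ENNReal.rpow_le_rpow (hat_le hg hi y) hs0.le
      _ ≤ (∫⁻ z, ‖k2 (y - z)‖ₑ) ^ (s - 1) * ∫⁻ z, ‖k2 (y - z)‖ₑ * ‖hat g z‖ₑ ^ s :=
          jensen hs1 (hk2m.comp (by fun_prop)) hGm.enorm
      _ = K1 ^ (s - 1) * ∫⁻ z, ‖k2 (y - z)‖ₑ * ‖hat g z‖ₑ ^ s := by
          rw [lintegral_sub_left_eq_self (fun w : ℝ × ℝ => ‖k2 w‖ₑ) y]
      _ ≤ K1 ^ (s - 1) * ∫⁻ z : ℝ × ℝ, (ENNReal.ofReal D ^ 2 * 9) *
            (hh (k.1 - z.1) * hh (k.2 - z.2) * ‖hat g z‖ₑ ^ s) := by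
          refine mul_le_mul_right (lintegral_mono fun z => ?_) _
          rw [← mul_assoc]
          exact mul_le_mul_left (k2_le hD hk k hy z) _
      _ = _ := by
          rw [lintegral_const_mul' _ _
            (ENNReal.mul_ne_top (ENNReal.pow_ne_top ENNReal.ofReal_ne_top) (by norm_num)), hA]
          ring
  have hterm : ∀ k : ℤ × ℤ, (∫⁻ y in cell k, ‖hat g y‖ₑ ^ 2) ^ (s / 2) ≤
      A * ∫⁻ z : ℝ × ℝ, hh (k.1 - z.1) * hh (k.2 - z.2) * ‖hat g z‖ₑ ^ s := by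
    intro k
    set S := A * ∫⁻ z : ℝ × ℝ, hh (k.1 - z.1) * hh (k.2 - z.2) * ‖hat g z‖ₑ ^ s with hS
    have h1 : ∫⁻ y in cell k, ‖hat g y‖ₑ ^ 2 ≤ S ^ (2 / s) := by
      calc ∫⁻ y in cell k, ‖hat g y‖ₑ ^ 2 ≤ ∫⁻ _ in cell k, S ^ (2 / s) := by
            refine setLIntegral_mono' (cell_meas k) fun y hy => ?_
            have h2 := ENNReal.rpow_le_rpow (hcell k y hy) (z := 2 / s) (by positivity)
            rw [← ENNReal.rpow_mul] at h2
            have h3 : s * (2 / s) = ((2 : ℕ) : ℝ) := by field_simp; norm_num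
            rw [h3, ENNReal.rpow_natCast] at h2
            exact h2
        _ = S ^ (2 / s) := by
            rw [setLIntegral_const, cell_volume, mul_one]
    calc (∫⁻ y in cell k, ‖hat g y‖ₑ ^ 2) ^ (s / 2) ≤ (S ^ (2 / s)) ^ (s / 2) :=
          ENNReal.rpow_le_rpow h1 (by positivity)
      _ = S := by
          rw [← ENNReal.rpow_mul]
          have : 2 / s * (s / 2) = 1 := by field_simp
          rw [this, ENNReal.rpow_one]
  have hsum : ∑' k : ℤ × ℤ, (∫⁻ y in cell k, ‖hat g y‖ₑ ^ 2) ^ (s / 2) ≤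
      A * (H * H) * ∫⁻ z, ‖hat g z‖ₑ ^ s := by
    calc ∑' k : ℤ × ℤ, (∫⁻ y in cell k, ‖hat g y‖ₑ ^ 2) ^ (s / 2)
        ≤ ∑' k : ℤ × ℤ, A * ∫⁻ z : ℝ × ℝ, hh (k.1 - z.1) * hh (k.2 - z.2) * ‖hat g z‖ₑ ^ s :=
          ENNReal.tsum_le_tsum hterm
      _ = A * ∫⁻ z : ℝ × ℝ, ∑' k : ℤ × ℤ,
            hh (k.1 - z.1) * hh (k.2 - z.2) * ‖hat g z‖ₑ ^ s := by
          rw [ENNReal.tsum_mul_left, lintegral_tsum]
          intro k
          exact (((hh_measurable.comp (by fun_prop)).mul (hh_measurable.comp (by fun_prop))).mul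
            (hGm.enorm.pow_const _)).aemeasurable
      _ ≤ A * ∫⁻ z : ℝ × ℝ, (H * H) * ‖hat g z‖ₑ ^ s := by
          gcongr with z
          rw [ENNReal.tsum_mul_right]
          gcongr
          rw [ENNReal.tsum_prod']
          calc ∑' (a : ℤ) (b : ℤ), hh ((a : ℝ) - z.1) * hh ((b : ℝ) - z.2)
              = (∑' a : ℤ, hh ((a : ℝ) - z.1)) * ∑' b : ℤ, hh ((b : ℝ) - z.2) := by
                rw [← ENNReal.tsum_mul_right]
                congr 1
                funext a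
                rw [ENNReal.tsum_mul_left]
            _ ≤ H * H := mul_le_mul' (hh_sum _) (hh_sum _)
      _ = _ := by
          rw [lintegral_const_mul' _ _ (ENNReal.mul_ne_top hHt hHt)]
          ring
  unfold amal
  calc (∑' k : ℤ × ℤ, (∫⁻ y in cell k, ‖hat g y‖ₑ ^ 2) ^ (s / 2)) ^ (1 / s)
      ≤ (A * (H * H) * ∫⁻ z, ‖hat g z‖ₑ ^ s) ^ (1 / s) :=
        ENNReal.rpow_le_rpow hsum (by positivity)
    _ = _ := by
        rw [ENNReal.mul_rpow_of_nonneg _ _ (by positivity)]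

end Wex
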