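import Pool.Agent.Wex.Targets2
import Pool.Agent.Wex.ASM
import Pool.Agent.Wey.IN2

/-!
# MP_5ab805_an, spectra on curves: weighted assembly on the square, second part (helper68)
-/

set_option autoImplicit false

namespace Wex

open MeasureTheory Set Filter
open scoped ENNReal NNReal Topology
open Pool.Agent.Restr (u E QQ enorm_u norm_u continuous_u measurable_u measurable_E L2_slice vol_QQ
  lin_q lin_2 eLpNorm_le_of_lin)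
open TriL (Sq n2)
open Wey (nq lam hat gup gdn blk Tk Sl Wi)

namespace ASM2_

open Wey.ASM_ (meas_Sl slab_L2 cs wi_cont wi_le meas_QQ E_zero_of_ae)
open ASM_ (Gs_meas sq_chi n2_chi meas_XX)

/-- the constant -/
noncomputable def cN (D C K R : ℝ≥0) : ℝ≥0 := (NNReal.sqrt C + 160 * NNReal.sqrt D) * K * R

theorem cN_ge (D C K R : ℝ≥0) : 160 * NNReal.sqrt D * K * R ≤ cN D C K R := by
  unfold cN
  gcongr
  exact le_add_self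

theorem slab1 (D : ℝ≥0) {ε : ℝ} {C : ℝ≥0} {m : ℕ} {φ ψ : ℤ → ℝ} {s : Finset ℤ}
    {a : ℤ → ℂ} {χ f : ℝ × ℝ → ℂ} {K R : ℝ≥0} {k : ℕ}
    (hC : ∫⁻ ξ in Sl k, XX φ ψ s a χ f ξ ^ 2 ≤
      C * (K : ℝ≥0∞) ^ 2 * m * ENNReal.ofReal (2 ^ ((-1 + ε) * k)) * (R : ℝ≥0∞) ^ 2) :
    ∫⁻ ξ in Sl k, XX φ ψ s a χ f ξ ^ 2 ≤
      (cN D C K R : ℝ≥0∞) ^ 2 * m * ENNReal.ofReal (2 ^ ((-1 + ε) * k)) := by
  refine hC.trans ?_
  have h1 : (C : ℝ≥0∞) * (K : ℝ≥0∞) ^ 2 * (R : ℝ≥0∞) ^ 2 ≤ (cN D C K R : ℝ≥0∞) ^ 2 := by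
    have h2 : C * K ^ 2 * R ^ 2 ≤ cN D C K R ^ 2 := by
      have h3 : C * K ^ 2 * R ^ 2 = (NNReal.sqrt C * K * R) ^ 2 := by
        rw [mul_pow, mul_pow, NNReal.sq_sqrt]
      rw [h3]
      unfold cN
      gcongr
      exact le_self_add
    exact_mod_cast h2
  calc (C : ℝ≥0∞) * (K : ℝ≥0∞) ^ 2 * m * ENNReal.ofReal (2 ^ ((-1 + ε) * k)) * (R : ℝ≥0∞) ^ 2
      = (C : ℝ≥0∞) * (K : ℝ≥0∞) ^ 2 * (R : ℝ≥0∞) ^ 2 * m *
        ENNReal.ofReal (2 ^ ((-1 + ε) * k)) := by ring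
    _ ≤ _ := by gcongr

theorem slab2 (D C : ℝ≥0) {φ ψ : ℤ → ℝ} {s : Finset ℤ}
    {a : ℤ → ℂ} {χ f : ℝ × ℝ → ℂ} {K R : ℝ≥0}
    (hW : Wi K χ) (h0 : ∀ x, x ∉ QQ → χ x = 0) (hf : Sq f)
    (hG : n2 f * n2 (fun x => χ x * Gs φ ψ s a x) ≤ D * (K : ℝ≥0∞) ^ 2 * (R : ℝ≥0∞) ^ 2) (k : ℕ) :
    ∫⁻ ξ in Sl k, XX φ ψ s a χ f ξ ≤ (cN D C K R : ℝ≥0∞) * 2 ^ k := by
  have hD : (D : ℝ≥0∞) = (NNReal.sqrt D : ℝ≥0∞) ^ 2 := by
    rw [← ENNReal.coe_pow, NNReal.sq_sqrt]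
  have h1 : (∫⁻ ξ in Sl k, XX φ ψ s a χ f ξ) ^ 2 ≤ (160 * NNReal.sqrt D * K * R * 2 ^ k) ^ 2 := by
    unfold XX
    refine (cs (measurable_E hf.1).enorm.aemeasurable
      (measurable_E (sq_chi hW h0 φ ψ s a).1).enorm.aemeasurable).trans ?_
    calc (∫⁻ ξ in Sl k, ‖E f ξ‖ₑ ^ 2) *
          ∫⁻ ξ in Sl k, ‖E (fun x => χ x * Gs φ ψ s a x) ξ‖ₑ ^ 2
        ≤ (160 * 2 ^ k * n2 f) * (160 * 2 ^ k * n2 (fun x => χ x * Gs φ ψ s a x)) :=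
          mul_le_mul' (slab_L2 hf.1 k) (slab_L2 (sq_chi hW h0 φ ψ s a).1 k)
      _ = (160 * 2 ^ k) ^ 2 * (n2 f * n2 (fun x => χ x * Gs φ ψ s a x)) := by ring
      _ ≤ (160 * 2 ^ k) ^ 2 * (D * (K : ℝ≥0∞) ^ 2 * (R : ℝ≥0∞) ^ 2) := by gcongr
      _ = _ := by rw [hD]; ring
  have h2 : ∫⁻ ξ in Sl k, XX φ ψ s a χ f ξ ≤ 160 * NNReal.sqrt D * K * R * 2 ^ k :=
    (ENNReal.pow_le_pow_left_iff two_ne_zero).1 h1
  refine h2.trans ?_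
  have h5 : (160 * NNReal.sqrt D * K * R : ℝ≥0∞) ≤ (cN D C K R : ℝ≥0∞) := by
    exact_mod_cast cN_ge D C K R
  gcongr

/-- the bound from the Tomas-Stein inequality -/
theorem slab0 (D C : ℝ≥0) {φ ψ : ℤ → ℝ} {s : Finset ℤ}
    {a : ℤ → ℂ} {χ f : ℝ × ℝ → ℂ} {K R : ℝ≥0}
    (hW : Wi K χ) (h0 : ∀ x, x ∉ QQ → χ x = 0) (hf : Sq f)
    (hG : n2 f * n2 (fun x => χ x * Gs φ ψ s a x) ≤ D * (K : ℝ≥0∞) ^ 2 * (R : ℝ≥0∞) ^ 2) (k : ℕ) :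
    ∫⁻ ξ in Sl k, XX φ ψ s a χ f ξ ^ 2 ≤ (cN D C K R : ℝ≥0∞) ^ 2 := by
  have hD : (D : ℝ≥0∞) = (NNReal.sqrt D : ℝ≥0∞) ^ 2 := by
    rw [← ENNReal.coe_pow, NNReal.sq_sqrt]
  set P : ℝ≥0∞ := ENNReal.ofReal (4 * Real.pi ^ 4) with hP
  have hP1 : P ≤ 160 ^ 2 := by
    have e : (160 ^ 2 : ℝ≥0∞) = ENNReal.ofReal (160 ^ 2) := by
      rw [ENNReal.ofReal_pow (by norm_num)]
      norm_num
    rw [hP, e]
    apply ENNReal.ofReal_le_ofReal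
    have h1 := Real.pi_le_four
    have h2 := Real.pi_pos
    have h3 : Real.pi ^ 4 ≤ 4 ^ 4 := pow_le_pow_left₀ h2.le h1 4
    nlinarith
  have h1 : (∫⁻ ξ in Sl k, XX φ ψ s a χ f ξ ^ 2) ^ 2 ≤
      ((160 * NNReal.sqrt D * K * R) ^ 2) ^ 2 := by
    have e : ∀ ξ, XX φ ψ s a χ f ξ ^ 2 =
        ‖E f ξ‖ₑ ^ 2 * ‖E (fun x => χ x * Gs φ ψ s a x) ξ‖ₑ ^ 2 := by
      intro ξ
      unfold XX
      rw [mul_pow]
    simp only [e]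
    refine (cs ((measurable_E hf.1).enorm.pow_const 2).aemeasurable
      ((measurable_E (sq_chi hW h0 φ ψ s a).1).enorm.pow_const 2).aemeasurable).trans ?_
    simp only [← pow_mul]
    calc (∫⁻ ξ in Sl k, ‖E f ξ‖ₑ ^ (2 * 2)) *
          ∫⁻ ξ in Sl k, ‖E (fun x => χ x * Gs φ ψ s a x) ξ‖ₑ ^ (2 * 2)
        ≤ (P * n2 f ^ 2) * (P * n2 (fun x => χ x * Gs φ ψ s a x) ^ 2) :=
          mul_le_mul' (Wey.IN2_L4 hf.1 k) (Wey.IN2_L4 (sq_chi hW h0 φ ψ s a).1 k)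
      _ = P ^ 2 * (n2 f * n2 (fun x => χ x * Gs φ ψ s a x)) ^ 2 := by ring
      _ ≤ (160 ^ 2) ^ 2 * (D * (K : ℝ≥0∞) ^ 2 * (R : ℝ≥0∞) ^ 2) ^ 2 := by gcongr
      _ = _ := by rw [hD]; ring
  have h2 : ∫⁻ ξ in Sl k, XX φ ψ s a χ f ξ ^ 2 ≤ (160 * NNReal.sqrt D * K * R) ^ 2 :=
    (ENNReal.pow_le_pow_left_iff two_ne_zero).1 h1
  refine h2.trans ?_
  have h5 : (160 * NNReal.sqrt D * K * R : ℝ≥0∞) ≤ (cN D C K R : ℝ≥0∞) := by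
    exact_mod_cast cN_ge D C K R
  gcongr

theorem pw_rpow (m : ℕ) (κ r : ℝ) (hr : 0 < r) : pw m κ ^ (1 / r) = pw m (κ / r) := by
  unfold pw
  have h0 : (0 : ℝ) ≤ (m : ℝ) := Nat.cast_nonneg m
  rw [ENNReal.ofReal_rpow_of_nonneg (Real.rpow_nonneg h0 _) (by positivity), ← Real.rpow_mul h0]
  congr 2
  ring

theorem fin1 {r κ : ℝ} (hr : 0 < r) {m : ℕ} {C1 N : ℝ≥0} {φ ψ : ℤ → ℝ} {s : Finset ℤ}
    {a : ℤ → ℂ} {χ f : ℝ × ℝ → ℂ}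
    (hb : ∫⁻ ξ, XX φ ψ s a χ f ξ ^ r ≤ C1 * pw m κ * (N : ℝ≥0∞) ^ r) :
    eLpNorm (fun ξ => E f ξ * E (fun x => χ x * Gs φ ψ s a x) ξ) (ENNReal.ofReal r) volume ≤
      ((C1 ^ (1 / r) : ℝ≥0) : ℝ≥0∞) * pw m (κ / r) * N := by
  refine eLpNorm_le_of_lin hr ?_
  have e : ∀ ξ, ‖E f ξ * E (fun x => χ x * Gs φ ψ s a x) ξ‖ₑ ^ r = XX φ ψ s a χ f ξ ^ r := by
    intro ξ
    unfold XX
    rw [enorm_mul]
  simp only [e]
  refine hb.trans (le_of_eq ?_)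
  rw [← pw_rpow m κ r hr, ENNReal.mul_rpow_of_nonneg _ _ hr.le,
    ENNReal.mul_rpow_of_nonneg _ _ hr.le, ENNReal.coe_rpow_of_nonneg _ (by positivity),
    ← ENNReal.rpow_mul, ← ENNReal.rpow_mul, one_div_mul_cancel hr.ne', ENNReal.rpow_one,
    ENNReal.rpow_one]

theorem fin2 {r ν : ℝ} (hr : 0 < r) {m : ℕ} {C1 N : ℝ≥0} {φ ψ : ℤ → ℝ} {s : Finset ℤ}
    {a : ℤ → ℂ} {χ f g : ℝ × ℝ → ℂ}
    (hb : ∫⁻ ξ, (XX φ ψ s a χ f ξ * ‖E g ξ‖ₑ) ^ r ≤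
      C1 * pw m ν * (N : ℝ≥0∞) ^ r * n2 g ^ (r / 2)) :
    eLpNorm (fun ξ => E f ξ * E g ξ * E (fun x => χ x * Gs φ ψ s a x) ξ)
      (ENNReal.ofReal r) volume ≤
      ((C1 ^ (1 / r) : ℝ≥0) : ℝ≥0∞) * pw m (ν / r) * N * eLpNorm g 2 volume := by
  refine eLpNorm_le_of_lin hr ?_
  have e : ∀ ξ, ‖E f ξ * E g ξ * E (fun x => χ x * Gs φ ψ s a x) ξ‖ₑ ^ r =
      (XX φ ψ s a χ f ξ * ‖E g ξ‖ₑ) ^ r := by
    intro ξ
    unfold XX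
    rw [enorm_mul, enorm_mul]
    congr 1
    ring
  simp only [e]
  refine hb.trans (le_of_eq ?_)
  have e2 : n2 g = eLpNorm g 2 volume ^ 2 := lin_2
  rw [← pw_rpow m ν r hr, ENNReal.mul_rpow_of_nonneg _ _ hr.le,
    ENNReal.mul_rpow_of_nonneg _ _ hr.le, ENNReal.mul_rpow_of_nonneg _ _ hr.le,
    ENNReal.coe_rpow_of_nonneg _ (by positivity),
    ← ENNReal.rpow_mul, ← ENNReal.rpow_mul, one_div_mul_cancel hr.ne', ENNReal.rpow_one,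
    ENNReal.rpow_one, e2, ← ENNReal.rpow_natCast (eLpNorm g 2 volume) 2, ← ENNReal.rpow_mul]
  congr 2
  push_cast
  ring

end ASM2_

open ASM2_ in
open ASM_ (Gs_meas sq_chi n2_chi meas_XX) in
open Wey.ASM_ (wi_le E_zero_of_ae) in
theorem p_ASM2 (h1 : T_CUT) (h2 : T_SQW) (h3 : T_SQB) (h4 : T_INB) (h5 : T_INT) : T_ASM2 := by
  intro ρ κ μ ν hpar
  obtain ⟨⟨hr1, hr2, hk1, hk2⟩, hm1, hm2, hn1, hn2⟩ := hpar
  have hρ0 : 0 < ρ := by linarith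
  have hμ0 : 0 < μ := by linarith
  obtain ⟨ε1, hε1, C1, hC1⟩ := h4 ρ κ hr1 hr2 hk1 hk2
  obtain ⟨ε2, hε2, C2, hC2⟩ := h5 μ ν hm1 hm2 hn1 hn2
  obtain ⟨D1, hD1⟩ := h1 ε1 hε1
  obtain ⟨D2, hD2⟩ := h1 ε2 hε2
  obtain ⟨D, hD⟩ := h3
  set C : ℝ≥0 := C1 ^ (1 / ρ) * (NNReal.sqrt D1 + 160 * NNReal.sqrt D) +
    C2 ^ (1 / μ) * (NNReal.sqrt D2 + 160 * NNReal.sqrt D) + 1 with hC
  refine ⟨C, ?_⟩
  intro m φ ψ α β a χ K hm hsep hA hW h0 f B hf hNB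
  set s : Finset ℤ := Finset.Ico α β with hs
  have hCa : C1 ^ (1 / ρ) * (NNReal.sqrt D1 + 160 * NNReal.sqrt D) ≤ C := by
    rw [hC, add_assoc]
    exact le_self_add
  have hCb : C2 ^ (1 / μ) * (NNReal.sqrt D2 + 160 * NNReal.sqrt D) ≤ C := by
    rw [hC, add_assoc, add_left_comm]
    exact le_self_add
  have hC0 : (C : ℝ≥0∞) ≠ 0 := by
    have : C ≠ 0 := by
      rw [hC]
      positivity
    exact_mod_cast this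
  have hpw : ∀ e : ℝ, pw m e ≠ 0 := by
    intro e
    unfold pw
    rw [Ne, ENNReal.ofReal_eq_zero, not_le]
    have : (0 : ℝ) < (m : ℝ) := by exact_mod_cast (by omega : 0 < m)
    positivity
  -- the second factor vanishes
  have zero : (∀ ξ, E (fun x => χ x * Gs φ ψ s a x) ξ = 0) →
      eLpNorm (fun ξ => E f ξ * E (fun x => χ x * Gs φ ψ s a x) ξ)
        (ENNReal.ofReal ρ) volume ≤ C * K * pw m (κ / ρ) * B ∧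
      ∀ g : ℝ × ℝ → ℂ, Sq g →
        eLpNorm (fun ξ => E f ξ * E g ξ * E (fun x => χ x * Gs φ ψ s a x) ξ)
        (ENNReal.ofReal μ) volume ≤ C * K * pw m (ν / μ) * B * eLpNorm g 2 volume := by
    intro hE
    refine ⟨?_, fun g _ => ?_⟩
    · simp [hE]
    · simp [hE]
  by_cases hK : K = 0
  · refine zero fun ξ => E_zero_of_ae (Eventually.of_forall fun x => ?_) ξ
    have hx := wi_le hW x
    rw [hK, ENNReal.coe_zero, nonpos_iff_eq_zero, enorm_eq_zero] at hx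
    simp [hx]
  have hK' : (K : ℝ≥0∞) ≠ 0 := by exact_mod_cast hK
  by_cases hB : B = ⊤
  · have htop : ∀ e : ℝ, (C : ℝ≥0∞) * K * pw m e * B = ⊤ := by
      intro e
      rw [hB]
      exact ENNReal.mul_top (mul_ne_zero (mul_ne_zero hC0 hK') (hpw e))
    refine ⟨?_, fun g hg => ?_⟩
    · rw [htop]
      exact le_top
    · by_cases hg0 : eLpNorm g 2 volume = 0
      · have hg1 : g =ᵐ[volume] 0 := by
          rwa [eLpNorm_eq_zero_iff hg.1.aestronglyMeasurable (by norm_num)] at hg0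
        have hE : ∀ ξ, E g ξ = 0 := fun ξ => E_zero_of_ae hg1 ξ
        simp [hE]
      · rw [htop, ENNReal.top_mul hg0]
        exact le_top
  obtain ⟨hS, hP⟩ := h2 φ ψ s a f (B ^ 2) hf hNB
  have h7 := hD φ ψ s a hsep
  have hG : n2 (fun x => χ x * Gs φ ψ s a x) ≤
      (K : ℝ≥0∞) ^ 2 * (D * ∑ n ∈ s, ‖a n‖ₑ ^ 2) := by
    refine (n2_chi hW h0 φ ψ s a).trans ?_
    gcongr
  by_cases hn : n2 f = ⊤
  · have ha : ∑ n ∈ s, ‖a n‖ₑ ^ 2 = 0 := by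
      by_contra hne
      rw [hn, ENNReal.top_mul hne] at hP
      exact ENNReal.pow_ne_top hB (top_le_iff.1 hP)
    rw [ha, mul_zero, mul_zero, nonpos_iff_eq_zero] at hG
    have hm2 := (sq_chi hW h0 φ ψ s a).1
    have hG1 : (fun x => χ x * Gs φ ψ s a x) =ᵐ[volume] 0 := by
      unfold n2 at hG
      rw [lintegral_eq_zero_iff (hm2.enorm.pow_const 2)] at hG
      filter_upwards [hG] with x hx
      simpa using hx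
    exact zero fun ξ => E_zero_of_ae hG1 ξ
  -- the main case
  have hi : Integrable f := TriL.SUM_.integrable_of_Sq hf hn
  obtain ⟨R, rfl⟩ : ∃ R : ℝ≥0, (R : ℝ≥0∞) = B := ⟨B.toNNReal, ENNReal.coe_toNNReal hB⟩
  have hGG : n2 f * n2 (fun x => χ x * Gs φ ψ s a x) ≤ D * (K : ℝ≥0∞) ^ 2 * (R : ℝ≥0∞) ^ 2 := by
    calc n2 f * n2 (fun x => χ x * Gs φ ψ s a x)
        ≤ n2 f * ((K : ℝ≥0∞) ^ 2 * (D * ∑ n ∈ s, ‖a n‖ₑ ^ 2)) := by gcongr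
      _ = D * (K : ℝ≥0∞) ^ 2 * (n2 f * ∑ n ∈ s, ‖a n‖ₑ ^ 2) := by ring
      _ ≤ D * (K : ℝ≥0∞) ^ 2 * (R : ℝ≥0∞) ^ 2 := by gcongr
  constructor
  · have hb := hC1 m (XX φ ψ s a χ f) (cN D D1 K R) hm (meas_XX hW h0 hf)
      (slab0 D D1 hW h0 hf hGG)
      (fun k => slab1 D (hD1 m φ ψ α β a χ f K _ k hm hsep hA hW h0 hf hi hS))
      (slab2 D D1 hW h0 hf hGG)
    refine (fin1 hρ0 hb).trans ?_
    have e : C1 ^ (1 / ρ) * cN D D1 K R ≤ C * K * R := by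
      calc C1 ^ (1 / ρ) * cN D D1 K R
          = C1 ^ (1 / ρ) * (NNReal.sqrt D1 + 160 * NNReal.sqrt D) * K * R := by
            unfold cN
            ring
        _ ≤ _ := by gcongr
    have e' : ((C1 ^ (1 / ρ) : ℝ≥0) : ℝ≥0∞) * (cN D D1 K R : ℝ≥0∞) ≤ C * K * R := by
      exact_mod_cast e
    calc ((C1 ^ (1 / ρ) : ℝ≥0) : ℝ≥0∞) * pw m (κ / ρ) * (cN D D1 K R : ℝ≥0∞)
        = ((C1 ^ (1 / ρ) : ℝ≥0) : ℝ≥0∞) * (cN D D1 K R : ℝ≥0∞) * pw m (κ / ρ) := by ring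
      _ ≤ C * K * R * pw m (κ / ρ) := by gcongr
      _ = _ := by ring
  · intro g hg
    have hb := hC2 m (XX φ ψ s a χ f) (cN D D2 K R) g hm (meas_XX hW h0 hf) hg.1
      (slab0 D D2 hW h0 hf hGG)
      (fun k => slab1 D (hD2 m φ ψ α β a χ f K _ k hm hsep hA hW h0 hf hi hS))
    refine (fin2 hμ0 hb).trans ?_
    have e : C2 ^ (1 / μ) * cN D D2 K R ≤ C * K * R := by
      calc C2 ^ (1 / μ) * cN D D2 K R
          = C2 ^ (1 / μ) * (NNReal.sqrt D2 + 160 * NNReal.sqrt D) * K * R := by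
            unfold cN
            ring
        _ ≤ _ := by gcongr
    have e' : ((C2 ^ (1 / μ) : ℝ≥0) : ℝ≥0∞) * (cN D D2 K R : ℝ≥0∞) ≤ C * K * R := by
      exact_mod_cast e
    calc ((C2 ^ (1 / μ) : ℝ≥0) : ℝ≥0∞) * pw m (ν / μ) * (cN D D2 K R : ℝ≥0∞) *
          eLpNorm g 2 volume
        = ((C2 ^ (1 / μ) : ℝ≥0) : ℝ≥0∞) * (cN D D2 K R : ℝ≥0∞) * (pw m (ν / μ) *
          eLpNorm g 2 volume) := by ring
      _ ≤ C * K * R * (pw m (ν / μ) * eLpNorm g 2 volume) := by gcongr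
      _ = _ := by ring

end Wex
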