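import Pool.Agent.Wex.Targets2
import Pool.Agent.Wey.WIE

/-!
# MP_5ab805_an, spectra on curves and arbitrary spectra: CHI (cut-off and inversion formula)
-/

set_option autoImplicit false

namespace Wex

open MeasureTheory Set Filter
open scoped ENNReal NNReal Topology
open Pool.Agent.Restr (u E QQ)
open TriL (Sq n2)
open Wey (nq lam hat gup gdn blk Tk Sl Wi InD)

namespace CHI_

open scoped FourierTransform ContDiff
open Wey.WIE_ (u_add norm_u continuous_u)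

/-- the Fourier transform in one variable -/
noncomputable def kf (θ : ℝ → ℂ) (w : ℝ) : ℂ :=
  ((2 * Real.pi)⁻¹ : ℝ) * 𝓕 θ ((2 * Real.pi)⁻¹ * w)

lemma kf_integrable {θ : ℝ → ℂ} (h1 : ContDiff ℝ ∞ θ) (h2 : HasCompactSupport θ) :
    Integrable (kf θ) := by
  have h := (𝓕 (h2.toSchwartzMap h1)).integrable (μ := volume)
  rw [SchwartzMap.fourier_coe] at h
  have h3 : Integrable (𝓕 θ) := h
  unfold kf
  have hpi : (2 * Real.pi)⁻¹ ≠ 0 := by positivity
  exact (h3.comp_mul_left' hpi).const_mul _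

lemma kf_eq {θ : ℝ → ℂ} (h1 : ContDiff ℝ ∞ θ) (h2 : HasCompactSupport θ) (s : ℝ) :
    θ s = ∫ w : ℝ, u (-(w * s)) * kf θ w := by
  have h := (𝓕 (h2.toSchwartzMap h1)).integrable (μ := volume)
  rw [SchwartzMap.fourier_coe] at h
  have hF : Integrable (𝓕 θ) := h
  have h0 : 𝓕⁻ (𝓕 θ) s = θ s := by
    rw [h1.continuous.fourierInv_fourier_eq
      (h1.continuous.integrable_of_hasCompactSupport h2) hF]
  rw [← h0, Real.fourierInv_eq']
  have hpi : (0 : ℝ) < (2 * Real.pi)⁻¹ := by positivity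
  have h2 := Measure.integral_comp_mul_left
    (fun v : ℝ => Complex.exp (↑(2 * Real.pi * inner ℝ v s) * Complex.I) • 𝓕 θ v)
    (2 * Real.pi)⁻¹
  rw [inv_inv, abs_of_pos (by positivity)] at h2
  have h3 : ∫ w : ℝ, u (-(w * s)) * kf θ w = ((2 * Real.pi)⁻¹ : ℝ) •
      ∫ x : ℝ, (fun v : ℝ => Complex.exp (↑(2 * Real.pi * inner ℝ v s) * Complex.I) • 𝓕 θ v)
        ((2 * Real.pi)⁻¹ * x) := by
    rw [← integral_smul]
    congr 1
    funext w
    unfold kf u
    have h4 : Complex.exp (-(Complex.I * ((-(w * s) : ℝ) : ℂ))) =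
        Complex.exp (((2 * Real.pi * inner ℝ ((2 * Real.pi)⁻¹ * w) s : ℝ) : ℂ) * Complex.I) := by
      congr 1
      have h5 : 2 * Real.pi * inner ℝ ((2 * Real.pi)⁻¹ * w) s = w * s := by
        simp only [RCLike.inner_apply, conj_trivial]
        field_simp
      rw [h5]
      push_cast
      ring
    rw [h4]
    simp only [Complex.real_smul, smul_eq_mul]
    ring
  rw [h3, h2, smul_smul, inv_mul_cancel₀ (by positivity), one_smul]

/-- the transform of `θ` -/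
noncomputable def Fy (θ : ℝ → ℂ) (y : ℝ) : ℂ := ∫ s : ℝ, u (-(y * s)) * θ s

lemma Fy_eq (θ : ℝ → ℂ) (y : ℝ) : Fy θ y = ((2 * Real.pi : ℝ) : ℂ) * kf θ (-y) := by
  unfold kf Fy
  rw [Real.fourier_eq', ← mul_assoc, ← Complex.ofReal_mul,
    mul_inv_cancel₀ (by positivity : (2 * Real.pi : ℝ) ≠ 0), Complex.ofReal_one, one_mul]
  congr 1
  funext s
  rw [smul_eq_mul]
  congr 1
  unfold u
  congr 1
  have h5 : -2 * Real.pi * inner ℝ s ((2 * Real.pi)⁻¹ * -y) = y * s := by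
    simp only [RCLike.inner_apply, conj_trivial]
    field_simp
  rw [h5]
  push_cast
  ring

lemma Fy_integrable {θ : ℝ → ℂ} (h1 : ContDiff ℝ ∞ θ) (h2 : HasCompactSupport θ) :
    Integrable (Fy θ) := by
  have h : Fy θ = fun y => ((2 * Real.pi : ℝ) : ℂ) * kf θ (-y) := funext fun y => Fy_eq θ y
  rw [h]
  exact ((kf_integrable h1 h2).comp_neg).const_mul _

lemma Fy_inv {θ : ℝ → ℂ} (h1 : ContDiff ℝ ∞ θ) (h2 : HasCompactSupport θ) (s : ℝ) :
    ∫ y : ℝ, u (y * s) * Fy θ y = ((2 * Real.pi : ℝ) : ℂ) * θ s := by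
  have h3 : ∫ y : ℝ, u (y * s) * Fy θ y =
      ∫ y : ℝ, (fun y : ℝ => ((2 * Real.pi : ℝ) : ℂ) * (u (-(y * s)) * kf θ y)) (-y) := by
    congr 1
    funext y
    rw [Fy_eq]
    simp only [neg_mul, neg_neg]
    ring
  have h6 := integral_neg_eq_self
    (fun y : ℝ => ((2 * Real.pi : ℝ) : ℂ) * (u (-(y * s)) * kf θ y)) volume
  rw [h3, h6, integral_const_mul, ← kf_eq h1 h2]

lemma dbl (θ η : ℝ → ℂ) (y : ℝ × ℝ) :
    ∫ x : ℝ × ℝ, u (-(y.1 * x.1 + y.2 * x.2)) * (θ x.1 * η x.2) = Fy θ y.1 * Fy η y.2 := by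
  unfold Fy
  rw [← integral_prod_mul]
  congr 1
  funext x
  have h : -(y.1 * x.1 + y.2 * x.2) = -(y.1 * x.1) + -(y.2 * x.2) := by ring
  rw [h, u_add]
  ring

lemma dbl_inv {θ η : ℝ → ℂ} (h1 : ContDiff ℝ ∞ θ) (h2 : HasCompactSupport θ)
    (h3 : ContDiff ℝ ∞ η) (h4 : HasCompactSupport η) (x : ℝ × ℝ) :
    ∫ y : ℝ × ℝ, u (y.1 * x.1 + y.2 * x.2) * (Fy θ y.1 * Fy η y.2) =
      4 * (Real.pi : ℂ) ^ 2 * (θ x.1 * η x.2) := by
  have h5 : ∫ y : ℝ × ℝ, u (y.1 * x.1 + y.2 * x.2) * (Fy θ y.1 * Fy η y.2) =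
      (∫ y : ℝ, u (y * x.1) * Fy θ y) * ∫ y : ℝ, u (y * x.2) * Fy η y := by
    rw [← integral_prod_mul]
    congr 1
    funext y
    rw [u_add]
    ring
  rw [h5, Fy_inv h1 h2, Fy_inv h3 h4]
  push_cast
  ring

lemma prod_integrable {θ η : ℝ → ℂ} (h1 : ContDiff ℝ ∞ θ) (h2 : HasCompactSupport θ)
    (h3 : ContDiff ℝ ∞ η) (h4 : HasCompactSupport η) :
    Integrable (fun x : ℝ × ℝ => θ x.1 * η x.2) :=
  (h1.continuous.integrable_of_hasCompactSupport h2).mul_prod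
    (h3.continuous.integrable_of_hasCompactSupport h4)

lemma step1 {θ η : ℝ → ℂ} (h1 : ContDiff ℝ ∞ θ) (h2 : HasCompactSupport θ)
    (h3 : ContDiff ℝ ∞ η) (h4 : HasCompactSupport η) (γ : ℝ × ℝ → ℂ) (hγ : Integrable γ) :
    ∫ x : ℝ × ℝ, (θ x.1 * η x.2) * chk γ x = ∫ y : ℝ × ℝ, γ y * (Fy θ y.1 * Fy η y.2) := by
  have hP := prod_integrable h1 h2 h3 h4
  have hint : Integrable (fun p : (ℝ × ℝ) × (ℝ × ℝ) =>
      u (-(p.2.1 * p.1.1 + p.2.2 * p.1.2)) * ((θ p.1.1 * η p.1.2) * γ p.2))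
      ((volume : Measure (ℝ × ℝ)).prod volume) := by
    apply (hP.mul_prod hγ).bdd_mul (c := 1)
    · exact (continuous_u.comp (by fun_prop)).aestronglyMeasurable
    · exact Eventually.of_forall fun p => (norm_u _).le
  calc ∫ x : ℝ × ℝ, (θ x.1 * η x.2) * chk γ x
      = ∫ x : ℝ × ℝ, ∫ y : ℝ × ℝ,
          u (-(y.1 * x.1 + y.2 * x.2)) * ((θ x.1 * η x.2) * γ y) := by
        congr 1
        funext x
        unfold chk
        rw [← integral_const_mul]
        congr 1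
        funext y
        ring
    _ = ∫ y : ℝ × ℝ, ∫ x : ℝ × ℝ,
          u (-(y.1 * x.1 + y.2 * x.2)) * ((θ x.1 * η x.2) * γ y) :=
        integral_integral_swap hint
    _ = ∫ y : ℝ × ℝ, γ y * (Fy θ y.1 * Fy η y.2) := by
        congr 1
        funext y
        rw [← dbl, ← integral_const_mul]
        congr 1
        funext x
        ring

lemma step2 {θ η : ℝ → ℂ} (h1 : ContDiff ℝ ∞ θ) (h2 : HasCompactSupport θ)
    (h3 : ContDiff ℝ ∞ η) (h4 : HasCompactSupport η) (g : ℝ × ℝ → ℂ) (hg : Integrable g) :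
    ∫ y : ℝ × ℝ, hat g y * (Fy θ y.1 * Fy η y.2) =
      4 * (Real.pi : ℂ) ^ 2 * ∫ x : ℝ × ℝ, (θ x.1 * η x.2) * g x := by
  have hΦ : Integrable (fun y : ℝ × ℝ => Fy θ y.1 * Fy η y.2) :=
    (Fy_integrable h1 h2).mul_prod (Fy_integrable h3 h4)
  have hint : Integrable (fun p : (ℝ × ℝ) × (ℝ × ℝ) =>
      u (p.1.1 * p.2.1 + p.1.2 * p.2.2) * ((Fy θ p.1.1 * Fy η p.1.2) * g p.2))
      ((volume : Measure (ℝ × ℝ)).prod volume) := by
    apply (hΦ.mul_prod hg).bdd_mul (c := 1)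
    · exact (continuous_u.comp (by fun_prop)).aestronglyMeasurable
    · exact Eventually.of_forall fun p => (norm_u _).le
  calc ∫ y : ℝ × ℝ, hat g y * (Fy θ y.1 * Fy η y.2)
      = ∫ y : ℝ × ℝ, ∫ x : ℝ × ℝ,
          u (y.1 * x.1 + y.2 * x.2) * ((Fy θ y.1 * Fy η y.2) * g x) := by
        congr 1
        funext y
        unfold hat
        rw [← integral_mul_const]
        congr 1
        funext x
        ring
    _ = ∫ x : ℝ × ℝ, ∫ y : ℝ × ℝ,
          u (y.1 * x.1 + y.2 * x.2) * ((Fy θ y.1 * Fy η y.2) * g x) :=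
        integral_integral_swap hint
    _ = ∫ x : ℝ × ℝ, 4 * (Real.pi : ℂ) ^ 2 * ((θ x.1 * η x.2) * g x) := by
        congr 1
        funext x
        rw [← mul_assoc (4 * (Real.pi : ℂ) ^ 2), ← dbl_inv h1 h2 h3 h4, ← integral_mul_const]
        congr 1
        funext y
        ring
    _ = _ := integral_const_mul _ _

lemma hat_continuous (g : ℝ × ℝ → ℂ) (hg : Integrable g) : Continuous (hat g) := by
  unfold hat
  refine continuous_of_dominated (F := fun (y x : ℝ × ℝ) => u (y.1 * x.1 + y.2 * x.2) * g x)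
    (bound := fun x => ‖g x‖) ?_ ?_ hg.norm ?_
  · intro y
    exact ((continuous_u.comp (by fun_prop)).aestronglyMeasurable).mul hg.aestronglyMeasurable
  · intro y
    refine Eventually.of_forall fun x => ?_
    rw [norm_mul, norm_u, one_mul]
  · refine Eventually.of_forall fun x => ?_
    exact (continuous_u.comp (by fun_prop)).mul continuous_const

lemma norm_hat_le (g : ℝ × ℝ → ℂ) (y : ℝ × ℝ) : ‖hat g y‖ ≤ ∫ x, ‖g x‖ := by
  unfold hat
  refine (norm_integral_le_integral_norm _).trans (le_of_eq ?_)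
  congr 1
  funext x
  rw [norm_mul, norm_u, one_mul]

/-- the truncation -/
noncomputable def tr (g : ℝ × ℝ → ℂ) (R : ℕ) (y : ℝ × ℝ) : ℂ :=
  if -(R : ℝ) ≤ y.1 ∧ y.1 < R ∧ -(R : ℝ) ≤ y.2 ∧ y.2 < R then hat g y else 0

lemma tr_integrable (g : ℝ × ℝ → ℂ) (hg : Integrable g) (R : ℕ) : Integrable (tr g R) := by
  have h1 : tr g R = (Ico (-(R : ℝ)) R ×ˢ Ico (-(R : ℝ)) R).indicator (hat g) := by
    funext y
    unfold tr
    by_cases h : -(R : ℝ) ≤ y.1 ∧ y.1 < R ∧ -(R : ℝ) ≤ y.2 ∧ y.2 < R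
    · rw [if_pos h, indicator_of_mem]
      exact ⟨⟨h.1, h.2.1⟩, ⟨h.2.2.1, h.2.2.2⟩⟩
    · rw [if_neg h, indicator_of_notMem]
      rintro ⟨⟨a, b⟩, ⟨c, d⟩⟩
      exact h ⟨a, b, c, d⟩
  rw [h1, integrable_indicator_iff (measurableSet_Ico.prod measurableSet_Ico)]
  have h2 : IntegrableOn (hat g) (Icc (-(R : ℝ)) R ×ˢ Icc (-(R : ℝ)) R) :=
    (hat_continuous g hg).continuousOn.integrableOn_compact (isCompact_Icc.prod isCompact_Icc)
  exact h2.mono_set (prod_mono Ico_subset_Icc_self Ico_subset_Icc_self)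

lemma tr_tendsto {θ η : ℝ → ℂ} (h1 : ContDiff ℝ ∞ θ) (h2 : HasCompactSupport θ)
    (h3 : ContDiff ℝ ∞ η) (h4 : HasCompactSupport η) (g : ℝ × ℝ → ℂ) (hg : Integrable g) :
    Tendsto (fun R : ℕ => ∫ y : ℝ × ℝ, tr g R y * (Fy θ y.1 * Fy η y.2)) atTop
      (𝓝 (∫ y : ℝ × ℝ, hat g y * (Fy θ y.1 * Fy η y.2))) := by
  have hΦ : Integrable (fun y : ℝ × ℝ => Fy θ y.1 * Fy η y.2) :=
    (Fy_integrable h1 h2).mul_prod (Fy_integrable h3 h4)
  refine tendsto_integral_of_dominated_convergence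
    (fun y => (∫ x, ‖g x‖) * ‖Fy θ y.1 * Fy η y.2‖) ?_ (hΦ.norm.const_mul _) ?_ ?_
  · intro R
    exact (tr_integrable g hg R).aestronglyMeasurable.mul hΦ.aestronglyMeasurable
  · intro R
    refine Eventually.of_forall fun y => ?_
    rw [norm_mul]
    refine mul_le_mul_of_nonneg_right ?_ (norm_nonneg _)
    unfold tr
    split_ifs
    · exact norm_hat_le g y
    · rw [norm_zero]
      exact integral_nonneg fun x => norm_nonneg _
  · refine Eventually.of_forall fun y => ?_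
    refine Tendsto.mul_const _ ?_
    obtain ⟨N, hN⟩ := exists_nat_gt (max |y.1| |y.2|)
    refine tendsto_const_nhds.congr' ?_
    filter_upwards [eventually_ge_atTop N] with R hR
    have hR' : (N : ℝ) ≤ R := by exact_mod_cast hR
    have a1 := abs_lt.mp ((le_max_left |y.1| |y.2|).trans_lt (hN.trans_le hR'))
    have a2 := abs_lt.mp ((le_max_right |y.1| |y.2|).trans_lt (hN.trans_le hR'))
    unfold tr
    rw [if_pos ⟨a1.1.le, a1.2, a2.1.le, a2.2⟩]

/-- the bump function -/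
noncomputable def bb : ContDiffBump (0 : ℝ) := ⟨1 / 4, 1 / 2, by norm_num, by norm_num⟩

/-- the bump function with a chirp -/
noncomputable def th (p t : ℝ) (s : ℝ) : ℂ := (bb s : ℂ) * u (p * s + t * s ^ 2)

lemma th_contDiff (p t : ℝ) : ContDiff ℝ ∞ (th p t) := by
  unfold th
  have h1 : ContDiff ℝ ∞ fun s : ℝ => ((bb s : ℝ) : ℂ) :=
    Complex.ofRealCLM.contDiff.comp bb.contDiff
  have h2 : ContDiff ℝ ∞ fun s : ℝ => u (p * s + t * s ^ 2) := by
    unfold u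
    have h4 : ContDiff ℝ ∞ fun s : ℝ => p * s + t * s ^ 2 :=
      (contDiff_const.mul contDiff_id).add (contDiff_const.mul (contDiff_id.pow 2))
    have h3 : ContDiff ℝ ∞ fun s : ℝ => ((p * s + t * s ^ 2 : ℝ) : ℂ) :=
      Complex.ofRealCLM.contDiff.comp h4
    exact Complex.contDiff_exp.comp (contDiff_const.mul h3).neg
  exact h1.mul h2

lemma th_support (p t : ℝ) : HasCompactSupport (th p t) := by
  unfold th
  have h : HasCompactSupport fun s : ℝ => ((bb s : ℝ) : ℂ) :=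
    bb.hasCompactSupport.comp_left (g := fun r : ℝ => (r : ℂ)) (by simp)
  exact h.mul_right

lemma bb_one (s : ℝ) (hs : |s| ≤ 1 / 4) : bb s = 1 := by
  apply bb.one_of_mem_closedBall
  rw [Metric.mem_closedBall, Real.dist_eq, sub_zero]
  exact hs

lemma bb_zero (s : ℝ) (hs : 1 / 2 ≤ |s|) : bb s = 0 := by
  apply bb.zero_of_le_dist
  rw [Real.dist_eq, sub_zero]
  exact hs

end CHI_

open CHI_ in
/-- CHI: a cut-off, with the inversion formula for its products -/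
theorem p_CHI : T_CHI := by
  have hb1 := th_contDiff 0 0
  have hb2 := th_support 0 0
  have hb : ∀ s, th 0 0 s = (bb s : ℂ) := by
    intro s
    unfold th u
    simp
  have hk : Integrable (fun w : ℝ × ℝ => kf (th 0 0) w.1 * kf (th 0 0) w.2) :=
    (kf_integrable hb1 hb2).mul_prod (kf_integrable hb1 hb2)
  refine ⟨fun x => (bb x.1 : ℂ) * (bb x.2 : ℂ),
    (∫⁻ w : ℝ × ℝ, ‖kf (th 0 0) w.1 * kf (th 0 0) w.2‖ₑ).toNNReal, ?_, ?_, ?_, ?_⟩
  · refine ⟨_, hk, ?_, ?_⟩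
    · rw [ENNReal.coe_toNNReal hk.2.ne]
    · intro x
      have h5 : ∫ w : ℝ × ℝ, u (-(w.1 * x.1 + w.2 * x.2)) *
          (kf (th 0 0) w.1 * kf (th 0 0) w.2) =
          (∫ w : ℝ, u (-(w * x.1)) * kf (th 0 0) w) * ∫ w : ℝ, u (-(w * x.2)) * kf (th 0 0) w := by
        rw [← integral_prod_mul]
        congr 1
        funext w
        have h : -(w.1 * x.1 + w.2 * x.2) = -(w.1 * x.1) + -(w.2 * x.2) := by ring
        rw [h, Wey.WIE_.u_add]
        ring
      rw [h5, ← kf_eq hb1 hb2, ← kf_eq hb1 hb2, hb, hb]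
  · intro x hx
    by_cases h1 : x.1 ∈ Icc (-(1 / 2) : ℝ) (1 / 2)
    · have h2 : x.2 ∉ Icc (-(1 / 2) : ℝ) (1 / 2) := fun h => hx ⟨h1, h⟩
      have h3 : 1 / 2 ≤ |x.2| := by
        by_contra h
        have := abs_lt.mp (not_le.mp h)
        exact h2 ⟨this.1.le, this.2.le⟩
      simp only [bb_zero _ h3, Complex.ofReal_zero, mul_zero]
    · have h3 : 1 / 2 ≤ |x.1| := by
        by_contra h
        have := abs_lt.mp (not_le.mp h)
        exact h1 ⟨this.1.le, this.2.le⟩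
      simp only [bb_zero _ h3, Complex.ofReal_zero, zero_mul]
  · intro x h1 h2
    simp only [bb_one _ h1, bb_one _ h2, Complex.ofReal_one, mul_one]
  · intro g _ hg ξ
    obtain ⟨p, q, t⟩ := ξ
    have hθ1 := th_contDiff p t
    have hθ2 := th_support p t
    have hη1 := th_contDiff q t
    have hη2 := th_support q t
    have hE : ∀ F : ℝ × ℝ → ℂ, E (fun x => (bb x.1 : ℂ) * (bb x.2 : ℂ) * F x) (p, q, t) =
        ∫ x : ℝ × ℝ, (th p t x.1 * th q t x.2) * F x := by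
      intro F
      unfold E
      congr 1
      funext x
      have h : p * x.1 + (q * x.2 + t * (x.1 ^ 2 + x.2 ^ 2)) =
          (p * x.1 + t * x.1 ^ 2) + (q * x.2 + t * x.2 ^ 2) := by ring
      simp only
      rw [h, Wey.WIE_.u_add]
      unfold th
      ring
    have hR : ∀ R : ℕ, E (fun x => (bb x.1 : ℂ) * (bb x.2 : ℂ) * chk (tr g R) x) (p, q, t) =
        ∫ y : ℝ × ℝ, tr g R y * (Fy (th p t) y.1 * Fy (th q t) y.2) := by
      intro R
      rw [hE, step1 hθ1 hθ2 hη1 hη2 _ (tr_integrable g hg R)]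
    have hL : 4 * (Real.pi : ℂ) ^ 2 *
        E (fun x => (bb x.1 : ℂ) * (bb x.2 : ℂ) * g x) (p, q, t) =
        ∫ y : ℝ × ℝ, hat g y * (Fy (th p t) y.1 * Fy (th q t) y.2) := by
      rw [hE, step2 hθ1 hθ2 hη1 hη2 g hg]
    rw [hL]
    have := tr_tendsto hθ1 hθ2 hη1 hη2 g hg
    refine this.congr fun R => ?_
    rw [← hR R]
    rfl

end Wex
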