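import Pool.Agent.Wex.Targets2

/-!
# CRO (helper83)

Every finite set of the plane has an ordering of small annular complexity: assembly of
`T_DSH`, `T_VCD`, `T_SHE`, `T_PAT`, `T_RUN` and the real estimates.
-/

set_option autoImplicit false

namespace Wex

namespace CRO_

/-- the number of crossings depends only on the trace of the range on the list -/
lemma cr_congr {α ι : Type} (mem : ι → α → Prop) (r s : ι) (l : List α)
    (h : ∀ x ∈ l, (mem r x ↔ mem s x)) : cr mem r l = cr mem s l := by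
  induction l with
  | nil => simp [cr]
  | cons x l ih =>
    cases l with
    | nil => simp [cr]
    | cons y l =>
      have h1 := ih (fun z hz => h z (List.mem_cons_of_mem _ hz))
      have hx := h x (by simp)
      have hy := h y (by simp)
      have h2 : Cross mem r x y ↔ Cross mem s x y := by
        unfold Cross; rw [hx, hy]
      simp only [cr, h1]
      by_cases h3 : Cross mem r x y
      · rw [if_pos h3, if_pos (h2.1 h3)]
      · rw [if_neg h3, if_neg (fun h4 => h3 (h2.2 h4))]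

lemma sum_inv_sqrt (n : ℕ) : ∑ k ∈ Finset.Icc 1 n, 1 / √(k : ℝ) ≤ 2 * √(n : ℝ) := by
  induction n with
  | zero => simp
  | succ n ih =>
    rw [Finset.sum_Icc_succ_top (by omega)]
    have h0 : 0 < √((n + 1 : ℕ) : ℝ) := Real.sqrt_pos.mpr (by positivity)
    have h1 : √((n + 1 : ℕ) : ℝ) ^ 2 = n + 1 := by
      rw [Real.sq_sqrt (by positivity)]; push_cast; ring
    have h2 : √(n : ℝ) ^ 2 = n := Real.sq_sqrt (by positivity)
    have h4 : 1 / √((n + 1 : ℕ) : ℝ) ≤ 2 * (√((n + 1 : ℕ) : ℝ) - √(n : ℝ)) := by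
      rw [div_le_iff₀ h0]
      nlinarith [sq_nonneg (√((n + 1 : ℕ) : ℝ) - √(n : ℝ))]
    linarith

/-- the sum of `δ(k)`, `2 ≤ k ≤ n` -/
lemma sum_del (n : ℕ) :
    ∑ k ∈ Finset.Icc 2 n, del k ≤ 32 * (√(n : ℝ) * (1 + Real.log n)) := by
  have hlog : 0 ≤ Real.log n := Real.log_natCast_nonneg n
  have h1 : ∀ k ∈ Finset.Icc 2 n, del k ≤ 16 * (1 + Real.log n) * (1 / √(k : ℝ)) := by
    intro k hk
    rw [Finset.mem_Icc] at hk
    have hk0 : (0 : ℝ) < k := by exact_mod_cast (by omega : 0 < k)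
    have hkl : Real.log k ≤ Real.log n :=
      Real.log_le_log hk0 (by exact_mod_cast hk.2)
    unfold del
    rw [div_eq_mul_one_div]
    apply mul_le_mul_of_nonneg_right _ (by positivity)
    linarith
  calc ∑ k ∈ Finset.Icc 2 n, del k ≤ ∑ k ∈ Finset.Icc 2 n, 16 * (1 + Real.log n) * (1 / √(k : ℝ)) :=
        Finset.sum_le_sum h1
    _ = 16 * (1 + Real.log n) * ∑ k ∈ Finset.Icc 2 n, (1 / √(k : ℝ)) := by rw [Finset.mul_sum]
    _ ≤ 16 * (1 + Real.log n) * ∑ k ∈ Finset.Icc 1 n, (1 / √(k : ℝ)) := by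
        apply mul_le_mul_of_nonneg_left _ (by positivity)
        apply Finset.sum_le_sum_of_subset_of_nonneg
        · apply Finset.Icc_subset_Icc_left; omega
        · intro i _ _; positivity
    _ ≤ 16 * (1 + Real.log n) * (2 * √(n : ℝ)) := by
        apply mul_le_mul_of_nonneg_left (sum_inv_sqrt n) (by positivity)
    _ = 32 * (√(n : ℝ) * (1 + Real.log n)) := by ring

/-- the estimate of the number of crossings -/
lemma cr_bound (n c : ℕ) (N : ℝ) (hn : 1 ≤ n) (hN0 : 0 ≤ N) (hN : N ≤ ((n : ℝ) + 1) ^ 4)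
    (h : (2 : ℝ) ^ c ≤ (N * ∏ k ∈ Finset.Icc 2 n, (1 + del k)) ^ 2) :
    (c : ℝ) ≤ 104 * (√(n : ℝ) * (1 + Real.log n)) := by
  have hlog : 0 ≤ Real.log n := Real.log_natCast_nonneg n
  have hn1 : (1 : ℝ) ≤ n := by exact_mod_cast hn
  have hs1 : 1 ≤ √(n : ℝ) := by
    rw [show (1 : ℝ) = √1 by simp]; exact Real.sqrt_le_sqrt hn1
  have hdel : ∀ k : ℕ, 0 ≤ del k := by
    intro k; unfold del
    have := Real.log_natCast_nonneg k
    positivity
  have hprod : ∏ k ∈ Finset.Icc 2 n, (1 + del k) ≤ Real.exp (∑ k ∈ Finset.Icc 2 n, del k) := by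
    rw [Real.exp_sum]
    apply Finset.prod_le_prod
    · intro k _; linarith [hdel k]
    · intro k _; linarith [Real.add_one_le_exp (del k)]
  have hprod0 : 0 ≤ ∏ k ∈ Finset.Icc 2 n, (1 + del k) :=
    Finset.prod_nonneg fun k _ => by linarith [hdel k]
  have hexp : ((n : ℝ) + 1) ^ 4 = Real.exp (4 * Real.log (n + 1)) := by
    rw [show (4 : ℝ) * Real.log (n + 1) = ((4 : ℕ) : ℝ) * Real.log (n + 1) by norm_num,
      Real.exp_nat_mul, Real.exp_log (by linarith)]
  have h2 : (2 : ℝ) ^ c ≤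
      Real.exp (2 * (4 * Real.log (n + 1) + ∑ k ∈ Finset.Icc 2 n, del k)) := by
    calc (2 : ℝ) ^ c ≤ (N * ∏ k ∈ Finset.Icc 2 n, (1 + del k)) ^ 2 := h
      _ ≤ (Real.exp (4 * Real.log (n + 1)) * Real.exp (∑ k ∈ Finset.Icc 2 n, del k)) ^ 2 := by
          apply pow_le_pow_left₀ (mul_nonneg hN0 hprod0)
          rw [hexp] at hN
          exact mul_le_mul hN hprod hprod0 (Real.exp_pos _).le
      _ = Real.exp (2 * (4 * Real.log (n + 1) + ∑ k ∈ Finset.Icc 2 n, del k)) := by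
          rw [← Real.exp_add, ← Real.exp_nat_mul]; norm_num
  have h3 : (c : ℝ) * Real.log 2 ≤ 2 * (4 * Real.log (n + 1) + ∑ k ∈ Finset.Icc 2 n, del k) := by
    rw [← Real.log_pow]
    rw [Real.log_le_iff_le_exp (by positivity)]
    exact h2
  have h4 : Real.log (n + 1) ≤ 1 + Real.log n := by
    have : Real.log (n + 1) ≤ Real.log (2 * n) := Real.log_le_log (by linarith) (by linarith)
    rw [Real.log_mul (by norm_num) (by linarith)] at this
    linarith [Real.log_two_lt_d9]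
  have h5 := sum_del n
  have h6 : 1 + Real.log n ≤ √(n : ℝ) * (1 + Real.log n) := by
    nlinarith
  have h7 : (c : ℝ) * Real.log 2 ≤ 72 * (√(n : ℝ) * (1 + Real.log n)) := by linarith
  have h8 : (0 : ℝ) ≤ √(n : ℝ) * (1 + Real.log n) := by positivity
  have h9 := Real.log_two_gt_d9
  have hc : (0 : ℝ) ≤ c := Nat.cast_nonneg c
  nlinarith

end CRO_

open CRO_ in
theorem p_CRO (h1 : T_DSH) (h2 : T_VCD) (h3 : T_SHE) (h4 : T_PAT) (h5 : T_RUN) : T_CRO := by
  refine ⟨209, by norm_num, ?_⟩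
  intro S hS
  obtain ⟨R, hR, hRt⟩ := h2 S
  obtain ⟨l, hnd, hmem, hcr⟩ := h4 (ℝ × ℝ) ((ℝ × ℝ) × ℝ) dm S R (by
    intro Y _ w hw hc
    exact h3 (ℝ × ℝ) ((ℝ × ℝ) × ℝ) dm Y R (fun s ρ hρ => h1 s ρ Y hρ) w hw hc) hS
  have hlen : l.length = S.card := by
    have h : l.toFinset = S := by
      ext x; rw [List.mem_toFinset, hmem]
    rw [← h, List.toFinset_card_of_nodup hnd]
  set n := S.card with hn
  have hn1 : 1 ≤ n := Finset.card_pos.mpr hS
  have hn1' : (1 : ℝ) ≤ n := by exact_mod_cast hn1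
  have hlog : 0 ≤ Real.log n := Real.log_natCast_nonneg n
  have hs1 : 1 ≤ √(n : ℝ) := by
    rw [show (1 : ℝ) = √1 by simp]; exact Real.sqrt_le_sqrt hn1'
  have hX : (1 : ℝ) ≤ √(n : ℝ) * (1 + Real.log n) := by nlinarith
  set X := √(n : ℝ) * (1 + Real.log n) with hXdef
  have hall : ∀ ρ, cr dm ρ l ≤ ⌊104 * X⌋₊ := by
    intro ρ
    obtain ⟨σ, hσ, hσt⟩ := hRt ρ
    rw [cr_congr dm ρ σ l (fun x hx => hσt x ((hmem x).1 hx))]
    apply Nat.le_floor
    exact cr_bound n (cr dm σ l) R.card hn1 (Nat.cast_nonneg _) hR (hcr σ hσ)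
  have hAnn := h5 l _ hall
  rw [hlen] at hAnn
  refine ⟨_, _, 2 * ⌊104 * X⌋₊ + 1, by omega, ?_, hAnn, ?_, ?_⟩
  · have := Nat.floor_le (by positivity : (0 : ℝ) ≤ 104 * X)
    push_cast
    linarith
  · intro a ha b hb hφ hψ
    rw [Finset.mem_Ico] at ha hb
    have ha' : a.toNat < l.length := by omega
    have hb' : b.toNat < l.length := by omega
    have he : l.getD a.toNat 0 = l.getD b.toNat 0 := Prod.ext hφ hψ
    rw [List.getD_eq_getElem _ _ ha', List.getD_eq_getElem _ _ hb'] at he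
    have := (List.Nodup.getElem_inj_iff hnd).1 he
    omega
  · intro x
    rw [← hmem]
    constructor
    · intro hx
      obtain ⟨i, hi, rfl⟩ := List.getElem_of_mem hx
      refine ⟨(i : ℤ), ?_, ?_⟩
      · rw [Finset.mem_Ico]; constructor <;> omega
      · simp only [Int.toNat_natCast]
        rw [List.getD_eq_getElem _ _ hi]
    · rintro ⟨k, hk, rfl⟩
      rw [Finset.mem_Ico] at hk
      have hk' : k.toNat < l.length := by omega
      have : l.getD k.toNat 0 ∈ l := by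
        rw [List.getD_eq_getElem _ _ hk']; exact List.getElem_mem hk'
      exact this

end Wex
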