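import Pool.Agent.Wex.Targets

/-!
# MP_5ab805_an, exponential sums as partners of every function: CUT (helper71)
-/

set_option autoImplicit false

namespace Wex

open MeasureTheory Set Filter
open scoped ENNReal NNReal Topology
open Pool.Agent.Restr (u E QQ norm_u enorm_u u_add u_sub u_zero conj_u measurable_u measurable_E)
open TriL (Sq n2)
open Wey (nq lam hat gup gdn blk Tk Sl Wi)

theorem CUT_integral_slab (T : Set ℝ) {F : ℝ × ℝ × ℝ → ℝ≥0∞} (hF : Measurable F) :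
    ∫⁻ ξ in {ξ : ℝ × ℝ × ℝ | ξ.2.2 ∈ T}, F ξ = ∫⁻ t in T, ∫⁻ p : ℝ × ℝ, F (p.1, p.2, t) := by
  have h1 : MeasurePreserving (MeasurableEquiv.prodAssoc (α := ℝ) (β := ℝ) (γ := ℝ))
      volume volume := volume_preserving_prodAssoc
  rw [← h1.setLIntegral_comp_preimage_emb (MeasurableEquiv.measurableEmbedding _)]
  have h2 : (MeasurableEquiv.prodAssoc (α := ℝ) (β := ℝ) (γ := ℝ)) ⁻¹'
      {ξ : ℝ × ℝ × ℝ | ξ.2.2 ∈ T} = (univ : Set (ℝ × ℝ)) ×ˢ T := by
    ext ξ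
    simp [MeasurableEquiv.prodAssoc]
  rw [h2, Measure.volume_eq_prod (α := ℝ × ℝ) (β := ℝ), ← Measure.prod_restrict,
    Measure.restrict_univ, lintegral_prod_symm]
  · rfl
  · exact (hF.comp (MeasurableEquiv.measurable _)).aemeasurable

theorem CUT_cs {α : Type*} [MeasurableSpace α] {μ : Measure α} {a b : α → ℝ≥0∞}
    (ha : Measurable a) (hb : Measurable b) :
    (∫⁻ x, a x * b x ∂μ) ^ 2 ≤ (∫⁻ x, a x ∂μ) * ∫⁻ x, a x * b x ^ 2 ∂μ := by
  have h := ENNReal.lintegral_mul_le_Lp_mul_Lq μ (p := 2) (q := 2)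
    (Real.HolderConjugate.two_two) (f := fun x => a x ^ (1 / 2 : ℝ))
    (g := fun x => a x ^ (1 / 2 : ℝ) * b x) (ha.pow_const _).aemeasurable
    ((ha.pow_const _).mul hb).aemeasurable
  have e1 : ∀ x, (fun x => a x ^ (1 / 2 : ℝ)) x * (a x ^ (1 / 2 : ℝ) * b x) = a x * b x := by
    intro x
    simp only
    rw [← mul_assoc, ← ENNReal.rpow_add_of_nonneg _ _ (by norm_num) (by norm_num)]
    norm_num
  have e2 : ∀ x, (a x ^ (1 / 2 : ℝ)) ^ (2 : ℝ) = a x := by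
    intro x
    rw [← ENNReal.rpow_mul]
    norm_num
  have e3 : ∀ x, (a x ^ (1 / 2 : ℝ) * b x) ^ (2 : ℝ) = a x * b x ^ 2 := by
    intro x
    rw [ENNReal.mul_rpow_of_nonneg _ _ (by norm_num), e2]
    norm_num
  simp only [Pi.mul_apply] at h
  simp only [e1, e2, e3] at h
  calc (∫⁻ x, a x * b x ∂μ) ^ 2
      ≤ ((∫⁻ x, a x ∂μ) ^ (1 / 2 : ℝ) * (∫⁻ x, a x * b x ^ 2 ∂μ) ^ (1 / 2 : ℝ)) ^ 2 := by
        gcongr
    _ = _ := by
        rw [mul_pow]
        congr 1 <;>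
        · rw [← ENNReal.rpow_natCast, ← ENNReal.rpow_mul]
          norm_num

theorem CUT_integrable_exp : Integrable fun x : ℝ × ℝ => ((Real.exp (-nq x) : ℝ) : ℂ) := by
  have h1 : Integrable fun x : ℝ => Real.exp (-x ^ 2) := by
    simpa using integrable_exp_neg_mul_sq (b := 1) one_pos
  have h2 := (h1.mul_prod h1).ofReal (𝕜 := ℂ)
  refine h2.congr (Eventually.of_forall fun x => ?_)
  simp only
  unfold nq
  rw [neg_add, Real.exp_add]
  rfl

theorem CUT_measurable_Gs (φ ψ : ℤ → ℝ) (s : Finset ℤ) (a : ℤ → ℂ) :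
    Measurable (Gs φ ψ s a) := by
  unfold Gs
  refine Finset.measurable_sum _ fun n _ => ?_
  exact measurable_const.mul (measurable_u.comp (by fun_prop))

theorem CUT_integrable_gdn (φ ψ : ℤ → ℝ) (s : Finset ℤ) (a : ℤ → ℂ) :
    Integrable (gdn (Gs φ ψ s a)) := by
  unfold gdn
  refine CUT_integrable_exp.mul_bdd (c := ∑ n ∈ s, ‖a n‖)
    (CUT_measurable_Gs φ ψ s a).aestronglyMeasurable (Eventually.of_forall fun x => ?_)
  unfold Gs
  refine (norm_sum_le _ _).trans (Finset.sum_le_sum fun n _ => ?_)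
  rw [norm_mul, norm_u, mul_one]

theorem CUT_measurable_gdn (φ ψ : ℤ → ℝ) (s : Finset ℤ) (a : ℤ → ℂ) :
    Measurable (gdn (Gs φ ψ s a)) := by
  unfold gdn nq
  exact (Complex.measurable_ofReal.comp (by fun_prop)).mul (CUT_measurable_Gs φ ψ s a)

/-- superposition -/
theorem CUT_super {χ G κ : ℝ × ℝ → ℂ} (hκ : Integrable κ) (hG : Integrable (gdn G))
    (hχ : ∀ x, gup χ x = ∫ w : ℝ × ℝ, u (-(w.1 * x.1 + w.2 * x.2)) * κ w) (p : ℝ × ℝ) (t : ℝ) :
    E (fun x => χ x * G x) (p.1, p.2, t) =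
      ∫ w : ℝ × ℝ, κ w * E (gdn G) (p.1 - w.1, p.2 - w.2, t) := by
  have e1 : ∀ x : ℝ × ℝ, χ x * G x = gup χ x * gdn G x := by
    intro x
    unfold gup gdn
    have : ((Real.exp (nq x) : ℝ) : ℂ) * ((Real.exp (-nq x) : ℝ) : ℂ) = 1 := by
      rw [← Complex.ofReal_mul, ← Real.exp_add]
      simp
    calc χ x * G x = (((Real.exp (nq x) : ℝ) : ℂ) * ((Real.exp (-nq x) : ℝ) : ℂ)) *
        (χ x * G x) := by rw [this, one_mul]
      _ = _ := by ring
  have hint : Integrable (Function.uncurry fun (x w : ℝ × ℝ) =>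
      u (p.1 * x.1 + (p.2 * x.2 + t * (x.1 ^ 2 + x.2 ^ 2)) + -(w.1 * x.1 + w.2 * x.2)) *
        (gdn G x * κ w)) (volume.prod volume) := by
    refine (hG.mul_prod hκ).bdd_mul (c := 1)
      (measurable_u.comp (by fun_prop)).aestronglyMeasurable
      (Eventually.of_forall fun x => (norm_u _).le)
  calc E (fun x => χ x * G x) (p.1, p.2, t)
      = ∫ x : ℝ × ℝ, ∫ w : ℝ × ℝ,
        u (p.1 * x.1 + (p.2 * x.2 + t * (x.1 ^ 2 + x.2 ^ 2)) + -(w.1 * x.1 + w.2 * x.2)) *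
          (gdn G x * κ w) := by
        unfold E
        refine integral_congr_ae (Eventually.of_forall fun x => ?_)
        simp only
        rw [e1, hχ, ← integral_mul_const, ← integral_const_mul]
        refine integral_congr_ae (Eventually.of_forall fun w => ?_)
        simp only
        rw [u_add _ (-(w.1 * x.1 + w.2 * x.2))]
        generalize u (p.1 * x.1 + (p.2 * x.2 + t * (x.1 ^ 2 + x.2 ^ 2))) = U
        generalize u (-(w.1 * x.1 + w.2 * x.2)) = U'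
        ring
    _ = ∫ w : ℝ × ℝ, ∫ x : ℝ × ℝ,
        u (p.1 * x.1 + (p.2 * x.2 + t * (x.1 ^ 2 + x.2 ^ 2)) + -(w.1 * x.1 + w.2 * x.2)) *
          (gdn G x * κ w) := integral_integral_swap hint
    _ = _ := by
        refine integral_congr_ae (Eventually.of_forall fun w => ?_)
        simp only
        unfold E
        rw [← integral_const_mul]
        refine integral_congr_ae (Eventually.of_forall fun x => ?_)
        simp only
        rw [show (p.1 - w.1) * x.1 + ((p.2 - w.2) * x.2 + t * (x.1 ^ 2 + x.2 ^ 2)) =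
          p.1 * x.1 + (p.2 * x.2 + t * (x.1 ^ 2 + x.2 ^ 2)) + -(w.1 * x.1 + w.2 * x.2) by ring]
        generalize u (p.1 * x.1 + (p.2 * x.2 + t * (x.1 ^ 2 + x.2 ^ 2)) +
          -(w.1 * x.1 + w.2 * x.2)) = U
        ring

theorem CUT_shift (f : ℝ × ℝ → ℂ) (w p : ℝ × ℝ) (t : ℝ) :
    E f (p.1 + w.1, p.2 + w.2, t) =
      E (fun x => u (w.1 * x.1 + w.2 * x.2) * f x) (p.1, p.2, t) := by
  unfold E
  refine integral_congr_ae (Eventually.of_forall fun x => ?_)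
  simp only
  rw [show (p.1 + w.1) * x.1 + ((p.2 + w.2) * x.2 + t * (x.1 ^ 2 + x.2 ^ 2)) =
    p.1 * x.1 + (p.2 * x.2 + t * (x.1 ^ 2 + x.2 ^ 2)) + (w.1 * x.1 + w.2 * x.2) by ring, u_add]
  ring

theorem p_CUT (h1 : T_SLB) (h2 : Wey.T_WIE) : T_CUT := by
  intro ε hε
  obtain ⟨C1, hC1⟩ := h1 ε hε
  obtain ⟨C2, hC2⟩ := h2
  refine ⟨C2 ^ 2 * C1, ?_⟩
  intro m φ ψ α β a χ f K N k hm hh hAnn hWi hχ0 hSq hInt hSQ
  set s : Finset ℤ := Finset.Ico α β with hsdef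
  obtain ⟨κ0, hκ0, hn0, hrep0⟩ := hC2 K χ hWi hχ0
  -- measurable representative
  set κ := hκ0.1.mk κ0 with hκdef
  have hκm : Measurable κ := hκ0.1.stronglyMeasurable_mk.measurable
  have hκae : κ0 =ᵐ[volume] κ := hκ0.1.ae_eq_mk
  have hκ : Integrable κ := hκ0.congr hκae
  have hn : ∫⁻ w, ‖κ w‖ₑ ≤ C2 * K := by
    refine le_trans (le_of_eq ?_) (by simpa using hn0)
    exact lintegral_congr_ae (hκae.mono fun w hw => by simp only [hw])
  have hrep : ∀ x, gup χ x = ∫ w : ℝ × ℝ, u (-(w.1 * x.1 + w.2 * x.2)) * κ w := by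
    intro x
    rw [hrep0 x]
    exact integral_congr_ae (hκae.mono fun w hw => by simp only [hw])
  set g := gdn (Gs φ ψ s a) with hg
  have hgi : Integrable g := CUT_integrable_gdn φ ψ s a
  have hgm : Measurable g := CUT_measurable_gdn φ ψ s a
  have hfm : Measurable f := hSq.1
  have hEf := measurable_E hfm
  have hEg := measurable_E hgm
  -- pointwise bound
  have hpt : ∀ (p : ℝ × ℝ) (t : ℝ), ‖E (fun x => χ x * Gs φ ψ s a x) (p.1, p.2, t)‖ₑ ^ 2 ≤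
      (C2 * K) * ∫⁻ w : ℝ × ℝ, ‖κ w‖ₑ * ‖E g (p.1 - w.1, p.2 - w.2, t)‖ₑ ^ 2 := by
    intro p t
    rw [CUT_super hκ hgi hrep p t]
    calc ‖∫ w : ℝ × ℝ, κ w * E g (p.1 - w.1, p.2 - w.2, t)‖ₑ ^ 2
        ≤ (∫⁻ w : ℝ × ℝ, ‖κ w‖ₑ * ‖E g (p.1 - w.1, p.2 - w.2, t)‖ₑ) ^ 2 := by
          gcongr
          refine (enorm_integral_le_lintegral_enorm _).trans (le_of_eq ?_)
          refine lintegral_congr fun w => ?_
          rw [enorm_mul]
      _ ≤ (∫⁻ w, ‖κ w‖ₑ) * ∫⁻ w : ℝ × ℝ, ‖κ w‖ₑ * ‖E g (p.1 - w.1, p.2 - w.2, t)‖ₑ ^ 2 :=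
          CUT_cs hκm.enorm (hEg.comp (by fun_prop)).enorm
      _ ≤ _ := by gcongr
  -- measurability of the kernel
  have hker : Measurable fun z : (ℝ × ℝ) × ℝ × (ℝ × ℝ) =>
      ‖κ z.1‖ₑ * (‖E f (z.2.2.1, z.2.2.2, z.2.1)‖ₑ ^ 2 *
        ‖E g (z.2.2.1 - z.1.1, z.2.2.2 - z.1.2, z.2.1)‖ₑ ^ 2) := by
    refine (hκm.comp measurable_fst).enorm.mul ?_
    refine ((hEf.comp (by fun_prop)).enorm.pow_const 2).mul
      ((hEg.comp (by fun_prop)).enorm.pow_const 2)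
  have hgup : Measurable (gup χ) := by
    have e : gup χ = fun x => ∫ w : ℝ × ℝ, u (-(w.1 * x.1 + w.2 * x.2)) * κ w := funext hrep
    rw [e]
    have hm : Measurable fun z : (ℝ × ℝ) × (ℝ × ℝ) =>
        u (-(z.2.1 * z.1.1 + z.2.2 * z.1.2)) * κ z.2 :=
      (measurable_u.comp (by fun_prop)).mul (hκm.comp measurable_snd)
    exact hm.stronglyMeasurable.integral_prod_right'.measurable
  have hχm : Measurable χ := by
    have e : χ = fun x => ((Real.exp (-nq x) : ℝ) : ℂ) * gup χ x := by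
      funext x
      unfold gup
      rw [← mul_assoc, ← Complex.ofReal_mul, ← Real.exp_add]
      simp
    rw [e]
    unfold nq
    exact (Complex.measurable_ofReal.comp (by fun_prop)).mul hgup
  have hXX : Measurable (XX φ ψ s a χ f) := by
    unfold XX
    exact hEf.enorm.mul (measurable_E (hχm.mul (CUT_measurable_Gs φ ψ s a))).enorm
  unfold Sl
  rw [CUT_integral_slab (Tk k) (hXX.pow_const 2)]
  calc ∫⁻ t in Tk k, ∫⁻ p : ℝ × ℝ, XX φ ψ s a χ f (p.1, p.2, t) ^ 2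
      ≤ ∫⁻ t in Tk k, ∫⁻ p : ℝ × ℝ, (C2 * K) * ∫⁻ w : ℝ × ℝ,
          ‖κ w‖ₑ * (‖E f (p.1, p.2, t)‖ₑ ^ 2 * ‖E g (p.1 - w.1, p.2 - w.2, t)‖ₑ ^ 2) := by
        refine lintegral_mono fun t => lintegral_mono fun p => ?_
        simp only
        unfold XX
        rw [mul_pow]
        calc ‖E f (p.1, p.2, t)‖ₑ ^ 2 * ‖E (fun x => χ x * Gs φ ψ s a x) (p.1, p.2, t)‖ₑ ^ 2
            ≤ ‖E f (p.1, p.2, t)‖ₑ ^ 2 * ((C2 * K) * ∫⁻ w : ℝ × ℝ,
              ‖κ w‖ₑ * ‖E g (p.1 - w.1, p.2 - w.2, t)‖ₑ ^ 2) := by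
              gcongr
              exact hpt p t
          _ = _ := by
              rw [mul_left_comm, ← lintegral_const_mul]
              · congr 1
                refine lintegral_congr fun w => ?_
                ring
              · exact hκm.enorm.mul ((hEg.comp (by fun_prop)).enorm.pow_const 2)
    _ = (C2 * K) * ∫⁻ w : ℝ × ℝ, ∫⁻ t in Tk k, ∫⁻ p : ℝ × ℝ,
          ‖κ w‖ₑ * (‖E f (p.1, p.2, t)‖ₑ ^ 2 * ‖E g (p.1 - w.1, p.2 - w.2, t)‖ₑ ^ 2) := by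
        have m1 : ∀ t : ℝ, Measurable fun z : (ℝ × ℝ) × (ℝ × ℝ) =>
            ‖κ z.2‖ₑ * (‖E f (z.1.1, z.1.2, t)‖ₑ ^ 2 *
              ‖E g (z.1.1 - z.2.1, z.1.2 - z.2.2, t)‖ₑ ^ 2) := fun t =>
          hker.comp (by fun_prop : Measurable fun z : (ℝ × ℝ) × (ℝ × ℝ) => (z.2, t, z.1))
        have m2 : Measurable fun z : ℝ × (ℝ × ℝ) => ∫⁻ p : ℝ × ℝ,
            ‖κ z.2‖ₑ * (‖E f (p.1, p.2, z.1)‖ₑ ^ 2 *
              ‖E g (p.1 - z.2.1, p.2 - z.2.2, z.1)‖ₑ ^ 2) := by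
          refine Measurable.lintegral_prod_right' (f := fun y : (ℝ × (ℝ × ℝ)) × (ℝ × ℝ) =>
            ‖κ y.1.2‖ₑ * (‖E f (y.2.1, y.2.2, y.1.1)‖ₑ ^ 2 *
              ‖E g (y.2.1 - y.1.2.1, y.2.2 - y.1.2.2, y.1.1)‖ₑ ^ 2)) ?_
          exact hker.comp (by fun_prop : Measurable fun y : (ℝ × (ℝ × ℝ)) × (ℝ × ℝ) =>
            (y.1.2, y.1.1, y.2))
        have s1 : ∀ t : ℝ, ∫⁻ p : ℝ × ℝ, (C2 * K : ℝ≥0∞) * ∫⁻ w : ℝ × ℝ,
            ‖κ w‖ₑ * (‖E f (p.1, p.2, t)‖ₑ ^ 2 * ‖E g (p.1 - w.1, p.2 - w.2, t)‖ₑ ^ 2) =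
            (C2 * K : ℝ≥0∞) * ∫⁻ w : ℝ × ℝ, ∫⁻ p : ℝ × ℝ,
            ‖κ w‖ₑ * (‖E f (p.1, p.2, t)‖ₑ ^ 2 * ‖E g (p.1 - w.1, p.2 - w.2, t)‖ₑ ^ 2) := by
          intro t
          rw [lintegral_const_mul]
          · congr 1
            exact lintegral_lintegral_swap (m1 t).aemeasurable
          · exact Measurable.lintegral_prod_right' (m1 t)
        simp only [s1]
        rw [lintegral_const_mul]
        · congr 1
          exact lintegral_lintegral_swap m2.aemeasurable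
        · exact Measurable.lintegral_prod_right' m2
    _ ≤ (C2 * K) * ∫⁻ w : ℝ × ℝ, ‖κ w‖ₑ *
          (C1 * m * ENNReal.ofReal (2 ^ ((-1 + ε) * k)) * N) := by
        gcongr with w
        set fw : ℝ × ℝ → ℂ := fun x => u (w.1 * x.1 + w.2 * x.2) * f x with hfw
        have hfwm : Measurable fw := (measurable_u.comp (by fun_prop)).mul hfm
        have hSqw : Sq fw := ⟨hfwm, fun x hx => by simp only [hfw, hSq.2 x hx, mul_zero]⟩
        have hIw : Integrable fw := hInt.bdd_mul (c := 1)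
          (measurable_u.comp (by fun_prop)).aestronglyMeasurable
          (Eventually.of_forall fun x => (norm_u _).le)
        have hen : ∀ x, ‖fw x‖ₑ = ‖f x‖ₑ := by
          intro x
          simp only [hfw, enorm_mul, enorm_u, one_mul]
        have hSQw : SQ φ ψ s a fw N := by
          unfold SQ n2 at hSQ ⊢
          simp only [hen]
          exact hSQ
        have hb := hC1 m φ ψ α β a fw N k hm hh hAnn hSqw hIw hSQw
        have mm : ∀ t : ℝ, Measurable fun p : ℝ × ℝ => ‖E f (p.1, p.2, t)‖ₑ ^ 2 *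
            ‖E g (p.1 - w.1, p.2 - w.2, t)‖ₑ ^ 2 := fun t =>
          ((hEf.comp (by fun_prop)).enorm.pow_const 2).mul
            ((hEg.comp (by fun_prop)).enorm.pow_const 2)
        calc ∫⁻ t in Tk k, ∫⁻ p : ℝ × ℝ,
              ‖κ w‖ₑ * (‖E f (p.1, p.2, t)‖ₑ ^ 2 * ‖E g (p.1 - w.1, p.2 - w.2, t)‖ₑ ^ 2)
            = ‖κ w‖ₑ * ∫⁻ t in Tk k, ∫⁻ p : ℝ × ℝ,
                (‖E fw (p.1, p.2, t)‖ₑ * ‖E g (p.1, p.2, t)‖ₑ) ^ 2 := by
              rw [← lintegral_const_mul' _ _ enorm_ne_top]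
              refine lintegral_congr fun t => ?_
              rw [← lintegral_const_mul' _ _ enorm_ne_top]
              have h3 := lintegral_add_right_eq_self (μ := (volume : Measure (ℝ × ℝ)))
                (fun p : ℝ × ℝ => ‖κ w‖ₑ * (‖E f (p.1, p.2, t)‖ₑ ^ 2 *
                  ‖E g (p.1 - w.1, p.2 - w.2, t)‖ₑ ^ 2)) w
              rw [← h3]
              refine lintegral_congr fun p => ?_
              simp only [Prod.fst_add, Prod.snd_add, add_sub_cancel_right]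
              rw [CUT_shift f w p t, mul_pow]
          _ ≤ _ := by gcongr
    _ = (C2 * K) * (∫⁻ w : ℝ × ℝ, ‖κ w‖ₑ) *
          (C1 * m * ENNReal.ofReal (2 ^ ((-1 + ε) * k)) * N) := by
        rw [lintegral_mul_const _ hκm.enorm, ← mul_assoc]
    _ ≤ (C2 * K) * (C2 * K) *
          (C1 * m * ENNReal.ofReal (2 ^ ((-1 + ε) * k)) * N) := by
        gcongr
    _ = _ := by
        push_cast
        ring

end Wex
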