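import Pool.Agent.Wex.Targets2

/-!
# MP_5ab805_an, part 2: general position of finitely many circles
-/

set_option autoImplicit false

namespace Wex

open Set Filter
open scoped Topology

namespace DGP_

/-- two different circles meet in a finite set -/
theorem circ_fin {c c' : ℝ × ℝ} {r r' : ℝ} (h : c = c' → r ≠ r') :
    {p : ℝ × ℝ | d2 p c = r ∧ d2 p c' = r'}.Finite := by
  rcases Set.eq_empty_or_nonempty {p : ℝ × ℝ | d2 p c = r ∧ d2 p c' = r'} with h0 | ⟨p0, hp0⟩
  · rw [h0]
    exact Set.finite_empty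
  obtain ⟨h3, h4⟩ := hp0
  by_cases hc : c = c'
  · exfalso
    subst hc
    exact h rfl (h3.symm.trans h4)
  have hn : (c'.1 - c.1) ^ 2 + (c'.2 - c.2) ^ 2 ≠ 0 := by
    intro hz
    have ha0 : (c'.1 - c.1) ^ 2 = 0 := by nlinarith [sq_nonneg (c'.1 - c.1), sq_nonneg (c'.2 - c.2)]
    have hb0 : (c'.2 - c.2) ^ 2 = 0 := by nlinarith [sq_nonneg (c'.1 - c.1), sq_nonneg (c'.2 - c.2)]
    have ha1 := pow_eq_zero_iff (two_ne_zero) |>.1 ha0
    have hb1 := pow_eq_zero_iff (two_ne_zero) |>.1 hb0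
    apply hc
    ext
    · linarith
    · linarith
  generalize ha : c'.1 - c.1 = a at hn
  generalize hb : c'.2 - c.2 = b at hn
  generalize hT : -(2 * (-b * (p0.1 - c.1) + a * (p0.2 - c.2))) / (a ^ 2 + b ^ 2) = T
  refine (Set.toFinite {p0, (p0.1 + -b * T, p0.2 + a * T)}).subset ?_
  intro p hp
  obtain ⟨h1, h2⟩ := hp
  unfold d2 at h1 h2 h3 h4
  have e1 : a * (p.1 - p0.1) + b * (p.2 - p0.2) = 0 := by
    rw [← ha, ← hb]
    linear_combination (1 / 2) * ((h1 - h3) - (h2 - h4))
  obtain ⟨t, ht⟩ : ∃ t : ℝ, t * (a ^ 2 + b ^ 2) = -b * (p.1 - p0.1) + a * (p.2 - p0.2) :=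
    ⟨(-b * (p.1 - p0.1) + a * (p.2 - p0.2)) / (a ^ 2 + b ^ 2), div_mul_cancel₀ _ hn⟩
  have ex : p.1 = p0.1 + -b * t := by
    have : (a ^ 2 + b ^ 2) * (p.1 - p0.1) = (a ^ 2 + b ^ 2) * (-b * t) := by
      linear_combination a * e1 + b * ht
    have := mul_left_cancel₀ hn this
    linarith
  have ey : p.2 = p0.2 + a * t := by
    have : (a ^ 2 + b ^ 2) * (p.2 - p0.2) = (a ^ 2 + b ^ 2) * (a * t) := by
      linear_combination b * e1 - a * ht
    have := mul_left_cancel₀ hn this
    linarith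
  rw [ex, ey] at h1
  have e5 : t * (t * (a ^ 2 + b ^ 2) + 2 * (-b * (p0.1 - c.1) + a * (p0.2 - c.2))) = 0 := by
    linear_combination h1 - h3
  rw [Set.mem_insert_iff, Set.mem_singleton_iff]
  rcases mul_eq_zero.1 e5 with h0 | h0
  · left
    rw [h0] at ex ey
    ext
    · rw [ex]
      ring
    · rw [ey]
      ring
  · right
    have h5 : t = T := by
      rw [← hT, eq_div_iff hn]
      linarith
    rw [h5] at ex ey
    ext
    · exact ex
    · exact ey

/-- a radius slightly larger, outside a finite set -/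
theorem pick (Y F : Finset ℝ) (r : ℝ) :
    ∃ r' : ℝ, (∀ v ∈ Y, (v ≤ r ↔ v ≤ r')) ∧ r' ∉ F := by
  have h1 : ∀ᶠ r' in 𝓝[>] r, ∀ v ∈ Y, (v ≤ r ↔ v ≤ r') := by
    rw [Filter.eventually_all_finset]
    intro v _
    rcases le_or_gt v r with h | h
    · filter_upwards [self_mem_nhdsWithin] with r' hr'
      exact ⟨fun _ => h.trans (le_of_lt hr'), fun _ => h⟩
    · filter_upwards [Ioo_mem_nhdsGT h] with r' hr'
      exact ⟨fun h' => absurd h' (not_le.2 h), fun h' => absurd h' (not_le.2 hr'.2)⟩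
  have h2 : ∀ᶠ r' in 𝓝[>] r, ∀ v ∈ F, r' ≠ v := by
    rw [Filter.eventually_all_finset]
    intro v _
    rcases le_or_gt v r with h | h
    · filter_upwards [self_mem_nhdsWithin] with r' hr'
      have : r < r' := hr'
      exact fun h' => absurd h (not_le.2 (h' ▸ this))
    · filter_upwards [Ioo_mem_nhdsGT h] with r' hr'
      exact ne_of_lt hr'.2
  obtain ⟨r', h3, h4⟩ := (h1.and h2).exists
  exact ⟨r', h3, fun h => h4 r' h rfl⟩

end DGP_

open DGP_

theorem p_DGP : T_DGP := by
  intro s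
  induction s with
  | zero =>
    intro c r X
    exact ⟨r, fun i => i.elim0, fun i => i.elim0, fun i => i.elim0⟩
  | succ s ih =>
    intro c r X
    obtain ⟨r0, h1, h2, h3⟩ := ih (fun i => c i.castSucc) (fun i => r i.castSucc) X
    classical
    have hfin : (Set.range r0 ∪ ⋃ (j : Fin s) (k : Fin s) (_ : j ≠ k),
        (fun p => d2 p (c (Fin.last s))) ''
          {p | d2 p (c j.castSucc) = r0 j ∧ d2 p (c k.castSucc) = r0 k}).Finite := by
      refine (Set.finite_range r0).union ?_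
      refine Set.finite_iUnion fun j => Set.finite_iUnion fun k => Set.finite_iUnion fun hjk => ?_
      exact (circ_fin (fun hc => h2 j k hjk hc)).image _
    obtain ⟨w, hw1, hw2⟩ := pick (X.image fun x => d2 x (c (Fin.last s))) hfin.toFinset
      (r (Fin.last s))
    rw [Set.Finite.mem_toFinset, Set.mem_union, not_or] at hw2
    obtain ⟨hw2, hw3⟩ := hw2
    have key : ∀ j k : Fin s, j ≠ k → ∀ p, d2 p (c j.castSucc) = r0 j →
        d2 p (c k.castSucc) = r0 k → d2 p (c (Fin.last s)) ≠ w := by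
      intro j k hjk p hj hk he
      apply hw3
      simp only [Set.mem_iUnion]
      exact ⟨j, k, hjk, p, ⟨hj, hk⟩, he⟩
    have key2 : ∀ j : Fin s, r0 j ≠ w := fun j he => hw2 ⟨j, he⟩
    refine ⟨Fin.snoc (α := fun _ => ℝ) r0 w, ?_, ?_, ?_⟩
    · intro i x hx
      rcases Fin.eq_castSucc_or_eq_last i with ⟨i', rfl⟩ | rfl
      · rw [Fin.snoc_castSucc]
        exact h1 i' x hx
      · rw [Fin.snoc_last]
        exact hw1 _ (Finset.mem_image_of_mem _ hx)
    · intro i j hij hc
      rcases Fin.eq_castSucc_or_eq_last i with ⟨i', rfl⟩ | rfl <;>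
        rcases Fin.eq_castSucc_or_eq_last j with ⟨j', rfl⟩ | rfl
      · rw [Fin.snoc_castSucc, Fin.snoc_castSucc]
        exact h2 i' j' (fun h => hij (by rw [h])) hc
      · rw [Fin.snoc_castSucc, Fin.snoc_last]
        exact key2 i'
      · rw [Fin.snoc_castSucc, Fin.snoc_last]
        exact (key2 j').symm
      · exact absurd rfl hij
    · intro i j k hij hjk hik p hp
      obtain ⟨hi, hj, hk⟩ := hp
      rcases Fin.eq_castSucc_or_eq_last i with ⟨i', rfl⟩ | rfl <;>
        rcases Fin.eq_castSucc_or_eq_last j with ⟨j', rfl⟩ | rfl <;>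
        rcases Fin.eq_castSucc_or_eq_last k with ⟨k', rfl⟩ | rfl
      · rw [Fin.snoc_castSucc] at hi hj hk
        exact h3 i' j' k' (fun h => hij (by rw [h])) (fun h => hjk (by rw [h]))
          (fun h => hik (by rw [h])) p ⟨hi, hj, hk⟩
      · rw [Fin.snoc_castSucc] at hi hj
        rw [Fin.snoc_last] at hk
        exact key i' j' (fun h => hij (by rw [h])) p hi hj hk
      · rw [Fin.snoc_castSucc] at hi hk
        rw [Fin.snoc_last] at hj
        exact key i' k' (fun h => hik (by rw [h])) p hi hk hj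
      · exact absurd rfl hjk
      · rw [Fin.snoc_castSucc] at hj hk
        rw [Fin.snoc_last] at hi
        exact key j' k' (fun h => hjk (by rw [h])) p hj hk hi
      · exact absurd rfl hik
      · exact absurd rfl hij
      · exact absurd rfl hij

end Wex
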