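import Pool.Agent.Wex.Targets2

/-!
# DMI: the leftmost point of a region bounded by circles
-/

set_option autoImplicit false

namespace Wex

open MeasureTheory Set Filter
open scoped ENNReal NNReal Topology

theorem DMI_.continuous_d2 (c : ℝ × ℝ) : Continuous fun x : ℝ × ℝ => d2 x c := by
  unfold d2
  fun_prop

/-- the closed region of `x` -/
def DMI_.reg {s : ℕ} (c : Fin s → ℝ × ℝ) (r : Fin s → ℝ) (x : ℝ × ℝ) : Set (ℝ × ℝ) :=
  {z | ∀ i, (d2 x (c i) ≤ r i → d2 z (c i) ≤ r i) ∧ (r i < d2 x (c i) → r i ≤ d2 z (c i))}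

theorem DMI_.isClosed_reg {s : ℕ} (c : Fin s → ℝ × ℝ) (r : Fin s → ℝ) (x : ℝ × ℝ) :
    IsClosed (DMI_.reg c r x) := by
  have h : DMI_.reg c r x = ⋂ i, ({z | d2 x (c i) ≤ r i → d2 z (c i) ≤ r i} ∩
      {z | r i < d2 x (c i) → r i ≤ d2 z (c i)}) := by
    ext z
    simp [DMI_.reg]
  rw [h]
  refine isClosed_iInter fun i => IsClosed.inter ?_ ?_
  · by_cases h1 : d2 x (c i) ≤ r i
    · simpa [h1] using isClosed_le (DMI_.continuous_d2 (c i)) continuous_const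
    · simp [h1]
  · by_cases h1 : r i < d2 x (c i)
    · simpa [h1] using isClosed_le continuous_const (DMI_.continuous_d2 (c i))
    · simp [h1]

theorem DMI_.isCompact_reg {s : ℕ} (c : Fin s → ℝ × ℝ) (r : Fin s → ℝ) (x : ℝ × ℝ) (i₀ : Fin s)
    (h0 : d2 x (c i₀) ≤ r i₀) : IsCompact (DMI_.reg c r x) := by
  refine (isCompact_Icc (a := ((c i₀).1 - √(r i₀), (c i₀).2 - √(r i₀)))
    (b := ((c i₀).1 + √(r i₀), (c i₀).2 + √(r i₀)))).of_isClosed_subset
    (DMI_.isClosed_reg c r x) ?_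
  intro z hz
  have h1 := (hz i₀).1 h0
  unfold d2 at h1
  have h2 : |z.1 - (c i₀).1| ≤ √(r i₀) := by
    apply Real.abs_le_sqrt
    nlinarith [sq_nonneg (z.2 - (c i₀).2)]
  have h3 : |z.2 - (c i₀).2| ≤ √(r i₀) := by
    apply Real.abs_le_sqrt
    nlinarith [sq_nonneg (z.1 - (c i₀).1)]
  rw [abs_le] at h2 h3
  refine ⟨Prod.mk_le_mk.2 ⟨?_, ?_⟩, Prod.mk_le_mk.2 ⟨?_, ?_⟩⟩ <;> linarith [h2.1, h2.2, h3.1, h3.2]

/-- a minimal point cannot be moved to the left -/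
theorem DMI_.no_move {s : ℕ} {c : Fin s → ℝ × ℝ} {r : Fin s → ℝ} {x p : ℝ × ℝ}
    (hp : p ∈ DMI_.reg c r x) (hmin : ∀ z ∈ DMI_.reg c r x, p.1 ≤ z.1) (γ : ℝ → ℝ × ℝ)
    (hγ : Tendsto γ (𝓝[>] 0) (𝓝 p)) (h1 : ∀ η, (γ η).1 = p.1 - η)
    (h2 : ∀ i, d2 p (c i) = r i → ∀ᶠ η in 𝓝[>] (0 : ℝ), d2 (γ η) (c i) = r i) : False := by
  have h3 : ∀ᶠ η in 𝓝[>] (0 : ℝ), ∀ i, (d2 x (c i) ≤ r i → d2 (γ η) (c i) ≤ r i) ∧
      (r i < d2 x (c i) → r i ≤ d2 (γ η) (c i)) := by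
    rw [eventually_all]
    intro i
    by_cases he : d2 p (c i) = r i
    · filter_upwards [h2 i he] with η hη
      exact ⟨fun _ => hη.le, fun _ => hη.ge⟩
    · have hc : Tendsto (fun η => d2 (γ η) (c i)) (𝓝[>] 0) (𝓝 (d2 p (c i))) :=
        ((DMI_.continuous_d2 (c i)).tendsto p).comp hγ
      by_cases hx : d2 x (c i) ≤ r i
      · have h4 : d2 p (c i) < r i := lt_of_le_of_ne ((hp i).1 hx) he
        filter_upwards [hc.eventually_lt_const h4] with η hη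
        exact ⟨fun _ => hη.le, fun h => absurd hx (not_le.2 h)⟩
      · have h4 : r i < d2 p (c i) := lt_of_le_of_ne ((hp i).2 (not_le.1 hx)) (Ne.symm he)
        filter_upwards [hc.eventually_const_lt h4] with η hη
        exact ⟨fun h => absurd h hx, fun _ => hη.le⟩
  obtain ⟨η, hη, hpos⟩ := (h3.and (eventually_mem_nhdsWithin)).exists
  have h5 := hmin (γ η) hη
  rw [h1] at h5
  have h6 : (0 : ℝ) < η := hpos
  linarith

/-- DMI -/
theorem p_DMI : T_DMI := by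
  intro s c r x i₀ h0
  have hx : x ∈ DMI_.reg c r x := fun i => ⟨id, le_of_lt⟩
  obtain ⟨p, hp, hmin⟩ := (DMI_.isCompact_reg c r x i₀ h0).exists_isMinOn ⟨x, hx⟩
    continuous_fst.continuousOn
  have hmin' : ∀ z ∈ DMI_.reg c r x, p.1 ≤ z.1 := fun z hz => hmin hz
  refine ⟨p, hp, ?_⟩
  by_contra hcon
  rw [not_or] at hcon
  obtain ⟨hA, hB⟩ := hcon
  push Not at hA hB
  by_cases hex : ∃ i, d2 p (c i) = r i
  · obtain ⟨i, hi⟩ := hex
    have hb : p.2 ≠ (c i).2 := hB i hi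
    obtain ⟨a, ha⟩ : ∃ a, a = p.1 - (c i).1 := ⟨_, rfl⟩
    obtain ⟨b, hb'⟩ : ∃ b, b = p.2 - (c i).2 := ⟨_, rfl⟩
    have hb0 : b ≠ 0 := by rw [hb']; exact sub_ne_zero.2 hb
    have hab : a ^ 2 + b ^ 2 = r i := by rw [← hi, ha, hb']; rfl
    obtain ⟨σ, hσ⟩ : ∃ σ : ℝ, σ = b / |b| := ⟨_, rfl⟩
    have hσ2 : σ ^ 2 = 1 := by
      rw [hσ, div_pow, sq_abs]
      field_simp
    have hσb : σ * |b| = b := by
      rw [hσ]
      have : |b| ≠ 0 := abs_ne_zero.2 hb0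
      field_simp
    have hcont : Continuous fun η : ℝ =>
        (((p.1 - η, (c i).2 + σ * √(r i - (a - η) ^ 2)) : ℝ × ℝ)) := by fun_prop
    have hat0 : (((p.1 - 0, (c i).2 + σ * √(r i - (a - 0) ^ 2)) : ℝ × ℝ)) = p := by
      have h1 : r i - (a - 0) ^ 2 = b ^ 2 := by rw [← hab]; ring
      rw [h1, Real.sqrt_sq_eq_abs, hσb, hb']
      ext
      · simp
      · simp
    refine DMI_.no_move hp hmin' (fun η => (p.1 - η, (c i).2 + σ * √(r i - (a - η) ^ 2))) ?_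
      (fun η => rfl) ?_
    · have h1 := hcont.tendsto 0
      rw [hat0] at h1
      exact h1.mono_left nhdsWithin_le_nhds
    · intro j hj
      have hji : j = i := by
        by_contra hne
        exact hA j i hne hj hi
      subst hji
      have h1 : ∀ᶠ η in 𝓝 (0 : ℝ), 0 < r j - (a - η) ^ 2 := by
        have h2 : Continuous fun η : ℝ => r j - (a - η) ^ 2 := by fun_prop
        apply h2.tendsto 0 |>.eventually_const_lt
        have : r j - (a - 0) ^ 2 = b ^ 2 := by rw [← hab]; ring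
        rw [this]
        positivity
      filter_upwards [h1.filter_mono nhdsWithin_le_nhds] with η hη
      unfold d2
      have h3 : p.1 - η - (c j).1 = a - η := by rw [ha]; ring
      simp only [h3, add_sub_cancel_left, mul_pow, hσ2, one_mul, Real.sq_sqrt hη.le]
      ring
  · refine DMI_.no_move hp hmin' (fun η => (p.1 - η, p.2)) ?_ (fun η => rfl) ?_
    · have h1 : Continuous fun η : ℝ => ((p.1 - η, p.2) : ℝ × ℝ) := by fun_prop
      have h2 := h1.tendsto 0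
      simp only [sub_zero, Prod.mk.eta] at h2
      exact h2.mono_left nhdsWithin_le_nhds
    · intro i hi
      exact absurd ⟨i, hi⟩ hex

end Wex
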