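import Pool.Agent.Wex.Targets
import Pool.Agent.Wey.DYA

/-!
# MP_5ab805_an, spectra on curves: windows and dyadic intervals (helper78, after helper65)
-/

set_option autoImplicit false

namespace Wex

open MeasureTheory Set Filter
open scoped ENNReal NNReal Topology
open Wey (blk)

namespace DYA_

/-- the number of integers in the floor window -/
theorem cnt {x r : ℝ} (hr : 0 ≤ r) :
    ((Finset.Icc ⌊x - r⌋ ⌊x + r⌋).card : ℝ) ≤ 2 * r + 2 := by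
  rw [Int.card_Icc]
  have h1 : ⌊x - r⌋ ≤ ⌊x + r⌋ := Int.floor_le_floor (by linarith)
  have h2 : ((⌊x + r⌋ + 1 - ⌊x - r⌋).toNat : ℝ) = ((⌊x + r⌋ + 1 - ⌊x - r⌋ : ℤ) : ℝ) := by
    have h3 : ((⌊x + r⌋ + 1 - ⌊x - r⌋).toNat : ℤ) = ⌊x + r⌋ + 1 - ⌊x - r⌋ :=
      Int.toNat_of_nonneg (by omega)
    exact_mod_cast congrArg (fun z : ℤ => (z : ℝ)) h3
  rw [h2]
  push_cast
  have h3 := Int.floor_le (x + r)
  have h4 := Int.lt_floor_add_one (x - r)
  linarith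

/-- separated points in a window are few -/
theorem few {φ ψ : ℤ → ℝ} {s W : Finset ℤ} (hS : Sep φ ψ s) (hWs : ∀ n ∈ W, n ∈ s) {σ : ℝ × ℝ}
    {M : ℝ} (hWM : ∀ n ∈ W, nu φ ψ σ n ≤ M) {ℓ : ℕ} (hl : (2 * √M + 3) ^ 2 ≤ 2 ^ ℓ) :
    W.card ≤ 2 ^ ℓ := by
  classical
  have hM : 0 ≤ √M := Real.sqrt_nonneg _
  set R : Finset (ℤ × ℤ) := Finset.Icc ⌊σ.1 - √M⌋ ⌊σ.1 + √M⌋ ×ˢ
    Finset.Icc ⌊σ.2 - √M⌋ ⌊σ.2 + √M⌋ with hR
  have h1 : W.card ≤ R.card := by
    refine Finset.card_le_card_of_injOn (fun n => (⌊2 * φ n⌋, ⌊2 * ψ n⌋)) ?_ ?_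
    · intro n hn
      have hn' := hWM n hn
      unfold nu at hn'
      have h2 : |σ.1 - 2 * φ n| ≤ √M := Real.abs_le_sqrt (by nlinarith [sq_nonneg (σ.2 - 2 * ψ n)])
      have h3 : |σ.2 - 2 * ψ n| ≤ √M := Real.abs_le_sqrt (by nlinarith [sq_nonneg (σ.1 - 2 * φ n)])
      rw [abs_le] at h2 h3
      simp only [hR, Finset.coe_product, Set.mem_prod, Finset.coe_Icc, Set.mem_Icc]
      exact ⟨⟨Int.floor_le_floor (by linarith [h2.2]), Int.floor_le_floor (by linarith [h2.1])⟩,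
        ⟨Int.floor_le_floor (by linarith [h3.2]), Int.floor_le_floor (by linarith [h3.1])⟩⟩
    · intro n hn k hk hnk
      by_contra hne
      have h2 := hS n (hWs n hn) k (hWs k hk) hne
      have h3 : ⌊2 * φ n⌋ = ⌊2 * φ k⌋ := congrArg Prod.fst hnk
      have h4 : ⌊2 * ψ n⌋ = ⌊2 * ψ k⌋ := congrArg Prod.snd hnk
      have h5 := Int.abs_sub_lt_one_of_floor_eq_floor h3
      have h6 := Int.abs_sub_lt_one_of_floor_eq_floor h4
      rw [abs_lt] at h5 h6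
      have h7 : (φ n - φ k) ^ 2 < 1 / 4 := by nlinarith [h5.1, h5.2]
      have h8 : (ψ n - ψ k) ^ 2 < 1 / 4 := by nlinarith [h6.1, h6.2]
      linarith
  have h2 : (R.card : ℝ) ≤ (2 * √M + 2) * (2 * √M + 2) := by
    rw [hR, Finset.card_product]
    push_cast
    have ha := cnt (x := σ.1) hM
    have hb := cnt (x := σ.2) hM
    exact mul_le_mul ha hb (Nat.cast_nonneg _) (by linarith)
  have h3 : (W.card : ℝ) ≤ 2 ^ ℓ := by
    have : (W.card : ℝ) ≤ R.card := by exact_mod_cast h1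
    nlinarith
  exact_mod_cast h3

/-- a finite run of integers with few elements lies in a short interval -/
theorem run {J : Finset ℤ} {ℓ : ℕ} (hJ : (J : Set ℤ).OrdConnected) (hc : J.card ≤ 2 ^ ℓ) :
    ∃ a : ℤ, (J : Set ℤ) ⊆ Ico a (a + 2 ^ ℓ) := by
  by_cases hne : J.Nonempty
  · refine ⟨J.min' hne, fun n hn => ?_⟩
    have h1 : J.min' hne ≤ n := J.min'_le n hn
    have h2 : Finset.Icc (J.min' hne) n ⊆ J := by
      intro x hx
      rw [Finset.mem_Icc] at hx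
      exact hJ.out (J.min'_mem hne) hn ⟨hx.1, hx.2⟩
    have h3 := Finset.card_le_card h2
    rw [Int.card_Icc] at h3
    refine ⟨h1, ?_⟩
    have h4 : (n + 1 - J.min' hne).toNat ≤ 2 ^ ℓ := h3.trans hc
    have h5 : ((n + 1 - J.min' hne).toNat : ℤ) ≤ 2 ^ ℓ := by exact_mod_cast h4
    have h6 := Int.self_le_toNat (n + 1 - J.min' hne)
    have h7 : n + 1 - J.min' hne ≤ 2 ^ ℓ := h6.trans h5
    linarith
  · refine ⟨0, fun n hn => ?_⟩
    exact absurd ⟨n, hn⟩ hne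

theorem win {m : ℕ} {φ ψ : ℤ → ℝ} {α β : ℤ} (hD : Wey.T_DEC) (hS : Sep φ ψ (Finset.Ico α β))
    (hA : Ann m φ ψ (Finset.Ico α β)) (c : ℤ → ℂ) (σ : ℝ × ℝ) (M T τ : ℝ) (ℓ : ℕ)
    (hl : (2 * √M + 3) ^ 2 ≤ 2 ^ ℓ)
    (W : Finset ℤ) (hW : W = (Finset.Ico α β).filter fun n => nu φ ψ σ n ≤ M ∧
      τ - 8 * T < nu φ ψ σ n ∧ nu φ ψ σ n ≤ τ) :
    ∃ DD : Finset (ℕ × ℤ), DD.card ≤ m * (2 * ℓ + 2) ∧
      (∀ d ∈ DD, d.1 ≤ ℓ ∧ ∀ n ∈ Finset.Ico α β, n / 2 ^ d.1 = d.2 → n ∈ W) ∧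
      ∑ n ∈ W, c n = ∑ d ∈ DD, blk (Finset.Ico α β) c d.1 d.2 := by
  classical
  obtain ⟨P, hP1, hP2, hP3⟩ := hA (σ.1 / 2) (σ.2 / 2) ((τ - 8 * T) / 4) (min M τ / 4)
  have hnu : ∀ n : ℤ, nu φ ψ σ n = 4 * ((φ n - σ.1 / 2) ^ 2 + (ψ n - σ.2 / 2) ^ 2) := by
    intro n
    unfold nu
    ring
  have hWP : ∀ n ∈ Finset.Ico α β, n ∈ W ↔ ∃ i, n ∈ P i := by
    intro n hn
    rw [← hP3 n hn, hW, Finset.mem_filter, hnu]
    constructor
    · rintro ⟨_, h1, h2, h3⟩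
      refine ⟨by linarith, ?_⟩
      have := le_min h1 h3
      linarith
    · rintro ⟨h1, h2⟩
      have h4 := min_le_left M τ
      have h5 := min_le_right M τ
      exact ⟨hn, by linarith, by linarith, by linarith⟩
  have hWs : ∀ n ∈ W, n ∈ Finset.Ico α β := by
    intro n hn
    rw [hW] at hn
    exact (Finset.mem_filter.1 hn).1
  have hWM : ∀ n ∈ W, nu φ ψ σ n ≤ M := by
    intro n hn
    rw [hW] at hn
    exact (Finset.mem_filter.1 hn).2.1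
  have hWc : W.card ≤ 2 ^ ℓ := few hS hWs hWM hl
  set Q : Fin m → Finset ℤ := fun k => W.filter fun n => n ∈ P k with hQ
  have hQm : ∀ k n, n ∈ Q k ↔ n ∈ Finset.Ico α β ∧ n ∈ P k := by
    intro k n
    rw [hQ]
    simp only [Finset.mem_filter]
    constructor
    · rintro ⟨h1, h2⟩
      exact ⟨hWs n h1, h2⟩
    · rintro ⟨h1, h2⟩
      exact ⟨(hWP n h1).2 ⟨k, h2⟩, h2⟩
  have hQP : ∀ k, (Q k : Set ℤ) ⊆ P k := fun k n hn => ((hQm k n).1 hn).2
  have hQo : ∀ k, (Q k : Set ℤ).OrdConnected := by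
    intro k
    refine ⟨?_⟩
    intro x hx y hy z hz
    have h1 := (hQm k x).1 hx
    have h2 := (hQm k y).1 hy
    refine (hQm k z).2 ⟨?_, (hP1 k).out h1.2 h2.2 hz⟩
    have h3 := Finset.mem_Ico.1 h1.1
    have h4 := Finset.mem_Ico.1 h2.1
    exact Finset.mem_Ico.2 ⟨h3.1.trans hz.1, hz.2.trans_lt h4.2⟩
  have hQc : ∀ k, (Q k).card ≤ 2 ^ ℓ := fun k =>
    (Finset.card_le_card (Finset.filter_subset _ _)).trans hWc
  choose A hQI using fun k => run (hQo k) (hQc k)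
  choose D hD1 hD2 hD3 using fun k => hD ℓ (A k) (Q k : Set ℤ) (hQo k) (hQI k)
  refine ⟨Finset.univ.biUnion D, ?_, ?_, ?_⟩
  · refine (Finset.card_biUnion_le).trans ?_
    refine (Finset.sum_le_sum fun k _ => hD1 k).trans ?_
    simp
  · intro d hd
    obtain ⟨k, _, hk⟩ := Finset.mem_biUnion.1 hd
    refine ⟨(hD2 k d hk).1, fun n hn hnd => ?_⟩
    exact (hWP n hn).2 ⟨k, hQP k ((hD2 k d hk).2 n hnd)⟩
  · -- unique dyadic interval of every element of `W`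
    have huniq : ∀ n ∈ W, ∃! d, d ∈ Finset.univ.biUnion D ∧ n / 2 ^ d.1 = d.2 := by
      intro n hn
      obtain ⟨k, hk⟩ := (hWP n (hWs n hn)).1 hn
      have hnQ : n ∈ (Q k : Set ℤ) := (hQm k n).2 ⟨hWs n hn, hk⟩
      obtain ⟨d, ⟨hd1, hd2⟩, hd3⟩ := hD3 k n hnQ
      refine ⟨d, ⟨Finset.mem_biUnion.2 ⟨k, Finset.mem_univ _, hd1⟩, hd2⟩, ?_⟩
      rintro d' ⟨hd', hd'2⟩
      obtain ⟨k', _, hk'⟩ := Finset.mem_biUnion.1 hd'
      have hnQ' : n ∈ (Q k' : Set ℤ) := (hD2 k' d' hk').2 n hd'2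
      have hkk : k' = k := by
        by_contra hne
        exact Set.disjoint_left.1 (hP2 k' k hne) (hQP k' hnQ') hk
      subst hkk
      exact hd3 d' ⟨hk', hd'2⟩
    have h1 : ∀ n ∈ W, c n = ∑ d ∈ (Finset.univ.biUnion D).filter (fun d => n / 2 ^ d.1 = d.2),
        c n := by
      intro n hn
      obtain ⟨d, ⟨hd1, hd2⟩, hd3⟩ := huniq n hn
      have : (Finset.univ.biUnion D).filter (fun d => n / 2 ^ d.1 = d.2) = {d} := by
        ext d'
        simp only [Finset.mem_filter, Finset.mem_singleton]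
        constructor
        · intro hd'
          exact hd3 d' hd'
        · rintro rfl
          exact ⟨hd1, hd2⟩
      rw [this, Finset.sum_singleton]
    rw [Finset.sum_congr rfl h1]
    unfold Wey.blk
    refine Finset.sum_comm' ?_
    intro n d
    simp only [Finset.mem_filter]
    constructor
    · rintro ⟨hn, hd, hnd⟩
      exact ⟨⟨hWs n hn, hnd⟩, hd⟩
    · rintro ⟨⟨hn, hnd⟩, hd⟩
      obtain ⟨k, _, hk⟩ := Finset.mem_biUnion.1 hd
      exact ⟨(hWP n hn).2 ⟨k, hQP k ((hD2 k d hk).2 n hnd)⟩, hd, hnd⟩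

end DYA_

theorem p_DYA (h1 : Wey.T_DEC) : T_DYA := by
  classical
  intro m φ ψ α β hS hA c σ M T ℓ hT hM hl
  set s : Finset ℤ := Finset.Ico α β with hs0
  -- representatives of the dyadic intervals
  have hrep : ∀ (i : ℕ) (j : ℤ), ∃ n₀ : ℤ, (∃ n ∈ s, n / 2 ^ i = j) → n₀ ∈ s ∧ n₀ / 2 ^ i = j := by
    intro i j
    by_cases hx : ∃ n ∈ s, n / 2 ^ i = j
    · obtain ⟨n, hn⟩ := hx
      exact ⟨n, fun _ => hn⟩
    · exact ⟨0, fun hy => absurd hy hx⟩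
  choose n₀ hn₀ using hrep
  set K : ℕ := m * (2 * ℓ + 2) with hK
  have hpt : ∀ τ : ℝ, ‖∑ n ∈ s with (nu φ ψ σ n ≤ M ∧ τ - 8 * T < nu φ ψ σ n ∧ nu φ ψ σ n ≤ τ),
      c n‖ₑ ^ 2 ≤ (K : ℝ≥0∞) * ∑ i ∈ Finset.range (ℓ + 1), ∑' j : ℤ,
        (Ico (nu φ ψ σ (n₀ i j)) (nu φ ψ σ (n₀ i j) + 8 * T)).indicator
          (fun _ => ‖blk s c i j‖ₑ ^ 2) τ := by
    intro τ
    obtain ⟨DD, hc, hd, hs⟩ := DYA_.win h1 hS hA c σ M T τ ℓ hl _ rfl
    rw [hs]
    refine (Wey.DYA_.cs DD _ K hc).trans ?_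
    gcongr
    set f : ℕ → ℤ → ℝ≥0∞ := fun i j =>
      (Ico (nu φ ψ σ (n₀ i j)) (nu φ ψ σ (n₀ i j) + 8 * T)).indicator
          (fun _ => ‖blk s c i j‖ₑ ^ 2) τ with hf
    have h2 : ∀ d ∈ DD, ‖blk s c d.1 d.2‖ₑ ^ 2 ≤ f d.1 d.2 := by
      intro d hdd
      by_cases hx : ∃ n ∈ s, n / 2 ^ d.1 = d.2
      · obtain ⟨ha, hb⟩ := hn₀ d.1 d.2 hx
        have hw := (hd d hdd).2 _ ha hb
        rw [Finset.mem_filter] at hw
        have : τ ∈ Ico (nu φ ψ σ (n₀ d.1 d.2)) (nu φ ψ σ (n₀ d.1 d.2) + 8 * T) :=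
          ⟨hw.2.2.2, by linarith [hw.2.2.1]⟩
        simp only [hf]
        rw [Set.indicator_of_mem this]
      · have : blk s c d.1 d.2 = 0 := by
          unfold Wey.blk
          refine Finset.sum_eq_zero ?_
          intro n hn
          rw [Finset.mem_filter] at hn
          exact absurd ⟨n, hn.1, hn.2⟩ hx
        rw [this]
        simp
    refine (Finset.sum_le_sum h2).trans ?_
    have h3 : ∑ d ∈ DD, f d.1 d.2 = ∑ i ∈ Finset.range (ℓ + 1), ∑ d ∈ DD with d.1 = i,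
        f d.1 d.2 := by
      rw [Finset.sum_fiberwise_of_maps_to]
      intro d hdd
      rw [Finset.mem_range]
      have := (hd d hdd).1
      omega
    rw [h3]
    refine Finset.sum_le_sum ?_
    intro i _
    have h4 : ∑ d ∈ DD with d.1 = i, f d.1 d.2 = ∑ j ∈ (DD.filter fun d => d.1 = i).image Prod.snd,
        f i j := by
      rw [Finset.sum_image]
      · refine Finset.sum_congr rfl ?_
        intro d hdd
        rw [(Finset.mem_filter.1 hdd).2]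
      · intro d hdd d' hdd' hj
        simp only [Finset.coe_filter, Set.mem_setOf_eq] at hdd hdd'
        exact Prod.ext (hdd.2.trans hdd'.2.symm) hj
    rw [h4]
    exact ENNReal.sum_le_tsum _
  refine (lintegral_mono hpt).trans ?_
  have hmeas : ∀ i j, Measurable fun τ : ℝ =>
      (Ico (nu φ ψ σ (n₀ i j)) (nu φ ψ σ (n₀ i j) + 8 * T)).indicator
          (fun _ => ‖blk s c i j‖ₑ ^ 2) τ := fun i j =>
    measurable_const.indicator measurableSet_Ico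
  rw [lintegral_const_mul _ (Finset.measurable_sum _ fun i _ => Measurable.ennreal_tsum fun j =>
    hmeas i j), lintegral_finset_sum _ (fun i _ => Measurable.ennreal_tsum fun j => hmeas i j)]
  have h5 : ∀ i ∈ Finset.range (ℓ + 1), ∫⁻ τ : ℝ, ∑' j : ℤ,
      (Ico (nu φ ψ σ (n₀ i j)) (nu φ ψ σ (n₀ i j) + 8 * T)).indicator
          (fun _ => ‖blk s c i j‖ₑ ^ 2) τ = ENNReal.ofReal (8 * T) * ∑' j : ℤ,
            ‖blk s c i j‖ₑ ^ 2 := by
    intro i _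
    rw [lintegral_tsum fun j => (hmeas i j).aemeasurable, ← ENNReal.tsum_mul_left]
    congr 1
    ext j
    rw [lintegral_indicator measurableSet_Ico, setLIntegral_const, Real.volume_Ico, mul_comm]
    congr 2
    ring
  rw [Finset.sum_congr rfl h5, ← Finset.mul_sum, ← mul_assoc]
  gcongr
  rw [hK, ← ENNReal.ofReal_natCast, ← ENNReal.ofReal_mul (Nat.cast_nonneg _)]
  refine ENNReal.ofReal_le_ofReal ?_
  push_cast
  nlinarith

end Wex
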