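import Pool.Agent.Wex.Targets
import Pool.Agent.Wey.FAR

/-!
# MP_5ab805_an, spectra on curves: the far terms
-/

set_option autoImplicit false

namespace Wex

open MeasureTheory Set Filter
open scoped ENNReal NNReal Topology
open Pool.Agent.Restr (u E QQ)
open TriL (Sq n2)
open Wey (nq lam hat gup gdn blk Tk Sl Wi)

namespace FAR_

/-- the two Gaussian sums -/
theorem gsum {C : ℝ} (hC : 0 < C)
    (hG : ∀ (φ ψ : ℤ → ℝ) (s : Finset ℤ) (b : ℝ) (x : ℝ × ℝ), Sep φ ψ s → 0 < b →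
      ∑ n ∈ s, Real.exp (-(b * ((φ n - x.1) ^ 2 + (ψ n - x.2) ^ 2))) ≤ C * (1 + 1 / b))
    {φ ψ : ℤ → ℝ} {s : Finset ℤ} (hs : Sep φ ψ s) (t : ℝ) (σ : ℝ × ℝ) :
    ∑ n ∈ s, Real.exp (-(1 / (16 * (1 + t ^ 2))) * nu φ ψ σ n) ≤ 5 * C * (1 + t ^ 2) ∧
    ∑ n ∈ s, Real.exp (-(1 / (16 * (1 + t ^ 2))) * ((σ.1 - φ n) ^ 2 + (σ.2 - ψ n) ^ 2)) ≤
      17 * C * (1 + t ^ 2) := by
  have hT : (0 : ℝ) < 1 + t ^ 2 := by positivity
  have hT1 : (1 : ℝ) ≤ 1 + t ^ 2 := by nlinarith [sq_nonneg t]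
  have hCT : C ≤ C * (1 + t ^ 2) := le_mul_of_one_le_right hC.le hT1
  constructor
  · have e1 := hG φ ψ s (4 * (1 / (16 * (1 + t ^ 2)))) (σ.1 / 2, σ.2 / 2) hs (by positivity)
    have e2 : ∑ n ∈ s, Real.exp (-(1 / (16 * (1 + t ^ 2))) * nu φ ψ σ n) =
        ∑ n ∈ s, Real.exp (-(4 * (1 / (16 * (1 + t ^ 2))) *
          ((φ n - (σ.1 / 2, σ.2 / 2).1) ^ 2 + (ψ n - (σ.1 / 2, σ.2 / 2).2) ^ 2))) := by
      refine Finset.sum_congr rfl fun n _ => ?_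
      congr 1
      unfold nu
      ring
    rw [e2]
    refine e1.trans ?_
    have e3 : 1 / (4 * (1 / (16 * (1 + t ^ 2)))) = 4 * (1 + t ^ 2) := by
      field_simp
      norm_num
    rw [e3]
    nlinarith
  · have e1 := hG φ ψ s (1 / (16 * (1 + t ^ 2))) σ hs (by positivity)
    have e2 : ∑ n ∈ s, Real.exp (-(1 / (16 * (1 + t ^ 2))) *
        ((σ.1 - φ n) ^ 2 + (σ.2 - ψ n) ^ 2)) =
        ∑ n ∈ s, Real.exp (-(1 / (16 * (1 + t ^ 2)) *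
          ((φ n - σ.1) ^ 2 + (ψ n - σ.2) ^ 2))) := by
      refine Finset.sum_congr rfl fun n _ => ?_
      congr 1
      ring
    rw [e2]
    refine e1.trans ?_
    have e3 : 1 / (1 / (16 * (1 + t ^ 2))) = 16 * (1 + t ^ 2) := by
      field_simp
    rw [e3]
    nlinarith

end FAR_

open FAR_

theorem p_FAR (h1 : T_GAU) : T_FAR := by
  obtain ⟨C, hC, hG⟩ := h1
  refine ⟨Real.toNNReal (3400 * C ^ 2), fun φ ψ s a F A M t hs hF hFi ha => ?_⟩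
  have hT : (0 : ℝ) < 1 + t ^ 2 := by positivity
  have g1 := fun σ : ℝ × ℝ => (gsum hC hG hs t σ).1
  have g2 := fun σ : ℝ × ℝ => (gsum hC hG hs t σ).2
  set b : ℝ := 1 / (16 * (1 + t ^ 2)) with hb
  have hbpos : 0 < b := by positivity
  have hK1 : (0 : ℝ) ≤ 5 * C * (1 + t ^ 2) := by positivity
  have hK2 : (0 : ℝ) ≤ 17 * C * (1 + t ^ 2) := by positivity
  -- the second factor
  have s2 : ∀ σ : ℝ × ℝ, ENNReal.ofReal (∑ n ∈ s, Real.exp (-b * nu φ ψ σ n)) ≤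
      ENNReal.ofReal (5 * C * (1 + t ^ 2)) := fun σ => ENNReal.ofReal_le_ofReal (g1 σ)
  -- the integrand
  have s0 : ∀ σ : ℝ × ℝ, ‖∑ n ∈ s with M < nu φ ψ σ n, cf φ ψ a F σ n *
      Complex.exp (-(lam t / 2 * ((nu φ ψ σ n : ℝ) : ℂ)))‖ₑ ^ 2 ≤
      ENNReal.ofReal (Real.exp (-M / (8 * (1 + t ^ 2))) * (5 * C * (1 + t ^ 2))) *
        ∑ n ∈ s, ((A : ℝ≥0∞) ^ 2 * (‖hat F (σ.1 - φ n, σ.2 - ψ n)‖ₑ ^ 2 *
          ENNReal.ofReal (Real.exp (-b * nu φ ψ σ n)))) := by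
    intro σ
    have e1 := Wey.FAR_.cs s (cf φ ψ a F σ) (nu φ ψ σ) t M
    rw [← hb] at e1
    have e2 : ‖∑ n ∈ s with M < nu φ ψ σ n, cf φ ψ a F σ n *
        Complex.exp (-(lam t / 2 * ((nu φ ψ σ n : ℝ) : ℂ)))‖ₑ ^ 2 =
        ENNReal.ofReal (‖∑ n ∈ s with M < nu φ ψ σ n, cf φ ψ a F σ n *
        Complex.exp (-(lam t / 2 * ((nu φ ψ σ n : ℝ) : ℂ)))‖ ^ 2) := by
      rw [ENNReal.ofReal_pow (norm_nonneg _), ofReal_norm]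
    rw [e2]
    refine (ENNReal.ofReal_le_ofReal e1).trans ?_
    have n1 : (0 : ℝ) ≤ ∑ n ∈ s, ‖cf φ ψ a F σ n‖ ^ 2 * Real.exp (-b * nu φ ψ σ n) :=
      Finset.sum_nonneg fun n _ => by positivity
    rw [ENNReal.ofReal_mul (Real.exp_pos _).le, ENNReal.ofReal_mul n1,
      ENNReal.ofReal_mul (Real.exp_pos _).le]
    have e3 : ENNReal.ofReal (∑ n ∈ s, ‖cf φ ψ a F σ n‖ ^ 2 * Real.exp (-b * nu φ ψ σ n)) ≤
        ∑ n ∈ s, ((A : ℝ≥0∞) ^ 2 * (‖hat F (σ.1 - φ n, σ.2 - ψ n)‖ₑ ^ 2 *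
          ENNReal.ofReal (Real.exp (-b * nu φ ψ σ n)))) := by
      rw [ENNReal.ofReal_sum_of_nonneg fun n _ => by positivity]
      refine Finset.sum_le_sum fun n hn => ?_
      rw [ENNReal.ofReal_mul (by positivity), ENNReal.ofReal_pow (norm_nonneg _), ofReal_norm]
      unfold cf
      rw [enorm_mul, mul_pow, mul_assoc]
      gcongr
      exact ha n hn
    calc ENNReal.ofReal (Real.exp (-M / (8 * (1 + t ^ 2)))) *
          (ENNReal.ofReal (∑ n ∈ s, ‖cf φ ψ a F σ n‖ ^ 2 * Real.exp (-b * nu φ ψ σ n)) *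
            ENNReal.ofReal (∑ n ∈ s, Real.exp (-b * nu φ ψ σ n)))
        ≤ ENNReal.ofReal (Real.exp (-M / (8 * (1 + t ^ 2)))) *
          ((∑ n ∈ s, ((A : ℝ≥0∞) ^ 2 * (‖hat F (σ.1 - φ n, σ.2 - ψ n)‖ₑ ^ 2 *
            ENNReal.ofReal (Real.exp (-b * nu φ ψ σ n))))) *
              ENNReal.ofReal (5 * C * (1 + t ^ 2))) :=
          mul_le_mul_right (mul_le_mul' e3 (s2 σ)) _
      _ = _ := by ring
  have mh := Wey.FAR_.measurable_hat hF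
  -- integration
  have s1 : ∀ n : ℤ, ∫⁻ σ : ℝ × ℝ, (A : ℝ≥0∞) ^ 2 * (‖hat F (σ.1 - φ n, σ.2 - ψ n)‖ₑ ^ 2 *
      ENNReal.ofReal (Real.exp (-b * nu φ ψ σ n))) =
      ∫⁻ y : ℝ × ℝ, (A : ℝ≥0∞) ^ 2 * (‖hat F y‖ₑ ^ 2 *
        ENNReal.ofReal (Real.exp (-b * ((y.1 - φ n) ^ 2 + (y.2 - ψ n) ^ 2)))) := by
    intro n
    have e1 := lintegral_sub_right_eq_self (μ := (volume : Measure (ℝ × ℝ)))
      (fun y : ℝ × ℝ => (A : ℝ≥0∞) ^ 2 * (‖hat F y‖ₑ ^ 2 *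
        ENNReal.ofReal (Real.exp (-b * ((y.1 - φ n) ^ 2 + (y.2 - ψ n) ^ 2)))))
      (φ n, ψ n)
    rw [← e1]
    refine lintegral_congr fun σ => ?_
    have e2 : σ - (φ n, ψ n) = (σ.1 - φ n, σ.2 - ψ n) := by
      ext <;> simp
    rw [e2]
    congr 5
    unfold nu
    ring
  have m1 : ∀ n : ℤ, Measurable fun y : ℝ × ℝ => (A : ℝ≥0∞) ^ 2 * (‖hat F y‖ₑ ^ 2 *
      ENNReal.ofReal (Real.exp (-b * ((y.1 - φ n) ^ 2 + (y.2 - ψ n) ^ 2)))) := by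
    intro n
    fun_prop
  have m2 : ∀ n : ℤ, Measurable fun σ : ℝ × ℝ => (A : ℝ≥0∞) ^ 2 *
      (‖hat F (σ.1 - φ n, σ.2 - ψ n)‖ₑ ^ 2 *
        ENNReal.ofReal (Real.exp (-b * nu φ ψ σ n))) := by
    intro n
    unfold nu
    have m3 : Measurable fun σ : ℝ × ℝ => hat F (σ.1 - φ n, σ.2 - ψ n) :=
      mh.comp (by fun_prop)
    fun_prop
  have s3 : ∑ n ∈ s, ∫⁻ y : ℝ × ℝ, (A : ℝ≥0∞) ^ 2 * (‖hat F y‖ₑ ^ 2 *
        ENNReal.ofReal (Real.exp (-b * ((y.1 - φ n) ^ 2 + (y.2 - ψ n) ^ 2)))) ≤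
      (A : ℝ≥0∞) ^ 2 * (ENNReal.ofReal (17 * C * (1 + t ^ 2)) *
        (ENNReal.ofReal (4 * Real.pi ^ 2) * ∫⁻ x, ‖F x‖ₑ ^ 2)) := by
    rw [← lintegral_finsetSum s fun n _ => m1 n]
    have e1 : ∀ y : ℝ × ℝ, ∑ n ∈ s, (A : ℝ≥0∞) ^ 2 * (‖hat F y‖ₑ ^ 2 *
        ENNReal.ofReal (Real.exp (-b * ((y.1 - φ n) ^ 2 + (y.2 - ψ n) ^ 2)))) ≤
        (A : ℝ≥0∞) ^ 2 * (ENNReal.ofReal (17 * C * (1 + t ^ 2)) * ‖hat F y‖ₑ ^ 2) := by
      intro y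
      rw [← Finset.mul_sum, ← Finset.mul_sum, mul_comm (ENNReal.ofReal _)]
      gcongr
      rw [← ENNReal.ofReal_sum_of_nonneg fun n _ => (Real.exp_pos _).le]
      exact ENNReal.ofReal_le_ofReal (g2 y)
    refine (lintegral_mono e1).trans ?_
    rw [lintegral_const_mul _ (by fun_prop), lintegral_const_mul _ (by fun_prop)]
    gcongr
    exact Wey.FAR_.planch hF
  refine (lintegral_mono s0).trans ?_
  rw [lintegral_const_mul _ (Finset.measurable_sum _ fun n _ => m2 n),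
    lintegral_finsetSum s fun n _ => m2 n, Finset.sum_congr rfl fun n _ => s1 n]
  refine (mul_le_mul_right s3 _).trans ?_
  have e1 : ENNReal.ofReal (Real.exp (-M / (8 * (1 + t ^ 2))) * (5 * C * (1 + t ^ 2))) *
      ((A : ℝ≥0∞) ^ 2 * (ENNReal.ofReal (17 * C * (1 + t ^ 2)) *
        (ENNReal.ofReal (4 * Real.pi ^ 2) * ∫⁻ x, ‖F x‖ₑ ^ 2))) =
      ENNReal.ofReal (Real.exp (-M / (8 * (1 + t ^ 2))) * (5 * C * (1 + t ^ 2)) *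
        (17 * C * (1 + t ^ 2)) * (4 * Real.pi ^ 2)) *
        ((A : ℝ≥0∞) ^ 2 * ∫⁻ x, ‖F x‖ₑ ^ 2) := by
    rw [ENNReal.ofReal_mul (q := 4 * Real.pi ^ 2) (by positivity),
      ENNReal.ofReal_mul (q := 17 * C * (1 + t ^ 2)) (by positivity)]
    ring
  rw [e1]
  refine mul_le_mul_left ?_ _
  have e2 : ((Real.toNNReal (3400 * C ^ 2) : ℝ≥0) : ℝ≥0∞) = ENNReal.ofReal (3400 * C ^ 2) := rfl
  rw [e2, ← ENNReal.ofReal_mul (by positivity)]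
  refine ENNReal.ofReal_le_ofReal ?_
  have e4 : Real.exp (-M / (8 * (1 + t ^ 2))) * (5 * C * (1 + t ^ 2)) *
      (17 * C * (1 + t ^ 2)) * (4 * Real.pi ^ 2) =
      (340 * Real.pi ^ 2) * (C ^ 2 * ((1 + t ^ 2) ^ 2 *
        Real.exp (-M / (8 * (1 + t ^ 2))))) := by
    ring
  have e5 : 3400 * C ^ 2 * ((1 + t ^ 2) ^ 2 * Real.exp (-M / (8 * (1 + t ^ 2)))) =
      3400 * (C ^ 2 * ((1 + t ^ 2) ^ 2 * Real.exp (-M / (8 * (1 + t ^ 2))))) := by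
    ring
  rw [e4, e5]
  refine mul_le_mul_of_nonneg_right ?_ (by positivity)
  have := Real.pi_lt_d2
  have h3 := Real.pi_pos
  nlinarith

end Wex
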