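import Pool.Agent.Wex.Targets2
import Pool.Agent.Wey.ASM
import Pool.Agent.Wey.SLI

/-!
# MP_5ab805_an, arbitrary spectra: FI0, functions on the small square, time zero
-/

set_option autoImplicit false

namespace Wex

open MeasureTheory Set Filter
open scoped ENNReal NNReal Topology
open Pool.Agent.Restr (u E QQ)
open TriL (Sq n2)
open Wey (nq lam hat gup gdn blk Tk Sl Wi InD)

namespace FI0_

/-- the big square -/
def BQ (R : ℕ) : Set (ℝ × ℝ) :=
  {y | -(R : ℝ) ≤ y.1 ∧ y.1 < R ∧ -(R : ℝ) ≤ y.2 ∧ y.2 < R}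

open Classical in
/-- the transform cut off to the big square -/
noncomputable def gR (g : ℝ × ℝ → ℂ) (R : ℕ) (y : ℝ × ℝ) : ℂ :=
  if -(R : ℝ) ≤ y.1 ∧ y.1 < R ∧ -(R : ℝ) ≤ y.2 ∧ y.2 < R then hat g y else 0

theorem gR_eq (g : ℝ × ℝ → ℂ) (R : ℕ) : gR g R = (BQ R).indicator (hat g) := by
  funext y
  unfold gR BQ
  by_cases h : -(R : ℝ) ≤ y.1 ∧ y.1 < R ∧ -(R : ℝ) ≤ y.2 ∧ y.2 < R
  · rw [if_pos h, indicator_of_mem (by exact h)]
  · rw [if_neg h, indicator_of_notMem (by exact h)]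

theorem BQ_eq (R : ℕ) : BQ R = Ico (-(R : ℝ)) R ×ˢ Ico (-(R : ℝ)) R := by
  ext y
  constructor
  · rintro ⟨h1, h2, h3, h4⟩
    exact ⟨⟨h1, h2⟩, h3, h4⟩
  · rintro ⟨⟨h1, h2⟩, h3, h4⟩
    exact ⟨h1, h2, h3, h4⟩

theorem meas_BQ (R : ℕ) : MeasurableSet (BQ R) := by
  rw [BQ_eq]
  exact measurableSet_Ico.prod measurableSet_Ico

theorem vol_BQ (R : ℕ) : volume (BQ R) < ∞ := by
  refine lt_of_le_of_lt (measure_mono (t := Icc (-(R : ℝ)) R ×ˢ Icc (-(R : ℝ)) R) ?_)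
    (isCompact_Icc.prod isCompact_Icc).measure_lt_top
  rw [BQ_eq]
  exact prod_mono Ico_subset_Icc_self Ico_subset_Icc_self

theorem gR_norm_le (g : ℝ × ℝ → ℂ) (R : ℕ) (y : ℝ × ℝ) : ‖gR g R y‖ ≤ ‖hat g y‖ := by
  rw [gR_eq]
  exact norm_indicator_le_norm_self _ _

theorem gR_enorm_le (g : ℝ × ℝ → ℂ) (R : ℕ) (y : ℝ × ℝ) : ‖gR g R y‖ₑ ≤ ‖hat g y‖ₑ := by
  rw [← ofReal_norm, ← ofReal_norm]
  exact ENNReal.ofReal_le_ofReal (gR_norm_le g R y)

theorem gR_meas {g : ℝ × ℝ → ℂ} (hg : Measurable g) (R : ℕ) : Measurable (gR g R) := by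
  rw [gR_eq]
  exact (Wey.SLI_.measurable_hat hg).indicator (meas_BQ R)

theorem gR_int {g : ℝ × ℝ → ℂ} (hg : Measurable g) (R : ℕ) : Integrable (gR g R) := by
  rw [gR_eq]
  refine (integrable_indicator_iff (meas_BQ R)).mpr ?_
  refine Measure.integrableOn_of_bounded (M := ∫ x, ‖g x‖) (vol_BQ R).ne
    (Wey.SLI_.measurable_hat hg).aestronglyMeasurable ?_
  exact Eventually.of_forall fun y => Wey.SLI_.norm_hat_le g y

theorem gR_n2 {g : ℝ × ℝ → ℂ} (R : ℕ) : ∫⁻ y, ‖gR g R y‖ₑ ^ 2 < ∞ := by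
  have h1 : ∀ y, ‖gR g R y‖ₑ ^ 2 ≤
      (BQ R).indicator (fun _ => ENNReal.ofReal (∫ x, ‖g x‖) ^ 2) y := by
    intro y
    rw [gR_eq]
    by_cases hy : y ∈ BQ R
    · rw [indicator_of_mem hy, indicator_of_mem hy, ← ofReal_norm]
      gcongr
      exact Wey.SLI_.norm_hat_le g y
    · rw [indicator_of_notMem hy, indicator_of_notMem hy]
      simp
  refine (lintegral_mono h1).trans_lt ?_
  rw [lintegral_indicator (meas_BQ R), setLIntegral_const]
  exact ENNReal.mul_lt_top (by finiteness) (vol_BQ R)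

/-- the cells of the big square -/
noncomputable def SS (R : ℕ) : Finset (ℤ × ℤ) := Finset.Ico (-(R : ℤ)) R ×ˢ Finset.Ico (-(R : ℤ)) R

theorem gR_supp (g : ℝ × ℝ → ℂ) (R : ℕ) (y : ℝ × ℝ) (hy : ∀ k ∈ SS R, y ∉ cell k) :
    gR g R y = 0 := by
  rw [gR_eq]
  refine indicator_of_notMem (fun h => ?_) _
  obtain ⟨h1, h2, h3, h4⟩ := h
  refine hy (⌊y.1⌋, ⌊y.2⌋) ?_ ?_
  · unfold SS
    rw [Finset.mem_product, Finset.mem_Ico, Finset.mem_Ico]
    refine ⟨⟨?_, ?_⟩, ?_, ?_⟩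
    · exact Int.le_floor.mpr (by push_cast; exact h1)
    · exact Int.floor_lt.mpr (by push_cast; exact h2)
    · exact Int.le_floor.mpr (by push_cast; exact h3)
    · exact Int.floor_lt.mpr (by push_cast; exact h4)
  · unfold cell
    exact ⟨⟨Int.floor_le _, Int.lt_floor_add_one _⟩, Int.floor_le _, Int.lt_floor_add_one _⟩

theorem amal_mono {s : ℝ} (hs : 0 < s) {γ δ : ℝ × ℝ → ℂ} (h : ∀ y, ‖γ y‖ₑ ≤ ‖δ y‖ₑ) :
    amal s γ ≤ amal s δ := by
  unfold amal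
  refine ENNReal.rpow_le_rpow (ENNReal.tsum_le_tsum fun k => ?_) (by positivity)
  refine ENNReal.rpow_le_rpow (lintegral_mono fun y => ?_) (by positivity)
  exact pow_le_pow_left₀ zero_le (h y) 2

end FI0_

open FI0_ in
theorem p_FI0 (h1 : T_LEV) (h2 : T_AMA) (h3 : T_CHI) : T_FI0 := by
  intro ρ s μ t hρ hρ2 hs hsρ hμ hμ4 ht hμt
  obtain ⟨C1, hC1⟩ := h1 ρ s μ t hρ hρ2 hs hsρ hμ hμ4 ht hμt
  obtain ⟨C2, hC2⟩ := h2 s hs (by linarith)
  have ht2 : t ≤ 2 := by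
    have e1 : 3 / 4 < 1 / μ := by
      rw [lt_div_iff₀ (by linarith)]
      linarith
    have e2 : 1 / 2 < 1 / t := by linarith
    rw [lt_div_iff₀ (by linarith)] at e2
    linarith
  obtain ⟨C3, hC3⟩ := h2 t ht ht2
  obtain ⟨χ, K, hχ, hQ, hχ1, hlim⟩ := h3
  refine ⟨C1 * K * (C2 + C3), fun f g hf hf1 hgm hgi hg0 => ?_⟩
  have hgS : Sq g := by
    refine ⟨hgm, fun x hx => ?_⟩
    refine hg0 x ?_
    by_contra hcon
    push Not at hcon
    refine hx ?_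
    have e1 := abs_le.mp hcon.1
    have e2 := abs_le.mp hcon.2
    exact ⟨⟨by linarith [e1.1], by linarith [e1.2]⟩, by linarith [e2.1], by linarith [e2.2]⟩
  have hχg : (fun x => χ x * g x) = g := by
    funext x
    by_cases hx : 1 / 4 < |x.1| ∨ 1 / 4 < |x.2|
    · rw [hg0 x hx, mul_zero]
    · push Not at hx
      rw [hχ1 x hx.1 hx.2, one_mul]
  have hlim' : ∀ ξ : ℝ × ℝ × ℝ, Tendsto (fun R : ℕ => E (fun x => χ x * chk (gR g R) x) ξ) atTop
      (𝓝 (4 * Real.pi ^ 2 * E g ξ)) := by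
    intro ξ
    have h := hlim g hgm hgi ξ
    rw [hχg] at h
    refine h.congr fun R => ?_
    congr 1
  have key : ∀ R : ℕ, eLpNorm (fun ξ => E f ξ * E (fun x => χ x * chk (gR g R) x) ξ)
        (ENNReal.ofReal ρ) volume ≤ C1 * K * amal s (gR g R) ∧
      ∀ h : ℝ × ℝ → ℂ, Sq h →
      eLpNorm (fun ξ => E f ξ * E h ξ * E (fun x => χ x * chk (gR g R) x) ξ)
        (ENNReal.ofReal μ) volume ≤ C1 * K * amal t (gR g R) * eLpNorm h 2 volume := fun R =>
    hC1 χ (gR g R) K (SS R) hχ hQ (gR_meas hgm R) (gR_int hgm R) (gR_n2 R) (gR_supp g R) f hf hf1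
  have ks : ∀ R : ℕ, amal s (gR g R) ≤ C2 * (∫⁻ y, ‖hat g y‖ₑ ^ s) ^ (1 / s) := fun R =>
    (amal_mono (by linarith) (gR_enorm_le g R)).trans (hC2 g hgS hgi)
  have kt : ∀ R : ℕ, amal t (gR g R) ≤ C3 * (∫⁻ y, ‖hat g y‖ₑ ^ t) ^ (1 / t) := fun R =>
    (amal_mono (by linarith) (gR_enorm_le g R)).trans (hC3 g hgS hgi)
  have hmE : ∀ R : ℕ, Measurable (E (fun x => χ x * chk (gR g R) x)) := by
    intro R
    have hc : Continuous (chk (gR g R)) := by
      unfold chk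
      refine continuous_of_dominated (bound := fun w => ‖gR g R w‖) (fun x => ?_)
        (fun x => Eventually.of_forall fun w => ?_) (gR_int hgm R).norm
        (Eventually.of_forall fun w => ?_)
      · exact ((Pool.Agent.Restr.continuous_u.comp (by fun_prop)).aestronglyMeasurable).mul
          (gR_int hgm R).1
      · rw [norm_mul, Pool.Agent.Restr.norm_u, one_mul]
      · exact (Pool.Agent.Restr.continuous_u.comp (by fun_prop)).mul continuous_const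
    exact Pool.Agent.Restr.measurable_E ((Wey.ASM_.wi_cont hχ).measurable.mul hc.measurable)
  have hmf : Measurable (E f) := Pool.Agent.Restr.measurable_E hf.1
  have hpi : (1 : ℝ) ≤ ‖(4 * Real.pi ^ 2 : ℂ)‖ := by
    have e1 : ‖(4 * Real.pi ^ 2 : ℂ)‖ = 4 * Real.pi ^ 2 := by
      rw [norm_mul, norm_pow, Complex.norm_real, Real.norm_eq_abs, sq_abs]
      norm_num
    rw [e1]
    nlinarith [Real.pi_gt_three]
  refine ⟨?_, fun h hh => ?_⟩
  · have e1 : eLpNorm (fun ξ => E f ξ * (4 * Real.pi ^ 2 * E g ξ)) (ENNReal.ofReal ρ) volume ≤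
        C1 * K * (C2 * (∫⁻ y, ‖hat g y‖ₑ ^ s) ^ (1 / s)) := by
      refine Lp.eLpNorm_le_of_ae_tendsto (u := atTop)
        (f := fun (R : ℕ) ξ => E f ξ * E (fun x => χ x * chk (gR g R) x) ξ)
        (Eventually.of_forall fun R => ?_)
        (fun R => (hmf.mul (hmE R)).aestronglyMeasurable)
        (Eventually.of_forall fun ξ => (hlim' ξ).const_mul _)
      refine (key R).1.trans ?_
      gcongr
      exact ks R
    have e2 : eLpNorm (fun ξ => E f ξ * E g ξ) (ENNReal.ofReal ρ) volume ≤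
        eLpNorm (fun ξ => E f ξ * (4 * Real.pi ^ 2 * E g ξ)) (ENNReal.ofReal ρ) volume := by
      refine eLpNorm_mono fun ξ => ?_
      rw [norm_mul, norm_mul, norm_mul (4 * (Real.pi : ℂ) ^ 2)]
      refine mul_le_mul_of_nonneg_left ?_ (norm_nonneg _)
      exact le_mul_of_one_le_left (norm_nonneg _) hpi
    refine e2.trans (e1.trans ?_)
    push_cast
    calc (C1 : ℝ≥0∞) * K * (C2 * (∫⁻ y, ‖hat g y‖ₑ ^ s) ^ (1 / s))
        = C1 * K * C2 * (∫⁻ y, ‖hat g y‖ₑ ^ s) ^ (1 / s) := by ring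
      _ ≤ C1 * K * (C2 + C3) * (∫⁻ y, ‖hat g y‖ₑ ^ s) ^ (1 / s) := by
          gcongr
          exact le_self_add
  · have hmh : Measurable (E h) := Pool.Agent.Restr.measurable_E hh.1
    have e1 : eLpNorm (fun ξ => E f ξ * E h ξ * (4 * Real.pi ^ 2 * E g ξ)) (ENNReal.ofReal μ)
        volume ≤ C1 * K * (C3 * (∫⁻ y, ‖hat g y‖ₑ ^ t) ^ (1 / t)) * eLpNorm h 2 volume := by
      refine Lp.eLpNorm_le_of_ae_tendsto (u := atTop)
        (f := fun (R : ℕ) ξ => E f ξ * E h ξ * E (fun x => χ x * chk (gR g R) x) ξ)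
        (Eventually.of_forall fun R => ?_)
        (fun R => ((hmf.mul hmh).mul (hmE R)).aestronglyMeasurable)
        (Eventually.of_forall fun ξ => (hlim' ξ).const_mul _)
      refine ((key R).2 h hh).trans ?_
      gcongr
      exact kt R
    have e2 : eLpNorm (fun ξ => E f ξ * E h ξ * E g ξ) (ENNReal.ofReal μ) volume ≤
        eLpNorm (fun ξ => E f ξ * E h ξ * (4 * Real.pi ^ 2 * E g ξ)) (ENNReal.ofReal μ) volume := by
      refine eLpNorm_mono fun ξ => ?_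
      rw [norm_mul, norm_mul (E f ξ * E h ξ), norm_mul (4 * (Real.pi : ℂ) ^ 2)]
      refine mul_le_mul_of_nonneg_left ?_ (norm_nonneg _)
      exact le_mul_of_one_le_left (norm_nonneg _) hpi
    refine e2.trans (e1.trans ?_)
    push_cast
    calc (C1 : ℝ≥0∞) * K * (C3 * (∫⁻ y, ‖hat g y‖ₑ ^ t) ^ (1 / t)) * eLpNorm h 2 volume
        = C1 * K * C3 * (∫⁻ y, ‖hat g y‖ₑ ^ t) ^ (1 / t) * eLpNorm h 2 volume := by ring
      _ ≤ C1 * K * (C2 + C3) * (∫⁻ y, ‖hat g y‖ₑ ^ t) ^ (1 / t) * eLpNorm h 2 volume := by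
          gcongr
          exact le_add_self

end Wex
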