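import Pool.Agent.Wex.Targets2

/-!
# MP_5ab805_an, WEX2-FIN: from the small square to the disc, at every time (helper61)
-/

set_option autoImplicit false

namespace Wex

open MeasureTheory Set Filter
open scoped ENNReal NNReal Topology
open Pool.Agent.Restr (u E QQ norm_u u_add continuous_u enorm_u measurable_E)
open TriL (Sq n2)
open Wey (nq hat InD)

namespace FIN_

/-- the dilate `f (2 x)` -/
noncomputable def dl (f : ℝ × ℝ → ℂ) (x : ℝ × ℝ) : ℂ := f (2 * x.1, 2 * x.2)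

theorem smul_two (F : ℝ × ℝ → ℂ) :
    (fun x : ℝ × ℝ => F ((2 : ℝ) • x)) = fun x => F (2 * x.1, 2 * x.2) := by
  funext x
  rw [Prod.smul_def]
  simp only [smul_eq_mul]

theorem int_two (F : ℝ × ℝ → ℂ) :
    ∫ x : ℝ × ℝ, F x = 4 * ∫ x : ℝ × ℝ, F (2 * x.1, 2 * x.2) := by
  have h := Measure.integral_comp_smul (volume : Measure (ℝ × ℝ)) F 2
  have h2 : Module.finrank ℝ (ℝ × ℝ) = 2 := by simp
  rw [h2, smul_two F] at h
  rw [h, Complex.real_smul, ← mul_assoc]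
  norm_num

theorem E_dl (f : ℝ × ℝ → ℂ) (ξ : ℝ × ℝ × ℝ) :
    E f ξ = 4 * E (dl f) (2 * ξ.1, 2 * ξ.2.1, 4 * ξ.2.2) := by
  unfold E
  rw [int_two]
  congr 1
  refine integral_congr_ae (ae_of_all _ fun x => ?_)
  simp only [dl]
  congr 2
  ring

theorem hat_dl (g : ℝ × ℝ → ℂ) (y : ℝ × ℝ) :
    hat g y = 4 * hat (dl g) (2 * y.1, 2 * y.2) := by
  unfold hat
  rw [int_two]
  congr 1
  refine integral_congr_ae (ae_of_all _ fun x => ?_)
  simp only [dl]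
  congr 2
  ring

theorem map_mul {a : ℝ} (ha : 0 < a) : Measure.map (fun x : ℝ => a * x) volume =
    ENNReal.ofReal a⁻¹ • (volume : Measure ℝ) := by
  have h := Real.map_volume_mul_left (ne_of_gt ha)
  rw [abs_of_pos (inv_pos.2 ha)] at h
  exact h

theorem map2 {a b : ℝ} (ha : 0 < a) (hb : 0 < b) :
    Measure.map (fun x : ℝ × ℝ => (a * x.1, b * x.2)) volume =
      (ENNReal.ofReal a⁻¹ * ENNReal.ofReal b⁻¹) • (volume : Measure (ℝ × ℝ)) := by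
  have h := Measure.map_prod_map (volume : Measure ℝ) (volume : Measure ℝ)
    (measurable_const_mul a) (measurable_const_mul b)
  rw [map_mul ha, map_mul hb, Measure.prod_smul_left, Measure.prod_smul_right, smul_smul] at h
  exact h.symm

theorem map3 {a b c : ℝ} (ha : 0 < a) (hb : 0 < b) (hc : 0 < c) :
    Measure.map (fun x : ℝ × ℝ × ℝ => (a * x.1, b * x.2.1, c * x.2.2)) volume =
      (ENNReal.ofReal a⁻¹ * (ENNReal.ofReal b⁻¹ * ENNReal.ofReal c⁻¹)) •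
        (volume : Measure (ℝ × ℝ × ℝ)) := by
  have h := Measure.map_prod_map (volume : Measure ℝ) (volume : Measure (ℝ × ℝ))
    (measurable_const_mul a) (g := fun x : ℝ × ℝ => (b * x.1, c * x.2)) (by fun_prop)
  rw [map_mul ha, map2 hb hc, Measure.prod_smul_left, Measure.prod_smul_right, smul_smul] at h
  exact h.symm

theorem norm_scale (r : ℝ≥0∞) {F : ℝ × ℝ × ℝ → ℂ} (hF : Measurable F) :
    eLpNorm (fun ξ : ℝ × ℝ × ℝ => F (2 * ξ.1, 2 * ξ.2.1, 4 * ξ.2.2)) r volume ≤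
      eLpNorm F r volume := by
  have h := eLpNorm_map_measure (p := r) (μ := (volume : Measure (ℝ × ℝ × ℝ)))
    (f := fun ξ : ℝ × ℝ × ℝ => (2 * ξ.1, 2 * ξ.2.1, 4 * ξ.2.2)) (g := F)
    hF.aestronglyMeasurable (by fun_prop)
  have h2 : (fun ξ : ℝ × ℝ × ℝ => F (2 * ξ.1, 2 * ξ.2.1, 4 * ξ.2.2)) =
      F ∘ fun ξ : ℝ × ℝ × ℝ => (2 * ξ.1, 2 * ξ.2.1, 4 * ξ.2.2) := rfl
  rw [h2, ← h]
  refine eLpNorm_mono_measure F ?_
  rw [map3 two_pos two_pos (by norm_num)]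
  have h3 : ENNReal.ofReal (2 : ℝ)⁻¹ * (ENNReal.ofReal (2 : ℝ)⁻¹ * ENNReal.ofReal (4 : ℝ)⁻¹) ≤
      1 := by
    rw [← ENNReal.ofReal_mul (by norm_num), ← ENNReal.ofReal_mul (by norm_num)]
    rw [← ENNReal.ofReal_one]
    exact ENNReal.ofReal_le_ofReal (by norm_num)
  refine Measure.le_iff.2 fun s _ => ?_
  rw [Measure.smul_apply, smul_eq_mul]
  calc _ ≤ 1 * volume s := by gcongr
    _ = volume s := one_mul _

theorem cmul (r : ℝ≥0∞) (k : ℕ) {G F : ℝ × ℝ × ℝ → ℂ} (hF : Measurable F)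
    (h : ∀ ξ : ℝ × ℝ × ℝ, G ξ = (k : ℂ) * F (2 * ξ.1, 2 * ξ.2.1, 4 * ξ.2.2)) :
    eLpNorm G r volume ≤ k * eLpNorm F r volume := by
  have h1 : ∀ ξ : ℝ × ℝ × ℝ, ‖G ξ‖ₑ ≤
      (k : ℝ≥0) * ‖F (2 * ξ.1, 2 * ξ.2.1, 4 * ξ.2.2)‖ₑ := by
    intro ξ
    rw [h ξ, enorm_mul]
    have h2 : ‖(k : ℂ)‖ₑ = ((k : ℝ≥0) : ℝ≥0∞) := by
      rw [← ofReal_norm, Complex.norm_natCast, ENNReal.ofReal_natCast, ENNReal.coe_natCast]
    rw [h2]
  have h3 := eLpNorm_le_nnreal_smul_eLpNorm_of_ae_le_mul' (μ := (volume : Measure (ℝ × ℝ × ℝ)))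
    (f := G) (g := fun ξ : ℝ × ℝ × ℝ => F (2 * ξ.1, 2 * ξ.2.1, 4 * ξ.2.2)) (c := (k : ℝ≥0))
    (ae_of_all _ h1) r
  refine h3.trans ?_
  rw [ENNReal.smul_def, smul_eq_mul, ENNReal.coe_natCast]
  gcongr
  exact norm_scale r hF

theorem two (r : ℝ≥0∞) {f g : ℝ × ℝ → ℂ} (hf : Measurable (dl f)) (hg : Measurable (dl g)) :
    eLpNorm (fun ξ => E f ξ * E g ξ) r volume ≤
      16 * eLpNorm (fun ξ => E (dl f) ξ * E (dl g) ξ) r volume := by
  have h := cmul r 16 (G := fun ξ => E f ξ * E g ξ) ((measurable_E hf).mul (measurable_E hg))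
    (fun ξ => by
      simp only [Pi.mul_apply]
      rw [E_dl f, E_dl g]
      push_cast
      ring)
  exact_mod_cast h

theorem three (r : ℝ≥0∞) {f h g : ℝ × ℝ → ℂ} (hf : Measurable (dl f)) (hh : Measurable (dl h))
    (hg : Measurable (dl g)) :
    eLpNorm (fun ξ => E f ξ * E h ξ * E g ξ) r volume ≤
      64 * eLpNorm (fun ξ => E (dl f) ξ * E (dl h) ξ * E (dl g) ξ) r volume := by
  have h := cmul r 64 (G := fun ξ => E f ξ * E h ξ * E g ξ)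
    (((measurable_E hf).mul (measurable_E hh)).mul (measurable_E hg))
    (fun ξ => by
      simp only [Pi.mul_apply]
      rw [E_dl f, E_dl h, E_dl g]
      push_cast
      ring)
  exact_mod_cast h

theorem hat_eq (g : ℝ × ℝ → ℂ) (y : ℝ × ℝ) : hat g y = E g (y.1, y.2, 0) := by
  unfold hat E
  simp only [zero_mul, add_zero]

theorem measurable_hat {g : ℝ × ℝ → ℂ} (hg : Measurable g) : Measurable (hat g) := by
  have h : hat g = fun y => E g (y.1, y.2, 0) := funext (hat_eq g)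
  rw [h]
  exact (measurable_E hg).comp (by fun_prop)

theorem hat_le {s : ℝ} (hs : 1 ≤ s) {g : ℝ × ℝ → ℂ} (hg : Measurable (dl g)) :
    ∫⁻ y, ‖hat (dl g) y‖ₑ ^ s ≤ ∫⁻ y, ‖hat g y‖ₑ ^ s := by
  have hm : Measurable fun y => ‖hat (dl g) y‖ₑ ^ s := (measurable_hat hg).enorm.pow_const s
  have h1 := lintegral_map (μ := (volume : Measure (ℝ × ℝ))) hm
    (g := fun x : ℝ × ℝ => (2 * x.1, 2 * x.2)) (by fun_prop)
  rw [map2 two_pos two_pos, lintegral_smul_measure] at h1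
  have h2 : ENNReal.ofReal (2 : ℝ)⁻¹ * ENNReal.ofReal (2 : ℝ)⁻¹ = 4⁻¹ := by
    rw [← ENNReal.ofReal_mul (by norm_num)]
    have h4 : (4 : ℝ≥0∞) = ENNReal.ofReal 4 := by simp
    rw [h4, ← ENNReal.ofReal_inv_of_pos (by norm_num)]
    norm_num
  rw [h2, smul_eq_mul] at h1
  have h3 : ∀ y : ℝ × ℝ, 4 * ‖hat (dl g) (2 * y.1, 2 * y.2)‖ₑ ^ s ≤ ‖hat g y‖ₑ ^ s := by
    intro y
    have h5 : ‖(4 : ℂ)‖ₑ = 4 := by
      rw [← ofReal_norm]
      norm_num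
    rw [hat_dl g y, enorm_mul, h5, ENNReal.mul_rpow_of_nonneg _ _ (by linarith)]
    gcongr
    calc (4 : ℝ≥0∞) = 4 ^ (1 : ℝ) := (ENNReal.rpow_one _).symm
      _ ≤ 4 ^ s := ENNReal.rpow_le_rpow_of_exponent_le (by norm_num) hs
  calc ∫⁻ y, ‖hat (dl g) y‖ₑ ^ s = 4 * (4⁻¹ * ∫⁻ y, ‖hat (dl g) y‖ₑ ^ s) := by
        rw [← mul_assoc, ENNReal.mul_inv_cancel (by norm_num) (by norm_num), one_mul]
    _ = 4 * ∫⁻ y : ℝ × ℝ, ‖hat (dl g) (2 * y.1, 2 * y.2)‖ₑ ^ s := by rw [h1]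
    _ = ∫⁻ y : ℝ × ℝ, 4 * ‖hat (dl g) (2 * y.1, 2 * y.2)‖ₑ ^ s := by
        rw [lintegral_const_mul' _ _ (by norm_num)]
    _ ≤ ∫⁻ y, ‖hat g y‖ₑ ^ s := lintegral_mono h3

theorem hat_chp (c : ℝ) (g : ℝ × ℝ → ℂ) (y : ℝ × ℝ) :
    hat (chp (-c) g) y = E g (y.1, y.2, c) := by
  unfold hat E chp
  refine integral_congr_ae (ae_of_all _ fun x => ?_)
  simp only
  rw [← mul_assoc, ← u_add]
  congr 2
  unfold nq
  ring

theorem chp_chp (c : ℝ) (g : ℝ × ℝ → ℂ) : chp c (chp (-c) g) = g := by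
  funext x
  unfold chp
  rw [← mul_assoc, ← u_add]
  have h : -(c * nq x) + -(-c * nq x) = 0 := by ring
  rw [h]
  simp [u]

theorem norm_chp (c : ℝ) (g : ℝ × ℝ → ℂ) (x : ℝ × ℝ) : ‖chp c g x‖ = ‖g x‖ := by
  unfold chp
  rw [norm_mul, norm_u, one_mul]

theorem meas_chp (c : ℝ) {g : ℝ × ℝ → ℂ} (hg : Measurable g) : Measurable (chp c g) := by
  unfold chp
  refine Measurable.mul ?_ hg
  refine continuous_u.measurable.comp ?_
  unfold nq
  fun_prop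

theorem InD_chp (c : ℝ) {g : ℝ × ℝ → ℂ} (hg : InD g) : InD (chp c g) := by
  refine ⟨meas_chp c hg.1, fun x hx => ?_⟩
  unfold chp
  rw [hg.2 x hx, mul_zero]

theorem meas_dl {g : ℝ × ℝ → ℂ} (hg : Measurable g) : Measurable (dl g) := by
  unfold dl
  exact hg.comp (by fun_prop)

theorem dl_zero {g : ℝ × ℝ → ℂ} (hg : InD g) (x : ℝ × ℝ)
    (hx : 1 / 4 < |x.1| ∨ 1 / 4 < |x.2|) : dl g x = 0 := by
  refine hg.2 _ ?_
  simp only
  rcases hx with h | h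
  · have h1 : (1 / 4 : ℝ) ^ 2 < |x.1| ^ 2 := by gcongr
    rw [sq_abs] at h1
    nlinarith [sq_nonneg x.2]
  · have h1 : (1 / 4 : ℝ) ^ 2 < |x.2| ^ 2 := by gcongr
    rw [sq_abs] at h1
    nlinarith [sq_nonneg x.1]

theorem Sq_dl {g : ℝ × ℝ → ℂ} (hg : InD g) : Sq (dl g) := by
  refine ⟨meas_dl hg.1, fun x hx => dl_zero hg x ?_⟩
  by_contra hc
  rw [not_or, not_lt, not_lt, abs_le, abs_le] at hc
  apply hx
  unfold QQ
  refine ⟨⟨?_, ?_⟩, ⟨?_, ?_⟩⟩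
  · linarith [hc.1.1]
  · linarith [hc.1.2]
  · linarith [hc.2.1]
  · linarith [hc.2.2]

theorem int_dl {g : ℝ × ℝ → ℂ} (hg : Integrable g) : Integrable (dl g) := by
  have h := (integrable_comp_smul_iff (volume : Measure (ℝ × ℝ)) g (two_ne_zero (α := ℝ))).2 hg
  rw [smul_two g] at h
  exact h

theorem int_chp (c : ℝ) {g : ℝ × ℝ → ℂ} (hm : Measurable g) (hg : Integrable g) :
    Integrable (chp c g) :=
  hg.mono (meas_chp c hm).aestronglyMeasurable (ae_of_all _ fun x => (norm_chp c g x).le)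

theorem E_zero {g : ℝ × ℝ → ℂ} (hm : Measurable g) (hg : ¬ Integrable g) (ξ : ℝ × ℝ × ℝ) :
    E g ξ = 0 := by
  unfold E
  refine integral_undef fun h => hg ?_
  refine h.mono hm.aestronglyMeasurable (ae_of_all _ fun x => ?_)
  rw [norm_mul, norm_u, one_mul]

theorem n2_le {h : ℝ × ℝ → ℂ} (hm : Measurable h) (c : ℝ) :
    eLpNorm (dl (chp c h)) 2 volume ≤ eLpNorm h 2 volume := by
  have h0 : eLpNorm (dl (chp c h)) 2 volume = eLpNorm (dl h) 2 volume := by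
    refine eLpNorm_congr_norm_ae (ae_of_all _ fun x => ?_)
    unfold dl
    exact norm_chp c h _
  rw [h0]
  have h1 := eLpNorm_map_measure (p := 2) (μ := (volume : Measure (ℝ × ℝ)))
    (f := fun x : ℝ × ℝ => (2 * x.1, 2 * x.2)) (g := h)
    hm.aestronglyMeasurable (by fun_prop)
  have h2 : dl h = h ∘ fun x : ℝ × ℝ => (2 * x.1, 2 * x.2) := rfl
  rw [h2, ← h1]
  refine eLpNorm_mono_measure h ?_
  rw [map2 two_pos two_pos]
  have h3 : ENNReal.ofReal (2 : ℝ)⁻¹ * ENNReal.ofReal (2 : ℝ)⁻¹ ≤ 1 := by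
    rw [← ENNReal.ofReal_mul (by norm_num)]
    rw [← ENNReal.ofReal_one]
    exact ENNReal.ofReal_le_ofReal (by norm_num)
  refine Measure.le_iff.2 fun s _ => ?_
  rw [Measure.smul_apply, smul_eq_mul]
  calc _ ≤ 1 * volume s := by gcongr
    _ = volume s := one_mul _

theorem norm_eq {s : ℝ} (hs : 1 ≤ s) (c : ℝ) (g : ℝ × ℝ → ℂ) :
    (∫⁻ y, ‖hat (chp (-c) g) y‖ₑ ^ s) ^ (1 / s) =
      eLpNorm (fun y : ℝ × ℝ => E g (y.1, y.2, c)) (ENNReal.ofReal s) volume := by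
  rw [eLpNorm_eq_lintegral_rpow_enorm_toReal (ne_of_gt (ENNReal.ofReal_pos.2 (by linarith)))
    ENNReal.ofReal_ne_top, ENNReal.toReal_ofReal (by linarith)]
  congr 1
  refine lintegral_congr fun y => ?_
  rw [hat_chp]

end FIN_

theorem p_FIN (h1 : T_FI0) (h2 : T_SHI) : T_FIN := by
  intro ρ s μ t hρ hρ2 hs hsρ hμ hμ2 ht htμ
  obtain ⟨C, hC⟩ := h1 ρ s μ t hρ hρ2 hs hsρ hμ hμ2 ht htμ
  refine ⟨64 * C, fun c f g hf hf1 hg => ?_⟩
  by_cases hgi : Integrable g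
  swap
  · have h0 : ∀ ξ, E g ξ = 0 := FIN_.E_zero hg.1 hgi
    constructor
    · simp only [h0, mul_zero]
      rw [eLpNorm_zero']
      exact zero_le
    · intro h _
      simp only [h0, mul_zero]
      rw [eLpNorm_zero']
      exact zero_le
  have e1 : chp c (chp (-c) g) = g := FIN_.chp_chp c g
  have hf0 : InD (chp (-c) f) := FIN_.InD_chp _ hf
  have hg0 : InD (chp (-c) g) := FIN_.InD_chp _ hg
  obtain ⟨k1, k2⟩ := hC (FIN_.dl (chp (-c) f)) (FIN_.dl (chp (-c) g)) (FIN_.Sq_dl hf0)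
    (fun x => by
      unfold FIN_.dl
      rw [FIN_.norm_chp]
      exact hf1 _)
    (FIN_.meas_dl hg0.1) (FIN_.int_dl (FIN_.int_chp _ hg.1 hgi)) (FIN_.dl_zero hg0)
  have hC64 : ((64 * C : ℝ≥0) : ℝ≥0∞) = 64 * (C : ℝ≥0∞) := by
    rw [ENNReal.coe_mul]
    norm_num
  rw [hC64]
  constructor
  · have a1 := (h2 c (ENNReal.ofReal ρ) f f (chp (-c) g)).1
    rw [e1] at a1
    rw [a1]
    calc eLpNorm (fun ξ => E (chp (-c) f) ξ * E (chp (-c) g) ξ) (ENNReal.ofReal ρ) volume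
        ≤ 16 * eLpNorm (fun ξ => E (FIN_.dl (chp (-c) f)) ξ * E (FIN_.dl (chp (-c) g)) ξ)
          (ENNReal.ofReal ρ) volume := FIN_.two _ (FIN_.meas_dl hf0.1) (FIN_.meas_dl hg0.1)
      _ ≤ 16 * (C * (∫⁻ y, ‖hat (FIN_.dl (chp (-c) g)) y‖ₑ ^ s) ^ (1 / s)) := by gcongr
      _ ≤ 64 * (C * (∫⁻ y, ‖hat (chp (-c) g) y‖ₑ ^ s) ^ (1 / s)) :=
          mul_le_mul' (by norm_num) (mul_le_mul' le_rfl (ENNReal.rpow_le_rpow
            (FIN_.hat_le hs (FIN_.meas_dl hg0.1)) (by positivity)))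
      _ = 64 * C * eLpNorm (fun y : ℝ × ℝ => E g (y.1, y.2, c)) (ENNReal.ofReal s) volume := by
          rw [FIN_.norm_eq hs, mul_assoc]
  · intro h hh
    have hh0 : InD (chp (-c) h) := FIN_.InD_chp _ hh
    have a1 := (h2 c (ENNReal.ofReal μ) f h (chp (-c) g)).2
    rw [e1] at a1
    rw [a1]
    have k3 := k2 (FIN_.dl (chp (-c) h)) (FIN_.Sq_dl hh0)
    calc eLpNorm (fun ξ => E (chp (-c) f) ξ * E (chp (-c) h) ξ * E (chp (-c) g) ξ)
          (ENNReal.ofReal μ) volume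
        ≤ 64 * eLpNorm (fun ξ => E (FIN_.dl (chp (-c) f)) ξ * E (FIN_.dl (chp (-c) h)) ξ *
          E (FIN_.dl (chp (-c) g)) ξ) (ENNReal.ofReal μ) volume :=
          FIN_.three _ (FIN_.meas_dl hf0.1) (FIN_.meas_dl hh0.1) (FIN_.meas_dl hg0.1)
      _ ≤ 64 * (C * (∫⁻ y, ‖hat (FIN_.dl (chp (-c) g)) y‖ₑ ^ t) ^ (1 / t) *
          eLpNorm (FIN_.dl (chp (-c) h)) 2 volume) := by gcongr
      _ ≤ 64 * (C * (∫⁻ y, ‖hat (chp (-c) g) y‖ₑ ^ t) ^ (1 / t) * eLpNorm h 2 volume) :=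
          mul_le_mul' le_rfl (mul_le_mul' (mul_le_mul' le_rfl (ENNReal.rpow_le_rpow
            (FIN_.hat_le ht (FIN_.meas_dl hg0.1)) (by positivity))) (FIN_.n2_le hh.1 (-c)))
      _ = 64 * C * eLpNorm (fun y : ℝ × ℝ => E g (y.1, y.2, c)) (ENNReal.ofReal t) volume *
          eLpNorm h 2 volume := by
          rw [FIN_.norm_eq ht]
          ring

end Wex
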