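import Pool.Agent.Wex.Targets
import Pool.Agent.Wey.FAR

/-!
# MP_5ab805_an, GAU: Gaussian sums over separated points of the plane (helper19)
-/

set_option autoImplicit false

namespace Wex

open MeasureTheory Set Filter
open scoped ENNReal NNReal Topology

namespace GAU_

/-- one-dimensional sums of Gaussians over sets of integers, real version -/
theorem sum_gauss {b : ℝ} (hb : 0 < b) (x : ℝ) (s : Finset ℤ) :
    ∑ n ∈ s, Real.exp (-b * (n - x) ^ 2) ≤ 2 + √(Real.pi / b) := by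
  have h := Wey.FAR_.sum_gauss hb x s
  rw [← ENNReal.ofReal_sum_of_nonneg fun i _ => (Real.exp_pos _).le] at h
  exact (ENNReal.ofReal_le_ofReal_iff (by positivity)).1 h

/-- two points in one cell of side `1/2` are at distance less than one -/
theorem cell_inj {φ ψ : ℤ → ℝ} {s : Finset ℤ} (hs : Sep φ ψ s) :
    Set.InjOn (fun n : ℤ => (⌊2 * φ n⌋, ⌊2 * ψ n⌋)) (s : Set ℤ) := by
  intro n hn m hm h
  by_contra hne
  have h1 := hs n hn m hm hne
  simp only [Prod.mk.injEq] at h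
  have h2 := Int.abs_sub_lt_one_of_floor_eq_floor h.1
  have h3 := Int.abs_sub_lt_one_of_floor_eq_floor h.2
  rw [abs_lt] at h2 h3
  have h4 : (φ n - φ m) ^ 2 < 1 / 4 := by nlinarith [h2.1, h2.2]
  have h5 : (ψ n - ψ m) ^ 2 < 1 / 4 := by nlinarith [h3.1, h3.2]
  linarith

theorem pt {b φ x : ℝ} (hb : 0 < b) :
    b / 8 * ((⌊2 * φ⌋ : ℤ) - 2 * x) ^ 2 - b / 4 ≤ b * (φ - x) ^ 2 := by
  have h1 := Int.floor_le (2 * φ)
  have h2 := Int.lt_floor_add_one (2 * φ)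
  set k : ℝ := ((⌊2 * φ⌋ : ℤ) : ℝ)
  have h3 : (k - 2 * x) ^ 2 ≤ 2 * (2 * φ - 2 * x) ^ 2 + 2 * (2 * φ - k) ^ 2 := by
    nlinarith [sq_nonneg ((2 * φ - 2 * x) + (2 * φ - k))]
  have h4 : (2 * φ - k) ^ 2 ≤ 1 := by nlinarith
  have h5 : (k - 2 * x) ^ 2 / 8 - 1 / 4 ≤ (φ - x) ^ 2 := by nlinarith
  nlinarith [mul_le_mul_of_nonneg_left h5 hb.le]

theorem small {φ ψ : ℤ → ℝ} {s : Finset ℤ} {b : ℝ} (x : ℝ × ℝ) (hs : Sep φ ψ s) (hb : 0 < b)
    (hb1 : b ≤ 1) :
    ∑ n ∈ s, Real.exp (-(b * ((φ n - x.1) ^ 2 + (ψ n - x.2) ^ 2))) ≤ 128 * (1 + 1 / b) := by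
  classical
  set G : ℤ → ℝ := fun k => Real.exp (-(b / 8) * (k - 2 * x.1) ^ 2) with hG
  set H : ℤ → ℝ := fun k => Real.exp (-(b / 8) * (k - 2 * x.2) ^ 2) with hH
  set F : ℤ → ℤ × ℤ := fun n => (⌊2 * φ n⌋, ⌊2 * ψ n⌋) with hF
  have h1 : ∀ n ∈ s, Real.exp (-(b * ((φ n - x.1) ^ 2 + (ψ n - x.2) ^ 2))) ≤
      2 * (G (F n).1 * H (F n).2) := by
    intro n _
    have e1 := pt (φ := φ n) (x := x.1) hb
    have e2 := pt (φ := ψ n) (x := x.2) hb
    have e3 : Real.exp (b / 2) ≤ 2 := by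
      have h2 : Real.exp (b / 2) ^ 2 ≤ 2 ^ 2 := by
        rw [← Real.exp_nat_mul]
        have : Real.exp (((2 : ℕ) : ℝ) * (b / 2)) ≤ Real.exp 1 :=
          Real.exp_le_exp.2 (by push_cast; linarith)
        have h3 := Real.exp_one_lt_d9
        linarith
      exact (pow_le_pow_iff_left₀ (Real.exp_pos _).le (by norm_num) two_ne_zero).1 h2
    calc Real.exp (-(b * ((φ n - x.1) ^ 2 + (ψ n - x.2) ^ 2)))
        ≤ Real.exp (b / 2 + (-(b / 8) * ((F n).1 - 2 * x.1) ^ 2 +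
            -(b / 8) * ((F n).2 - 2 * x.2) ^ 2)) := by
          refine Real.exp_le_exp.2 ?_
          simp only [hF]
          linarith
      _ = Real.exp (b / 2) * (G (F n).1 * H (F n).2) := by
          rw [Real.exp_add, Real.exp_add]
      _ ≤ _ := mul_le_mul_of_nonneg_right e3 (by positivity)
  refine (Finset.sum_le_sum h1).trans ?_
  rw [← Finset.mul_sum]
  have h2 : ∑ n ∈ s, G (F n).1 * H (F n).2 = ∑ p ∈ s.image F, G p.1 * H p.2 := by
    rw [Finset.sum_image (cell_inj hs)]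
  have h3 : ∑ p ∈ s.image F, G p.1 * H p.2 ≤
      ∑ p ∈ (s.image fun n => (F n).1) ×ˢ (s.image fun n => (F n).2), G p.1 * H p.2 := by
    refine Finset.sum_le_sum_of_subset_of_nonneg ?_ fun _ _ _ => by positivity
    intro p hp
    obtain ⟨n, hn, rfl⟩ := Finset.mem_image.1 hp
    exact Finset.mem_product.2 ⟨Finset.mem_image_of_mem _ hn, Finset.mem_image_of_mem _ hn⟩
  rw [Finset.sum_product] at h3
  have h4 : ∀ (y : ℝ) (t : Finset ℤ), ∑ k ∈ t, Real.exp (-(b / 8) * (k - y) ^ 2) ≤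
      2 + √(Real.pi / (b / 8)) := fun y t => sum_gauss (by positivity) y t
  have h5 : ∑ k ∈ s.image (fun n => (F n).1), ∑ l ∈ s.image (fun n => (F n).2), G k * H l =
      (∑ k ∈ s.image (fun n => (F n).1), G k) * ∑ l ∈ s.image (fun n => (F n).2), H l := by
    rw [Finset.sum_mul_sum]
  have h6 : (∑ k ∈ s.image (fun n => (F n).1), G k) * ∑ l ∈ s.image (fun n => (F n).2), H l ≤
      (2 + √(Real.pi / (b / 8))) * (2 + √(Real.pi / (b / 8))) :=
    mul_le_mul (h4 _ _) (h4 _ _) (Finset.sum_nonneg fun _ _ => (Real.exp_pos _).le)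
      (by positivity)
  have h7 : (2 + √(Real.pi / (b / 8))) * (2 + √(Real.pi / (b / 8))) ≤ 64 * (1 + 1 / b) := by
    have e1 : √(Real.pi / (b / 8)) ^ 2 = 8 * Real.pi * (1 / b) := by
      rw [Real.sq_sqrt (by positivity)]; field_simp
    have e2 : Real.pi ≤ 3.15 := by linarith [Real.pi_lt_d2]
    have e3 : 0 < 1 / b := by positivity
    nlinarith [sq_nonneg (2 - √(Real.pi / (b / 8))), mul_le_mul_of_nonneg_right e2 e3.le]
  have h8 : ∑ n ∈ s, G (F n).1 * H (F n).2 ≤ 64 * (1 + 1 / b) := by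
    rw [h2]
    refine h3.trans ?_
    rw [h5]
    exact h6.trans h7
  linarith

end GAU_

theorem p_GAU : T_GAU := by
  refine ⟨256, by norm_num, fun φ ψ s b x hs hb => ?_⟩
  by_cases h : b ≤ 1
  · have h1 := GAU_.small x hs hb h
    have : 0 < 1 + 1 / b := by positivity
    linarith
  · push Not at h
    have h1 := GAU_.small x hs one_pos le_rfl
    have h2 : ∑ n ∈ s, Real.exp (-(b * ((φ n - x.1) ^ 2 + (ψ n - x.2) ^ 2))) ≤
        ∑ n ∈ s, Real.exp (-(1 * ((φ n - x.1) ^ 2 + (ψ n - x.2) ^ 2))) := by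
      refine Finset.sum_le_sum fun n _ => Real.exp_le_exp.2 ?_
      nlinarith [sq_nonneg (φ n - x.1), sq_nonneg (ψ n - x.2)]
    have h3 : 0 < 1 / b := by positivity
    linarith

end Wex
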