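import Pool.Agent.Wex.Targets

/-!
# MP_5ab805_an, spectra on curves: GRE, a maximal separated subset of an arc
-/

set_option autoImplicit false

namespace Wex

open MeasureTheory Set Filter
open scoped ENNReal NNReal Topology

namespace GRE_

/-- the square of the distance of two points of the curve -/
def dd (z : ℝ → ℝ × ℝ) (r r' : ℝ) : ℝ := ((z r).1 - (z r').1) ^ 2 + ((z r).2 - (z r').2) ^ 2

/-- separated sets of parameters -/
def Good (z : ℝ → ℝ × ℝ) (R : ℝ) (S : Finset ℝ) : Prop :=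
  (∀ r ∈ S, r ∈ Icc (-R) R) ∧ ∀ r ∈ S, ∀ r' ∈ S, r ≠ r' → 1 ≤ dd z r r'

theorem dd_symm (z : ℝ → ℝ × ℝ) (r r' : ℝ) : dd z r r' = dd z r' r := by
  unfold dd
  ring

theorem card_bound {z : ℝ → ℝ × ℝ} (hz : Continuous z) (R : ℝ) :
    ∃ B : ℕ, ∀ S : Finset ℝ, Good z R S → S.card ≤ B := by
  have hu := isCompact_Icc.uniformContinuousOn_of_continuous (hz.continuousOn (s := Icc (-R) R))
  rw [Metric.uniformContinuousOn_iff] at hu
  obtain ⟨δ, hδ, h⟩ := hu (1 / 2) (by norm_num)
  refine ⟨⌊(2 * R) / δ⌋₊ + 1, fun S hS => ?_⟩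
  rw [← Finset.card_range (⌊(2 * R) / δ⌋₊ + 1)]
  refine Finset.card_le_card_of_injOn (fun r => ⌊(r + R) / δ⌋₊) (fun r hr => ?_) ?_
  · have h1 := hS.1 r hr
    have h2 : (r + R) / δ ≤ 2 * R / δ := by
      gcongr
      linarith [h1.2]
    simp only [Finset.coe_range, mem_Iio]
    exact Nat.lt_succ_of_le (Nat.floor_le_floor h2)
  · intro r hr r' hr' he
    by_contra hne
    have h1 := hS.1 r hr
    have h2 := hS.1 r' hr'
    have h3 := hS.2 r hr r' hr' hne
    simp only at he
    have p1 : 0 ≤ (r + R) / δ := div_nonneg (by linarith [h1.1]) hδ.le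
    have p2 : 0 ≤ (r' + R) / δ := div_nonneg (by linarith [h2.1]) hδ.le
    have a1 := Nat.floor_le p1
    have a2 := Nat.lt_floor_add_one ((r + R) / δ)
    have b1 := Nat.floor_le p2
    have b2 := Nat.lt_floor_add_one ((r' + R) / δ)
    rw [he] at a1 a2
    have c1 : (r + R) / δ - (r' + R) / δ < 1 := by linarith
    have c2 : (r' + R) / δ - (r + R) / δ < 1 := by linarith
    have e1 : (r + R) / δ - (r' + R) / δ = (r - r') / δ := by ring
    have e2 : (r' + R) / δ - (r + R) / δ = (r' - r) / δ := by ring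
    rw [e1, div_lt_one hδ] at c1
    rw [e2, div_lt_one hδ] at c2
    have h4 : dist r r' < δ := by
      rw [Real.dist_eq, abs_lt]
      constructor <;> linarith
    have h5 := h r h1 r' h2 h4
    rw [Prod.dist_eq, max_lt_iff, Real.dist_eq, Real.dist_eq, abs_lt, abs_lt] at h5
    unfold dd at h3
    nlinarith [h5.1.1, h5.1.2, h5.2.1, h5.2.2]

theorem exists_max {z : ℝ → ℝ × ℝ} (hz : Continuous z) (R : ℝ) :
    ∃ S : Finset ℝ, Good z R S ∧ ∀ S' : Finset ℝ, Good z R S' → S'.card ≤ S.card := by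
  classical
  obtain ⟨B, hB⟩ := card_bound hz R
  have h0 : ∃ S : Finset ℝ, Good z R S ∧ S.card = 0 :=
    ⟨∅, ⟨fun r hr => absurd hr (Finset.notMem_empty r),
      fun r hr => absurd hr (Finset.notMem_empty r)⟩, Finset.card_empty⟩
  obtain ⟨S, hS, hc⟩ := Nat.findGreatest_spec
    (P := fun n => ∃ S : Finset ℝ, Good z R S ∧ S.card = n) (Nat.zero_le B) h0
  refine ⟨S, hS, fun S' hS' => ?_⟩
  rw [hc]
  exact Nat.le_findGreatest (hB S' hS') ⟨S', hS', rfl⟩

/-- the increasing enumeration -/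
noncomputable def vv (S : Finset ℝ) (n : ℤ) : ℝ :=
  if h : n.toNat < S.card then S.orderEmbOfFin rfl ⟨n.toNat, h⟩ else 0

theorem vv_eq {S : Finset ℝ} {n : ℤ} (h : n ∈ Finset.Ico (0 : ℤ) S.card) :
    ∃ h' : n.toNat < S.card, vv S n = S.orderEmbOfFin rfl ⟨n.toNat, h'⟩ := by
  rw [Finset.mem_Ico] at h
  have h' : n.toNat < S.card := by omega
  exact ⟨h', by rw [vv, dif_pos h']⟩

theorem vv_surj {S : Finset ℝ} {r : ℝ} (h : r ∈ S) :
    ∃ n ∈ Finset.Ico (0 : ℤ) S.card, vv S n = r := by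
  have h1 : r ∈ Set.range (S.orderEmbOfFin rfl) := by
    rw [Finset.range_orderEmbOfFin]
    exact h
  obtain ⟨i, hi⟩ := h1
  have hm : ((i : ℕ) : ℤ) ∈ Finset.Ico (0 : ℤ) S.card := by
    rw [Finset.mem_Ico]
    have := i.2
    omega
  refine ⟨(i : ℕ), hm, ?_⟩
  obtain ⟨h', e⟩ := vv_eq hm
  rw [e, ← hi]
  congr 1

end GRE_

open GRE_ in
theorem p_GRE : T_GRE := by
  classical
  intro z hz R
  obtain ⟨S, hS, hmax⟩ := exists_max hz R
  refine ⟨S.card, vv S, ?_, ?_, ?_⟩
  · intro a ha b hb hab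
    obtain ⟨ha', ea⟩ := vv_eq (Finset.mem_coe.mp ha)
    obtain ⟨hb', eb⟩ := vv_eq (Finset.mem_coe.mp hb)
    rw [ea, eb]
    refine (S.orderEmbOfFin rfl).monotone ?_
    rw [Fin.mk_le_mk]
    exact Int.toNat_le_toNat hab
  · intro a ha b hb hab
    obtain ⟨ha', ea⟩ := vv_eq ha
    obtain ⟨hb', eb⟩ := vv_eq hb
    have h1 : vv S a ∈ S := by
      rw [ea]
      exact Finset.orderEmbOfFin_mem _ _ _
    have h2 : vv S b ∈ S := by
      rw [eb]
      exact Finset.orderEmbOfFin_mem _ _ _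
    have h3 : vv S a ≠ vv S b := by
      rw [ea, eb]
      intro h
      have h4 := (S.orderEmbOfFin rfl).injective h
      rw [Fin.mk.injEq] at h4
      rw [Finset.mem_Ico] at ha hb
      omega
    exact hS.2 _ h1 _ h2 h3
  · intro r hr
    by_cases h : r ∈ S
    · obtain ⟨n, hn, e⟩ := vv_surj h
      refine ⟨n, hn, ?_⟩
      rw [e]
      norm_num
    · have h1 : ¬ Good z R (insert r S) := by
        intro hg
        have := hmax _ hg
        rw [Finset.card_insert_of_notMem h] at this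
        omega
      have h2 : ∃ r' ∈ S, dd z r r' < 1 := by
        by_contra hcon
        push Not at hcon
        refine h1 ⟨fun x hx => ?_, fun x hx y hy hxy => ?_⟩
        · rcases Finset.mem_insert.mp hx with e1 | hxS
          · rw [e1]
            exact hr
          · exact hS.1 x hxS
        · rcases Finset.mem_insert.mp hx with e1 | hxS
          · rcases Finset.mem_insert.mp hy with e2 | hyS
            · exact absurd (e1.trans e2.symm) hxy
            · rw [e1]
              exact hcon y hyS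
          · rcases Finset.mem_insert.mp hy with e2 | hyS
            · rw [e2, dd_symm]
              exact hcon x hxS
            · exact hS.2 x hxS y hyS hxy
      obtain ⟨r', hr', h3⟩ := h2
      obtain ⟨n, hn, e⟩ := vv_surj hr'
      refine ⟨n, hn, ?_⟩
      rw [e]
      exact h3.le

end Wex
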