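import Pool.Agent.Wex.Targets
import Pool.Agent.Restr.Good

/-!
# MP_5ab805_an, exponential sums as partners of every function: Plancherel for the blocks
-/

set_option autoImplicit false

namespace Wex

open MeasureTheory Set Filter
open scoped ENNReal NNReal Topology
open Pool.Agent.Restr (u E QQ)
open Wey (nq lam hat gup gdn blk Tk Sl Wi)

lemma HAT_int {F : ℝ × ℝ → ℂ} (hFi : Integrable F) (b : ℂ) {p : ℝ × ℝ → ℝ} (hp : Measurable p) :
    Integrable fun x => b * (u (p x) * F x) := by
  refine Integrable.const_mul ?_ b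
  refine hFi.bdd_mul (c := 1) ?_ ?_
  · exact (Pool.Agent.Restr.measurable_u.comp hp).aestronglyMeasurable
  · exact Eventually.of_forall fun x => by rw [Pool.Agent.Restr.norm_u]

lemma HAT_blk (φ ψ : ℤ → ℝ) (s : Finset ℤ) (a : ℤ → ℂ) {F : ℝ × ℝ → ℂ} (i : ℕ) (j : ℤ)
    (hFi : Integrable F) (σ : ℝ × ℝ) :
    blk s (cf φ ψ a F σ) i j = ∫ x : ℝ × ℝ, u (σ.1 * x.1 + σ.2 * x.2) *
      (F x * blk s (fun n => a n * u (-(φ n * x.1 + ψ n * x.2))) i j) := by
  have h1 : ∀ n : ℤ, cf φ ψ a F σ n = ∫ x : ℝ × ℝ,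
      a n * (u ((σ.1 - φ n) * x.1 + (σ.2 - ψ n) * x.2) * F x) := by
    intro n
    unfold cf hat
    rw [integral_const_mul]
  unfold blk
  simp only [h1]
  rw [← integral_finsetSum]
  · refine integral_congr_ae (Eventually.of_forall fun x => ?_)
    simp only
    rw [Finset.mul_sum, Finset.mul_sum]
    refine Finset.sum_congr rfl fun n _ => ?_
    have h2 : u ((σ.1 - φ n) * x.1 + (σ.2 - ψ n) * x.2) =
        u (σ.1 * x.1 + σ.2 * x.2) * u (-(φ n * x.1 + ψ n * x.2)) := by
      rw [← Pool.Agent.Restr.u_add]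
      congr 1
      ring
    rw [h2]
    ring
  · intro n _
    exact HAT_int hFi (a n) (by fun_prop)

theorem p_HAT : T_HAT := by
  intro φ ψ s a F i j hF hFi
  have hm : Measurable fun x : ℝ × ℝ =>
      F x * blk s (fun n => a n * u (-(φ n * x.1 + ψ n * x.2))) i j := by
    refine hF.mul ?_
    unfold blk
    refine Finset.measurable_fun_sum _ fun n _ => ?_
    exact measurable_const.mul (Pool.Agent.Restr.measurable_u.comp (by fun_prop))
  have hP := Pool.Agent.Restr.plancherel2 (μ := (volume : Measure (ℝ × ℝ))) (s := fun x => x)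
    measurable_id (C := 1) (fun φ hφ => by rw [one_mul]) hm
  simp only [HAT_blk φ ψ s a i j hFi]
  refine hP.trans (le_of_eq ?_)
  rw [one_mul, ← ENNReal.ofReal_mul (by positivity)]
  congr 1
  · congr 1
    ring
  · refine lintegral_congr fun x => ?_
    rw [enorm_mul, mul_pow]

end Wex
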