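import Pool.Agent.Wex.Targets2
import Pool.Agent.Wey.IN1

/-!
# MP_5ab805_an: summation over the slabs, bilinear form, with the complexity
-/

set_option autoImplicit false

namespace Wex

open MeasureTheory Set Filter
open scoped ENNReal NNReal Topology
open Wey (Sl Tk)

namespace INB_

/-- the power `ρ - 1` of the better of the two bounds, by the power `κ` of the factor -/
theorem bound {A : ℝ≥0∞} {N : ℝ≥0} {m : ℕ} {t ρ κ : ℝ} (hm : 1 ≤ m) (ht : 0 < t)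
    (hκ0 : 0 ≤ κ) (hκ : κ ≤ ρ - 1)
    (h1 : A ≤ (N : ℝ≥0∞) ^ 2) (h2 : A ≤ (N : ℝ≥0∞) ^ 2 * m * ENNReal.ofReal t) :
    A ^ (ρ - 1) ≤ (N : ℝ≥0∞) ^ (2 * (ρ - 1)) * (pw m κ * ENNReal.ofReal (t ^ κ)) := by
  have hρ : 0 ≤ ρ - 1 := hκ0.trans hκ
  have hm0 : (0 : ℝ) < m := by exact_mod_cast hm
  have hy0 : 0 < (m : ℝ) * t := mul_pos hm0 ht
  have e3 : pw m κ * ENNReal.ofReal (t ^ κ) = ENNReal.ofReal (((m : ℝ) * t) ^ κ) := by
    unfold pw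
    rw [← ENNReal.ofReal_mul (by positivity), ← Real.mul_rpow hm0.le ht.le]
  have e4 : ((N : ℝ≥0∞) ^ 2) ^ (ρ - 1) = (N : ℝ≥0∞) ^ (2 * (ρ - 1)) := by
    rw [← ENNReal.rpow_natCast, ← ENNReal.rpow_mul]
    norm_num
  rw [e3]
  by_cases hy : (m : ℝ) * t ≤ 1
  · have e5 : (m : ℝ≥0∞) * ENNReal.ofReal t = ENNReal.ofReal ((m : ℝ) * t) := by
      rw [ENNReal.ofReal_mul hm0.le, ENNReal.ofReal_natCast]
    calc A ^ (ρ - 1) ≤ ((N : ℝ≥0∞) ^ 2 * m * ENNReal.ofReal t) ^ (ρ - 1) :=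
          ENNReal.rpow_le_rpow h2 hρ
      _ = (N : ℝ≥0∞) ^ (2 * (ρ - 1)) * ENNReal.ofReal (((m : ℝ) * t) ^ (ρ - 1)) := by
          rw [mul_assoc, e5, ENNReal.mul_rpow_of_nonneg _ _ hρ, e4,
            ENNReal.ofReal_rpow_of_pos hy0]
      _ ≤ _ := by
          refine mul_le_mul' le_rfl (ENNReal.ofReal_le_ofReal ?_)
          exact Real.rpow_le_rpow_of_exponent_ge hy0 hy hκ
  · have h6 : (1 : ℝ) ≤ ((m : ℝ) * t) ^ κ := Real.one_le_rpow (not_le.1 hy).le hκ0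
    calc A ^ (ρ - 1) ≤ ((N : ℝ≥0∞) ^ 2) ^ (ρ - 1) := ENNReal.rpow_le_rpow h1 hρ
      _ = (N : ℝ≥0∞) ^ (2 * (ρ - 1)) * 1 := by rw [e4, mul_one]
      _ ≤ _ := by
          refine mul_le_mul' le_rfl ?_
          rw [← ENNReal.ofReal_one]
          exact ENNReal.ofReal_le_ofReal h6

end INB_

open INB_

theorem p_INB : T_INB := by
  intro ρ κ hρ1 hρ2 hκ1 hκ2
  have hκ0 : 0 < κ := by linarith
  set δ : ℝ := (κ - 2 + ρ) / 2 with hδ
  have hδ0 : 0 < δ := by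
    rw [hδ]
    linarith
  set q : ℝ := 2 ^ (-δ) with hq
  have hq0 : 0 < q := by positivity
  have hq1 : q < 1 := Real.rpow_lt_one_of_one_lt_of_neg (by norm_num) (by linarith)
  refine ⟨δ / κ, by positivity, Real.toNNReal (1 - q)⁻¹, ?_⟩
  intro m X N hm hX h0 h2 h1
  have hslab : ∀ k : ℕ, ∫⁻ ξ in Sl k, X ξ ^ ρ ≤
      ((N : ℝ≥0∞) ^ ρ * pw m κ) * ENNReal.ofReal (q ^ k) := by
    intro k
    refine (Wey.IN1_.holder X hX (Sl k) (by linarith) hρ2.le).trans ?_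
    have e1 : (N * 2 ^ k : ℝ≥0∞) ^ (2 - ρ) = (N : ℝ≥0∞) ^ (2 - ρ) *
        ENNReal.ofReal (2 ^ ((k : ℝ) * (2 - ρ))) := by
      rw [ENNReal.mul_rpow_of_nonneg _ _ (by linarith)]
      congr 1
      rw [← ENNReal.rpow_natCast, ← ENNReal.rpow_mul,
        ← ENNReal.ofReal_rpow_of_pos (by norm_num)]
      norm_num
    have hb := bound (A := ∫⁻ ξ in Sl k, X ξ ^ 2) (N := N) (m := m)
      (t := 2 ^ ((-1 + δ / κ) * k)) (ρ := ρ) (κ := κ) hm (by positivity) hκ0.le hκ2 (h0 k) (h2 k)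
    calc (∫⁻ ξ in Sl k, X ξ) ^ (2 - ρ) * (∫⁻ ξ in Sl k, X ξ ^ 2) ^ (ρ - 1)
        ≤ (N * 2 ^ k : ℝ≥0∞) ^ (2 - ρ) * ((N : ℝ≥0∞) ^ (2 * (ρ - 1)) *
          (pw m κ * ENNReal.ofReal ((2 ^ ((-1 + δ / κ) * k)) ^ κ))) :=
          mul_le_mul' (ENNReal.rpow_le_rpow (h1 k) (by linarith)) hb
      _ = ((N : ℝ≥0∞) ^ (2 - ρ) * (N : ℝ≥0∞) ^ (2 * (ρ - 1))) * pw m κ *
          (ENNReal.ofReal (2 ^ ((k : ℝ) * (2 - ρ))) *
          ENNReal.ofReal ((2 ^ ((-1 + δ / κ) * k)) ^ κ)) := by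
          rw [e1]
          ring
      _ = ((N : ℝ≥0∞) ^ ρ * pw m κ) * ENNReal.ofReal (q ^ k) := by
          rw [← ENNReal.rpow_add_of_nonneg _ _ (by linarith) (by linarith),
            ← ENNReal.ofReal_mul (by positivity), ← Real.rpow_mul (by norm_num),
            ← Real.rpow_add (by norm_num)]
          congr 2
          · congr 1
            ring
          · rw [hq, ← Real.rpow_natCast, ← Real.rpow_mul (by norm_num)]
            congr 1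
            have e6 : (-1 + δ / κ) * k * κ = (-κ + δ) * k := by
              field_simp
            rw [e6, hδ]
            ring
      _ ≤ _ := le_rfl
  calc ∫⁻ ξ, X ξ ^ ρ = ∫⁻ ξ in ⋃ k : ℕ, Sl k, X ξ ^ ρ := by
        rw [Wey.IN1_.iUnion_Sl, Measure.restrict_univ]
    _ ≤ ∑' k : ℕ, ∫⁻ ξ in Sl k, X ξ ^ ρ := lintegral_iUnion_le _ _
    _ ≤ ∑' k : ℕ, ((N : ℝ≥0∞) ^ ρ * pw m κ) * ENNReal.ofReal (q ^ k) :=
        ENNReal.tsum_le_tsum hslab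
    _ = ((N : ℝ≥0∞) ^ ρ * pw m κ) * ENNReal.ofReal ((1 - q)⁻¹) := by
        rw [ENNReal.tsum_mul_left, ← ENNReal.ofReal_tsum_of_nonneg (fun k => by positivity)
          (summable_geometric_of_lt_one hq0.le hq1), tsum_geometric_of_lt_one hq0.le hq1]
    _ = ENNReal.ofReal ((1 - q)⁻¹) * pw m κ * (N : ℝ≥0∞) ^ ρ := by ring
    _ = _ := rfl

end Wex
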