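import Pool.Agent.Wex.Targets2
import Pool.Agent.Wey.IN2

/-!
# MP_5ab805_an, spectra on curves and arbitrary spectra: summation over the slabs, trilinear form
(helper78)
-/

set_option autoImplicit false

namespace Wex

open MeasureTheory Set Filter
open scoped ENNReal NNReal Topology
open Pool.Agent.Restr (u E QQ measurable_E L2_slice tomas_stein)
open TriL (Sq n2)
open Wey (Sl Tk IN2_meas_Sl IN2_union IN2_L2 IN2_L4)

/-- `min 1 y ^ a ≤ y ^ ν` for `ν ≤ a` -/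
theorem INT_.minpow {a ν : ℝ} (hν : 0 < ν) (hνa : ν ≤ a) {N : ℝ≥0} {J : ℝ≥0∞} {y : ℝ}
    (hy : 0 < y) (h1 : J ≤ (N : ℝ≥0∞) ^ 2) (h2 : J ≤ (N : ℝ≥0∞) ^ 2 * ENNReal.ofReal y) :
    J ^ a ≤ (N : ℝ≥0∞) ^ (2 * a) * ENNReal.ofReal (y ^ ν) := by
  have ha : 0 ≤ a := by linarith
  have q1 : ((N : ℝ≥0∞) ^ 2) ^ a = (N : ℝ≥0∞) ^ (2 * a) := by
    rw [← ENNReal.rpow_natCast, ← ENNReal.rpow_mul]
    congr 1
  rcases le_total y 1 with hy1 | hy1
  · refine (ENNReal.rpow_le_rpow h2 ha).trans ?_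
    rw [ENNReal.mul_rpow_of_nonneg _ _ ha, q1, ENNReal.ofReal_rpow_of_nonneg hy.le ha]
    exact mul_le_mul_right (ENNReal.ofReal_le_ofReal
      (Real.rpow_le_rpow_of_exponent_ge hy hy1 hνa)) _
  · refine (ENNReal.rpow_le_rpow h1 ha).trans ?_
    rw [q1]
    have h3 : (1 : ℝ≥0∞) ≤ ENNReal.ofReal (y ^ ν) := by
      rw [← ENNReal.ofReal_one]
      exact ENNReal.ofReal_le_ofReal (Real.one_le_rpow hy1 hν.le)
    calc (N : ℝ≥0∞) ^ (2 * a) = (N : ℝ≥0∞) ^ (2 * a) * 1 := (mul_one _).symm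
      _ ≤ _ := by gcongr

/-- Hölder on a slab -/
theorem INT_.slab {r : ℝ} (hr : 1 < r) (hr2 : r < 4 / 3) (X : ℝ × ℝ × ℝ → ℝ≥0∞) (N : ℝ≥0)
    (f : ℝ × ℝ → ℂ) (hX : Measurable X) (hf : Measurable f) (k : ℕ) {Y : ℝ} (hY : 0 ≤ Y)
    (h2 : (∫⁻ ξ in Sl k, X ξ ^ 2) ^ (r / 2) ≤ (N : ℝ≥0∞) ^ r * ENNReal.ofReal Y) :
    ∫⁻ ξ in Sl k, (X ξ * ‖E f ξ‖ₑ) ^ r ≤
      ENNReal.ofReal ((16 * Real.pi ^ 2) ^ (2 - 3 * r / 2) * (4 * Real.pi ^ 4) ^ (r - 1)) *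
      ENNReal.ofReal (2 ^ ((2 - 3 * r / 2) * k) * Y) *
      ((N : ℝ≥0∞) ^ r * n2 f ^ (r / 2)) := by
  have hE : Measurable (fun ξ => ‖E f ξ‖ₑ) := (measurable_E hf).enorm
  have ha : 0 ≤ r / 2 := by linarith
  have hb : 0 ≤ 2 - 3 * r / 2 := by linarith
  have hc : 0 ≤ r - 1 := by linarith
  have key := ENNReal.lintegral_prod_norm_pow_le (μ := volume.restrict (Sl k))
    (s := (Finset.univ : Finset (Fin 3)))
    (f := ![fun ξ => X ξ ^ 2, fun ξ => ‖E f ξ‖ₑ ^ 2, fun ξ => ‖E f ξ‖ₑ ^ 4])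
    (p := ![r / 2, 2 - 3 * r / 2, r - 1])
    (by
      intro i _
      fin_cases i
      · exact (hX.pow_const 2).aemeasurable
      · exact (hE.pow_const 2).aemeasurable
      · exact (hE.pow_const 4).aemeasurable)
    (by
      simp only [Fin.sum_univ_three, Matrix.cons_val_zero, Matrix.cons_val_one,
        Matrix.cons_val_two, Matrix.head_cons, Matrix.tail_cons]
      ring)
    (by
      intro i _
      fin_cases i
      · exact ha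
      · exact hb
      · exact hc)
  simp only [Fin.prod_univ_three, Matrix.cons_val_zero, Matrix.cons_val_one,
    Matrix.cons_val_two, Matrix.head_cons, Matrix.tail_cons] at key
  have e1 : ∀ ξ, (X ξ * ‖E f ξ‖ₑ) ^ r =
      (X ξ ^ 2) ^ (r / 2) * (‖E f ξ‖ₑ ^ 2) ^ (2 - 3 * r / 2) * (‖E f ξ‖ₑ ^ 4) ^ (r - 1) := by
    intro ξ
    rw [ENNReal.mul_rpow_of_nonneg _ _ (by linarith), ← ENNReal.rpow_natCast (X ξ) 2,
      ← ENNReal.rpow_natCast _ 2, ← ENNReal.rpow_natCast _ 4, ← ENNReal.rpow_mul,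
      ← ENNReal.rpow_mul, ← ENNReal.rpow_mul, mul_assoc,
      ← ENNReal.rpow_add_of_nonneg _ _ (by positivity) (by positivity)]
    congr 2
    · push_cast; ring
    · push_cast; ring
  simp only [e1]
  refine key.trans ?_
  have g2 := ENNReal.rpow_le_rpow (IN2_L2 hf k) hb
  have g3 := ENNReal.rpow_le_rpow (IN2_L4 hf k) hc
  refine (mul_le_mul' (mul_le_mul' h2 g2) g3).trans (le_of_eq ?_)
  have p1 : (0:ℝ) ≤ 16 * Real.pi ^ 2 * 2 ^ k := by positivity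
  have p2 : (0:ℝ) ≤ 4 * Real.pi ^ 4 := by positivity
  rw [ENNReal.mul_rpow_of_nonneg _ _ hb,
    ENNReal.mul_rpow_of_nonneg _ _ hc, ENNReal.ofReal_rpow_of_nonneg p1 hb,
    ENNReal.ofReal_rpow_of_nonneg p2 hc]
  have q2 : n2 f ^ (2 - 3 * r / 2) * (n2 f ^ 2) ^ (r - 1) = n2 f ^ (r / 2) := by
    rw [← ENNReal.rpow_natCast, ← ENNReal.rpow_mul,
      ← ENNReal.rpow_add_of_nonneg _ _ hb (by positivity)]
    congr 1
    push_cast; ring
  have q3 : Y * (16 * Real.pi ^ 2 * 2 ^ k) ^ (2 - 3 * r / 2) *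
      (4 * Real.pi ^ 4) ^ (r - 1) =
      ((16 * Real.pi ^ 2) ^ (2 - 3 * r / 2) * (4 * Real.pi ^ 4) ^ (r - 1)) *
        (2 ^ ((2 - 3 * r / 2) * k) * Y) := by
    rw [Real.mul_rpow (by positivity) (by positivity),
      ← Real.rpow_natCast 2 k, ← Real.rpow_mul (by norm_num), mul_comm (k : ℝ)]
    ring
  calc (N : ℝ≥0∞) ^ r * ENNReal.ofReal Y *
        (ENNReal.ofReal ((16 * Real.pi ^ 2 * 2 ^ k) ^ (2 - 3 * r / 2)) *
          n2 f ^ (2 - 3 * r / 2)) *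
        (ENNReal.ofReal ((4 * Real.pi ^ 4) ^ (r - 1)) * (n2 f ^ 2) ^ (r - 1))
      = (ENNReal.ofReal Y *
          ENNReal.ofReal ((16 * Real.pi ^ 2 * 2 ^ k) ^ (2 - 3 * r / 2)) *
          ENNReal.ofReal ((4 * Real.pi ^ 4) ^ (r - 1))) *
          ((N : ℝ≥0∞) ^ r * (n2 f ^ (2 - 3 * r / 2) * (n2 f ^ 2) ^ (r - 1))) := by
        ring
    _ = _ := by
        rw [q2, ← ENNReal.ofReal_mul hY, ← ENNReal.ofReal_mul (by positivity),
          q3, ENNReal.ofReal_mul (by positivity)]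

/-- summation over the slabs, trilinear form -/
theorem p_INT : T_INT := by
  intro r ν hr hr2 hν1 hν2
  have hν0 : 0 < ν := by linarith
  set ε : ℝ := (ν - (2 - 3 * r / 2)) / (2 * ν) with hε
  have hε0 : 0 < ε := by
    rw [hε]
    apply div_pos <;> linarith
  set K0 : ℝ := (16 * Real.pi ^ 2) ^ (2 - 3 * r / 2) * (4 * Real.pi ^ 4) ^ (r - 1) with hK0
  have hK0p : 0 ≤ K0 := by positivity
  set e0 : ℝ := (2 - 3 * r / 2 - ν) / 2 with he0
  have he0n : e0 < 0 := by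
    rw [he0]
    linarith
  set y : ℝ := 2 ^ e0 with hy
  have hy0 : 0 ≤ y := by positivity
  have hy1 : y < 1 := Real.rpow_lt_one_of_one_lt_of_neg (by norm_num) he0n
  have hexp : (2 - 3 * r / 2) + (-1 + ε) * ν = e0 := by
    rw [hε, he0]
    field_simp
    ring
  have hgeo : ∑' k : ℕ, ENNReal.ofReal (y ^ k) = ENNReal.ofReal ((1 - y)⁻¹) := by
    rw [← ENNReal.ofReal_tsum_of_nonneg (fun k => pow_nonneg hy0 k)
      (summable_geometric_of_lt_one hy0 hy1), tsum_geometric_of_lt_one hy0 hy1]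
  refine ⟨ε, hε0, (K0 * (1 - y)⁻¹).toNNReal, ?_⟩
  intro m X N f hm hX hf h1 h2
  have hm0 : (0 : ℝ) < m := by exact_mod_cast hm
  have hu : ∫⁻ ξ, (X ξ * ‖E f ξ‖ₑ) ^ r = ∫⁻ ξ in ⋃ k : ℕ, Sl k, (X ξ * ‖E f ξ‖ₑ) ^ r := by
    rw [IN2_union, setLIntegral_univ]
  rw [hu]
  refine (lintegral_iUnion_le _ _).trans ?_
  have hs : ∀ k : ℕ, ∫⁻ ξ in Sl k, (X ξ * ‖E f ξ‖ₑ) ^ r ≤
      ENNReal.ofReal K0 * ENNReal.ofReal (y ^ k) * (pw m ν) *
        ((N : ℝ≥0∞) ^ r * n2 f ^ (r / 2)) := by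
    intro k
    have hp : (0 : ℝ) < m * 2 ^ ((-1 + ε) * k) := by positivity
    have h3 : ∫⁻ ξ in Sl k, X ξ ^ 2 ≤
        (N : ℝ≥0∞) ^ 2 * ENNReal.ofReal (m * 2 ^ ((-1 + ε) * k)) := by
      refine (h2 k).trans (le_of_eq ?_)
      rw [ENNReal.ofReal_mul hm0.le, ENNReal.ofReal_natCast, mul_assoc]
    have h4 := INT_.minpow hν0 hν2 hp (h1 k) h3
    rw [show 2 * (r / 2) = r by ring] at h4
    refine (INT_.slab hr hr2 X N f hX hf k (by positivity) h4).trans (le_of_eq ?_)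
    have h5 : (2 : ℝ) ^ ((2 - 3 * r / 2) * k) * (m * 2 ^ ((-1 + ε) * k)) ^ ν =
        y ^ k * (m : ℝ) ^ ν := by
      rw [Real.mul_rpow hm0.le (by positivity), ← Real.rpow_mul (by norm_num), hy,
        ← Real.rpow_natCast (2 ^ e0), ← Real.rpow_mul (by norm_num), ← hexp]
      rw [show ((2 - 3 * r / 2) + (-1 + ε) * ν) * (k : ℝ) =
        (2 - 3 * r / 2) * k + (-1 + ε) * k * ν by ring, Real.rpow_add (by norm_num)]
      ring
    rw [h5, ENNReal.ofReal_mul (p := y ^ k) (by positivity), pw]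
    ring
  refine (ENNReal.tsum_le_tsum hs).trans ?_
  rw [ENNReal.tsum_mul_right, ENNReal.tsum_mul_right, ENNReal.tsum_mul_left, hgeo,
    ← ENNReal.ofReal_mul hK0p, ← mul_assoc]
  exact le_rfl

end Wex
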