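import Pool.Agent.Wex.Targets
import Pool.Agent.Wey.ASM

/-!
# MP_5ab805_an, spectra on curves: LIM, functions with spectrum near a polynomial curve
-/

set_option autoImplicit false

namespace Wex

open MeasureTheory Set Filter
open scoped ENNReal NNReal Topology
open Pool.Agent.Restr (u E QQ)
open TriL (Sq n2)
open Wey (nq lam hat gup gdn blk Tk Sl Wi)

namespace LIM_

/-- the unit neighbourhood of the arc over the interval from -R to R -/
def AA (P Q : Polynomial ℝ) (R : ℝ) : Set (ℝ × ℝ) :=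
  {y | ∃ r ∈ Icc (-R) R, (y.1 - P.eval r) ^ 2 + (y.2 - Q.eval r) ^ 2 ≤ 1}

theorem closed_AA (P Q : Polynomial ℝ) (R : ℝ) : IsClosed (AA P Q R) := by
  have h1 : IsClosed {p : (Icc (-R) R) × (ℝ × ℝ) |
      (p.2.1 - P.eval (p.1 : ℝ)) ^ 2 + (p.2.2 - Q.eval (p.1 : ℝ)) ^ 2 ≤ 1} := by
    refine isClosed_le ?_ continuous_const
    have c1 : Continuous fun p : (Icc (-R) R) × (ℝ × ℝ) => P.eval (p.1 : ℝ) :=
      P.continuous.comp (continuous_subtype_val.comp continuous_fst)
    have c2 : Continuous fun p : (Icc (-R) R) × (ℝ × ℝ) => Q.eval (p.1 : ℝ) :=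
      Q.continuous.comp (continuous_subtype_val.comp continuous_fst)
    exact (((continuous_fst.comp continuous_snd).sub c1).pow 2).add
      (((continuous_snd.comp continuous_snd).sub c2).pow 2)
  have h2 := isClosedMap_snd_of_compactSpace _ h1
  have h3 : AA P Q R = Prod.snd '' {p : (Icc (-R) R) × (ℝ × ℝ) |
      (p.2.1 - P.eval (p.1 : ℝ)) ^ 2 + (p.2.2 - Q.eval (p.1 : ℝ)) ^ 2 ≤ 1} := by
    ext y
    constructor
    · rintro ⟨r, hr, h⟩
      exact ⟨(⟨r, hr⟩, y), h, rfl⟩
    · rintro ⟨⟨r, y'⟩, h, rfl⟩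
      exact ⟨r, r.2, h⟩
  rw [h3]
  exact h2

theorem tendsto_ind (P Q : Polynomial ℝ) {γ : ℝ × ℝ → ℂ}
    (h0 : ∀ y : ℝ × ℝ, (∀ r : ℝ, 1 < (y.1 - P.eval r) ^ 2 + (y.2 - Q.eval r) ^ 2) → γ y = 0)
    (y : ℝ × ℝ) : Tendsto (fun R : ℕ => (AA P Q R).indicator γ y) atTop (𝓝 (γ y)) := by
  by_cases h : ∃ r : ℝ, (y.1 - P.eval r) ^ 2 + (y.2 - Q.eval r) ^ 2 ≤ 1
  · obtain ⟨r, hr⟩ := h
    refine tendsto_const_nhds.congr' ?_
    filter_upwards [eventually_ge_atTop ⌈|r|⌉₊] with R hR
    have h1 : |r| ≤ (R : ℝ) := (Nat.le_ceil _).trans (by exact_mod_cast hR)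
    rw [indicator_of_mem]
    exact ⟨r, abs_le.mp h1, hr⟩
  · push Not at h
    have h1 : γ y = 0 := h0 y h
    have h2 : ∀ R : ℕ, (AA P Q R).indicator γ y = 0 := by
      intro R
      by_cases hy : y ∈ AA P Q R
      · rw [indicator_of_mem hy, h1]
      · rw [indicator_of_notMem hy]
    simp only [h2, h1]
    exact tendsto_const_nhds

theorem cont_chk {γ : ℝ × ℝ → ℂ} (hi : Integrable γ) : Continuous (chk γ) := by
  unfold chk
  refine continuous_of_dominated (bound := fun w => ‖γ w‖) (fun x => ?_)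
    (fun x => Eventually.of_forall fun w => ?_) hi.norm (Eventually.of_forall fun w => ?_)
  · exact ((Pool.Agent.Restr.continuous_u.comp (by fun_prop)).aestronglyMeasurable).mul hi.1
  · rw [norm_mul, Pool.Agent.Restr.norm_u, one_mul]
  · exact (Pool.Agent.Restr.continuous_u.comp (by fun_prop)).mul continuous_const

theorem norm_ind_le (S : Set (ℝ × ℝ)) (γ : ℝ × ℝ → ℂ) (y : ℝ × ℝ) :
    ‖S.indicator γ y‖ ≤ ‖γ y‖ := by
  by_cases hy : y ∈ S
  · rw [indicator_of_mem hy]
  · rw [indicator_of_notMem hy, norm_zero]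
    exact norm_nonneg _

theorem norm_chk_le {γ : ℝ × ℝ → ℂ} (hi : Integrable γ) (S : Set (ℝ × ℝ)) (x : ℝ × ℝ) :
    ‖chk (S.indicator γ) x‖ ≤ ∫ y, ‖γ y‖ := by
  unfold chk
  refine norm_integral_le_of_norm_le hi.norm (Eventually.of_forall fun y => ?_)
  rw [norm_mul, Pool.Agent.Restr.norm_u, one_mul]
  exact norm_ind_le S γ y

theorem tendsto_chk (P Q : Polynomial ℝ) {γ : ℝ × ℝ → ℂ} (hi : Integrable γ)
    (h0 : ∀ y : ℝ × ℝ, (∀ r : ℝ, 1 < (y.1 - P.eval r) ^ 2 + (y.2 - Q.eval r) ^ 2) → γ y = 0)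
    (x : ℝ × ℝ) :
    Tendsto (fun R : ℕ => chk ((AA P Q R).indicator γ) x) atTop (𝓝 (chk γ x)) := by
  unfold chk
  refine tendsto_integral_of_dominated_convergence (fun y => ‖γ y‖) (fun R => ?_) hi.norm
    (fun R => Eventually.of_forall fun y => ?_) (Eventually.of_forall fun y => ?_)
  · exact ((Pool.Agent.Restr.continuous_u.comp (by fun_prop)).aestronglyMeasurable).mul
      (hi.1.indicator (closed_AA P Q R).measurableSet)
  · rw [norm_mul, Pool.Agent.Restr.norm_u, one_mul]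
    exact norm_ind_le _ γ y
  · exact (tendsto_ind P Q h0 y).const_mul _

theorem tendsto_E (P Q : Polynomial ℝ) {γ χ : ℝ × ℝ → ℂ} {K : ℝ≥0} (hχ : Wi K χ)
    (hQ : ∀ x, x ∉ QQ → χ x = 0) (hi : Integrable γ)
    (h0 : ∀ y : ℝ × ℝ, (∀ r : ℝ, 1 < (y.1 - P.eval r) ^ 2 + (y.2 - Q.eval r) ^ 2) → γ y = 0)
    (ξ : ℝ × ℝ × ℝ) :
    Tendsto (fun R : ℕ => E (fun x => χ x * chk ((AA P Q R).indicator γ) x) ξ) atTop
      (𝓝 (E (fun x => χ x * chk γ x) ξ)) := by
  unfold E
  have hQm : MeasurableSet QQ := measurableSet_Icc.prod measurableSet_Icc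
  have hQi : Integrable (QQ.indicator fun _ : ℝ × ℝ => (K : ℝ) * ∫ y, ‖γ y‖) := by
    refine (integrable_indicator_iff hQm).mpr ?_
    refine integrableOn_const ?_
    exact (isCompact_Icc.prod isCompact_Icc).measure_lt_top.ne
  refine tendsto_integral_of_dominated_convergence _ (fun R => ?_) hQi
    (fun R => Eventually.of_forall fun x => ?_) (Eventually.of_forall fun x => ?_)
  · have c1 : Continuous (chk ((AA P Q R).indicator γ)) :=
      cont_chk (hi.indicator (closed_AA P Q R).measurableSet)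
    exact ((Pool.Agent.Restr.continuous_u.comp (by fun_prop)).mul
      ((Wey.ASM_.wi_cont hχ).mul c1)).aestronglyMeasurable
  · rw [norm_mul, Pool.Agent.Restr.norm_u, one_mul, norm_mul]
    by_cases hx : x ∈ QQ
    · rw [indicator_of_mem hx]
      have h1 : ‖χ x‖ ≤ K := by
        have := Wey.ASM_.wi_le hχ x
        rw [← ofReal_norm, ENNReal.ofReal_le_iff_le_toReal ENNReal.coe_ne_top] at this
        simpa using this
      have h2 := norm_chk_le hi (AA P Q R) x
      gcongr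
    · rw [indicator_of_notMem hx, hQ x hx, norm_zero, zero_mul]
  · exact ((tendsto_chk P Q hi h0 x).const_mul _).const_mul _

end LIM_

open LIM_ in
theorem p_LIM (h1 : T_THK) (h2 : T_GRE) (h3 : T_POL) : T_LIM := by
  intro q hq hq4
  obtain ⟨C, hC⟩ := h1 q hq hq4
  refine ⟨C, fun P Q χ γ K hχ hQ hm hi h0 f hf hf1 => ?_⟩
  have key : ∀ R : ℕ, eLpNorm (fun ξ => E f ξ *
      E (fun x => χ x * chk ((AA P Q R).indicator γ) x) ξ) (ENNReal.ofReal (q / 2)) volume ≤
      C * K * NNReal.sqrt (2 * max P.natDegree Q.natDegree + 1) * eLpNorm γ 2 volume ∧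
    ∀ g : ℝ × ℝ → ℂ, Sq g →
    eLpNorm (fun ξ => E f ξ * E g ξ * E (fun x => χ x * chk ((AA P Q R).indicator γ) x) ξ)
      (ENNReal.ofReal (q / 3)) volume ≤
      C * K * NNReal.sqrt (2 * max P.natDegree Q.natDegree + 1) * eLpNorm γ 2 volume *
        eLpNorm g 2 volume := by
    intro R
    have hmA := (closed_AA P Q R).measurableSet
    obtain ⟨N, v, hv, hS, hcov⟩ := h2 (fun r => (P.eval r, Q.eval r))
      (P.continuous.prodMk Q.continuous) R
    have hA := h3 P Q v (Finset.Ico 0 N) hv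
    have h4 := hC (2 * max P.natDegree Q.natDegree + 1) (fun n => P.eval (v n))
      (fun n => Q.eval (v n)) 0 N χ ((AA P Q R).indicator γ) K (by omega) hS hA hχ hQ
      (hm.indicator hmA) (hi.indicator hmA) (by
        intro y hy
        rw [indicator_of_notMem]
        rintro ⟨r, hr, h5⟩
        obtain ⟨n, hn, h6⟩ := hcov r hr
        have h7 := hy n hn
        simp only at h6
        nlinarith [sq_nonneg ((y.1 - P.eval r) - (P.eval r - P.eval (v n))),
          sq_nonneg ((y.2 - Q.eval r) - (Q.eval r - Q.eval (v n)))]) f hf hf1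
    have h5 : eLpNorm ((AA P Q R).indicator γ) 2 volume ≤ eLpNorm γ 2 volume :=
      eLpNorm_indicator_le γ
    have h6 : ((2 * max P.natDegree Q.natDegree + 1 : ℕ) : ℝ≥0) =
        2 * ((max P.natDegree Q.natDegree : ℕ) : ℝ≥0) + 1 := by push_cast; ring
    rw [h6] at h4
    refine ⟨h4.1.trans ?_, fun g hg => (h4.2 g hg).trans ?_⟩
    · gcongr
    · gcongr
  have hmE : ∀ R : ℕ, Measurable (E (fun x => χ x * chk ((AA P Q R).indicator γ) x)) := by
    intro R
    exact Pool.Agent.Restr.measurable_E ((Wey.ASM_.wi_cont hχ).measurable.mul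
      (cont_chk (hi.indicator (closed_AA P Q R).measurableSet)).measurable)
  have hmf : Measurable (E f) := Pool.Agent.Restr.measurable_E hf.1
  refine ⟨?_, fun g hg => ?_⟩
  · refine (Lp.eLpNorm_lim_le_liminf_eLpNorm
      (f := fun (R : ℕ) ξ => E f ξ * E (fun x => χ x * chk ((AA P Q R).indicator γ) x) ξ)
      (fun R => (hmf.mul (hmE R)).aestronglyMeasurable) _
      (Eventually.of_forall fun ξ => (tendsto_E P Q hχ hQ hi h0 ξ).const_mul _)).trans ?_
    exact liminf_le_of_frequently_le' (Eventually.of_forall fun R => (key R).1).frequently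
  · have hmg : Measurable (E g) := Pool.Agent.Restr.measurable_E hg.1
    refine (Lp.eLpNorm_lim_le_liminf_eLpNorm
      (f := fun (R : ℕ) ξ => E f ξ * E g ξ *
        E (fun x => χ x * chk ((AA P Q R).indicator γ) x) ξ)
      (fun R => ((hmf.mul hmg).mul (hmE R)).aestronglyMeasurable) _
      (Eventually.of_forall fun ξ => (tendsto_E P Q hχ hQ hi h0 ξ).const_mul _)).trans ?_
    exact liminf_le_of_frequently_le' (Eventually.of_forall fun R => (key R).2 g hg).frequently

end Wex
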