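import Pool.Agent.Wex.Targets2
import Pool.Agent.Wex.LIM
import Pool.Agent.TriL.SUM

/-!
# MP_5ab805_an, LEV: level sets and the triangle inequality (helper19)
-/

set_option autoImplicit false

namespace Wex

open MeasureTheory Set Filter
open scoped ENNReal NNReal Topology
open Pool.Agent.Restr (u E QQ)
open TriL (Sq n2)
open Wey (nq lam hat gup gdn blk Tk Sl Wi InD)

namespace LEV_

/-! ### level sets of a finite family of numbers -/

/-- one level -/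
theorem level {ι : Type*} {s κ : ℝ} (hs : 1 ≤ s) (hκ : 0 < κ) (S T : Finset ι) (a : ι → ℝ)
    (ha : ∀ k, 0 ≤ a k) (hT : T ⊆ S) (A : ℝ) (hA : A = (∑ k ∈ S, a k ^ s) ^ (1 / s)) (j : ℕ)
    (h1 : ∀ k ∈ T, 2 ^ j * a k ≤ A) (h2 : ∀ k ∈ T, A < 2 ^ (j + 1) * a k) :
    ((T.card : ℝ) ^ κ) * √(∑ k ∈ T, a k ^ 2) ≤
      2 ^ (s * (κ + 1 / 2)) * ((2 : ℝ) ^ (s * (κ + 1 / 2) - 1)) ^ j * A := by
  have hs0 : 0 < s := by linarith
  have hsum0 : 0 ≤ ∑ k ∈ S, a k ^ s := Finset.sum_nonneg fun k _ => Real.rpow_nonneg (ha k) _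
  have hA0 : 0 ≤ A := by rw [hA]; exact Real.rpow_nonneg hsum0 _
  rcases T.eq_empty_or_nonempty with rfl | ⟨k₀, hk₀⟩
  · simp only [Finset.card_empty, Nat.cast_zero, Finset.sum_empty, Real.sqrt_zero, mul_zero]
    positivity
  have hApos : 0 < A := by
    rcases hA0.lt_or_eq with h | h
    · exact h
    · exfalso
      have e1 := h1 k₀ hk₀
      have e2 := h2 k₀ hk₀
      rw [← h] at e1 e2
      have e3 : 0 < a k₀ := by
        by_contra h3
        have : a k₀ = 0 := le_antisymm (not_lt.1 h3) (ha k₀)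
        rw [this, mul_zero] at e2
        exact lt_irrefl _ e2
      have : 0 < (2 : ℝ) ^ j * a k₀ := by positivity
      linarith
  have hAs : A ^ s = ∑ k ∈ S, a k ^ s := by
    rw [hA, ← Real.rpow_mul hsum0, one_div, inv_mul_cancel₀ hs0.ne', Real.rpow_one]
  have hcard : (T.card : ℝ) ≤ (2 : ℝ) ^ (s * (j + 1)) := by
    have h3 : (T.card : ℝ) * (A / 2 ^ (j + 1)) ^ s ≤ A ^ s := by
      rw [hAs]
      calc (T.card : ℝ) * (A / 2 ^ (j + 1)) ^ s = ∑ k ∈ T, (A / 2 ^ (j + 1)) ^ s := by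
            rw [Finset.sum_const, nsmul_eq_mul]
        _ ≤ ∑ k ∈ T, a k ^ s := by
            refine Finset.sum_le_sum fun k hk => ?_
            refine Real.rpow_le_rpow (by positivity) ?_ hs0.le
            rw [div_le_iff₀ (by positivity), mul_comm]
            exact (h2 k hk).le
        _ ≤ ∑ k ∈ S, a k ^ s :=
            Finset.sum_le_sum_of_subset_of_nonneg hT fun k _ _ => Real.rpow_nonneg (ha k) _
    rw [Real.div_rpow hA0 (by positivity), ← mul_div_assoc, div_le_iff₀ (by positivity)] at h3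
    have h4 : (T.card : ℝ) ≤ ((2 : ℝ) ^ (j + 1)) ^ s := by
      have h5 : (T.card : ℝ) * A ^ s ≤ ((2 : ℝ) ^ (j + 1)) ^ s * A ^ s := by linarith
      exact le_of_mul_le_mul_right h5 (by positivity)
    refine h4.trans (le_of_eq ?_)
    rw [← Real.rpow_natCast, ← Real.rpow_mul (by norm_num)]
    congr 1
    push_cast
    ring
  have hsq : √(∑ k ∈ T, a k ^ 2) ≤ (T.card : ℝ) ^ (1 / 2 : ℝ) * (A / 2 ^ j) := by
    rw [← Real.sqrt_eq_rpow]
    refine Real.sqrt_le_iff.2 ⟨by positivity, ?_⟩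
    rw [mul_pow, Real.sq_sqrt (Nat.cast_nonneg _)]
    calc ∑ k ∈ T, a k ^ 2 ≤ ∑ k ∈ T, (A / 2 ^ j) ^ 2 := by
          refine Finset.sum_le_sum fun k hk => pow_le_pow_left₀ (ha k) ?_ 2
          rw [le_div_iff₀ (by positivity), mul_comm]
          exact h1 k hk
      _ = _ := by rw [Finset.sum_const, nsmul_eq_mul]
  have hc1 : (0 : ℝ) < T.card := by
    have : 0 < T.card := Finset.card_pos.2 ⟨k₀, hk₀⟩
    exact_mod_cast this
  calc ((T.card : ℝ) ^ κ) * √(∑ k ∈ T, a k ^ 2)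
      ≤ ((T.card : ℝ) ^ κ) * ((T.card : ℝ) ^ (1 / 2 : ℝ) * (A / 2 ^ j)) := by gcongr
    _ = (T.card : ℝ) ^ (κ + 1 / 2) * (A / 2 ^ j) := by
        rw [Real.rpow_add hc1]; ring
    _ ≤ ((2 : ℝ) ^ (s * (j + 1))) ^ (κ + 1 / 2) * (A / 2 ^ j) := by gcongr
    _ = _ := by
        rw [← Real.rpow_mul (by norm_num), ← Real.rpow_natCast (2 ^ (s * (κ + 1 / 2) - 1)),
          ← Real.rpow_mul (by norm_num)]
        have e1 : (2 : ℝ) ^ j = 2 ^ (j : ℝ) := (Real.rpow_natCast _ _).symm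
        have e3 : A / 2 ^ (j : ℝ) = A * 2 ^ (-(j : ℝ)) := by
          rw [Real.rpow_neg (by norm_num), div_eq_mul_inv]
        rw [e1, e3]
        have e2 : (2 : ℝ) ^ (s * (↑j + 1) * (κ + 1 / 2)) * (A * 2 ^ (-(j : ℝ))) =
            (2 ^ (s * (↑j + 1) * (κ + 1 / 2)) * 2 ^ (-(j : ℝ))) * A := by ring
        rw [e2, ← Real.rpow_add (by norm_num), ← Real.rpow_add (by norm_num)]
        congr 2
        ring

/-- the level sets -/
theorem levels {ι : Type*} {s κ : ℝ} (hs : 1 ≤ s) (hκ : 0 < κ) (hsκ : s * (κ + 1 / 2) < 1)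
    (S : Finset ι) (a : ι → ℝ) (ha : ∀ k, 0 ≤ a k) :
    ∃ (J : ℕ) (T : ℕ → Finset ι), (∀ j, T j ⊆ S) ∧
      (∀ i j, i ≠ j → ∀ k ∈ T i, k ∉ T j) ∧ (∀ k ∈ S, a k ≠ 0 → ∃ j ∈ Finset.range J, k ∈ T j) ∧
      ∑ j ∈ Finset.range J, ((T j).card : ℝ) ^ κ * √(∑ k ∈ T j, a k ^ 2) ≤
        2 ^ (s * (κ + 1 / 2)) * (1 - (2 : ℝ) ^ (s * (κ + 1 / 2) - 1))⁻¹ *
          (∑ k ∈ S, a k ^ s) ^ (1 / s) := by
  classical
  have hs0 : 0 < s := by linarith
  have hsum0 : 0 ≤ ∑ k ∈ S, a k ^ s := Finset.sum_nonneg fun k _ => Real.rpow_nonneg (ha k) _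
  obtain ⟨A, hA⟩ : ∃ A : ℝ, A = (∑ k ∈ S, a k ^ s) ^ (1 / s) := ⟨_, rfl⟩
  have hA0 : 0 ≤ A := by rw [hA]; exact Real.rpow_nonneg hsum0 _
  have hle : ∀ k ∈ S, a k ≤ A := by
    intro k hk
    have h1 : a k ^ s ≤ ∑ k ∈ S, a k ^ s :=
      Finset.single_le_sum (f := fun k => a k ^ s) (fun k _ => Real.rpow_nonneg (ha k) _) hk
    calc a k = (a k ^ s) ^ (1 / s) := by
          rw [← Real.rpow_mul (ha k), mul_one_div_cancel hs0.ne', Real.rpow_one]
      _ ≤ A := by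
          rw [hA]
          exact Real.rpow_le_rpow (Real.rpow_nonneg (ha k) _) h1 (by positivity)
  have hex : ∀ k, ∃ n : ℕ, k ∈ S → a k ≠ 0 → 2 ^ n * a k ≤ A ∧ A < 2 ^ (n + 1) * a k := by
    intro k
    by_cases hk : k ∈ S ∧ a k ≠ 0
    · have hpos : 0 < a k := lt_of_le_of_ne (ha k) (Ne.symm hk.2)
      obtain ⟨n, h1, h2⟩ := exists_nat_pow_near (x := A / a k) (y := (2 : ℝ))
        ((one_le_div hpos).2 (hle k hk.1)) (by norm_num)
      refine ⟨n, fun _ _ => ⟨?_, ?_⟩⟩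
      · rwa [le_div_iff₀ hpos] at h1
      · rwa [div_lt_iff₀ hpos] at h2
    · refine ⟨0, fun h1 h2 => absurd ⟨h1, h2⟩ hk⟩
  choose n hn using hex
  refine ⟨S.sup n + 1, fun j => S.filter fun k => a k ≠ 0 ∧ n k = j,
    fun j => Finset.filter_subset _ _, ?_, ?_, ?_⟩
  · intro i j hij k hk hk'
    exact hij ((Finset.mem_filter.1 hk).2.2.symm.trans (Finset.mem_filter.1 hk').2.2)
  · intro k hk h0
    refine ⟨n k, Finset.mem_range.2 (Nat.lt_succ_of_le (Finset.le_sup hk)), ?_⟩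
    exact Finset.mem_filter.2 ⟨hk, h0, rfl⟩
  · have hr0 : 0 ≤ (2 : ℝ) ^ (s * (κ + 1 / 2) - 1) := by positivity
    have hr1 : (2 : ℝ) ^ (s * (κ + 1 / 2) - 1) < 1 :=
      Real.rpow_lt_one_of_one_lt_of_neg (by norm_num) (by linarith)
    rw [← hA]
    calc ∑ j ∈ Finset.range (S.sup n + 1), (((S.filter fun k => a k ≠ 0 ∧ n k = j).card : ℝ) ^ κ) *
          √(∑ k ∈ S.filter fun k => a k ≠ 0 ∧ n k = j, a k ^ 2)
        ≤ ∑ j ∈ Finset.range (S.sup n + 1),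
          2 ^ (s * (κ + 1 / 2)) * ((2 : ℝ) ^ (s * (κ + 1 / 2) - 1)) ^ j * A := by
          refine Finset.sum_le_sum fun j _ => level hs hκ S _ a ha (Finset.filter_subset _ _) A hA j
            ?_ ?_
          · intro k hk
            obtain ⟨h1, h2, rfl⟩ := Finset.mem_filter.1 hk
            exact (hn k h1 h2).1
          · intro k hk
            obtain ⟨h1, h2, rfl⟩ := Finset.mem_filter.1 hk
            exact (hn k h1 h2).2
      _ = 2 ^ (s * (κ + 1 / 2)) *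
          (∑ j ∈ Finset.range (S.sup n + 1), ((2 : ℝ) ^ (s * (κ + 1 / 2) - 1)) ^ j) * A := by
          rw [Finset.mul_sum, Finset.sum_mul]
      _ ≤ _ := by
          gcongr
          rw [← tsum_geometric_of_lt_one hr0 hr1]
          exact (summable_geometric_of_lt_one hr0 hr1).sum_le_tsum _ fun j _ => by positivity

/-! ### cells -/

/-- the integer point of the cell of `y` -/
noncomputable def fl (y : ℝ × ℝ) : ℤ × ℤ := (⌊y.1⌋, ⌊y.2⌋)

theorem mem_cell {k : ℤ × ℤ} {y : ℝ × ℝ} : y ∈ cell k ↔ fl y = k := by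
  unfold cell fl
  rw [Set.mem_prod, Set.mem_Ico, Set.mem_Ico, Prod.ext_iff, Int.floor_eq_iff, Int.floor_eq_iff]

theorem meas_cell (k : ℤ × ℤ) : MeasurableSet (cell k) :=
  measurableSet_Ico.prod measurableSet_Ico

/-- the part of `γ` on the cells of `T` -/
noncomputable def prt (T : Finset (ℤ × ℤ)) (γ : ℝ × ℝ → ℂ) : ℝ × ℝ → ℂ :=
  (⋃ k ∈ T, cell k).indicator γ

theorem mem_U {T : Finset (ℤ × ℤ)} {y : ℝ × ℝ} : y ∈ ⋃ k ∈ T, cell k ↔ fl y ∈ T := by
  simp [mem_cell]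

theorem meas_U (T : Finset (ℤ × ℤ)) : MeasurableSet (⋃ k ∈ T, cell k) :=
  T.measurableSet_biUnion fun k _ => meas_cell k

theorem prt_apply (T : Finset (ℤ × ℤ)) (γ : ℝ × ℝ → ℂ) (y : ℝ × ℝ) :
    prt T γ y = if fl y ∈ T then γ y else 0 := by
  unfold prt
  by_cases h : fl y ∈ T
  · rw [if_pos h, indicator_of_mem (mem_U.2 h)]
  · rw [if_neg h, indicator_of_notMem fun h' => h (mem_U.1 h')]

theorem prt_sq (T : Finset (ℤ × ℤ)) (γ : ℝ × ℝ → ℂ) :
    ∫⁻ y, ‖prt T γ y‖ₑ ^ 2 = ∑ k ∈ T, ∫⁻ y in cell k, ‖γ y‖ₑ ^ 2 := by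
  have h1 : (fun y => ‖prt T γ y‖ₑ ^ 2) =
      (⋃ k ∈ T, cell k).indicator (fun y => ‖γ y‖ₑ ^ 2) := by
    funext y
    unfold prt
    by_cases h : y ∈ ⋃ k ∈ T, cell k
    · rw [indicator_of_mem h, indicator_of_mem h]
    · rw [indicator_of_notMem h, indicator_of_notMem h]
      simp
  rw [h1, lintegral_indicator (meas_U T), lintegral_biUnion_finset]
  · intro i _ j _ hij
    refine Set.disjoint_left.2 fun y hi hj => hij ?_
    rw [← mem_cell.1 hi, mem_cell.1 hj]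
  · exact fun k _ => meas_cell k

theorem eLp2 (δ : ℝ × ℝ → ℂ) :
    eLpNorm δ 2 volume = (∫⁻ y, ‖δ y‖ₑ ^ 2) ^ (1 / 2 : ℝ) := by
  rw [eLpNorm_eq_lintegral_rpow_enorm_toReal (by norm_num) (by norm_num)]
  simp

theorem chk_sum {J : ℕ} {G : ℕ → ℝ × ℝ → ℂ} (hG : ∀ j, Integrable (G j)) (x : ℝ × ℝ) :
    chk (fun y => ∑ j ∈ Finset.range J, G j y) x = ∑ j ∈ Finset.range J, chk (G j) x := by
  unfold chk
  rw [← integral_finsetSum]
  · refine integral_congr_ae (Eventually.of_forall fun y => ?_)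
    simp only [Finset.mul_sum]
  · intro j _
    exact (hG j).bdd_mul (c := 1)
      (Pool.Agent.Restr.continuous_u.comp (by fun_prop)).aestronglyMeasurable
      (Eventually.of_forall fun x => (Pool.Agent.Restr.norm_u _).le)

theorem chk_congr {γ γ' : ℝ × ℝ → ℂ} (h : γ =ᵐ[volume] γ') : chk γ = chk γ' := by
  funext x
  unfold chk
  refine integral_congr_ae ?_
  filter_upwards [h] with y hy
  rw [hy]

theorem intg {K : ℝ≥0} {χ γ : ℝ × ℝ → ℂ} (hχ : Wi K χ) (hQ : ∀ x, x ∉ QQ → χ x = 0)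
    (hi : Integrable γ) : Integrable (fun x => χ x * chk γ x) := by
  refine ((Wey.ASM_.wi_cont hχ).mul (LIM_.cont_chk hi)).integrable_of_hasCompactSupport ?_
  refine HasCompactSupport.intro (K := QQ) (isCompact_Icc.prod isCompact_Icc) fun x hx => ?_
  change χ x * chk γ x = 0
  rw [hQ x hx, zero_mul]

/-- from the bounds for unions of cells to the amalgam norm -/
theorem assemble {s κ : ℝ} (hs : 1 ≤ s) (hκ : 0 < κ) (hsκ : s * (κ + 1 / 2) < 1) :
    ∃ C : ℝ≥0, ∀ (χ γ : ℝ × ℝ → ℂ) (K : ℝ≥0) (S : Finset (ℤ × ℤ)) (w : ℝ × ℝ × ℝ → ℂ)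
    (p D : ℝ≥0∞), Wi K χ → (∀ x, x ∉ QQ → χ x = 0) → Measurable γ → Integrable γ →
    ∫⁻ y, ‖γ y‖ₑ ^ 2 < ∞ → (∀ y : ℝ × ℝ, (∀ k ∈ S, y ∉ cell k) → γ y = 0) → Measurable w →
    1 ≤ p →
    (∀ (T : Finset (ℤ × ℤ)) (δ : ℝ × ℝ → ℂ), Measurable δ → Integrable δ →
      (∀ y : ℝ × ℝ, (∀ k ∈ T, y ∉ cell k) → δ y = 0) →
      eLpNorm (fun ξ => w ξ * E (fun x => χ x * chk δ x) ξ) p volume ≤
        D * pw T.card κ * eLpNorm δ 2 volume) →
    eLpNorm (fun ξ => w ξ * E (fun x => χ x * chk γ x) ξ) p volume ≤ C * D * amal s γ := by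
  classical
  have hs0 : 0 < s := by linarith
  have hr1 : (2 : ℝ) ^ (s * (κ + 1 / 2) - 1) < 1 :=
    Real.rpow_lt_one_of_one_lt_of_neg (by norm_num) (by linarith)
  have hC0 : 0 ≤ 2 ^ (s * (κ + 1 / 2)) * (1 - (2 : ℝ) ^ (s * (κ + 1 / 2) - 1))⁻¹ :=
    mul_nonneg (by positivity) (inv_nonneg.2 (by linarith))
  obtain ⟨c, hc⟩ : ∃ c : ℝ≥0, ENNReal.ofReal (2 ^ (s * (κ + 1 / 2)) *
      (1 - (2 : ℝ) ^ (s * (κ + 1 / 2) - 1))⁻¹) = c := ⟨_, rfl⟩
  refine ⟨c, fun χ γ K S w p D hχ hQ hm hi h2 h0 hw hp hb => ?_⟩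
  set I : ℤ × ℤ → ℝ≥0∞ := fun k => ∫⁻ y in cell k, ‖γ y‖ₑ ^ 2 with hI
  have hIfin : ∀ k, I k ≠ ∞ := fun k => ((setLIntegral_le_lintegral _ _).trans_lt h2).ne
  set a : ℤ × ℤ → ℝ := fun k => √(I k).toReal with ha
  have ha0 : ∀ k, 0 ≤ a k := fun k => Real.sqrt_nonneg _
  have ha2 : ∀ k, ENNReal.ofReal (a k ^ 2) = I k := by
    intro k
    rw [ha]
    simp only [Real.sq_sqrt ENNReal.toReal_nonneg]
    exact ENNReal.ofReal_toReal (hIfin k)
  have has : ∀ k, ENNReal.ofReal (a k ^ s) = I k ^ (s / 2) := by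
    intro k
    have e1 : a k ^ s = (a k ^ 2) ^ (s / 2) := by
      rw [← Real.rpow_natCast, ← Real.rpow_mul (ha0 k)]
      congr 1
      push_cast
      ring
    rw [e1, ← ENNReal.ofReal_rpow_of_nonneg (sq_nonneg _) (by positivity), ha2]
  obtain ⟨J, T, hTS, hdisj, hcov, hsum⟩ := levels hs hκ hsκ S a ha0
  -- the decomposition
  have hzero : ∀ᵐ y : ℝ × ℝ, ∀ k ∈ S, a k = 0 → y ∈ cell k → γ y = 0 := by
    rw [eventually_all_finset]
    intro k _
    by_cases hk : a k = 0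
    · have h3 : I k = 0 := by rw [← ha2, hk]; simp
      rw [hI] at h3
      rw [lintegral_eq_zero_iff (by fun_prop)] at h3
      have h4 := (ae_restrict_iff' (meas_cell k)).1 h3
      filter_upwards [h4] with y hy _ hyk
      have := hy hyk
      simpa using this
    · exact Eventually.of_forall fun y h => absurd h hk
  have hdec : γ =ᵐ[volume] fun y => ∑ j ∈ Finset.range J, prt (T j) γ y := by
    filter_upwards [hzero] with y hy
    simp only [prt_apply]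
    by_cases h : γ y = 0
    · simp [h]
    · have hS : fl y ∈ S := by
        by_contra h3
        refine h (h0 y fun k hk hy' => h3 ?_)
        rw [mem_cell.1 hy']
        exact hk
      have h3 : a (fl y) ≠ 0 := fun h4 => h (hy _ hS h4 (mem_cell.2 rfl))
      obtain ⟨j, hj, hjT⟩ := hcov _ hS h3
      rw [Finset.sum_eq_single j, if_pos hjT]
      · intro i _ hij
        rw [if_neg fun h5 => hdisj i j hij _ h5 hjT]
      · exact fun h5 => absurd hj h5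
  have hGi : ∀ j, Integrable (prt (T j) γ) := fun j => hi.indicator (meas_U _)
  have hGm : ∀ j, Measurable (prt (T j) γ) := fun j => hm.indicator (meas_U _)
  have hfun : ∀ ξ, E (fun x => χ x * chk γ x) ξ =
      ∑ j ∈ Finset.range J, E (fun x => χ x * chk (prt (T j) γ) x) ξ := by
    intro ξ
    rw [← TriL.SUM_.E_sum (fun j => intg hχ hQ (hGi j))]
    congr 1
    funext x
    rw [chk_congr hdec, chk_sum hGi, Finset.mul_sum]
  have hEm : ∀ j, Measurable (E (fun x => χ x * chk (prt (T j) γ) x)) := fun j =>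
    Pool.Agent.Restr.measurable_E ((Wey.ASM_.wi_cont hχ).measurable.mul
      (LIM_.cont_chk (hGi j)).measurable)
  have hnorm : ∀ j, eLpNorm (prt (T j) γ) 2 volume = ENNReal.ofReal (√(∑ k ∈ T j, a k ^ 2)) := by
    intro j
    rw [eLp2, prt_sq]
    have e1 : ∑ k ∈ T j, ∫⁻ y in cell k, ‖γ y‖ₑ ^ 2 = ENNReal.ofReal (∑ k ∈ T j, a k ^ 2) := by
      rw [ENNReal.ofReal_sum_of_nonneg fun k _ => sq_nonneg _]
      exact Finset.sum_congr rfl fun k _ => (ha2 k).symm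
    rw [e1, ENNReal.ofReal_rpow_of_nonneg (Finset.sum_nonneg fun k _ => sq_nonneg _)
      (by norm_num), Real.sqrt_eq_rpow]
  have hamal : ENNReal.ofReal ((∑ k ∈ S, a k ^ s) ^ (1 / s)) ≤ amal s γ := by
    rw [← ENNReal.ofReal_rpow_of_nonneg (Finset.sum_nonneg fun k _ => Real.rpow_nonneg (ha0 k) _)
      (by positivity), ENNReal.ofReal_sum_of_nonneg fun k _ => Real.rpow_nonneg (ha0 k) _]
    unfold amal
    refine ENNReal.rpow_le_rpow ?_ (by positivity)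
    simp only [has]
    exact ENNReal.sum_le_tsum S
  calc eLpNorm (fun ξ => w ξ * E (fun x => χ x * chk γ x) ξ) p volume
      = eLpNorm (∑ j ∈ Finset.range J,
          fun ξ => w ξ * E (fun x => χ x * chk (prt (T j) γ) x) ξ) p volume := by
        congr 1
        funext ξ
        rw [hfun, Finset.mul_sum, Finset.sum_apply]
    _ ≤ ∑ j ∈ Finset.range J,
          eLpNorm (fun ξ => w ξ * E (fun x => χ x * chk (prt (T j) γ) x) ξ) p volume :=
        eLpNorm_sum_le (fun j _ => (hw.mul (hEm j)).aestronglyMeasurable) hp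
    _ ≤ ∑ j ∈ Finset.range J, D * ENNReal.ofReal (((T j).card : ℝ) ^ κ *
          √(∑ k ∈ T j, a k ^ 2)) := by
        refine Finset.sum_le_sum fun j _ => ?_
        refine (hb (T j) (prt (T j) γ) (hGm j) (hGi j) fun y hy => ?_).trans (le_of_eq ?_)
        · rw [prt_apply, if_neg]
          exact fun h => hy _ h (mem_cell.2 rfl)
        · rw [hnorm, mul_assoc, pw, ← ENNReal.ofReal_mul (by positivity)]
    _ = D * ENNReal.ofReal (∑ j ∈ Finset.range J, ((T j).card : ℝ) ^ κ *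
          √(∑ k ∈ T j, a k ^ 2)) := by
        rw [← Finset.mul_sum, ENNReal.ofReal_sum_of_nonneg fun j _ => by positivity]
    _ ≤ D * (ENNReal.ofReal (2 ^ (s * (κ + 1 / 2)) * (1 - (2 : ℝ) ^ (s * (κ + 1 / 2) - 1))⁻¹) *
          amal s γ) := by
        refine mul_le_mul_right ?_ D
        refine (ENNReal.ofReal_le_ofReal hsum).trans ?_
        rw [ENNReal.ofReal_mul hC0]
        exact mul_le_mul_right hamal _
    _ = _ := by
        rw [hc]
        ring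

end LEV_

open LEV_ in
theorem p_LEV (h1 : T_SPA) : T_LEV := by
  intro ρ s μ t hρ hρ2 hs hsρ hμ hμ2 ht htμ
  have hs0 : 0 < s := by linarith
  have ht0 : 0 < t := by linarith
  have hρs : 1 / ρ < 1 / s := one_div_lt_one_div_of_lt hs0 hsρ
  have hρ3 : 1 / 2 < 1 / ρ := one_div_lt_one_div_of_lt (by linarith) hρ2
  have hμ3 : 3 / 4 < 1 / μ := by
    rw [lt_one_div (by norm_num) (by linarith)]
    linarith
  obtain ⟨κ, hκ1, hκ2⟩ : ∃ κ, 1 / ρ - 1 / 2 < κ ∧ κ < 1 / s - 1 / 2 :=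
    exists_between (by linarith)
  obtain ⟨ν, hν1, hν2⟩ : ∃ ν, 1 / μ - 3 / 4 < ν ∧ ν < 1 / t - 1 / 2 :=
    exists_between (by linarith)
  have hsκ : s * (κ + 1 / 2) < 1 := by
    have h2 : κ + 1 / 2 < 1 / s := by linarith
    calc s * (κ + 1 / 2) < s * (1 / s) := by gcongr
      _ = 1 := mul_one_div_cancel hs0.ne'
  have htν : t * (ν + 1 / 2) < 1 := by
    have h2 : ν + 1 / 2 < 1 / t := by linarith
    calc t * (ν + 1 / 2) < t * (1 / t) := by gcongr
      _ = 1 := mul_one_div_cancel ht0.ne'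
  obtain ⟨C₀, hC₀⟩ := h1 ρ κ μ ν hρ hρ2 hκ1 hμ hμ2 hν1
  obtain ⟨C₁, hC₁⟩ := assemble hs (by linarith) hsκ
  obtain ⟨C₂, hC₂⟩ := assemble ht (by linarith) htν
  refine ⟨(C₁ + C₂) * C₀, fun χ γ K S hχ hQ hm hi h2 h0 f hf hf1 => ⟨?_, fun g hg => ?_⟩⟩
  · refine (hC₁ χ γ K S (E f) (ENNReal.ofReal ρ) (C₀ * K) hχ hQ hm hi h2 h0
      (Pool.Agent.Restr.measurable_E hf.1) ?_ fun T δ hδm hδi hδ0 => ?_).trans ?_
    · exact ENNReal.one_le_ofReal.2 (by linarith)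
    · exact (hC₀ χ δ K T hχ hQ hδm hδi hδ0 f hf hf1).1
    · calc (C₁ : ℝ≥0∞) * (C₀ * K) * amal s γ ≤ (C₁ + C₂) * (C₀ * K) * amal s γ := by
            gcongr
            exact le_self_add
        _ = _ := by push_cast; ring
  · refine (hC₂ χ γ K S (fun ξ => E f ξ * E g ξ) (ENNReal.ofReal μ)
      (C₀ * K * eLpNorm g 2 volume) hχ hQ hm hi h2 h0
      ((Pool.Agent.Restr.measurable_E hf.1).mul (Pool.Agent.Restr.measurable_E hg.1)) ?_
      fun T δ hδm hδi hδ0 => ?_).trans ?_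
    · exact ENNReal.one_le_ofReal.2 (by linarith)
    · refine ((hC₀ χ δ K T hχ hQ hδm hδi hδ0 f hf hf1).2 g hg).trans (le_of_eq ?_)
      ring
    · calc (C₂ : ℝ≥0∞) * (C₀ * K * eLpNorm g 2 volume) * amal t γ ≤
            (C₁ + C₂) * (C₀ * K * eLpNorm g 2 volume) * amal t γ := by
            gcongr
            exact le_add_self
        _ = _ := by push_cast; ring

end Wex
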