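import Pool.Agent.Wex.Targets2
import Pool.Agent.Wex.LIM

/-!
# MP_5ab805_an, spectra on curves: LIM2, functions with spectrum near a polynomial curve
-/

set_option autoImplicit false

namespace Wex

open MeasureTheory Set Filter
open scoped ENNReal NNReal Topology
open Pool.Agent.Restr (u E QQ)
open TriL (Sq n2)
open Wey (nq lam hat gup gdn blk Tk Sl Wi)

open LIM_ in
theorem p_LIM2 (h1 : T_THK2) (h2 : T_GRE) (h3 : T_POL) : T_LIM2 := by
  intro ρ κ μ ν hpar
  obtain ⟨C, hC⟩ := h1 ρ κ μ ν hpar
  refine ⟨C, fun P Q χ γ K hχ hQ hm hi h0 f hf hf1 => ?_⟩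
  have key : ∀ R : ℕ, eLpNorm (fun ξ => E f ξ *
      E (fun x => χ x * chk ((AA P Q R).indicator γ) x) ξ) (ENNReal.ofReal ρ) volume ≤
      C * K * pw (2 * max P.natDegree Q.natDegree + 1) (κ / ρ) * eLpNorm γ 2 volume ∧
    ∀ g : ℝ × ℝ → ℂ, Sq g →
    eLpNorm (fun ξ => E f ξ * E g ξ * E (fun x => χ x * chk ((AA P Q R).indicator γ) x) ξ)
      (ENNReal.ofReal μ) volume ≤
      C * K * pw (2 * max P.natDegree Q.natDegree + 1) (ν / μ) * eLpNorm γ 2 volume *
        eLpNorm g 2 volume := by
    intro R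
    have hmA := (closed_AA P Q R).measurableSet
    obtain ⟨N, v, hv, hS, hcov⟩ := h2 (fun r => (P.eval r, Q.eval r))
      (P.continuous.prodMk Q.continuous) R
    have hA := h3 P Q v (Finset.Ico 0 N) hv
    have h4 := hC (2 * max P.natDegree Q.natDegree + 1) (fun n => P.eval (v n))
      (fun n => Q.eval (v n)) 0 N χ ((AA P Q R).indicator γ) K (by omega) hS hA hχ hQ
      (hm.indicator hmA) (hi.indicator hmA) (by
        intro y hy
        rw [indicator_of_notMem]
        rintro ⟨r, hr, h5⟩
        obtain ⟨n, hn, h6⟩ := hcov r hr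
        have h7 := hy n hn
        simp only at h6
        nlinarith [sq_nonneg ((y.1 - P.eval r) - (P.eval r - P.eval (v n))),
          sq_nonneg ((y.2 - Q.eval r) - (Q.eval r - Q.eval (v n)))]) f hf hf1
    have h5 : eLpNorm ((AA P Q R).indicator γ) 2 volume ≤ eLpNorm γ 2 volume :=
      eLpNorm_indicator_le γ
    refine ⟨h4.1.trans ?_, fun g hg => (h4.2 g hg).trans ?_⟩
    · gcongr
    · gcongr
  have hmE : ∀ R : ℕ, Measurable (E (fun x => χ x * chk ((AA P Q R).indicator γ) x)) := by
    intro R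
    exact Pool.Agent.Restr.measurable_E ((Wey.ASM_.wi_cont hχ).measurable.mul
      (cont_chk (hi.indicator (closed_AA P Q R).measurableSet)).measurable)
  have hmf : Measurable (E f) := Pool.Agent.Restr.measurable_E hf.1
  refine ⟨?_, fun g hg => ?_⟩
  · refine (Lp.eLpNorm_lim_le_liminf_eLpNorm
      (f := fun (R : ℕ) ξ => E f ξ * E (fun x => χ x * chk ((AA P Q R).indicator γ) x) ξ)
      (fun R => (hmf.mul (hmE R)).aestronglyMeasurable) _
      (Eventually.of_forall fun ξ => (tendsto_E P Q hχ hQ hi h0 ξ).const_mul _)).trans ?_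
    exact liminf_le_of_frequently_le' (Eventually.of_forall fun R => (key R).1).frequently
  · have hmg : Measurable (E g) := Pool.Agent.Restr.measurable_E hg.1
    refine (Lp.eLpNorm_lim_le_liminf_eLpNorm
      (f := fun (R : ℕ) ξ => E f ξ * E g ξ *
        E (fun x => χ x * chk ((AA P Q R).indicator γ) x) ξ)
      (fun R => ((hmf.mul hmg).mul (hmE R)).aestronglyMeasurable) _
      (Eventually.of_forall fun ξ => (tendsto_E P Q hχ hQ hi h0 ξ).const_mul _)).trans ?_
    exact liminf_le_of_frequently_le' (Eventually.of_forall fun R => (key R).2 g hg).frequently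

end Wex
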