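import Pool.Agent.Wex.Targets2

/-!
# MP_5ab805_an, spectra on curves and arbitrary spectra: the reweighting lemma (helper97)
-/

set_option autoImplicit false

namespace Wex

open MeasureTheory Set Filter
open scoped ENNReal NNReal Topology

namespace PAT_

open Classical in
lemma cr_cc {α ι : Type} (mem : ι → α → Prop) (r : ι) (x y : α) (l : List α) :
    cr mem r (x :: y :: l) = (if Cross mem r x y then 1 else 0) + cr mem r (y :: l) := by
  simp [cr]

lemma cr_one {α ι : Type} (mem : ι → α → Prop) (r : ι) (x : α) :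
    cr mem r [x] = 0 := by
  simp [cr]

lemma cross_tri {α ι : Type} (mem : ι → α → Prop) (r : ι) (x y z : α)
    (h : Cross mem r y z) : Cross mem r x z ∨ Cross mem r x y := by
  unfold Cross at *
  by_contra hc
  push Not at hc
  exact h (hc.2.symm.trans hc.1)

open Classical in
/-- inserting `y` right after `x` -/
lemma cr_ins0 {α ι : Type} (mem : ι → α → Prop) (r : ι) (x y : α) (l : List α) :
    cr mem r (x :: y :: l) ≤ cr mem r (x :: l) + (if Cross mem r x y then 2 else 0) := by
  rw [cr_cc]
  rcases l with _ | ⟨z, l⟩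
  · rw [cr_one, cr_one]
    split_ifs <;> omega
  · rw [cr_cc, cr_cc]
    by_cases h1 : Cross mem r x y
    · simp only [h1, if_true]
      by_cases h2 : Cross mem r y z
      · simp only [h2, if_true]
        split_ifs <;> omega
      · simp only [h2, if_false]
        split_ifs <;> omega
    · by_cases h2 : Cross mem r y z
      · have h3 : Cross mem r x z := by
          rcases cross_tri mem r x y z h2 with h | h
          · exact h
          · exact absurd h h1
        simp only [h1, h2, h3, if_true, if_false]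
        omega
      · simp only [h1, h2, if_false]
        split_ifs <;> omega

open Classical in
lemma cr_ins {α ι : Type} (mem : ι → α → Prop) (r : ι) (x y : α) (l₁ l₂ : List α) :
    cr mem r (l₁ ++ x :: y :: l₂) ≤
      cr mem r (l₁ ++ x :: l₂) + (if Cross mem r x y then 2 else 0) := by
  induction l₁ with
  | nil => simpa using cr_ins0 mem r x y l₂
  | cons a l₁ ih =>
    rcases l₁ with _ | ⟨b, l₁⟩
    · simp only [List.nil_append, List.cons_append] at ih ⊢
      rw [cr_cc, cr_cc mem r a x l₂]
      omega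
    · simp only [List.cons_append] at ih ⊢
      rw [cr_cc, cr_cc mem r a b (l₁ ++ x :: l₂)]
      omega

lemma del_nonneg (n : ℕ) : 0 ≤ del n := by
  unfold del
  rcases Nat.eq_zero_or_pos n with h | h
  · subst h
    simp
  · have h1 : (1 : ℝ) ≤ n := by exact_mod_cast h
    have h2 : 0 ≤ Real.log n := Real.log_nonneg h1
    positivity

open Classical in
lemma main {α ι : Type} (mem : ι → α → Prop) (X : Finset α) (R : Finset ι)
    (hyp : ∀ Y ⊆ X, ∀ w : ι → ℝ, (∀ r ∈ R, 0 ≤ w r) → 2 ≤ Y.card →
      ∃ x ∈ Y, ∃ y ∈ Y, x ≠ y ∧ sw mem R w x y ≤ del Y.card * ∑ r ∈ R, w r) (n : ℕ) :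
    ∀ Y ⊆ X, Y.card = n + 1 → ∀ w : ι → ℝ, (∀ r ∈ R, 0 ≤ w r) →
      ∃ l : List α, l.Nodup ∧ (∀ x, x ∈ l ↔ x ∈ Y) ∧
        ∑ r ∈ R, w r * √2 ^ cr mem r l ≤
          (∑ r ∈ R, w r) * ∏ k ∈ Finset.Icc 2 (n + 1), (1 + del k) := by
  induction n with
  | zero =>
    intro Y _ hYc w _
    obtain ⟨x, hx⟩ := Finset.card_eq_one.mp hYc
    refine ⟨[x], List.nodup_singleton x, fun z => by simp [hx], ?_⟩
    simp [cr_one]
  | succ n ih =>
    intro Y hY hYc w hw
    obtain ⟨x, hx, y, hy, hxy, hsw⟩ := hyp Y hY w hw (by omega)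
    have hw' : ∀ r ∈ R, 0 ≤ (if Cross mem r x y then 2 * w r else w r) := by
      intro r hr
      have := hw r hr
      split_ifs <;> linarith
    obtain ⟨l', hnd, hmem, hsum⟩ := ih (Y.erase y)
      ((Finset.erase_subset _ _).trans hY)
      (by rw [Finset.card_erase_of_mem hy, hYc]; omega)
      (fun r => if Cross mem r x y then 2 * w r else w r) hw'
    have hxl : x ∈ l' := (hmem x).mpr (Finset.mem_erase.mpr ⟨hxy, hx⟩)
    have hyl : y ∉ l' := fun h => (Finset.mem_erase.mp ((hmem y).mp h)).1 rfl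
    obtain ⟨l₁, l₂, rfl⟩ := List.append_of_mem hxl
    refine ⟨l₁ ++ x :: y :: l₂, ?_, ?_, ?_⟩
    · have hp : List.Perm (l₁ ++ x :: y :: l₂) (y :: (l₁ ++ x :: l₂)) := by
        have h1 : l₁ ++ x :: y :: l₂ = (l₁ ++ [x]) ++ y :: l₂ := by simp
        have h2 : l₁ ++ x :: l₂ = (l₁ ++ [x]) ++ l₂ := by simp
        rw [h1, h2]
        exact List.perm_middle
      rw [hp.nodup_iff]
      exact List.nodup_cons.mpr ⟨hyl, hnd⟩
    · intro z
      have h1 := hmem z
      simp only [List.mem_append, List.mem_cons, Finset.mem_erase] at h1 ⊢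
      constructor
      · rintro (h | h | h | h)
        · exact (h1.mp (Or.inl h)).2
        · exact (h1.mp (Or.inr (Or.inl h))).2
        · rw [h]
          exact hy
        · exact (h1.mp (Or.inr (Or.inr h))).2
      · intro h
        by_cases hz : z = y
        · exact Or.inr (Or.inr (Or.inl hz))
        · rcases h1.mpr ⟨hz, h⟩ with h2 | h2 | h2
          · exact Or.inl h2
          · exact Or.inr (Or.inl h2)
          · exact Or.inr (Or.inr (Or.inr h2))
    · have hs2 : (1 : ℝ) ≤ √2 := by
        rw [Real.one_le_sqrt]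
        norm_num
      have hterm : ∀ r ∈ R, w r * √2 ^ cr mem r (l₁ ++ x :: y :: l₂) ≤
          (if Cross mem r x y then 2 * w r else w r) * √2 ^ cr mem r (l₁ ++ x :: l₂) := by
        intro r hr
        have h0 := hw r hr
        have h1 := cr_ins mem r x y l₁ l₂
        have h2 : √2 ^ cr mem r (l₁ ++ x :: y :: l₂) ≤
            √2 ^ (cr mem r (l₁ ++ x :: l₂) + (if Cross mem r x y then 2 else 0)) :=
          pow_le_pow_right₀ hs2 h1
        refine (mul_le_mul_of_nonneg_left h2 h0).trans (le_of_eq ?_)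
        split_ifs
        · rw [pow_add, Real.sq_sqrt (by norm_num)]
          ring
        · rw [add_zero]
      have hsumw : ∑ r ∈ R, (if Cross mem r x y then 2 * w r else w r) =
          ∑ r ∈ R, w r + sw mem R w x y := by
        unfold sw
        rw [Finset.sum_filter, ← Finset.sum_add_distrib]
        refine Finset.sum_congr rfl fun r _ => ?_
        split_ifs <;> ring
      have hle : ∑ r ∈ R, (if Cross mem r x y then 2 * w r else w r) ≤
          (1 + del (n + 1 + 1)) * ∑ r ∈ R, w r := by
        rw [hsumw]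
        rw [hYc] at hsw
        linarith
      have hP : 0 ≤ ∏ k ∈ Finset.Icc 2 (n + 1), (1 + del k) :=
        Finset.prod_nonneg fun k _ => by
          have := del_nonneg k
          linarith
      calc ∑ r ∈ R, w r * √2 ^ cr mem r (l₁ ++ x :: y :: l₂)
          ≤ ∑ r ∈ R, (if Cross mem r x y then 2 * w r else w r) *
              √2 ^ cr mem r (l₁ ++ x :: l₂) := Finset.sum_le_sum hterm
        _ ≤ (∑ r ∈ R, (if Cross mem r x y then 2 * w r else w r)) *
              ∏ k ∈ Finset.Icc 2 (n + 1), (1 + del k) := hsum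
        _ ≤ ((1 + del (n + 1 + 1)) * ∑ r ∈ R, w r) *
              ∏ k ∈ Finset.Icc 2 (n + 1), (1 + del k) := mul_le_mul_of_nonneg_right hle hP
        _ = (∑ r ∈ R, w r) * ∏ k ∈ Finset.Icc 2 (n + 1 + 1), (1 + del k) := by
            rw [Finset.prod_Icc_succ_top (by omega : 2 ≤ n + 1 + 1)]
            ring

end PAT_

open PAT_ in
theorem p_PAT : T_PAT := by
  intro α ι mem X R hyp hX
  have hc : 0 < X.card := Finset.card_pos.mpr hX
  obtain ⟨l, hnd, hmem, hsum⟩ := main mem X R hyp (X.card - 1) X (Finset.Subset.refl X)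
    (by omega) (fun _ => 1) (fun _ _ => zero_le_one)
  refine ⟨l, hnd, hmem, fun r hr => ?_⟩
  have hc1 : X.card - 1 + 1 = X.card := by omega
  rw [hc1] at hsum
  simp only [one_mul, Finset.sum_const, nsmul_eq_mul, mul_one] at hsum
  have h1 : √2 ^ cr mem r l ≤ ∑ r ∈ R, √2 ^ cr mem r l :=
    Finset.single_le_sum (f := fun r => √2 ^ cr mem r l) (fun _ _ => by positivity) hr
  have h2 := h1.trans hsum
  have h3 : (2 : ℝ) ^ cr mem r l = (√2 ^ cr mem r l) ^ 2 := by
    rw [← pow_mul, mul_comm, pow_mul, Real.sq_sqrt (by norm_num)]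
  rw [h3]
  exact pow_le_pow_left₀ (by positivity) h2 2

end Wex
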