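import Pool.Agent.Wex.Targets
import Pool.Agent.Wey.POL

/-!
# MP_5ab805_an, block POL: polynomial curves have bounded annular complexity (helper42, after
Wey/POL.lean of helper83)
-/

set_option autoImplicit false

namespace Wex

open Polynomial

/-- POL: polynomial curves have bounded annular complexity. -/
theorem p_POL : T_POL := by
  classical
  intro P Q v s hv c d a b
  set D : ℕ := max P.natDegree Q.natDegree with hD
  have hDP : P.natDegree ≤ D := le_max_left _ _
  have hDQ : Q.natDegree ≤ D := le_max_right _ _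
  set φ : ℝ[X] := (P - C c) ^ 2 + (Q - C d) ^ 2 with hφ
  have hev : ∀ x : ℝ, φ.eval x = (P.eval x - c) ^ 2 + (Q.eval x - d) ^ 2 := by
    intro x; simp [hφ]
  have hdeg1 : ∀ (R : ℝ[X]) (r : ℝ), R.natDegree ≤ D → ((R - C r) ^ 2).natDegree ≤ 2 * D := by
    intro R r hR
    have h1 : (R - C r).natDegree ≤ R.natDegree := by
      refine (natDegree_sub_le _ _).trans (max_le le_rfl (by simp))
    calc ((R - C r) ^ 2).natDegree ≤ 2 * (R - C r).natDegree := natDegree_pow_le
      _ ≤ 2 * D := by omega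
  have hdeg : φ.natDegree ≤ 2 * D := by
    rw [hφ]
    exact (natDegree_add_le _ _).trans (max_le (hdeg1 P c hDP) (hdeg1 Q d hDQ))
  set Z : Finset ℝ := φ.derivative.roots.toFinset with hZdef
  have hZ : Z.card ≤ 2 * D := by
    calc Z.card ≤ Multiset.card φ.derivative.roots := Multiset.toFinset_card_le _
      _ ≤ φ.derivative.natDegree := card_roots' _
      _ ≤ φ.natDegree - 1 := natDegree_derivative_le _
      _ ≤ 2 * D := by omega
  let idx : ℝ → ℕ := fun x => (Z.filter (fun z => z < x)).card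
  have hlt : ∀ x, idx x < 2 * D + 1 := fun x =>
    Nat.lt_succ_of_le ((Finset.card_filter_le _ _).trans hZ)
  have hmono : ∀ x y : ℝ, x ≤ y → idx x ≤ idx y := by
    intro x y hxy
    refine Finset.card_le_card ?_
    intro z hz
    rw [Finset.mem_filter] at hz ⊢
    exact ⟨hz.1, hz.2.trans_le hxy⟩
  have hstrict : ∀ x y : ℝ, (∃ z ∈ Z, x < z ∧ z < y) → idx x < idx y := by
    rintro x y ⟨z, hz, hz1, hz2⟩
    refine Finset.card_lt_card ?_
    refine Finset.ssubset_iff_subset_ne.mpr ⟨?_, ?_⟩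
    · intro w hw
      rw [Finset.mem_filter] at hw ⊢
      exact ⟨hw.1, by linarith [hw.2]⟩
    · intro heq
      have : z ∈ Z.filter (fun z => z < x) := by
        rw [heq, Finset.mem_filter]; exact ⟨hz, hz2⟩
      rw [Finset.mem_filter] at this
      linarith [this.2]
  have hkey : ∀ n x n' : ℝ, n ≤ x → x ≤ n' → idx n = idx n' →
      (a < φ.eval n ∧ φ.eval n ≤ b) → (a < φ.eval n' ∧ φ.eval n' ≤ b) →
      (a < φ.eval x ∧ φ.eval x ≤ b) := by
    intro n x n' h1 h2 hid hn hn'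
    rcases h1.eq_or_lt with h1 | h1
    · rw [← h1]; exact hn
    rcases h2.eq_or_lt with h2 | h2
    · rw [h2]; exact hn'
    have hno : ∀ ψ : ℝ[X], ψ.derivative.roots = φ.derivative.roots →
        ¬ (ψ.eval n < ψ.eval x ∧ ψ.eval n' < ψ.eval x) := by
      rintro ψ hψ ⟨h3, h4⟩
      obtain ⟨hne, z, hz1, hz2, hz3⟩ := Wey.POL_crit ψ n x n' h1 h2 h3 h4
      have hz : z ∈ Z := by
        rw [hZdef, Multiset.mem_toFinset, ← hψ, mem_roots hne]
        exact hz3
      exact absurd hid (hstrict n n' ⟨z, hz, hz1, hz2⟩).ne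
    constructor
    · by_contra hcon
      push Not at hcon
      refine hno (-φ) (by rw [derivative_neg, roots_neg]) ⟨?_, ?_⟩
      · rw [eval_neg, eval_neg]; linarith [hn.1]
      · rw [eval_neg, eval_neg]; linarith [hn'.1]
    · by_contra hcon
      push Not at hcon
      exact hno φ rfl ⟨by linarith [hn.2], by linarith [hn'.2]⟩
  refine ⟨fun i => {x : ℤ | ∃ n n' : ℤ, (n ∈ s ∧ a < φ.eval (v n) ∧ φ.eval (v n) ≤ b) ∧
    (n' ∈ s ∧ a < φ.eval (v n') ∧ φ.eval (v n') ≤ b) ∧ idx (v n) = i.1 ∧ idx (v n') = i.1 ∧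
    n ≤ x ∧ x ≤ n'}, ?_, ?_, ?_⟩
  · intro i
    refine ⟨fun x hx y hy z hz => ?_⟩
    obtain ⟨n, n', hn, hn', hi, hi', h1, h2⟩ := hx
    obtain ⟨k, k', hk, hk', hj, hj', h3, h4⟩ := hy
    exact ⟨n, k', hn, hk', hi, hj', h1.trans hz.1, hz.2.trans h4⟩
  · intro i j hij
    rw [Set.disjoint_left]
    rintro x ⟨n, n', hn, hn', hi, hi', h1, h2⟩ ⟨k, k', hk, hk', hj, hj', h3, h4⟩
    apply hij
    have e1 := hmono _ _ (hv hn.1 hk'.1 (h1.trans h4))
    have e2 := hmono _ _ (hv hk.1 hn'.1 (h3.trans h2))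
    exact Fin.ext (by omega)
  · intro n hn
    have e := hev (v n)
    constructor
    · rintro ⟨h1, h2⟩
      refine ⟨⟨idx (v n), hlt (v n)⟩, n, n, ⟨hn, ?_, ?_⟩, ⟨hn, ?_, ?_⟩, rfl, rfl, le_rfl,
        le_rfl⟩ <;> rw [e] <;> assumption
    · rintro ⟨i, k, k', hk, hk', hi, hi', h1, h2⟩
      have := hkey (v k) (v n) (v k') (hv hk.1 hn h1) (hv hn hk'.1 h2) (hi.trans hi'.symm)
        hk.2 hk'.2
      rw [e] at this
      exact this

end Wex
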