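import Pool.Agent.Wex.Targets2

/-!
# MP_5ab805_an, spectra on curves: few crossings give few runs in every annulus
-/

set_option autoImplicit false

namespace Wex

open MeasureTheory Set Filter
open scoped ENNReal NNReal Topology

namespace RUN_

open Classical in
/-- the number of crossings as a sum over positions -/
lemma cr_eq {α ι : Type} (mem : ι → α → Prop) (r : ι) (d : α) (l : List α) :
    cr mem r l = ∑ j ∈ Finset.range (l.length - 1),
      (if Cross mem r (l.getD j d) (l.getD (j + 1) d) then 1 else 0) := by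
  induction l with
  | nil => simp [cr]
  | cons x t ih =>
    cases t with
    | nil => simp [cr]
    | cons y t =>
      have h1 : (x :: y :: t).length - 1 = t.length + 1 := by simp
      have h2 : (y :: t).length - 1 = t.length := by simp
      rw [h1, Finset.sum_range_succ', cr, ih, h2, add_comm]
      congr 1

/-- the partial sums of the changes -/
def cc (ch : ℕ → ℕ) (n : ℕ) : ℕ := ∑ j ∈ Finset.range n, ch j

lemma cc_succ (ch : ℕ → ℕ) (n : ℕ) : cc ch (n + 1) = cc ch n + ch n :=
  Finset.sum_range_succ _ _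

lemma cc_mono (ch : ℕ → ℕ) : Monotone (cc ch) :=
  monotone_nat_of_le_succ fun n => by rw [cc_succ]; exact Nat.le_add_right _ _

lemma cc_const (ch : ℕ → ℕ) (In : ℕ → Prop) (h : ∀ j, ch j = 0 → (In j ↔ In (j + 1)))
    (x z : ℕ) (hxz : x ≤ z) : cc ch x = cc ch z → (In x ↔ In z) := by
  induction z, hxz using Nat.le_induction with
  | base => intro _; exact Iff.rfl
  | succ z hz ih =>
    intro he
    have h1 := cc_mono ch hz
    rw [cc_succ] at he
    exact (ih (by omega)).trans (h z (by omega))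

end RUN_

open RUN_ in
theorem p_RUN : T_RUN := by
  classical
  intro l k hk c d a b
  obtain ⟨A, hA⟩ : ∃ A : ℕ → Prop, A = fun j => dm ((c, d), a) (l.getD j 0) := ⟨_, rfl⟩
  obtain ⟨B, hB⟩ : ∃ B : ℕ → Prop, B = fun j => dm ((c, d), b) (l.getD j 0) := ⟨_, rfl⟩
  obtain ⟨In, hIn⟩ : ∃ In : ℕ → Prop, In = fun j => ¬ A j ∧ B j := ⟨_, rfl⟩
  obtain ⟨ch, hch⟩ : ∃ ch : ℕ → ℕ, ch = fun j => if (In j ↔ In (j + 1)) then 0 else 1 :=
    ⟨_, rfl⟩
  have hch0 : ∀ j, ch j = 0 → (In j ↔ In (j + 1)) := by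
    intro j hj
    by_contra hne
    rw [hch] at hj
    simp [hne] at hj
  have hchle : ∀ j, ch j ≤
      (if Cross dm ((c, d), a) (l.getD j 0) (l.getD (j + 1) 0) then 1 else 0) +
      (if Cross dm ((c, d), b) (l.getD j 0) (l.getD (j + 1) 0) then 1 else 0) := by
    intro j
    by_cases h : (In j ↔ In (j + 1))
    · have : ch j = 0 := by rw [hch]; simp [h]
      omega
    · have h1 : ch j = 1 := by rw [hch]; simp [h]
      have h2 : Cross dm ((c, d), a) (l.getD j 0) (l.getD (j + 1) 0) ∨
          Cross dm ((c, d), b) (l.getD j 0) (l.getD (j + 1) 0) := by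
        by_contra hcon
        rw [not_or] at hcon
        unfold Cross at hcon
        rw [not_not, not_not] at hcon
        apply h
        rw [hIn, hA, hB]
        exact and_congr (not_congr hcon.1) hcon.2
      rcases h2 with h2 | h2
      · rw [if_pos h2]; omega
      · rw [if_pos h2]; omega
  have hsum : cc ch (l.length - 1) ≤ 2 * k := by
    have h1 : cc ch (l.length - 1) ≤ cr dm ((c, d), a) l + cr dm ((c, d), b) l := by
      rw [cr_eq dm ((c, d), a) 0 l, cr_eq dm ((c, d), b) 0 l, ← Finset.sum_add_distrib]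
      exact Finset.sum_le_sum fun j _ => hchle j
    have h2 := hk ((c, d), a)
    have h3 := hk ((c, d), b)
    omega
  have hiff : ∀ n : ℤ, (a < ((l.getD n.toNat 0).1 - c) ^ 2 + ((l.getD n.toNat 0).2 - d) ^ 2 ∧
      ((l.getD n.toNat 0).1 - c) ^ 2 + ((l.getD n.toNat 0).2 - d) ^ 2 ≤ b) ↔ In n.toNat := by
    intro n
    rw [hIn, hA, hB]
    unfold dm d2
    simp only [not_le]
  refine ⟨fun i => {z : ℤ | 0 ≤ z ∧ z < l.length ∧ In z.toNat ∧ cc ch z.toNat = (i : ℕ)},
    ?_, ?_, ?_⟩
  · intro i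
    refine ⟨fun x hx y hy z hz => ?_⟩
    obtain ⟨hx0, hxL, hxI, hxc⟩ := hx
    obtain ⟨hy0, hyL, hyI, hyc⟩ := hy
    obtain ⟨hz1, hz2⟩ := hz
    have e1 : x.toNat ≤ z.toNat := Int.toNat_le_toNat hz1
    have e2 : z.toNat ≤ y.toNat := Int.toNat_le_toNat hz2
    have m1 := cc_mono ch e1
    have m2 := cc_mono ch e2
    have e3 : cc ch z.toNat = (i : ℕ) := by omega
    exact ⟨by omega, by omega,
      (cc_const ch In hch0 _ _ e1 (by rw [hxc, e3])).mp hxI, e3⟩
  · intro i j hij
    rw [Set.disjoint_left]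
    rintro z ⟨-, -, -, h1⟩ ⟨-, -, -, h2⟩
    exact hij (Fin.ext (h1.symm.trans h2))
  · intro n hn
    rw [Finset.mem_Ico] at hn
    rw [hiff n]
    constructor
    · intro h
      have h1 : n.toNat ≤ l.length - 1 := by omega
      have h2 := (cc_mono ch h1).trans hsum
      exact ⟨⟨cc ch n.toNat, by omega⟩, by omega, by omega, h, rfl⟩
    · rintro ⟨i, -, -, h, -⟩
      exact h

end Wex
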