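import Pool.Agent.Wex.Targets2

/-! SHE: the short edge lemma. -/

set_option autoImplicit false

namespace Wex

namespace SHE_

open Classical in
theorem comp {α ι : Type} (mem : ι → α → Prop) (R : Finset ι) (w : ι → ℝ) (x y : α) :
    ∑ r ∈ R with ¬ Cross mem r x y, w r = ∑ r ∈ R, w r - sw mem R w x y := by
  unfold sw
  rw [← Finset.sum_filter_add_sum_filter_not R (fun r => Cross mem r x y)]
  ring

open Classical in
/-- double counting: if no `s`-tuple separates all pairs then the pairs have large total weight -/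
theorem count {α ι : Type} (mem : ι → α → Prop) (X : Finset α) (R : Finset ι) (w : ι → ℝ)
    (hw : ∀ r ∈ R, 0 ≤ w r) (s : ℕ)
    (h : ∀ f ∈ Fintype.piFinset (fun _ : Fin s => R), ∃ p ∈ X.offDiag,
      f ∈ Fintype.piFinset (fun _ : Fin s => R.filter (fun r => ¬ Cross mem r p.1 p.2))) :
    (∑ r ∈ R, w r) ^ s ≤ ∑ p ∈ X.offDiag, (∑ r ∈ R, w r - sw mem R w p.1 p.2) ^ s := by
  set P := Fintype.piFinset (fun _ : Fin s => R) with hP
  have hsub : ∀ p : α × α,
      Fintype.piFinset (fun _ : Fin s => R.filter (fun r => ¬ Cross mem r p.1 p.2)) ⊆ P := by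
    intro p f hf
    rw [Fintype.mem_piFinset] at hf ⊢
    intro i
    exact (Finset.mem_filter.1 (hf i)).1
  have hg : ∀ f ∈ P, 0 ≤ ∏ i, w (f i) := by
    intro f hf
    exact Finset.prod_nonneg (fun i _ => hw _ (Fintype.mem_piFinset.1 hf i))
  have e1 : (∑ r ∈ R, w r) ^ s = ∑ f ∈ P, ∏ i, w (f i) := by
    rw [hP, ← Finset.prod_univ_sum (fun _ : Fin s => R) (fun _ r => w r)]
    simp
  have e2 : ∀ p : α × α, (∑ r ∈ R, w r - sw mem R w p.1 p.2) ^ s =
      ∑ f ∈ P, if f ∈ Fintype.piFinset (fun _ : Fin s =>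
        R.filter (fun r => ¬ Cross mem r p.1 p.2)) then ∏ i, w (f i) else 0 := by
    intro p
    rw [Finset.sum_ite_mem, Finset.inter_eq_right.2 (hsub p), ← comp,
      ← Finset.prod_univ_sum (fun _ : Fin s => R.filter (fun r => ¬ Cross mem r p.1 p.2))
        (fun _ r => w r)]
    simp
  rw [e1, Finset.sum_congr rfl (fun p _ => e2 p), Finset.sum_comm]
  refine Finset.sum_le_sum (fun f hf => ?_)
  obtain ⟨p, hp, hfp⟩ := h f hf
  refine le_trans ?_ (Finset.single_le_sum (f := fun p : α × α =>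
    if f ∈ Fintype.piFinset (fun _ : Fin s =>
        R.filter (fun r => ¬ Cross mem r p.1 p.2)) then ∏ i, w (f i) else 0) ?_ hp)
  · rw [if_pos hfp]
  · intro q _
    split_ifs
    · exact hg f hf
    · exact le_rfl

theorem exists_sep {α ι : Type} (mem : ι → α → Prop) (X : Finset α) (R : Finset ι) (w : ι → ℝ)
    (hw : ∀ r ∈ R, 0 ≤ w r) (hX : 2 ≤ X.card) (d : ℝ) (hd0 : 0 < d) (hd1 : d < 1)
    (hW : 0 < ∑ r ∈ R, w r)
    (hs : ∀ x ∈ X, ∀ y ∈ X, x ≠ y → d * ∑ r ∈ R, w r < sw mem R w x y) (s : ℕ)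
    (hsd : 2 * Real.log X.card ≤ d * s) :
    ∃ f : Fin s → ι, ∀ x ∈ X, ∀ y ∈ X, x ≠ y → ∃ i, Cross mem (f i) x y := by
  classical
  by_contra hcon
  push Not at hcon
  set W := ∑ r ∈ R, w r with hWdef
  have hn : (2 : ℝ) ≤ X.card := by exact_mod_cast hX
  have h1 := count mem X R w hw s (by
    intro f hf
    obtain ⟨x, hx, y, hy, hxy, hno⟩ := hcon f
    refine ⟨(x, y), Finset.mem_offDiag.2 ⟨hx, hy, hxy⟩, ?_⟩
    rw [Fintype.mem_piFinset] at hf ⊢
    intro i
    exact Finset.mem_filter.2 ⟨hf i, hno i⟩)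
  have h2 : ∑ p ∈ X.offDiag, (W - sw mem R w p.1 p.2) ^ s ≤
      ∑ _p ∈ X.offDiag, ((1 - d) * W) ^ s := by
    refine Finset.sum_le_sum (fun p hp => ?_)
    obtain ⟨hx, hy, hxy⟩ := Finset.mem_offDiag.1 hp
    refine pow_le_pow_left₀ ?_ ?_ s
    · rw [hWdef, ← comp]
      exact Finset.sum_nonneg (fun r hr => hw r (Finset.mem_filter.1 hr).1)
    · have := hs _ hx _ hy hxy
      linarith
  rw [Finset.sum_const, nsmul_eq_mul, mul_pow] at h2
  have hWs : 0 < W ^ s := pow_pos hW s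
  have h3 : (1 - d) ^ s ≤ Real.exp (-(d * s)) := by
    have : (1 - d) ^ s ≤ (Real.exp (-d)) ^ s := by
      refine pow_le_pow_left₀ (by linarith) ?_ s
      have := Real.add_one_le_exp (-d)
      linarith
    rw [← Real.exp_nat_mul] at this
    refine this.trans (le_of_eq ?_)
    congr 1
    ring
  have h4 : Real.exp (-(d * s)) ≤ ((X.card : ℝ) ^ 2)⁻¹ := by
    have h5 : Real.exp (-(d * s)) ≤ Real.exp (-(2 * Real.log X.card)) := by
      apply Real.exp_le_exp.2
      linarith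
    refine h5.trans (le_of_eq ?_)
    rw [Real.exp_neg, mul_comm, Real.exp_mul, Real.exp_log (by linarith)]
    norm_cast
  have h6 : ((X.offDiag.card : ℕ) : ℝ) = (X.card : ℝ) * X.card - X.card := by
    rw [Finset.offDiag_card, Nat.cast_sub (Nat.le_mul_self _)]
    push_cast
    ring
  have h7 : ((X.offDiag.card : ℕ) : ℝ) * (1 - d) ^ s < 1 := by
    have hc : (0 : ℝ) < (X.card : ℝ) ^ 2 := by positivity
    calc ((X.offDiag.card : ℕ) : ℝ) * (1 - d) ^ s
        ≤ ((X.offDiag.card : ℕ) : ℝ) * ((X.card : ℝ) ^ 2)⁻¹ :=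
          mul_le_mul_of_nonneg_left (h3.trans h4) (Nat.cast_nonneg _)
      _ < (X.card : ℝ) ^ 2 * ((X.card : ℝ) ^ 2)⁻¹ := by
          apply mul_lt_mul_of_pos_right _ (inv_pos.2 hc)
          rw [h6]
          nlinarith
      _ = 1 := mul_inv_cancel₀ hc.ne'
  have h8 : W ^ s < W ^ s := by
    calc W ^ s ≤ _ := h1
      _ ≤ _ := h2
      _ = (((X.offDiag.card : ℕ) : ℝ) * (1 - d) ^ s) * W ^ s := by ring
      _ < 1 * W ^ s := mul_lt_mul_of_pos_right h7 hWs
      _ = W ^ s := one_mul _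
  exact lt_irrefl _ h8

end SHE_

theorem p_SHE : T_SHE := by
  intro α ι mem X R hsep w hw hX
  classical
  obtain ⟨x₀, hx₀, y₀, hy₀, hxy₀⟩ := Finset.one_lt_card.1 (by omega : 1 < X.card)
  have hn : (2 : ℝ) ≤ X.card := by exact_mod_cast hX
  have hlog : 0 ≤ Real.log X.card := Real.log_nonneg (by linarith)
  have hsq : 0 < √(X.card : ℝ) := Real.sqrt_pos.2 (by linarith)
  have hd0 : 0 < del X.card := by
    unfold del
    positivity
  have hW0 : 0 ≤ ∑ r ∈ R, w r := Finset.sum_nonneg hw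
  have hswW : ∀ x y, sw mem R w x y ≤ ∑ r ∈ R, w r := by
    intro x y
    unfold sw
    exact Finset.sum_le_sum_of_subset_of_nonneg (Finset.filter_subset _ _)
      (fun r hr _ => hw r hr)
  by_cases hd : 1 ≤ del X.card
  · exact ⟨x₀, hx₀, y₀, hy₀, hxy₀, (hswW _ _).trans (by nlinarith)⟩
  rw [not_le] at hd
  rcases hW0.eq_or_lt with hW | hW
  · exact ⟨x₀, hx₀, y₀, hy₀, hxy₀, (hswW _ _).trans (by rw [← hW]; simp)⟩
  by_contra hcon
  push Not at hcon
  set d := del X.card with hdd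
  set s : ℕ := ⌈2 * Real.log X.card / d⌉₊ with hs
  have hs1 : 2 * Real.log X.card ≤ d * s := by
    have := Nat.le_ceil (2 * Real.log X.card / d)
    rw [div_le_iff₀ hd0] at this
    rw [mul_comm d]
    exact this
  obtain ⟨f, hf⟩ := SHE_.exists_sep mem X R w hw hX d hd0 hd hW hcon s hs1
  have h1 := hsep s f hf
  have h2 : (s : ℝ) < 2 * Real.log X.card / d + 1 := Nat.ceil_lt_add_one (by positivity)
  have h3 : √(X.card : ℝ) ≤ 4 * (s + 1) := by
    rw [show (4 : ℝ) * (s + 1) = √(16 * ((s : ℝ) + 1) ^ 2) by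
      rw [show (16 : ℝ) * ((s : ℝ) + 1) ^ 2 = (4 * (s + 1)) ^ 2 by ring,
        Real.sqrt_sq (by positivity)]]
    exact Real.sqrt_le_sqrt h1
  have h4 : 16 * (1 + Real.log X.card) < √(X.card : ℝ) := by
    have := hd
    rw [hdd] at this
    unfold del at this
    rwa [div_lt_one hsq] at this
  have h5 : 2 * Real.log X.card / d =
      √(X.card : ℝ) * Real.log X.card / (8 * (1 + Real.log X.card)) := by
    rw [hdd]
    unfold del
    have : (1 + Real.log X.card : ℝ) ≠ 0 := by positivity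
    field_simp
    ring
  have h6 : √(X.card : ℝ) * Real.log X.card / (8 * (1 + Real.log X.card)) ≤
      √(X.card : ℝ) / 8 := by
    rw [div_le_div_iff₀ (by positivity) (by norm_num)]
    nlinarith
  rw [h5] at h2
  nlinarith

end Wex
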