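import Pool.Agent.Wex.Targets

/-!
# MP_5ab805_an, WEX-SHI: a chirp can be moved to the other factor (helper67)
-/

set_option autoImplicit false

namespace Wex

open MeasureTheory Set Filter
open scoped ENNReal NNReal Topology
open Pool.Agent.Restr (u E QQ norm_u u_add)
open Wey (nq)

namespace SHI_

theorem E_chp (c : ℝ) (h : ℝ × ℝ → ℂ) (ξ : ℝ × ℝ × ℝ) :
    E (chp c h) ξ = E h (ξ - (0, 0, c)) := by
  unfold E chp
  refine integral_congr_ae (ae_of_all _ fun x => ?_)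
  simp only
  rw [← mul_assoc, ← u_add]
  congr 2
  unfold nq
  simp only [Prod.fst_sub, Prod.snd_sub]
  ring

theorem E_eq (c : ℝ) (f : ℝ × ℝ → ℂ) (ξ : ℝ × ℝ × ℝ) :
    E f ξ = E (chp (-c) f) (ξ - (0, 0, c)) := by
  unfold E chp
  refine integral_congr_ae (ae_of_all _ fun x => ?_)
  simp only
  rw [← mul_assoc, ← u_add]
  congr 2
  unfold nq
  simp only [Prod.fst_sub, Prod.snd_sub]
  ring

theorem shift (c : ℝ) (r : ℝ≥0∞) (F : ℝ × ℝ × ℝ → ℂ) :
    eLpNorm (fun ξ : ℝ × ℝ × ℝ => F (ξ - (0, 0, c))) r volume = eLpNorm F r volume := by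
  obtain ⟨e, he⟩ : ∃ e : ℝ × ℝ × ℝ ≃ᵐ ℝ × ℝ × ℝ, e = (MeasurableEquiv.refl ℝ).prodCongr
    ((MeasurableEquiv.refl ℝ).prodCongr (MeasurableEquiv.subRight c)) := ⟨_, rfl⟩
  have h1 : MeasurePreserving (fun ξ : ℝ × ℝ × ℝ => (ξ.1, ξ.2.1, ξ.2.2 - c)) volume volume :=
    (MeasurePreserving.id (volume : Measure ℝ)).prod
      ((MeasurePreserving.id (volume : Measure ℝ)).prod (measurePreserving_sub_right volume c))
  have he2 : (e : ℝ × ℝ × ℝ → ℝ × ℝ × ℝ) = fun ξ : ℝ × ℝ × ℝ => (ξ.1, ξ.2.1, ξ.2.2 - c) := by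
    rw [he]
    rfl
  have h := e.measurableEmbedding.eLpNorm_map_measure
    (μ := (volume : Measure (ℝ × ℝ × ℝ))) (g := F) (p := r)
  rw [he2, h1.map_eq] at h
  rw [h]
  congr 1
  funext ξ
  simp only [Function.comp]
  congr 1
  ext <;> simp

end SHI_

theorem p_SHI : T_SHI := by
  intro c r f g h
  constructor
  · rw [← SHI_.shift c r (fun ξ => E (chp (-c) f) ξ * E h ξ)]
    congr 1
    funext ξ
    rw [← SHI_.E_eq c f ξ, SHI_.E_chp c h ξ]
  · rw [← SHI_.shift c r (fun ξ => E (chp (-c) f) ξ * E (chp (-c) g) ξ * E h ξ)]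
    congr 1
    funext ξ
    rw [← SHI_.E_eq c f ξ, ← SHI_.E_eq c g ξ, SHI_.E_chp c h ξ]

end Wex
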