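import Pool.Agent.Wex.Targets

/-!
# MP_5ab805_an, target SLI: the product at a fixed time
-/

set_option autoImplicit false

namespace Wex

open MeasureTheory Set Filter
open scoped ENNReal NNReal Topology
open Pool.Agent.Restr (u E QQ norm_u measurable_u)
open TriL (Sq n2)
open Wey (nq lam hat gup gdn blk Tk Sl Wi)

namespace SLI_

theorem lam_re_pos (t : ℝ) : 0 < (lam t).re := by
  unfold lam
  rw [Complex.div_re]
  have h : 0 < Complex.normSq (4 * (1 + (t : ℂ) * Complex.I)) := by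
    rw [Complex.normSq_pos]
    intro h
    have := congrArg Complex.re h
    simp at this
  simp only [Complex.one_re, Complex.one_im, zero_mul, zero_div, add_zero, one_mul]
  have h2 : (4 * (1 + (t : ℂ) * Complex.I)).re = 4 := by simp
  rw [h2]
  positivity

theorem norm_lam_sq (t : ℝ) : ‖lam t‖ ^ 2 = 1 / (16 * (1 + t ^ 2)) := by
  unfold lam
  rw [norm_div, norm_one, div_pow, one_pow, ← Complex.normSq_eq_norm_sq]
  congr 1
  rw [Complex.normSq_apply]
  simp
  ring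

theorem norm_lam_pos (t : ℝ) : 0 < ‖lam t‖ := by
  rw [norm_pos_iff]
  intro h
  have := lam_re_pos t
  rw [h] at this
  simp at this

theorem half_re (t : ℝ) : (lam t / 2).re = (lam t).re / 2 := by
  rw [show lam t / 2 = lam t / ((2 : ℝ) : ℂ) by norm_num, Complex.div_ofReal_re]

theorem norm_gauss (a : ℂ) (r : ℝ) :
    ‖Complex.exp (-(a * ((r : ℝ) : ℂ)))‖ = Real.exp (-(a.re * r)) := by
  rw [Complex.norm_exp]
  simp

/-- real Gaussians in the plane are integrable -/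
theorem gauss_int {b : ℝ} (hb : 0 < b) (c d : ℝ) :
    Integrable (fun x : ℝ × ℝ => Real.exp (-(b * ((x.1 - c) ^ 2 + (x.2 - d) ^ 2)))) := by
  have h1 : Integrable (fun x : ℝ => Real.exp (-b * (x - c) ^ 2)) :=
    (integrable_exp_neg_mul_sq hb).comp_sub_right c
  have h2 : Integrable (fun x : ℝ => Real.exp (-b * (x - d) ^ 2)) :=
    (integrable_exp_neg_mul_sq hb).comp_sub_right d
  refine (h1.mul_prod h2).congr (Eventually.of_forall fun x => ?_)
  simp only
  rw [← Real.exp_add]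
  congr 1
  ring

theorem nq_nonneg (x : ℝ × ℝ) : 0 ≤ nq x := by
  unfold nq
  positivity

theorem measurable_nq : Measurable nq := by
  unfold nq
  fun_prop

/-- `F^` is measurable -/
theorem measurable_hat {F : ℝ × ℝ → ℂ} (hF : Measurable F) : Measurable (hat F) := by
  have h : StronglyMeasurable (Function.uncurry fun (y x : ℝ × ℝ) =>
      u (y.1 * x.1 + y.2 * x.2) * F x) := by
    apply Measurable.stronglyMeasurable
    unfold Function.uncurry
    exact (measurable_u.comp (by fun_prop)).mul (hF.comp measurable_snd)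
  exact (h.integral_prod_right (ν := volume)).measurable

theorem norm_hat_le (F : ℝ × ℝ → ℂ) (y : ℝ × ℝ) : ‖hat F y‖ ≤ ∫ x, ‖F x‖ := by
  unfold hat
  refine (norm_integral_le_integral_norm _).trans (le_of_eq ?_)
  refine integral_congr_ae (Eventually.of_forall fun x => ?_)
  simp only
  rw [norm_mul, norm_u, one_mul]

/-- the weight is bounded on the square -/
theorem gup_int {f : ℝ × ℝ → ℂ} (hf : Sq f) (hi : Integrable f) : Integrable (gup f) := by
  have h1 : ∀ x, ‖gup f x‖ ≤ ‖(Real.exp 1 : ℝ) • f x‖ := by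
    intro x
    unfold gup
    rw [norm_mul, norm_smul, Complex.norm_real]
    by_cases hx : x ∈ QQ
    · refine mul_le_mul_of_nonneg_right ?_ (norm_nonneg _)
      rw [Real.norm_eq_abs, Real.norm_eq_abs, abs_of_pos (Real.exp_pos _),
        abs_of_pos (Real.exp_pos _)]
      apply Real.exp_le_exp.2
      obtain ⟨h2, h3⟩ := hx
      rw [mem_Icc] at h2 h3
      unfold nq
      nlinarith [h2.1, h2.2, h3.1, h3.2]
    · rw [hf.2 x hx]
      simp
  refine Integrable.mono (hi.smul (Real.exp 1)) ?_ (Eventually.of_forall h1)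
  have h2 : Measurable (gup f) := by
    unfold gup
    refine Measurable.mul ?_ hf.1
    exact Complex.measurable_ofReal.comp (Real.measurable_exp.comp measurable_nq)
  exact h2.aestronglyMeasurable

theorem gup_meas {f : ℝ × ℝ → ℂ} (hf : Sq f) : Measurable (gup f) := by
  unfold gup
  refine Measurable.mul ?_ hf.1
  exact Complex.measurable_ofReal.comp (Real.measurable_exp.comp measurable_nq)

/-- one term of `BB`, integrable -/
theorem term_int (φ ψ : ℤ → ℝ) (a : ℤ → ℂ) {F : ℝ × ℝ → ℂ} (hF : Measurable F) (t : ℝ)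
    (n : ℤ) : Integrable (fun σ : ℝ × ℝ =>
      cf φ ψ a F σ n * Complex.exp (-(lam t / 2 * ((nu φ ψ σ n : ℝ) : ℂ)))) := by
  have hb : 0 < (lam t / 2).re := by
    rw [half_re]
    exact half_pos (lam_re_pos t)
  have hg := (gauss_int hb (2 * (φ n)) (2 * ψ n)).const_mul (‖a n‖ * ∫ x, ‖F x‖)
  refine Integrable.mono' hg ?_ (Eventually.of_forall fun σ => ?_)
  · have h1 : Measurable (fun σ : ℝ × ℝ => cf φ ψ a F σ n) := by
      unfold cf
      exact ((measurable_hat hF).comp (by fun_prop)).const_mul _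
    have h2 : Measurable (fun σ : ℝ × ℝ =>
        Complex.exp (-(lam t / 2 * ((nu φ ψ σ n : ℝ) : ℂ)))) := by
      unfold nu
      fun_prop
    exact (h1.mul h2).aestronglyMeasurable
  · rw [norm_mul, norm_gauss]
    unfold cf nu
    rw [norm_mul]
    refine mul_le_mul_of_nonneg_right ?_ (Real.exp_pos _).le
    exact mul_le_mul_of_nonneg_left (norm_hat_le F _) (norm_nonneg _)

theorem term_meas (φ ψ : ℤ → ℝ) (a : ℤ → ℂ) {F : ℝ × ℝ → ℂ} (hF : Measurable F) (t : ℝ)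
    (n : ℤ) : Measurable (fun σ : ℝ × ℝ =>
      cf φ ψ a F σ n * Complex.exp (-(lam t / 2 * ((nu φ ψ σ n : ℝ) : ℂ)))) := by
  have h1 : Measurable (fun σ : ℝ × ℝ => cf φ ψ a F σ n) := by
    unfold cf
    exact ((measurable_hat hF).comp (by fun_prop)).const_mul _
  have h2 : Measurable (fun σ : ℝ × ℝ =>
      Complex.exp (-(lam t / 2 * ((nu φ ψ σ n : ℝ) : ℂ)))) := by
    unfold nu
    fun_prop
  exact h1.mul h2

theorem BB_meas (φ ψ : ℤ → ℝ) (s : Finset ℤ) (a : ℤ → ℂ) {F : ℝ × ℝ → ℂ}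
    (hF : Measurable F) (t : ℝ) : Measurable (BB φ ψ s a F t) := by
  unfold BB
  exact Finset.measurable_fun_sum _ fun n _ => term_meas φ ψ a hF t n

theorem BB_int (φ ψ : ℤ → ℝ) (s : Finset ℤ) (a : ℤ → ℂ) {F : ℝ × ℝ → ℂ}
    (hF : Measurable F) (t : ℝ) : Integrable (BB φ ψ s a F t) := by
  unfold BB
  exact integrable_finsetSum _ fun n _ => term_int φ ψ a hF t n

/-- `exp(-|x|²) exp(i z·x)` is integrable -/
theorem gdn_int (z : ℝ × ℝ) : Integrable (gdn fun x => u (-(z.1 * x.1 + z.2 * x.2))) := by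
  have hg := gauss_int one_pos 0 0
  refine Integrable.mono' hg ?_ (Eventually.of_forall fun x => ?_)
  · unfold gdn
    refine Measurable.aestronglyMeasurable ?_
    refine Measurable.mul ?_ (measurable_u.comp (by fun_prop))
    exact Complex.measurable_ofReal.comp (Real.measurable_exp.comp measurable_nq.neg)
  · unfold gdn nq
    rw [norm_mul, norm_u, mul_one, Complex.norm_real, Real.norm_eq_abs,
      abs_of_pos (Real.exp_pos _)]
    simp

/-- `E` of the Gaussian times the exponential sum -/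
theorem E_gdn (h1 : Wey.T_REP) (φ ψ : ℤ → ℝ) (s : Finset ℤ) (a : ℤ → ℂ) (p : ℝ × ℝ) (t : ℝ) :
    E (gdn (Gs φ ψ s a)) (p.1, p.2, t) = ∑ n ∈ s, a n * (4 * Real.pi * lam t *
      Complex.exp (-(lam t * ((nq (p.1 - φ n, p.2 - ψ n) : ℝ) : ℂ)))) := by
  induction s using Finset.induction_on with
  | empty =>
    have e : (gdn (Gs φ ψ ∅ a)) = fun _ => 0 := by
      funext x
      unfold gdn Gs
      simp
    rw [e]
    unfold E
    simp
  | insert n s hn ih =>
    have e : (gdn (Gs φ ψ (insert n s) a)) = fun x =>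
        a n * (gdn fun x => u (-((φ n) * x.1 + ψ n * x.2))) x + gdn (Gs φ ψ s a) x := by
      funext x
      unfold gdn Gs
      simp only
      rw [Finset.sum_insert hn]
      ring
    have hi : Integrable (gdn (Gs φ ψ s a)) := by
      have e2 : gdn (Gs φ ψ s a) = fun x => ∑ n ∈ s,
          a n * (gdn fun x => u (-((φ n) * x.1 + ψ n * x.2))) x := by
        funext x
        unfold gdn Gs
        simp only
        rw [Finset.mul_sum]
        refine Finset.sum_congr rfl fun m _ => ?_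
        ring
      rw [e2]
      exact integrable_finsetSum _ fun m _ => (gdn_int (φ m, ψ m)).const_mul _
    rw [e, Pool.Agent.H27.Fib.E_add ((gdn_int (φ n, ψ n)).const_mul _) hi,
      Pool.Agent.H27.Fib.E_const_mul, ih, Finset.sum_insert hn]
    congr 2
    exact h1.2 (φ n, ψ n) p t

/-- the translated integral -/
theorem shift (φ ψ : ℤ → ℝ) (a : ℤ → ℂ) (F : ℝ × ℝ → ℂ) (p : ℝ × ℝ) (t : ℝ) (n : ℤ) :
    a n * (Complex.exp (-(lam t * ((nq (p.1 - φ n, p.2 - ψ n) : ℝ) : ℂ))) *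
      ∫ y : ℝ × ℝ, Complex.exp (-(lam t * ((nq (p.1 - y.1, p.2 - y.2) : ℝ) : ℂ))) * hat F y) =
    ∫ σ : ℝ × ℝ, Complex.exp (-(lam t / 2 * ((nq (2 * p.1 - σ.1, 2 * p.2 - σ.2) : ℝ) : ℂ))) *
      (cf φ ψ a F σ n * Complex.exp (-(lam t / 2 * ((nu φ ψ σ n : ℝ) : ℂ)))) := by
  rw [← integral_sub_right_eq_self (fun y : ℝ × ℝ =>
    Complex.exp (-(lam t * ((nq (p.1 - y.1, p.2 - y.2) : ℝ) : ℂ))) * hat F y)
    ((φ n, ψ n) : ℝ × ℝ), ← mul_assoc, ← integral_const_mul]
  refine integral_congr_ae (Eventually.of_forall fun σ => ?_)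
  simp only [Prod.fst_sub, Prod.snd_sub]
  unfold cf
  have e : Complex.exp (-(lam t * ((nq (p.1 - φ n, p.2 - ψ n) : ℝ) : ℂ))) *
      Complex.exp (-(lam t * ((nq (p.1 - (σ.1 - φ n), p.2 - (σ.2 - ψ n)) : ℝ) : ℂ))) =
      Complex.exp (-(lam t / 2 * ((nq (2 * p.1 - σ.1, 2 * p.2 - σ.2) : ℝ) : ℂ))) *
        Complex.exp (-(lam t / 2 * ((nu φ ψ σ n : ℝ) : ℂ))) := by
    rw [← Complex.exp_add, ← Complex.exp_add]
    congr 1
    unfold nq nu
    push_cast
    ring
  have e2 : (σ - ((φ n, ψ n) : ℝ × ℝ)) = (σ.1 - φ n, σ.2 - ψ n) := rfl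
  rw [e2]
  linear_combination (a n * hat F (σ.1 - φ n, σ.2 - ψ n)) * e

/-- the product is a Gaussian convolution of `BB` -/
theorem product (h1 : Wey.T_REP) (φ ψ : ℤ → ℝ) (s : Finset ℤ) (a : ℤ → ℂ) (f : ℝ × ℝ → ℂ)
    (t : ℝ) (hf : Sq f) (hi : Integrable f) (p : ℝ × ℝ) :
    E f (p.1, p.2, t) * E (gdn (Gs φ ψ s a)) (p.1, p.2, t) =
      4 * lam t ^ 2 * ∫ σ : ℝ × ℝ,
        Complex.exp (-(lam t / 2 * ((nq (2 * p.1 - σ.1, 2 * p.2 - σ.2) : ℝ) : ℂ))) *
          BB φ ψ s a (gup f) t σ := by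
  have hb : 0 < (lam t / 2).re := by
    rw [half_re]
    exact half_pos (lam_re_pos t)
  rw [h1.1 f hf hi p t, E_gdn h1]
  have e1 : ∀ σ : ℝ × ℝ,
      Complex.exp (-(lam t / 2 * ((nq (2 * p.1 - σ.1, 2 * p.2 - σ.2) : ℝ) : ℂ))) *
          BB φ ψ s a (gup f) t σ = ∑ n ∈ s,
      Complex.exp (-(lam t / 2 * ((nq (2 * p.1 - σ.1, 2 * p.2 - σ.2) : ℝ) : ℂ))) *
      (cf φ ψ a (gup f) σ n * Complex.exp (-(lam t / 2 * ((nu φ ψ σ n : ℝ) : ℂ)))) := by
    intro σ
    unfold BB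
    rw [Finset.mul_sum]
  rw [integral_congr_ae (Eventually.of_forall e1), integral_finsetSum]
  · rw [Finset.mul_sum, Finset.mul_sum]
    refine Finset.sum_congr rfl fun n _ => ?_
    rw [← shift]
    have hpi : (Real.pi : ℂ) ≠ 0 := by
      exact_mod_cast Real.pi_ne_zero
    field_simp
  · intro n _
    refine (term_int φ ψ a (gup_meas hf) t n).bdd_mul (c := 1) ?_
      (Eventually.of_forall fun σ => ?_)
    · refine Measurable.aestronglyMeasurable ?_
      unfold nq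
      fun_prop
    · rw [norm_gauss]
      refine Real.exp_le_one_iff.2 ?_
      have := mul_nonneg hb.le (nq_nonneg (2 * p.1 - σ.1, 2 * p.2 - σ.2))
      linarith

/-- scaling of the plane by two -/
theorem scale (H : ℝ × ℝ → ℝ≥0∞) :
    ∫⁻ p : ℝ × ℝ, H (2 * p.1, 2 * p.2) = ENNReal.ofReal (1 / 4) * ∫⁻ x, H x := by
  have h2 : (2 : ℝ) ≠ 0 := two_ne_zero
  have e : ∀ p : ℝ × ℝ, H (2 * p.1, 2 * p.2) = H ((2 : ℝ) • p) := fun p => rfl
  have hm : MeasurableEmbedding (fun x : ℝ × ℝ => (2 : ℝ) • x) :=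
    (Homeomorph.smulOfNeZero (2 : ℝ) h2).measurableEmbedding
  calc ∫⁻ p : ℝ × ℝ, H (2 * p.1, 2 * p.2) = ∫⁻ p : ℝ × ℝ, H ((2 : ℝ) • p) := lintegral_congr e
    _ = ∫⁻ x, H x ∂(Measure.map (fun x : ℝ × ℝ => (2 : ℝ) • x) volume) :=
      (hm.lintegral_map _).symm
    _ = _ := by
      rw [Measure.map_addHaar_smul volume h2, lintegral_smul_measure, smul_eq_mul]
      congr 2
      rw [Module.finrank_prod]
      norm_num

end SLI_

open SLI_ in
theorem p_SLI (h1 : Wey.T_REP) (h2 : Wey.T_CNV) : T_SLI := by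
  intro φ ψ s a f t hf hi
  have hb : 0 < (lam t / 2).re := by
    rw [half_re]
    exact half_pos (lam_re_pos t)
  have hc := h2 (lam t / 2) (BB φ ψ s a (gup f) t) hb (BB_meas φ ψ s a (gup_meas hf) t)
    (BB_int φ ψ s a (gup_meas hf) t)
  set H : ℝ × ℝ → ℝ≥0∞ := fun x => ‖∫ y : ℝ × ℝ,
    Complex.exp (-(lam t / 2 * ((nq (x.1 - y.1, x.2 - y.2) : ℝ) : ℂ))) *
      BB φ ψ s a (gup f) t y‖ₑ ^ 2 with hH
  have e1 : ∀ p : ℝ × ℝ, (‖E f (p.1, p.2, t)‖ₑ * ‖E (gdn (Gs φ ψ s a)) (p.1, p.2, t)‖ₑ) ^ 2 =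
      ‖4 * lam t ^ 2‖ₑ ^ 2 * H (2 * p.1, 2 * p.2) := by
    intro p
    rw [← enorm_mul, product h1 φ ψ s a f t hf hi p, enorm_mul, mul_pow]
  rw [lintegral_congr e1, lintegral_const_mul' _ _ (ENNReal.pow_ne_top enorm_ne_top), scale H]
  have e2 : ‖4 * lam t ^ 2‖ₑ ^ 2 * ENNReal.ofReal (1 / 4) *
      ENNReal.ofReal ((Real.pi / ‖lam t / 2‖) ^ 2) =
      ENNReal.ofReal (Real.pi ^ 2 / (1 + t ^ 2)) := by
    rw [← ofReal_norm, ← ENNReal.ofReal_pow (norm_nonneg _), ← ENNReal.ofReal_mul (by positivity),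
      ← ENNReal.ofReal_mul (by positivity)]
    congr 1
    have h3 := norm_lam_pos t
    have h4 := norm_lam_sq t
    have h5 : ‖(4 : ℂ) * lam t ^ 2‖ = 4 * ‖lam t‖ ^ 2 := by
      rw [norm_mul, norm_pow]
      norm_num
    have h6 : ‖lam t / 2‖ = ‖lam t‖ / 2 := by
      rw [norm_div]
      norm_num
    have h7 : Real.pi ^ 2 / (1 + t ^ 2) = 16 * Real.pi ^ 2 * ‖lam t‖ ^ 2 := by
      rw [h4]
      have : (1 : ℝ) + t ^ 2 ≠ 0 := by positivity
      field_simp
    rw [h5, h6, h7]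
    field_simp
    ring
  calc ‖4 * lam t ^ 2‖ₑ ^ 2 * (ENNReal.ofReal (1 / 4) * ∫⁻ x, H x)
      ≤ ‖4 * lam t ^ 2‖ₑ ^ 2 * (ENNReal.ofReal (1 / 4) *
        (ENNReal.ofReal ((Real.pi / ‖lam t / 2‖) ^ 2) *
          ∫⁻ y, ‖BB φ ψ s a (gup f) t y‖ₑ ^ 2)) := by gcongr
    _ = (‖4 * lam t ^ 2‖ₑ ^ 2 * ENNReal.ofReal (1 / 4) *
        ENNReal.ofReal ((Real.pi / ‖lam t / 2‖) ^ 2)) *
          ∫⁻ y, ‖BB φ ψ s a (gup f) t y‖ₑ ^ 2 := by
      simp only [mul_assoc]
    _ = _ := by rw [e2]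

end Wex
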