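import Pool.Agent.Wex.Targets2

/-!
# MP_5ab805_an, Wex part 2: SPA (helper49)

Functions with spectrum in the union of `M` unit cells.
-/

set_option autoImplicit false

namespace Wex

open MeasureTheory Set Filter
open scoped ENNReal NNReal Topology
open Pool.Agent.Restr (u E QQ)
open TriL (Sq n2)
open Wey (nq lam hat gup gdn blk Tk Sl Wi InD)

namespace SPA_

/-- the real estimate: `(C √M (1 + log M))^e ≤ C' M^κ` for `e / 2 < κ` -/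
theorem real_bound (C0 e κ : ℝ) (hC : 0 < C0) (he : 0 < e) (hk : e / 2 < κ) :
    ∃ C' : ℝ≥0, ∀ M m : ℕ, 1 ≤ M → (m : ℝ) ≤ C0 * (√(M : ℝ) * (1 + Real.log M)) →
      pw m e ≤ C' * pw M κ := by
  set δ : ℝ := (κ - e / 2) / e with hδ
  have hδ0 : 0 < δ := div_pos (by linarith) he
  have hB : 0 ≤ (C0 * (1 + 1 / δ)) ^ e := by positivity
  refine ⟨⟨(C0 * (1 + 1 / δ)) ^ e, hB⟩, ?_⟩
  intro M m hM hm
  have hM1 : (1 : ℝ) ≤ M := by exact_mod_cast hM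
  have hM0 : (0 : ℝ) ≤ M := by linarith
  have hMp : (0 : ℝ) < M := by linarith
  have hlog : 1 + Real.log (M : ℝ) ≤ (1 + 1 / δ) * (M : ℝ) ^ δ := by
    have h1 := Real.log_le_rpow_div hM0 hδ0
    have h2 : (1 : ℝ) ≤ (M : ℝ) ^ δ := Real.one_le_rpow hM1 hδ0.le
    have h3 : (1 + 1 / δ) * (M : ℝ) ^ δ = (M : ℝ) ^ δ + (M : ℝ) ^ δ / δ := by ring
    rw [h3]; linarith
  have hsq : √(M : ℝ) = (M : ℝ) ^ (1 / 2 : ℝ) := Real.sqrt_eq_rpow _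
  have hm2 : (m : ℝ) ≤ (C0 * (1 + 1 / δ)) * (M : ℝ) ^ (1 / 2 + δ) := by
    refine hm.trans ?_
    rw [hsq, Real.rpow_add hMp]
    have h4 : (0 : ℝ) ≤ (M : ℝ) ^ (1 / 2 : ℝ) := Real.rpow_nonneg hM0 _
    calc C0 * ((M : ℝ) ^ (1 / 2 : ℝ) * (1 + Real.log M))
        ≤ C0 * ((M : ℝ) ^ (1 / 2 : ℝ) * ((1 + 1 / δ) * (M : ℝ) ^ δ)) := by gcongr
      _ = _ := by ring
  have hfin : (m : ℝ) ^ e ≤ (C0 * (1 + 1 / δ)) ^ e * (M : ℝ) ^ κ := by
    have h5 : (m : ℝ) ^ e ≤ ((C0 * (1 + 1 / δ)) * (M : ℝ) ^ (1 / 2 + δ)) ^ e :=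
      Real.rpow_le_rpow (Nat.cast_nonneg _) hm2 he.le
    refine h5.trans (le_of_eq ?_)
    rw [Real.mul_rpow (by positivity) (Real.rpow_nonneg hM0 _), ← Real.rpow_mul hM0]
    congr 2
    rw [hδ]; field_simp; ring
  unfold pw
  calc ENNReal.ofReal ((m : ℝ) ^ e)
      ≤ ENNReal.ofReal ((C0 * (1 + 1 / δ)) ^ e * (M : ℝ) ^ κ) := ENNReal.ofReal_le_ofReal hfin
    _ = ENNReal.ofReal ((C0 * (1 + 1 / δ)) ^ e) * ENNReal.ofReal ((M : ℝ) ^ κ) :=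
        ENNReal.ofReal_mul hB
    _ = _ := by
        congr 1
        exact ENNReal.ofReal_eq_coe_nnreal hB

/-- integer points as points of the plane -/
noncomputable def zp (k : ℤ × ℤ) : ℝ × ℝ := ((k.1 : ℝ), (k.2 : ℝ))

theorem zp_inj : Function.Injective zp := by
  intro a b h
  simp only [zp, Prod.mk.injEq, Int.cast_inj] at h
  exact Prod.ext h.1 h.2

theorem zp_sep {a b : ℤ × ℤ} (h : zp a ≠ zp b) :
    1 ≤ ((zp a).1 - (zp b).1) ^ 2 + ((zp a).2 - (zp b).2) ^ 2 := by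
  have h1 : a ≠ b := fun e => h (by rw [e])
  have h2 : (a.1 - b.1) ≠ 0 ∨ (a.2 - b.2) ≠ 0 := by
    by_contra hc
    push Not at hc
    exact h1 (Prod.ext (by omega) (by omega))
  have h3 : (1 : ℤ) ≤ (a.1 - b.1) ^ 2 + (a.2 - b.2) ^ 2 := by
    rcases h2 with h2 | h2
    · have := Int.one_le_abs h2
      nlinarith [sq_nonneg (a.2 - b.2), sq_abs (a.1 - b.1)]
    · have := Int.one_le_abs h2
      nlinarith [sq_nonneg (a.1 - b.1), sq_abs (a.2 - b.2)]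
  have h4 : ((1 : ℤ) : ℝ) ≤ (((a.1 - b.1) ^ 2 + (a.2 - b.2) ^ 2 : ℤ) : ℝ) := by exact_mod_cast h3
  push_cast at h4
  simpa [zp] using h4

theorem cell_near {k : ℤ × ℤ} {y : ℝ × ℝ} (h : y ∈ cell k) :
    (y.1 - (zp k).1) ^ 2 + (y.2 - (zp k).2) ^ 2 ≤ 4 := by
  obtain ⟨⟨h1, h2⟩, ⟨h3, h4⟩⟩ := h
  simp only [zp]
  nlinarith

/-- the ordering for a set of cells -/
theorem order (h2 : T_CRO) : ∃ C : ℝ, 0 < C ∧ ∀ S : Finset (ℤ × ℤ), S.Nonempty →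
    ∃ (φ ψ : ℤ → ℝ) (m : ℕ), 1 ≤ m ∧ (m : ℝ) ≤ C * (√(S.card : ℝ) * (1 + Real.log S.card)) ∧
      Ann m φ ψ (Finset.Ico 0 (S.card : ℤ)) ∧ Sep φ ψ (Finset.Ico 0 (S.card : ℤ)) ∧
      ∀ y : ℝ × ℝ, (∃ k ∈ S, y ∈ cell k) → ∃ n ∈ Finset.Ico 0 (S.card : ℤ),
        (y.1 - φ n) ^ 2 + (y.2 - ψ n) ^ 2 ≤ 4 := by
  classical
  obtain ⟨C, hC, H⟩ := h2
  refine ⟨C, hC, ?_⟩
  intro S hS
  obtain ⟨φ, ψ, m, hm1, hm2, hann, hinj, hmem⟩ := H (S.image zp) (hS.image _)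
  rw [Finset.card_image_of_injective _ zp_inj] at hm2 hann hinj hmem
  refine ⟨φ, ψ, m, hm1, hm2, hann, ?_, ?_⟩
  · intro n hn k hk hnk
    have e1 : (φ n, ψ n) ∈ S.image zp := (hmem _).2 ⟨n, hn, rfl⟩
    have e2 : (φ k, ψ k) ∈ S.image zp := (hmem _).2 ⟨k, hk, rfl⟩
    obtain ⟨a, -, ha⟩ := Finset.mem_image.1 e1
    obtain ⟨b, -, hb⟩ := Finset.mem_image.1 e2
    have hne : zp a ≠ zp b := by
      intro hab
      rw [ha, hb] at hab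
      simp only [Prod.mk.injEq] at hab
      exact hnk (hinj n hn k hk hab.1 hab.2)
    have := zp_sep hne
    rw [ha, hb] at this
    exact this
  · rintro y ⟨k, hk, hy⟩
    obtain ⟨n, hn, hz⟩ := (hmem (zp k)).1 (Finset.mem_image_of_mem _ hk)
    refine ⟨n, hn, ?_⟩
    have := cell_near hy
    rw [hz] at this
    exact this

end SPA_

open SPA_

theorem p_SPA (h1 : T_THK2) (h2 : T_CRO) : T_SPA := by
  intro ρ κ μ ν hρ hρ2 hκ hμ hμ2 hν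
  have hρ0 : 0 < ρ := by linarith
  have hμ0 : 0 < μ := by linarith
  have hκ2 : 2 - ρ < 2 * ρ * κ := by
    have h := mul_lt_mul_of_pos_left hκ (by linarith : (0 : ℝ) < 2 * ρ)
    have e : 2 * ρ * (1 / ρ - 1 / 2) = 2 - ρ := by field_simp
    linarith
  have hν2 : 2 - 3 * μ / 2 < 2 * μ * ν := by
    have h := mul_lt_mul_of_pos_left hν (by linarith : (0 : ℝ) < 2 * μ)
    have e : 2 * μ * (1 / μ - 3 / 4) = 2 - 3 * μ / 2 := by field_simp; ring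
    linarith
  obtain ⟨kp, hk1, hk2, hk3⟩ : ∃ kp : ℝ, 2 - ρ < kp ∧ kp ≤ ρ - 1 ∧ kp < 2 * ρ * κ := by
    refine ⟨min (ρ - 1) ((2 - ρ + 2 * ρ * κ) / 2), ?_, min_le_left _ _, ?_⟩
    · rw [lt_min_iff]; constructor <;> linarith
    · exact (min_le_right _ _).trans_lt (by linarith)
  obtain ⟨np, hn1, hn2, hn3⟩ : ∃ np : ℝ, 2 - 3 * μ / 2 < np ∧ np ≤ μ / 2 ∧ np < 2 * μ * ν := by
    refine ⟨min (μ / 2) ((2 - 3 * μ / 2 + 2 * μ * ν) / 2), ?_, min_le_left _ _, ?_⟩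
    · rw [lt_min_iff]; constructor <;> linarith
    · exact (min_le_right _ _).trans_lt (by linarith)
  obtain ⟨C1, HT⟩ := h1 ρ kp μ np ⟨⟨hρ, hρ2, hk1, hk2⟩, hμ, hμ2, hn1, hn2⟩
  obtain ⟨C0, hC0, HO⟩ := order h2
  obtain ⟨Ca, ha⟩ := real_bound C0 (kp / ρ) κ hC0 (div_pos (by linarith) hρ0)
    (by rw [div_div, div_lt_iff₀ (by linarith)]; linarith)
  obtain ⟨Cb, hb⟩ := real_bound C0 (np / μ) ν hC0 (div_pos (by linarith) hμ0)
    (by rw [div_div, div_lt_iff₀ (by linarith)]; linarith)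
  refine ⟨C1 * (Ca + Cb), ?_⟩
  intro χ γ K S hW hχ hγm hγi hγS f hf hf1
  rcases S.eq_empty_or_nonempty with hS | hS
  · subst hS
    have hγ0 : γ = 0 := by
      funext y
      exact hγS y (by simp)
    have hE : (fun x : ℝ × ℝ => χ x * chk γ x) = fun _ => 0 := by
      funext x
      simp [hγ0, chk]
    have hE0 : ∀ ξ, E (fun x : ℝ × ℝ => χ x * chk γ x) ξ = 0 := by
      intro ξ
      rw [hE]
      simp [E]
    refine ⟨?_, ?_⟩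
    · simp [hE0]
    · intro g _
      simp [hE0]
  · obtain ⟨φ, ψ, m, hm1, hm2, hann, hsep, hcov⟩ := HO S hS
    have hcard : 1 ≤ S.card := hS.card_pos
    have hγ2 : ∀ y : ℝ × ℝ, (∀ n ∈ Finset.Ico 0 (S.card : ℤ),
        4 < (y.1 - φ n) ^ 2 + (y.2 - ψ n) ^ 2) → γ y = 0 := by
      intro y hy
      refine hγS y ?_
      intro k hk hyk
      obtain ⟨n, hn, hle⟩ := hcov y ⟨k, hk, hyk⟩
      exact absurd (hy n hn) (not_lt.2 hle)
    obtain ⟨R1, R2⟩ := HT m φ ψ 0 (S.card : ℤ) χ γ K hm1 hsep hann hW hχ hγm hγi hγ2 f hf hf1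
    have ha' := ha S.card m hcard hm2
    have hb' := hb S.card m hcard hm2
    have hCa : (Ca : ℝ≥0∞) ≤ ((Ca + Cb : ℝ≥0) : ℝ≥0∞) := by
      exact_mod_cast le_self_add
    have hCb : (Cb : ℝ≥0∞) ≤ ((Ca + Cb : ℝ≥0) : ℝ≥0∞) := by
      exact_mod_cast le_add_self
    refine ⟨?_, ?_⟩
    · refine R1.trans ?_
      calc (C1 : ℝ≥0∞) * K * pw m (kp / ρ) * eLpNorm γ 2 volume
          ≤ C1 * K * (((Ca + Cb : ℝ≥0) : ℝ≥0∞) * pw S.card κ) * eLpNorm γ 2 volume := by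
            gcongr
            exact ha'.trans (by gcongr)
        _ = _ := by rw [ENNReal.coe_mul]; ring
    · intro g hg
      refine (R2 g hg).trans ?_
      calc (C1 : ℝ≥0∞) * K * pw m (np / μ) * eLpNorm γ 2 volume * eLpNorm g 2 volume
          ≤ C1 * K * (((Ca + Cb : ℝ≥0) : ℝ≥0∞) * pw S.card ν) * eLpNorm γ 2 volume *
            eLpNorm g 2 volume := by
            gcongr
            exact hb'.trans (by gcongr)
        _ = _ := by rw [ENNReal.coe_mul]; ring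

end Wex
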