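import Pool.Agent.Wex.Targets
import Pool.Agent.Wey.REP

/-!
# MP_5ab805_an, WEX-SQB: almost orthogonality by Gaussians (helper9)
-/

set_option autoImplicit false

namespace Wex

open MeasureTheory Set Filter
open scoped ENNReal NNReal Topology
open Pool.Agent.Restr (u E QQ)
open TriL (Sq n2)
open Wey (nq lam hat gup gdn blk Tk Sl Wi)

namespace SQB_

/-- the integrand for a pair of frequencies -/
theorem pair_int (c1 c2 : ℝ) : Integrable (fun x : ℝ × ℝ =>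
    Complex.exp (-((1 : ℂ) * ((nq x : ℝ) : ℂ)) +
      (Complex.I * c1 * x.1 + Complex.I * c2 * x.2))) :=
  Wey.REP_.G2int (by simp) _ _

theorem pair_val (c1 c2 : ℝ) : ∫ x : ℝ × ℝ,
    Complex.exp (-((1 : ℂ) * ((nq x : ℝ) : ℂ)) +
      (Complex.I * c1 * x.1 + Complex.I * c2 * x.2)) =
      Real.pi * ((Real.exp (-(1 / 4 * (c1 ^ 2 + c2 ^ 2))) : ℝ) : ℂ) := by
  rw [Wey.REP_.G2val (by simp)]
  push_cast
  rw [div_one]
  congr 2
  linear_combination ((c1 : ℂ) ^ 2 + (c2 : ℂ) ^ 2) / 4 * Complex.I_sq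

theorem conj_u (y : ℝ) : (starRingEnd ℂ) (u y) = u (-y) := by
  unfold u
  rw [← Complex.exp_conj]
  congr 1
  simp

/-- the square of the sum as a double sum -/
theorem sq_eq (φ ψ : ℤ → ℝ) (s : Finset ℤ) (a : ℤ → ℂ) (x : ℝ × ℝ) :
    ∑ n ∈ s, ∑ k ∈ s, a n * (starRingEnd ℂ) (a k) *
      Complex.exp (-((1 : ℂ) * ((nq x : ℝ) : ℂ)) +
        (Complex.I * ((φ n - φ k : ℝ) : ℂ) * x.1 + Complex.I * ((ψ n - ψ k : ℝ) : ℂ) * x.2)) =
      ((Real.exp (-nq x) * ‖Gs φ ψ s a x‖ ^ 2 : ℝ) : ℂ) := by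
  have h1 : ((‖Gs φ ψ s a x‖ ^ 2 : ℝ) : ℂ) =
      Gs φ ψ s a x * (starRingEnd ℂ) (Gs φ ψ s a x) := by
    rw [Complex.mul_conj, Complex.normSq_eq_norm_sq]
  rw [Complex.ofReal_mul, h1]
  unfold Gs
  rw [map_sum, Finset.sum_mul_sum, Finset.mul_sum]
  refine Finset.sum_congr rfl fun n _ => ?_
  rw [Finset.mul_sum]
  refine Finset.sum_congr rfl fun k _ => ?_
  rw [map_mul, conj_u]
  unfold u
  rw [Complex.exp_add]
  have e1 : Complex.exp (Complex.I * ((φ n - φ k : ℝ) : ℂ) * x.1 +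
      Complex.I * ((ψ n - ψ k : ℝ) : ℂ) * x.2) =
      Complex.exp (-(Complex.I * ((-(φ n * x.1 + ψ n * x.2) : ℝ) : ℂ))) *
      Complex.exp (-(Complex.I * ((- -(φ k * x.1 + ψ k * x.2) : ℝ) : ℂ))) := by
    rw [← Complex.exp_add]
    congr 1
    push_cast
    ring
  have e2 : Complex.exp (-((1 : ℂ) * ((nq x : ℝ) : ℂ))) = ((Real.exp (-nq x) : ℝ) : ℂ) := by
    push_cast
    rw [one_mul]
  rw [e1, e2]
  ring

/-- the value of the Gaussian average and its bound -/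
theorem main (φ ψ : ℤ → ℝ) (s : Finset ℤ) (a : ℤ → ℂ) {D : ℝ}
    (hD : ∀ n ∈ s, ∑ k ∈ s, Real.exp (-(1 / 4 * ((φ k - φ n) ^ 2 + (ψ k - ψ n) ^ 2))) ≤ D) :
    Integrable (fun x : ℝ × ℝ => Real.exp (-nq x) * ‖Gs φ ψ s a x‖ ^ 2) ∧
    ∫ x : ℝ × ℝ, Real.exp (-nq x) * ‖Gs φ ψ s a x‖ ^ 2 ≤
      Real.pi * (D * ∑ n ∈ s, ‖a n‖ ^ 2) := by
  have hi : Integrable (fun x : ℝ × ℝ =>
      ((Real.exp (-nq x) * ‖Gs φ ψ s a x‖ ^ 2 : ℝ) : ℂ)) := by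
    simp_rw [← sq_eq]
    exact integrable_finsetSum _ fun n _ => integrable_finsetSum _ fun k _ =>
      (pair_int _ _).const_mul _
  have hr : Integrable (fun x : ℝ × ℝ => Real.exp (-nq x) * ‖Gs φ ψ s a x‖ ^ 2) := by
    refine hi.re.congr (ae_of_all _ fun x => ?_)
    simp only [RCLike.re_eq_complex_re, Complex.ofReal_re]
  refine ⟨hr, ?_⟩
  have hv : ((∫ x : ℝ × ℝ, Real.exp (-nq x) * ‖Gs φ ψ s a x‖ ^ 2 : ℝ) : ℂ) =
      ∑ n ∈ s, ∑ k ∈ s, a n * (starRingEnd ℂ) (a k) * (Real.pi *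
        ((Real.exp (-(1 / 4 * ((φ n - φ k) ^ 2 + (ψ n - ψ k) ^ 2))) : ℝ) : ℂ)) := by
    rw [← integral_complex_ofReal]
    simp_rw [← sq_eq]
    rw [integral_finsetSum _ fun n _ => integrable_finsetSum _ fun k _ =>
      (pair_int _ _).const_mul _]
    refine Finset.sum_congr rfl fun n _ => ?_
    rw [integral_finsetSum _ fun k _ => (pair_int _ _).const_mul _]
    refine Finset.sum_congr rfl fun k _ => ?_
    rw [integral_const_mul, pair_val]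
  have hb : ‖((∫ x : ℝ × ℝ, Real.exp (-nq x) * ‖Gs φ ψ s a x‖ ^ 2 : ℝ) : ℂ)‖ ≤
      ∑ n ∈ s, ∑ k ∈ s, ‖a n‖ * ‖a k‖ * (Real.pi *
        Real.exp (-(1 / 4 * ((φ n - φ k) ^ 2 + (ψ n - ψ k) ^ 2)))) := by
    rw [hv]
    refine (norm_sum_le _ _).trans (Finset.sum_le_sum fun n _ => ?_)
    refine (norm_sum_le _ _).trans (Finset.sum_le_sum fun k _ => ?_)
    rw [norm_mul, norm_mul, norm_mul, RCLike.norm_conj, Complex.norm_real, Complex.norm_real,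
      Real.norm_of_nonneg Real.pi_pos.le, Real.norm_of_nonneg (Real.exp_pos _).le]
  have h2 : ∑ n ∈ s, ∑ k ∈ s, ‖a n‖ * ‖a k‖ * (Real.pi *
        Real.exp (-(1 / 4 * ((φ n - φ k) ^ 2 + (ψ n - ψ k) ^ 2)))) ≤
      ∑ n ∈ s, ∑ k ∈ s, (‖a n‖ ^ 2 / 2 + ‖a k‖ ^ 2 / 2) * (Real.pi *
        Real.exp (-(1 / 4 * ((φ k - φ n) ^ 2 + (ψ k - ψ n) ^ 2)))) := by
    refine Finset.sum_le_sum fun n _ => Finset.sum_le_sum fun k _ => ?_
    rw [show (φ k - φ n) ^ 2 = (φ n - φ k) ^ 2 by ring,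
      show (ψ k - ψ n) ^ 2 = (ψ n - ψ k) ^ 2 by ring]
    refine mul_le_mul_of_nonneg_right ?_ (by positivity)
    nlinarith [sq_nonneg (‖a n‖ - ‖a k‖)]
  have h3 : ∑ n ∈ s, ∑ k ∈ s, (‖a n‖ ^ 2 / 2 + ‖a k‖ ^ 2 / 2) * (Real.pi *
        Real.exp (-(1 / 4 * ((φ k - φ n) ^ 2 + (ψ k - ψ n) ^ 2)))) =
      Real.pi * ∑ n ∈ s, ‖a n‖ ^ 2 *
        ∑ k ∈ s, Real.exp (-(1 / 4 * ((φ k - φ n) ^ 2 + (ψ k - ψ n) ^ 2))) := by
    have e1 : ∑ n ∈ s, ∑ k ∈ s, ‖a k‖ ^ 2 / 2 * (Real.pi *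
        Real.exp (-(1 / 4 * ((φ k - φ n) ^ 2 + (ψ k - ψ n) ^ 2)))) =
        ∑ n ∈ s, ∑ k ∈ s, ‖a n‖ ^ 2 / 2 * (Real.pi *
        Real.exp (-(1 / 4 * ((φ k - φ n) ^ 2 + (ψ k - ψ n) ^ 2)))) := by
      rw [Finset.sum_comm]
      refine Finset.sum_congr rfl fun n _ => Finset.sum_congr rfl fun k _ => ?_
      rw [show (φ n - φ k) ^ 2 = (φ k - φ n) ^ 2 by ring,
        show (ψ n - ψ k) ^ 2 = (ψ k - ψ n) ^ 2 by ring]
    simp_rw [add_mul, Finset.sum_add_distrib]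
    rw [e1, ← Finset.sum_add_distrib, Finset.mul_sum]
    refine Finset.sum_congr rfl fun n _ => ?_
    rw [← Finset.sum_add_distrib, Finset.mul_sum, Finset.mul_sum]
    refine Finset.sum_congr rfl fun k _ => ?_
    ring
  have h4 : Real.pi * ∑ n ∈ s, ‖a n‖ ^ 2 *
        ∑ k ∈ s, Real.exp (-(1 / 4 * ((φ k - φ n) ^ 2 + (ψ k - ψ n) ^ 2))) ≤
      Real.pi * (D * ∑ n ∈ s, ‖a n‖ ^ 2) := by
    refine mul_le_mul_of_nonneg_left ?_ Real.pi_pos.le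
    rw [Finset.mul_sum]
    refine Finset.sum_le_sum fun n hn => ?_
    rw [mul_comm D]
    exact mul_le_mul_of_nonneg_left (hD n hn) (sq_nonneg _)
  calc _ ≤ ‖((∫ x : ℝ × ℝ, Real.exp (-nq x) * ‖Gs φ ψ s a x‖ ^ 2 : ℝ) : ℂ)‖ := by
        rw [Complex.norm_real]
        exact le_abs_self _
    _ ≤ _ := hb.trans (h2.trans (h3.le.trans h4))

end SQB_

theorem p_SQB (h1 : T_GAU) : T_SQB := by
  obtain ⟨C0, hC0, hG⟩ := h1
  refine ⟨(Real.exp (1 / 2) * (Real.pi * (C0 * 5))).toNNReal, fun φ ψ s a hs => ?_⟩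
  have hD : ∀ n ∈ s, ∑ k ∈ s,
      Real.exp (-(1 / 4 * ((φ k - φ n) ^ 2 + (ψ k - ψ n) ^ 2))) ≤ C0 * 5 := by
    intro n _
    have := hG φ ψ s (1 / 4) (φ n, ψ n) hs (by norm_num)
    refine this.trans (le_of_eq ?_)
    norm_num
  obtain ⟨hi, hb⟩ := SQB_.main φ ψ s a hD
  have hle : ∀ x ∈ QQ, ‖Gs φ ψ s a x‖ₑ ^ 2 ≤
      ENNReal.ofReal (Real.exp (1 / 2) * (Real.exp (-nq x) * ‖Gs φ ψ s a x‖ ^ 2)) := by
    intro x hx
    rw [← ofReal_norm, ← ENNReal.ofReal_pow (norm_nonneg _)]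
    refine ENNReal.ofReal_le_ofReal ?_
    rw [← mul_assoc, ← Real.exp_add]
    have h2 : (1 : ℝ) ≤ Real.exp (1 / 2 + -nq x) := by
      refine Real.one_le_exp ?_
      obtain ⟨⟨h1, h2⟩, h3, h4⟩ := hx
      unfold nq
      nlinarith
    nlinarith [sq_nonneg ‖Gs φ ψ s a x‖]
  have hm : MeasurableSet QQ := by
    unfold QQ
    exact measurableSet_Icc.prod measurableSet_Icc
  calc _ ≤ ∫⁻ x in QQ, ENNReal.ofReal (Real.exp (1 / 2) *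
        (Real.exp (-nq x) * ‖Gs φ ψ s a x‖ ^ 2)) := setLIntegral_mono' hm hle
    _ ≤ ∫⁻ x, ENNReal.ofReal (Real.exp (1 / 2) *
        (Real.exp (-nq x) * ‖Gs φ ψ s a x‖ ^ 2)) := setLIntegral_le_lintegral _ _
    _ = ENNReal.ofReal (∫ x, Real.exp (1 / 2) *
        (Real.exp (-nq x) * ‖Gs φ ψ s a x‖ ^ 2)) := by
      rw [ofReal_integral_eq_lintegral_ofReal (hi.const_mul _)
        (ae_of_all _ fun x => by simp only [Pi.zero_apply]; positivity)]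
    _ ≤ ENNReal.ofReal (Real.exp (1 / 2) * (Real.pi * (C0 * 5 * ∑ n ∈ s, ‖a n‖ ^ 2))) := by
      rw [integral_const_mul]
      exact ENNReal.ofReal_le_ofReal (mul_le_mul_of_nonneg_left hb (Real.exp_pos _).le)
    _ = _ := by
      have e1 : ∑ n ∈ s, ‖a n‖ₑ ^ 2 = ENNReal.ofReal (∑ n ∈ s, ‖a n‖ ^ 2) := by
        rw [ENNReal.ofReal_sum_of_nonneg fun n _ => sq_nonneg _]
        refine Finset.sum_congr rfl fun n _ => ?_
        rw [← ofReal_norm, ← ENNReal.ofReal_pow (norm_nonneg _)]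
      have hp : (0 : ℝ) ≤ Real.exp (1 / 2) * (Real.pi * (C0 * 5)) := by positivity
      change _ = ENNReal.ofReal (Real.exp (1 / 2) * (Real.pi * (C0 * 5))) * _
      rw [e1, ← ENNReal.ofReal_mul hp]
      congr 1
      ring

end Wex
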