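import Pool.Agent.Wex.Targets
import Pool.Agent.Wey.ASM

/-!
# MP_5ab805_an, block THK: functions with spectrum near a separated sequence (helper95)
-/

set_option autoImplicit false

namespace Wex

open MeasureTheory Set Filter
open scoped ENNReal NNReal Topology
open Pool.Agent.Restr (u E QQ norm_u enorm_u u_add u_sub u_zero measurable_u measurable_E vol_QQ
  lin_q lin_2 eLpNorm_le_of_lin)
open TriL (Sq n2)
open Wey (nq lam hat gup gdn blk Tk Sl Wi)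
open Wey.ASM_ (wi_cont wi_le cs)

namespace THK_

/-! ### The pieces -/

/-- indicator of the disc of radius two around `z_n` -/
noncomputable def ind (φ ψ : ℤ → ℝ) (n : ℤ) (y : ℝ × ℝ) : ℝ :=
  {y : ℝ × ℝ | (y.1 - φ n) ^ 2 + (y.2 - ψ n) ^ 2 ≤ 4}.indicator (fun _ => (1 : ℝ)) y

theorem ind_nonneg (φ ψ : ℤ → ℝ) (n : ℤ) (y : ℝ × ℝ) : 0 ≤ ind φ ψ n y := by
  unfold ind
  exact indicator_nonneg (fun _ _ => zero_le_one) _

theorem measurable_ind (φ ψ : ℤ → ℝ) (n : ℤ) : Measurable (ind φ ψ n) := by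
  unfold ind
  refine measurable_const.indicator ?_
  exact measurableSet_le (by fun_prop) measurable_const

theorem ind_of_le {φ ψ : ℤ → ℝ} {n : ℤ} {y : ℝ × ℝ}
    (h : (y.1 - φ n) ^ 2 + (y.2 - ψ n) ^ 2 ≤ 4) : ind φ ψ n y = 1 := by
  unfold ind
  exact indicator_of_mem (s := {y : ℝ × ℝ | (y.1 - φ n) ^ 2 + (y.2 - ψ n) ^ 2 ≤ 4}) h _

theorem ind_of_lt {φ ψ : ℤ → ℝ} {n : ℤ} {y : ℝ × ℝ}
    (h : 4 < (y.1 - φ n) ^ 2 + (y.2 - ψ n) ^ 2) : ind φ ψ n y = 0 := by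
  unfold ind
  exact indicator_of_notMem (s := {y : ℝ × ℝ | (y.1 - φ n) ^ 2 + (y.2 - ψ n) ^ 2 ≤ 4})
    (not_le.2 h) _

/-- the weight of `z_n` -/
noncomputable def wt (φ ψ : ℤ → ℝ) (s : Finset ℤ) (n : ℤ) (y : ℝ × ℝ) : ℝ :=
  ind φ ψ n y / ∑ k ∈ s, ind φ ψ k y

theorem wt_nonneg (φ ψ : ℤ → ℝ) (s : Finset ℤ) (n : ℤ) (y : ℝ × ℝ) : 0 ≤ wt φ ψ s n y :=
  div_nonneg (ind_nonneg φ ψ n y) (Finset.sum_nonneg fun k _ => ind_nonneg φ ψ k y)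

theorem measurable_wt (φ ψ : ℤ → ℝ) (s : Finset ℤ) (n : ℤ) : Measurable (wt φ ψ s n) := by
  unfold wt
  exact (measurable_ind φ ψ n).div (Finset.measurable_sum _ fun k _ => measurable_ind φ ψ k)

theorem wt_le_one {φ ψ : ℤ → ℝ} {s : Finset ℤ} {n : ℤ} (hn : n ∈ s) (y : ℝ × ℝ) :
    wt φ ψ s n y ≤ 1 := by
  unfold wt
  refine div_le_one_of_le₀ ?_ (Finset.sum_nonneg fun k _ => ind_nonneg φ ψ k y)
  exact Finset.single_le_sum (f := fun k => ind φ ψ k y) (fun k _ => ind_nonneg φ ψ k y) hn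

theorem sum_wt_le (φ ψ : ℤ → ℝ) (s : Finset ℤ) (y : ℝ × ℝ) : ∑ n ∈ s, wt φ ψ s n y ≤ 1 := by
  unfold wt
  rw [← Finset.sum_div]
  exact div_self_le_one _

theorem sum_wt {φ ψ : ℤ → ℝ} {s : Finset ℤ} {y : ℝ × ℝ}
    (h : ∃ n ∈ s, (y.1 - φ n) ^ 2 + (y.2 - ψ n) ^ 2 ≤ 4) : ∑ n ∈ s, wt φ ψ s n y = 1 := by
  unfold wt
  rw [← Finset.sum_div]
  refine div_self (ne_of_gt ?_)
  obtain ⟨n, hn, hy⟩ := h
  calc (0 : ℝ) < ind φ ψ n y := by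
        rw [ind_of_le hy]
        exact one_pos
    _ ≤ _ := Finset.single_le_sum (f := fun k => ind φ ψ k y) (fun k _ => ind_nonneg φ ψ k y) hn

/-- the piece of `γ` near `z_n` -/
noncomputable def pc (φ ψ : ℤ → ℝ) (s : Finset ℤ) (γ : ℝ × ℝ → ℂ) (n : ℤ) (y : ℝ × ℝ) : ℂ :=
  (wt φ ψ s n y : ℂ) * γ y

variable {φ ψ : ℤ → ℝ} {s : Finset ℤ} {γ : ℝ × ℝ → ℂ}

theorem measurable_pc (hγ : Measurable γ) (n : ℤ) : Measurable (pc φ ψ s γ n) := by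
  unfold pc
  exact (Complex.measurable_ofReal.comp (measurable_wt φ ψ s n)).mul hγ

theorem integrable_pc (hγ : Integrable γ) {n : ℤ} (hn : n ∈ s) :
    Integrable (pc φ ψ s γ n) := by
  unfold pc
  refine hγ.bdd_mul (c := 1)
    (Complex.measurable_ofReal.comp (measurable_wt φ ψ s n)).aestronglyMeasurable
    (Eventually.of_forall fun x => ?_)
  rw [Complex.norm_real, Real.norm_of_nonneg (wt_nonneg _ _ _ _ _)]
  exact wt_le_one hn x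

theorem sum_pc (hs : ∀ y : ℝ × ℝ, (∀ n ∈ s, 4 < (y.1 - φ n) ^ 2 + (y.2 - ψ n) ^ 2) → γ y = 0)
    (y : ℝ × ℝ) : ∑ n ∈ s, pc φ ψ s γ n y = γ y := by
  unfold pc
  rw [← Finset.sum_mul, ← Complex.ofReal_sum]
  by_cases h : ∃ n ∈ s, (y.1 - φ n) ^ 2 + (y.2 - ψ n) ^ 2 ≤ 4
  · rw [sum_wt h, Complex.ofReal_one, one_mul]
  · push Not at h
    rw [hs y h, mul_zero]

theorem sum_sq_pc (y : ℝ × ℝ) : ∑ n ∈ s, ‖pc φ ψ s γ n y‖ₑ ^ 2 ≤ ‖γ y‖ₑ ^ 2 := by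
  have e : ∀ n ∈ s, ‖pc φ ψ s γ n y‖ₑ ^ 2 ≤ ENNReal.ofReal (wt φ ψ s n y) * ‖γ y‖ₑ ^ 2 := by
    intro n hn
    unfold pc
    have h0 : ‖((wt φ ψ s n y : ℝ) : ℂ)‖ₑ = ENNReal.ofReal (wt φ ψ s n y) := by
      rw [← ofReal_norm, Complex.norm_real, Real.norm_of_nonneg (wt_nonneg _ _ _ _ _)]
    rw [enorm_mul, mul_pow, h0]
    gcongr
    rw [pow_two]
    calc ENNReal.ofReal (wt φ ψ s n y) * ENNReal.ofReal (wt φ ψ s n y)
        ≤ ENNReal.ofReal (wt φ ψ s n y) * 1 := by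
          gcongr
          exact ENNReal.ofReal_le_one.2 (wt_le_one hn y)
      _ = _ := mul_one _
  refine (Finset.sum_le_sum e).trans ?_
  rw [← Finset.sum_mul, ← ENNReal.ofReal_sum_of_nonneg fun n _ => wt_nonneg _ _ _ _ _]
  calc ENNReal.ofReal (∑ n ∈ s, wt φ ψ s n y) * ‖γ y‖ₑ ^ 2 ≤ 1 * ‖γ y‖ₑ ^ 2 := by
        gcongr
        exact ENNReal.ofReal_le_one.2 (sum_wt_le φ ψ s y)
    _ = _ := one_mul _

/-- the coefficients -/
noncomputable def aw (φ ψ : ℤ → ℝ) (s : Finset ℤ) (γ : ℝ × ℝ → ℂ) (w : ℝ × ℝ) (n : ℤ) : ℂ :=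
  pc φ ψ s γ n ((φ n, ψ n) + w)

theorem measurable_aw (hγ : Measurable γ) (n : ℤ) :
    Measurable fun w : ℝ × ℝ => aw φ ψ s γ w n := by
  unfold aw
  exact (measurable_pc hγ n).comp (measurable_const.add measurable_id)

theorem integrable_aw (hγ : Integrable γ) {n : ℤ} (hn : n ∈ s) :
    Integrable fun w : ℝ × ℝ => aw φ ψ s γ w n := by
  unfold aw
  exact (integrable_pc hγ hn).comp_add_left _

theorem aw_zero {w : ℝ × ℝ} (hw : 4 < w.1 ^ 2 + w.2 ^ 2) (n : ℤ) : aw φ ψ s γ w n = 0 := by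
  unfold aw pc wt
  rw [ind_of_lt (by simpa using hw)]
  simp

theorem lint_aw (hγ : Measurable γ) :
    ∫⁻ w : ℝ × ℝ, ∑ n ∈ s, ‖aw φ ψ s γ w n‖ₑ ^ 2 ≤ ∫⁻ y, ‖γ y‖ₑ ^ 2 := by
  rw [lintegral_finsetSum _ fun n _ => (measurable_aw hγ n).enorm.pow_const 2]
  have e : ∀ n ∈ s, ∫⁻ w : ℝ × ℝ, ‖aw φ ψ s γ w n‖ₑ ^ 2 = ∫⁻ y, ‖pc φ ψ s γ n y‖ₑ ^ 2 := by
    intro n _
    unfold aw
    exact lintegral_add_left_eq_self (fun y => ‖pc φ ψ s γ n y‖ₑ ^ 2) ((φ n, ψ n) : ℝ × ℝ)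
  rw [Finset.sum_congr rfl e,
    ← lintegral_finsetSum _ fun n _ => (measurable_pc hγ n).enorm.pow_const 2]
  exact lintegral_mono fun y => sum_sq_pc y

/-! ### Superposition -/

theorem measurable_Gs (φ ψ : ℤ → ℝ) (s : Finset ℤ) (a : ℤ → ℂ) : Measurable (Gs φ ψ s a) := by
  unfold Gs
  refine Finset.measurable_fun_sum _ fun n _ => ?_
  exact measurable_const.mul (measurable_u.comp (by fun_prop))

theorem measurable_Gs_aw (hγ : Measurable γ) :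
    Measurable fun z : (ℝ × ℝ) × (ℝ × ℝ) => Gs φ ψ s (aw φ ψ s γ z.1) z.2 := by
  unfold Gs
  refine Finset.measurable_fun_sum _ fun n _ => ?_
  exact ((measurable_aw hγ n).comp measurable_fst).mul (measurable_u.comp (by fun_prop))

theorem chk_eq (hγ : Integrable γ)
    (hs : ∀ y : ℝ × ℝ, (∀ n ∈ s, 4 < (y.1 - φ n) ^ 2 + (y.2 - ψ n) ^ 2) → γ y = 0)
    (x : ℝ × ℝ) : chk γ x =
      ∫ w : ℝ × ℝ, u (-(w.1 * x.1 + w.2 * x.2)) * Gs φ ψ s (aw φ ψ s γ w) x := by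
  have hi : ∀ {F : ℝ × ℝ → ℂ}, Integrable F → Integrable fun y : ℝ × ℝ =>
      u (-(y.1 * x.1 + y.2 * x.2)) * F y := fun hF =>
    hF.bdd_mul (c := 1) (measurable_u.comp (by fun_prop)).aestronglyMeasurable
      (Eventually.of_forall fun x => (norm_u _).le)
  have hj : ∀ n ∈ s, Integrable fun w : ℝ × ℝ => u (-(w.1 * x.1 + w.2 * x.2)) *
      (aw φ ψ s γ w n * u (-(φ n * x.1 + ψ n * x.2))) := fun n hn =>
    hi ((integrable_aw hγ hn).mul_const _)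
  calc chk γ x = ∫ y : ℝ × ℝ, ∑ n ∈ s, u (-(y.1 * x.1 + y.2 * x.2)) * pc φ ψ s γ n y := by
        unfold chk
        refine integral_congr_ae (Eventually.of_forall fun y => ?_)
        simp only
        rw [← Finset.mul_sum, sum_pc hs]
    _ = ∑ n ∈ s, ∫ y : ℝ × ℝ, u (-(y.1 * x.1 + y.2 * x.2)) * pc φ ψ s γ n y :=
        integral_finsetSum _ fun n hn => hi (integrable_pc hγ hn)
    _ = ∑ n ∈ s, ∫ w : ℝ × ℝ, u (-(w.1 * x.1 + w.2 * x.2)) *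
          (aw φ ψ s γ w n * u (-(φ n * x.1 + ψ n * x.2))) := by
        refine Finset.sum_congr rfl fun n _ => ?_
        rw [← integral_add_left_eq_self (fun y : ℝ × ℝ =>
          u (-(y.1 * x.1 + y.2 * x.2)) * pc φ ψ s γ n y) ((φ n, ψ n) : ℝ × ℝ)]
        refine integral_congr_ae (Eventually.of_forall fun w => ?_)
        simp only [Prod.fst_add, Prod.snd_add]
        rw [show -((φ n + w.1) * x.1 + (ψ n + w.2) * x.2) = -(w.1 * x.1 + w.2 * x.2) +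
          -(φ n * x.1 + ψ n * x.2) by ring, u_add]
        unfold aw
        ring
    _ = _ := by
        rw [← integral_finsetSum _ hj]
        refine integral_congr_ae (Eventually.of_forall fun w => ?_)
        simp only
        unfold Gs
        rw [← Finset.mul_sum]

theorem integrable_sq {χ : ℝ × ℝ → ℂ} {K : ℝ≥0} (hχ : Measurable χ)
    (h0 : ∀ x, x ∉ QQ → χ x = 0) (hK : ∀ x, ‖χ x‖ₑ ≤ K) : Integrable χ := by
  refine ⟨hχ.aestronglyMeasurable, ?_⟩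
  unfold HasFiniteIntegral
  have hQ : MeasurableSet QQ := measurableSet_Icc.prod measurableSet_Icc
  calc ∫⁻ x, ‖χ x‖ₑ ≤ ∫⁻ x, QQ.indicator (fun _ => (K : ℝ≥0∞)) x := by
        refine lintegral_mono fun x => ?_
        by_cases hx : x ∈ QQ
        · rw [indicator_of_mem hx]
          exact hK x
        · rw [indicator_of_notMem hx, h0 x hx, enorm_zero]
    _ = K := by rw [lintegral_indicator hQ, setLIntegral_const, vol_QQ, mul_one]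
    _ < ⊤ := ENNReal.coe_lt_top

theorem super {χ : ℝ × ℝ → ℂ} (hχ : Integrable χ) (hγ : Integrable γ)
    (hs : ∀ y : ℝ × ℝ, (∀ n ∈ s, 4 < (y.1 - φ n) ^ 2 + (y.2 - ψ n) ^ 2) → γ y = 0)
    (ξ : ℝ × ℝ × ℝ) : E (fun x => χ x * chk γ x) ξ =
      ∫ w : ℝ × ℝ, E (fun x => χ x * Gs φ ψ s (aw φ ψ s γ w) x)
        (ξ.1 - w.1, ξ.2.1 - w.2, ξ.2.2) := by
  have hint : Integrable (Function.uncurry fun (x w : ℝ × ℝ) =>
      ∑ n ∈ s, u (ξ.1 * x.1 + (ξ.2.1 * x.2 + ξ.2.2 * (x.1 ^ 2 + x.2 ^ 2)) +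
        -(w.1 * x.1 + w.2 * x.2) + -(φ n * x.1 + ψ n * x.2)) *
          (χ x * aw φ ψ s γ w n)) (volume.prod volume) := by
    have e : (Function.uncurry fun (x w : ℝ × ℝ) =>
      ∑ n ∈ s, u (ξ.1 * x.1 + (ξ.2.1 * x.2 + ξ.2.2 * (x.1 ^ 2 + x.2 ^ 2)) +
        -(w.1 * x.1 + w.2 * x.2) + -(φ n * x.1 + ψ n * x.2)) *
          (χ x * aw φ ψ s γ w n)) = fun z : (ℝ × ℝ) × (ℝ × ℝ) => ∑ n ∈ s,
        u (ξ.1 * z.1.1 + (ξ.2.1 * z.1.2 + ξ.2.2 * (z.1.1 ^ 2 + z.1.2 ^ 2)) +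
        -(z.2.1 * z.1.1 + z.2.2 * z.1.2) + -(φ n * z.1.1 + ψ n * z.1.2)) *
          (χ z.1 * aw φ ψ s γ z.2 n) := by
      funext z
      rfl
    rw [e]
    refine integrable_finsetSum _ fun n hn => ?_
    exact (hχ.mul_prod (integrable_aw hγ hn)).bdd_mul (c := 1)
      (measurable_u.comp (by fun_prop)).aestronglyMeasurable
      (Eventually.of_forall fun x => (norm_u _).le)
  calc E (fun x => χ x * chk γ x) ξ
      = ∫ x : ℝ × ℝ, ∫ w : ℝ × ℝ,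
        ∑ n ∈ s, u (ξ.1 * x.1 + (ξ.2.1 * x.2 + ξ.2.2 * (x.1 ^ 2 + x.2 ^ 2)) +
        -(w.1 * x.1 + w.2 * x.2) + -(φ n * x.1 + ψ n * x.2)) *
          (χ x * aw φ ψ s γ w n) := by
        unfold E
        refine integral_congr_ae (Eventually.of_forall fun x => ?_)
        simp only
        rw [chk_eq hγ hs x, ← integral_const_mul, ← integral_const_mul]
        refine integral_congr_ae (Eventually.of_forall fun w => ?_)
        simp only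
        unfold Gs
        rw [Finset.mul_sum, Finset.mul_sum, Finset.mul_sum]
        refine Finset.sum_congr rfl fun n _ => ?_
        rw [u_add _ (-(φ n * x.1 + ψ n * x.2)), u_add _ (-(w.1 * x.1 + w.2 * x.2))]
        ring
    _ = ∫ w : ℝ × ℝ, ∫ x : ℝ × ℝ,
        ∑ n ∈ s, u (ξ.1 * x.1 + (ξ.2.1 * x.2 + ξ.2.2 * (x.1 ^ 2 + x.2 ^ 2)) +
        -(w.1 * x.1 + w.2 * x.2) + -(φ n * x.1 + ψ n * x.2)) *
          (χ x * aw φ ψ s γ w n) := integral_integral_swap hint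
    _ = _ := by
        refine integral_congr_ae (Eventually.of_forall fun w => ?_)
        simp only
        unfold E
        refine integral_congr_ae (Eventually.of_forall fun x => ?_)
        simp only
        unfold Gs
        rw [Finset.mul_sum, Finset.mul_sum]
        refine Finset.sum_congr rfl fun n _ => ?_
        rw [show (ξ.1 - w.1) * x.1 + ((ξ.2.1 - w.2) * x.2 + ξ.2.2 * (x.1 ^ 2 + x.2 ^ 2)) =
          ξ.1 * x.1 + (ξ.2.1 * x.2 + ξ.2.2 * (x.1 ^ 2 + x.2 ^ 2)) +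
          -(w.1 * x.1 + w.2 * x.2) by ring, u_add _ (-(φ n * x.1 + ψ n * x.2))]
        ring

theorem measurable_chk (hγ : Measurable γ) : Measurable (chk γ) := by
  unfold chk
  have hm : Measurable fun z : (ℝ × ℝ) × (ℝ × ℝ) =>
      u (-(z.2.1 * z.1.1 + z.2.2 * z.1.2)) * γ z.2 :=
    (measurable_u.comp (by fun_prop)).mul (hγ.comp measurable_snd)
  exact hm.stronglyMeasurable.integral_prod_right'.measurable

theorem measurable_H {χ : ℝ × ℝ → ℂ} (hχ : Measurable χ) (hγ : Measurable γ) :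
    Measurable fun z : (ℝ × ℝ × ℝ) × (ℝ × ℝ) =>
      E (fun x => χ x * Gs φ ψ s (aw φ ψ s γ z.2) x) z.1 := by
  unfold E
  have hm : Measurable fun z : ((ℝ × ℝ × ℝ) × (ℝ × ℝ)) × (ℝ × ℝ) =>
      u (z.1.1.1 * z.2.1 + (z.1.1.2.1 * z.2.2 + z.1.1.2.2 * (z.2.1 ^ 2 + z.2.2 ^ 2))) *
        (χ z.2 * Gs φ ψ s (aw φ ψ s γ z.1.2) z.2) := by
    have m0 := measurable_Gs_aw (φ := φ) (ψ := ψ) (s := s) hγ
    have mp : Measurable fun z : ((ℝ × ℝ × ℝ) × (ℝ × ℝ)) × (ℝ × ℝ) => (z.1.2, z.2) :=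
      (measurable_snd.comp measurable_fst).prodMk measurable_snd
    have m1 : Measurable fun z : ((ℝ × ℝ × ℝ) × (ℝ × ℝ)) × (ℝ × ℝ) =>
        Gs φ ψ s (aw φ ψ s γ z.1.2) z.2 := by
      have h := m0.comp mp
      simp only [Function.comp_def] at h
      exact h
    have m2 : Measurable fun z : ((ℝ × ℝ × ℝ) × (ℝ × ℝ)) × (ℝ × ℝ) => χ z.2 :=
      hχ.comp measurable_snd
    have m3 : Measurable fun z : ((ℝ × ℝ × ℝ) × (ℝ × ℝ)) × (ℝ × ℝ) =>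
        u (z.1.1.1 * z.2.1 + (z.1.1.2.1 * z.2.2 + z.1.1.2.2 * (z.2.1 ^ 2 + z.2.2 ^ 2))) :=
      measurable_u.comp (by fun_prop)
    exact m3.mul (m2.mul m1)
  exact hm.stronglyMeasurable.integral_prod_right'.measurable

/-! ### Bounds -/

theorem E_bdd (g : ℝ × ℝ → ℂ) : ∃ B : ℝ≥0∞, B ≠ ⊤ ∧ ∀ ξ, ‖E g ξ‖ₑ ≤ B := by
  by_cases hg : Integrable g
  · exact ⟨∫⁻ x, ‖g x‖ₑ, hg.2.ne, Pool.Agent.H27.Fib.enorm_E_le g⟩
  · refine ⟨0, ENNReal.zero_ne_top, fun ξ => ?_⟩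
    have h0 : E g ξ = 0 := by
      unfold E
      refine integral_undef fun h => hg ?_
      have h1 : Integrable fun x : ℝ × ℝ =>
          u (-(ξ.1 * x.1 + (ξ.2.1 * x.2 + ξ.2.2 * (x.1 ^ 2 + x.2 ^ 2)))) *
          (u (ξ.1 * x.1 + (ξ.2.1 * x.2 + ξ.2.2 * (x.1 ^ 2 + x.2 ^ 2))) * g x) :=
        h.bdd_mul (c := 1) (measurable_u.comp (by fun_prop)).aestronglyMeasurable
          (Eventually.of_forall fun x => (norm_u _).le)
      refine h1.congr (Eventually.of_forall fun x => ?_)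
      simp only
      rw [← mul_assoc, ← u_add, neg_add_cancel, u_zero, one_mul]
    rw [h0, enorm_zero]

theorem rt_sq (y : ℝ≥0∞) : (y ^ (1 / 2 : ℝ)) ^ 2 = y := by
  rw [← ENNReal.rpow_natCast _ 2, ← ENNReal.rpow_mul]
  norm_num

theorem lint_b (hγ : Measurable γ) (C : ℝ≥0) :
    ∫⁻ w : ℝ × ℝ, (C * ∑ n ∈ s, ‖aw φ ψ s γ w n‖ₑ ^ 2) ^ (1 / 2 : ℝ) ≤
      (NNReal.sqrt (16 * C) : ℝ≥0∞) * eLpNorm γ 2 volume := by
  set b : ℝ × ℝ → ℝ≥0∞ := fun w => (C * ∑ n ∈ s, ‖aw φ ψ s γ w n‖ₑ ^ 2) ^ (1 / 2 : ℝ) with hb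
  set S : Set (ℝ × ℝ) := Icc (-2 : ℝ) 2 ×ˢ Icc (-2 : ℝ) 2 with hS
  have hSm : MeasurableSet S := measurableSet_Icc.prod measurableSet_Icc
  have hvS : volume S = 16 := by
    rw [hS, Measure.volume_eq_prod, Measure.prod_prod, Real.volume_Icc]
    rw [← ENNReal.ofReal_mul (by norm_num)]
    norm_num
  have hbm : Measurable b := by
    refine (measurable_const.mul ?_).pow_const _
    exact Finset.measurable_fun_sum _ fun n _ => (measurable_aw hγ n).enorm.pow_const 2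
  have hb0 : ∀ w, w ∉ S → b w = 0 := by
    intro w hw
    have hw4 : 4 < w.1 ^ 2 + w.2 ^ 2 := by
      by_contra h
      push Not at h
      refine hw (mk_mem_prod ?_ ?_)
      · exact abs_le.1 (abs_le_of_sq_le_sq (by nlinarith [sq_nonneg w.2]) (by norm_num))
      · exact abs_le.1 (abs_le_of_sq_le_sq (by nlinarith [sq_nonneg w.1]) (by norm_num))
    simp only [hb, aw_zero hw4]
    simp
  have hb2 : ∀ w, b w ^ 2 = C * ∑ n ∈ s, ‖aw φ ψ s γ w n‖ₑ ^ 2 := fun w => rt_sq _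
  have e1 : ∫⁻ w, b w = ∫⁻ w, S.indicator (fun _ => (1 : ℝ≥0∞)) w * b w := by
    refine lintegral_congr fun w => ?_
    by_cases hw : w ∈ S
    · rw [indicator_of_mem hw, one_mul]
    · rw [hb0 w hw, mul_zero]
  have e2 : ∫⁻ w, S.indicator (fun _ => (1 : ℝ≥0∞)) w ^ 2 = 16 := by
    have : ∀ w, S.indicator (fun _ => (1 : ℝ≥0∞)) w ^ 2 = S.indicator (fun _ => (1 : ℝ≥0∞)) w := by
      intro w
      by_cases hw : w ∈ S
      · rw [indicator_of_mem hw, one_pow]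
      · rw [indicator_of_notMem hw, zero_pow two_ne_zero]
    simp only [this]
    rw [lintegral_indicator hSm, setLIntegral_const, hvS, one_mul]
  have h1 : (∫⁻ w, b w) ^ 2 ≤ ((NNReal.sqrt (16 * C) : ℝ≥0∞) * eLpNorm γ 2 volume) ^ 2 := by
    rw [e1]
    refine (cs (measurable_const.indicator hSm).aemeasurable hbm.aemeasurable).trans ?_
    rw [e2, mul_pow, ← lin_2]
    have e3 : (NNReal.sqrt (16 * C) : ℝ≥0∞) ^ 2 = 16 * C := by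
      rw [← ENNReal.coe_pow, NNReal.sq_sqrt]
      push_cast
      ring
    rw [e3, mul_assoc]
    simp only [hb2]
    rw [lintegral_const_mul' _ _ ENNReal.coe_ne_top]
    exact mul_le_mul' le_rfl (mul_le_mul' le_rfl (lint_aw hγ))
  exact (ENNReal.pow_le_pow_left_iff two_ne_zero).1 h1

theorem main {r : ℝ} (hr : 1 < r) {χ : ℝ × ℝ → ℂ} {K : ℝ≥0} (hW : Wi K χ)
    (h0 : ∀ x, x ∉ QQ → χ x = 0) (hγm : Measurable γ) (hγ : Integrable γ)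
    (hs : ∀ y : ℝ × ℝ, (∀ n ∈ s, 4 < (y.1 - φ n) ^ 2 + (y.2 - ψ n) ^ 2) → γ y = 0)
    (C : ℝ≥0) (M : ℝ≥0∞) {A : ℝ × ℝ × ℝ → ℂ} (hA : Measurable A) {BA : ℝ≥0∞} (hBA : BA ≠ ⊤)
    (hAb : ∀ ξ, ‖A ξ‖ₑ ≤ BA)
    (h : ∀ w : ℝ × ℝ, eLpNorm (fun ξ : ℝ × ℝ × ℝ => A (ξ.1 + w.1, ξ.2.1 + w.2, ξ.2.2) *
      E (fun x => χ x * Gs φ ψ s (aw φ ψ s γ w) x) ξ) (ENNReal.ofReal r) volume ≤
        M * (C * ∑ n ∈ s, ‖aw φ ψ s γ w n‖ₑ ^ 2) ^ (1 / 2 : ℝ)) :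
    eLpNorm (fun ξ => A ξ * E (fun x => χ x * chk γ x) ξ) (ENNReal.ofReal r) volume ≤
      M * ((NNReal.sqrt (16 * C) : ℝ≥0∞) * eLpNorm γ 2 volume) := by
  have hr0 : 0 < r := by linarith
  have hχm : Measurable χ := (wi_cont hW).measurable
  have hχi : Integrable χ := integrable_sq hχm h0 (wi_le hW)
  obtain ⟨B1, hB1, hB1'⟩ := E_bdd (fun x => χ x * chk γ x)
  set H : (ℝ × ℝ × ℝ) × (ℝ × ℝ) → ℂ := fun z =>
    E (fun x => χ x * Gs φ ψ s (aw φ ψ s γ z.2) x) z.1 with hH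
  have hHm : Measurable H := measurable_H hχm hγm
  have hbm : Measurable fun w : ℝ × ℝ =>
      (C * ∑ n ∈ s, ‖aw φ ψ s γ w n‖ₑ ^ 2 : ℝ≥0∞) ^ (1 / 2 : ℝ) := by
    refine (measurable_const.mul ?_).pow_const _
    exact Finset.measurable_fun_sum _ fun n _ => (measurable_aw hγm n).enorm.pow_const 2
  refine eLpNorm_le_of_lin hr0 ?_
  have hF : Measurable (Function.uncurry fun (ξ : ℝ × ℝ × ℝ) (w : ℝ × ℝ) =>
      ‖A ξ‖ₑ * ‖H ((ξ.1 - w.1, ξ.2.1 - w.2, ξ.2.2), w)‖ₑ) := by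
    have e : (Function.uncurry fun (ξ : ℝ × ℝ × ℝ) (w : ℝ × ℝ) =>
      ‖A ξ‖ₑ * ‖H ((ξ.1 - w.1, ξ.2.1 - w.2, ξ.2.2), w)‖ₑ) =
      fun z : (ℝ × ℝ × ℝ) × (ℝ × ℝ) => ‖A z.1‖ₑ *
        ‖H ((z.1.1 - z.2.1, z.1.2.1 - z.2.2, z.1.2.2), z.2)‖ₑ := by
      funext z
      rfl
    rw [e]
    exact (hA.comp measurable_fst).enorm.mul (hHm.comp (by fun_prop)).enorm
  have hΦ : Measurable fun ξ : ℝ × ℝ × ℝ => ‖A ξ‖ₑ * ‖E (fun x => χ x * chk γ x) ξ‖ₑ :=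
    hA.enorm.mul (measurable_E (hχm.mul (measurable_chk hγm))).enorm
  have hle : ∀ ξ : ℝ × ℝ × ℝ, ‖A ξ‖ₑ * ‖E (fun x => χ x * chk γ x) ξ‖ₑ ≤
      ∫⁻ w : ℝ × ℝ, ‖A ξ‖ₑ * ‖H ((ξ.1 - w.1, ξ.2.1 - w.2, ξ.2.2), w)‖ₑ := by
    intro ξ
    rw [lintegral_const_mul' _ _ enorm_ne_top, super hχi hγ hs ξ]
    gcongr
    exact enorm_integral_le_lintegral_enorm _
  have hmk := Pool.Agent.H27.Fib.mink (μ := (volume : Measure (ℝ × ℝ × ℝ)))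
    (ν := (volume : Measure (ℝ × ℝ))) hr hF hΦ hle (ENNReal.mul_ne_top hBA hB1)
    (fun ξ => mul_le_mul' (hAb ξ) (hB1' ξ))
  have hslice : ∀ w : ℝ × ℝ, (∫⁻ ξ : ℝ × ℝ × ℝ,
      (‖A ξ‖ₑ * ‖H ((ξ.1 - w.1, ξ.2.1 - w.2, ξ.2.2), w)‖ₑ) ^ r) ^ (1 / r) ≤
        M * (C * ∑ n ∈ s, ‖aw φ ψ s γ w n‖ₑ ^ 2) ^ (1 / 2 : ℝ) := by
    intro w
    refine le_trans (le_of_eq ?_) (h w)
    have : (volume : Measure (ℝ × ℝ × ℝ)).IsAddRightInvariant := by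
      rw [Measure.volume_eq_prod (α := ℝ) (β := ℝ × ℝ)]
      infer_instance
    have h3 := lintegral_add_right_eq_self (μ := (volume : Measure (ℝ × ℝ × ℝ)))
      (fun ξ : ℝ × ℝ × ℝ =>
      (‖A ξ‖ₑ * ‖H ((ξ.1 - w.1, ξ.2.1 - w.2, ξ.2.2), w)‖ₑ) ^ r) (w.1, w.2, 0)
    rw [← h3]
    have h4 : ∫⁻ ξ : ℝ × ℝ × ℝ, ‖A (ξ.1 + w.1, ξ.2.1 + w.2, ξ.2.2) *
      E (fun x => χ x * Gs φ ψ s (aw φ ψ s γ w) x) ξ‖ₑ ^ r = _ := lin_q hr0
    have h5 : ∀ ξ : ℝ × ℝ × ℝ, (‖A (ξ + (w.1, w.2, 0))‖ₑ *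
        ‖H (((ξ + (w.1, w.2, 0)).1 - w.1, (ξ + (w.1, w.2, 0)).2.1 - w.2,
          (ξ + (w.1, w.2, 0)).2.2), w)‖ₑ) ^ r =
        ‖A (ξ.1 + w.1, ξ.2.1 + w.2, ξ.2.2) *
          E (fun x => χ x * Gs φ ψ s (aw φ ψ s γ w) x) ξ‖ₑ ^ r := by
      intro ξ
      rw [enorm_mul]
      have e1 : ξ + (w.1, w.2, 0) = (ξ.1 + w.1, ξ.2.1 + w.2, ξ.2.2) := by
        ext <;> simp
      rw [e1]
      simp only [hH, add_sub_cancel_right]
    simp only [h5]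
    rw [h4, ← ENNReal.rpow_mul, mul_one_div_cancel hr0.ne', ENNReal.rpow_one]
  calc ∫⁻ ξ, ‖A ξ * E (fun x => χ x * chk γ x) ξ‖ₑ ^ r
      = ∫⁻ ξ, (‖A ξ‖ₑ * ‖E (fun x => χ x * chk γ x) ξ‖ₑ) ^ r := by
        refine lintegral_congr fun ξ => ?_
        rw [enorm_mul]
    _ ≤ _ := hmk
    _ ≤ (∫⁻ w : ℝ × ℝ, M * (C * ∑ n ∈ s, ‖aw φ ψ s γ w n‖ₑ ^ 2) ^ (1 / 2 : ℝ)) ^ r := by
        gcongr with w
        exact hslice w
    _ ≤ _ := by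
        rw [lintegral_const_mul _ hbm]
        gcongr
        exact lint_b hγm C

theorem shift (f : ℝ × ℝ → ℂ) (w : ℝ × ℝ) (ξ : ℝ × ℝ × ℝ) :
    E f (ξ.1 + w.1, ξ.2.1 + w.2, ξ.2.2) =
      E (fun x => u (w.1 * x.1 + w.2 * x.2) * f x) ξ := by
  unfold E
  refine integral_congr_ae (Eventually.of_forall fun x => ?_)
  simp only
  rw [show (ξ.1 + w.1) * x.1 + ((ξ.2.1 + w.2) * x.2 + ξ.2.2 * (x.1 ^ 2 + x.2 ^ 2)) =
    ξ.1 * x.1 + (ξ.2.1 * x.2 + ξ.2.2 * (x.1 ^ 2 + x.2 ^ 2)) + (w.1 * x.1 + w.2 * x.2) by ring,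
    u_add]
  ring

theorem sq_shift {f : ℝ × ℝ → ℂ} (hf : Sq f) (w : ℝ × ℝ) :
    Sq fun x => u (w.1 * x.1 + w.2 * x.2) * f x :=
  ⟨(measurable_u.comp (by fun_prop)).mul hf.1, fun x hx => by simp only [hf.2 x hx, mul_zero]⟩

theorem nb_of {a : ℤ → ℂ} {f : ℝ × ℝ → ℂ} {C : ℝ≥0}
    (hC : ∀ a : ℤ → ℂ, ∫⁻ x in QQ, ‖Gs φ ψ s a x‖ₑ ^ 2 ≤ C * ∑ n ∈ s, ‖a n‖ₑ ^ 2)
    (h0 : ∀ x, x ∉ QQ → f x = 0) (hf1 : ∀ x, ‖f x‖ ≤ 1) :
    NB φ ψ s a f (((C * ∑ n ∈ s, ‖a n‖ₑ ^ 2 : ℝ≥0∞) ^ (1 / 2 : ℝ)) ^ 2) := by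
  intro v
  rw [rt_sq]
  have hQ : MeasurableSet QQ := measurableSet_Icc.prod measurableSet_Icc
  have e1 : ∀ x, Gv φ ψ s a v x = Gs φ ψ s (fun n => a n * u (-(n * v))) x := fun x => rfl
  have e2 : ∑ n ∈ s, ‖a n * u (-(n * v))‖ₑ ^ 2 = ∑ n ∈ s, ‖a n‖ₑ ^ 2 := by
    refine Finset.sum_congr rfl fun n _ => ?_
    rw [enorm_mul, enorm_u, mul_one]
  calc ∫⁻ x : ℝ × ℝ, ‖f x‖ₑ ^ 2 * ‖Gv φ ψ s a v x‖ₑ ^ 2
      ≤ ∫⁻ x, QQ.indicator (fun x => ‖Gv φ ψ s a v x‖ₑ ^ 2) x := by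
        refine lintegral_mono fun x => ?_
        by_cases hx : x ∈ QQ
        · rw [indicator_of_mem hx]
          have h1 : ‖f x‖ₑ ≤ 1 := by
            rw [← ofReal_norm]
            exact ENNReal.ofReal_le_one.2 (hf1 x)
          calc ‖f x‖ₑ ^ 2 * ‖Gv φ ψ s a v x‖ₑ ^ 2 ≤ 1 ^ 2 * ‖Gv φ ψ s a v x‖ₑ ^ 2 := by
                gcongr
            _ = _ := by rw [one_pow, one_mul]
        · rw [indicator_of_notMem hx, h0 x hx]
          simp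
    _ = ∫⁻ x in QQ, ‖Gs φ ψ s (fun n => a n * u (-(n * v))) x‖ₑ ^ 2 := by
        rw [lintegral_indicator hQ]
        simp only [e1]
    _ ≤ C * ∑ n ∈ s, ‖a n‖ₑ ^ 2 := (hC _).trans_eq (by rw [e2])

end THK_

open THK_ in
theorem p_THK (h1 : T_ASM) (h2 : T_SQB) : T_THK := by
  intro q hq hq4
  obtain ⟨C1, hC1⟩ := h1 q hq hq4
  obtain ⟨C2, hC2⟩ := h2
  refine ⟨C1 * NNReal.sqrt (16 * C2), ?_⟩
  intro m φ ψ α β χ γ K hm hSep hAnn hW h0 hγm hγ hs f hf hf1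
  have hfw1 : ∀ w x : ℝ × ℝ, ‖u (w.1 * x.1 + w.2 * x.2) * f x‖ ≤ 1 := by
    intro w x
    rw [norm_mul, norm_u, one_mul]
    exact hf1 x
  have key := fun w : ℝ × ℝ => hC1 m φ ψ α β (aw φ ψ (Finset.Ico α β) γ w) χ K hm hSep hAnn hW h0
    (fun x => u (w.1 * x.1 + w.2 * x.2) * f x) _ (sq_shift hf w)
    (nb_of (fun a => hC2 φ ψ (Finset.Ico α β) a hSep) (sq_shift hf w).2 (hfw1 w))
  obtain ⟨Bf, hBf, hBf'⟩ := E_bdd f
  constructor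
  · have hmain := main (r := q / 2) (by linarith) hW h0 hγm hγ hs C2
      (C1 * K * NNReal.sqrt m) (measurable_E hf.1) hBf hBf' (fun w => by
        simp only [shift]
        exact (key w).1)
    refine hmain.trans (le_of_eq ?_)
    push_cast
    ring
  · intro g hg
    obtain ⟨Bg, hBg, hBg'⟩ := E_bdd g
    have hmain := main (r := q / 3) (by linarith) hW h0 hγm hγ hs C2
      (C1 * K * NNReal.sqrt m * eLpNorm g 2 volume) (A := fun ξ => E f ξ * E g ξ)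
      ((measurable_E hf.1).mul (measurable_E hg.1)) (ENNReal.mul_ne_top hBf hBg)
      (fun ξ => by
        rw [enorm_mul]
        exact mul_le_mul' (hBf' ξ) (hBg' ξ)) (fun w => by
        simp only [shift]
        have h3 := (key w).2 (fun x => u (w.1 * x.1 + w.2 * x.2) * g x) (sq_shift hg w)
        have h4 : eLpNorm (fun x : ℝ × ℝ => u (w.1 * x.1 + w.2 * x.2) * g x) 2 volume =
            eLpNorm g 2 volume := by
          refine eLpNorm_congr_norm_ae (Eventually.of_forall fun x => ?_)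
          rw [norm_mul, norm_u, one_mul]
        rw [h4] at h3
        refine h3.trans (le_of_eq ?_)
        ring)
    refine hmain.trans (le_of_eq ?_)
    push_cast
    ring

end Wex
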