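import Pool.Agent.Wex.Targets2
import Pool.Agent.Wex.THK

/-!
# MP_5ab805_an, block THK2: functions with spectrum near a separated sequence, second form
(helper84, after THK by helper95)
-/

set_option autoImplicit false

namespace Wex

open MeasureTheory Set Filter
open scoped ENNReal NNReal Topology
open Pool.Agent.Restr (u E QQ norm_u measurable_u measurable_E)
open TriL (Sq n2)
open Wey (nq lam hat gup gdn blk Tk Sl Wi)

open THK_ in
theorem p_THK2 (h1 : T_ASM2) (h2 : T_SQB) : T_THK2 := by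
  intro ρ κ μ ν hpar
  obtain ⟨C1, hC1⟩ := h1 ρ κ μ ν hpar
  obtain ⟨C2, hC2⟩ := h2
  have hρ : 1 < ρ := by
    have := hpar.1.1
    linarith
  have hμ : 1 < μ := hpar.2.1
  refine ⟨C1 * NNReal.sqrt (16 * C2), ?_⟩
  intro m φ ψ α β χ γ K hm hSep hAnn hW h0 hγm hγ hs f hf hf1
  have hfw1 : ∀ w x : ℝ × ℝ, ‖u (w.1 * x.1 + w.2 * x.2) * f x‖ ≤ 1 := by
    intro w x
    rw [norm_mul, norm_u, one_mul]
    exact hf1 x
  have key := fun w : ℝ × ℝ => hC1 m φ ψ α β (aw φ ψ (Finset.Ico α β) γ w) χ K hm hSep hAnn hW h0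
    (fun x => u (w.1 * x.1 + w.2 * x.2) * f x) _ (sq_shift hf w)
    (nb_of (fun a => hC2 φ ψ (Finset.Ico α β) a hSep) (sq_shift hf w).2 (hfw1 w))
  obtain ⟨Bf, hBf, hBf'⟩ := E_bdd f
  constructor
  · have hmain := main (r := ρ) hρ hW h0 hγm hγ hs C2
      (C1 * K * pw m (κ / ρ)) (measurable_E hf.1) hBf hBf' (fun w => by
        simp only [shift]
        exact (key w).1)
    refine hmain.trans (le_of_eq ?_)
    push_cast
    ring
  · intro g hg
    obtain ⟨Bg, hBg, hBg'⟩ := E_bdd g
    have hmain := main (r := μ) hμ hW h0 hγm hγ hs C2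
      (C1 * K * pw m (ν / μ) * eLpNorm g 2 volume) (A := fun ξ => E f ξ * E g ξ)
      ((measurable_E hf.1).mul (measurable_E hg.1)) (ENNReal.mul_ne_top hBf hBg)
      (fun ξ => by
        rw [enorm_mul]
        exact mul_le_mul' (hBf' ξ) (hBg' ξ)) (fun w => by
        simp only [shift]
        have h3 := (key w).2 (fun x => u (w.1 * x.1 + w.2 * x.2) * g x) (sq_shift hg w)
        have h4 : eLpNorm (fun x : ℝ × ℝ => u (w.1 * x.1 + w.2 * x.2) * g x) 2 volume =
            eLpNorm g 2 volume := by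
          refine eLpNorm_congr_norm_ae (Eventually.of_forall fun x => ?_)
          rw [norm_mul, norm_u, one_mul]
        rw [h4] at h3
        refine h3.trans (le_of_eq ?_)
        ring)
    refine hmain.trans (le_of_eq ?_)
    push_cast
    ring

end Wex
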