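import Pool.Agent.Wex.Targets2

/-!
# MP_5ab805_an, project WEX part 2, block VCD

Discs in the plane have at most `(n+1)^4` traces on `n` points (Sauer-Shelah).
-/

set_option autoImplicit false

namespace Wex

namespace VCD_

/-- the lift of the plane to `ℝ⁴` -/
def lift (x : ℝ × ℝ) : Fin 4 → ℝ := ![1, x.1, x.2, x.1 ^ 2 + x.2 ^ 2]

lemma lift_inj : Function.Injective lift := by
  intro x y h
  have h1 := congrFun h 1
  have h2 := congrFun h 2
  simp only [lift, Matrix.cons_val_one, Matrix.cons_val_zero, Matrix.cons_val] at h1 h2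
  exact Prod.ext h1 h2

/-- five points of the plane satisfy a nontrivial relation -/
lemma dep (s : Finset (ℝ × ℝ)) (hs : 4 < s.card) :
    ∃ f : ℝ × ℝ → ℝ, (∃ x ∈ s, f x ≠ 0) ∧ ∑ x ∈ s, f x = 0 ∧ ∑ x ∈ s, f x * x.1 = 0 ∧
      ∑ x ∈ s, f x * x.2 = 0 ∧ ∑ x ∈ s, f x * (x.1 ^ 2 + x.2 ^ 2) = 0 := by
  classical
  have hc : Module.finrank ℝ (Fin 4 → ℝ) < (s.image lift).card := by
    rw [Finset.card_image_of_injective _ lift_inj]
    simpa using hs
  obtain ⟨g, hg, e, he, hge⟩ := Module.exists_nontrivial_relation_of_finrank_lt_card hc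
  rw [Finset.sum_image (fun x _ y _ h => lift_inj h)] at hg
  obtain ⟨x, hx, rfl⟩ := Finset.mem_image.1 he
  have hk : ∀ i : Fin 4, ∑ x ∈ s, g (lift x) * lift x i = 0 := by
    intro i
    have := congrFun hg i
    simpa [Finset.sum_apply] using this
  refine ⟨fun x => g (lift x), ⟨x, hx, hge⟩, ?_, ?_, ?_, ?_⟩
  · simpa [lift] using hk 0
  · simpa [lift] using hk 1
  · simpa [lift] using hk 2
  · simpa [lift] using hk 3

open Classical in
/-- the traces of discs on `X` -/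
noncomputable def tr (X : Finset (ℝ × ℝ)) : Finset (Finset (ℝ × ℝ)) :=
  X.powerset.filter fun t => ∃ ρ, ∀ x ∈ X, (dm ρ x ↔ x ∈ t)

lemma mem_tr (X t : Finset (ℝ × ℝ)) :
    t ∈ tr X ↔ t ⊆ X ∧ ∃ ρ, ∀ x ∈ X, (dm ρ x ↔ x ∈ t) := by
  classical
  simp [tr]

lemma shat_card (X s : Finset (ℝ × ℝ)) (hs : (tr X).Shatters s) : s ⊆ X ∧ s.card ≤ 4 := by
  classical
  have hsX : s ⊆ X := by
    obtain ⟨t, ht, hst⟩ := hs.exists_superset
    exact hst.trans ((mem_tr X t).1 ht).1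
  refine ⟨hsX, ?_⟩
  by_contra hcon
  push Not at hcon
  obtain ⟨f, ⟨x0, hx0, hfx0⟩, h0, h1, h2, h3⟩ := dep s hcon
  obtain ⟨u, hu, hut⟩ := hs (Finset.filter_subset (fun x => 0 < f x) s)
  obtain ⟨huX, ρ, hρ⟩ := (mem_tr X u).1 hu
  have hdm : ∀ x ∈ s, (dm ρ x ↔ 0 < f x) := by
    intro x hx
    rw [hρ x (hsX hx)]
    constructor
    · intro h
      have : x ∈ s ∩ u := Finset.mem_inter.2 ⟨hx, h⟩
      rw [hut] at this
      exact (Finset.mem_filter.1 this).2
    · intro h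
      have : x ∈ s ∩ u := by
        rw [hut]
        exact Finset.mem_filter.2 ⟨hx, h⟩
      exact (Finset.mem_inter.1 this).2
  have hneg : ∃ x ∈ s, f x < 0 := by
    by_contra hno
    push Not at hno
    exact hfx0 ((Finset.sum_eq_zero_iff_of_nonneg hno).1 h0 x0 hx0)
  have hL : ∑ x ∈ s, f x * (ρ.2 - d2 x ρ.1) = 0 := by
    have e : ∀ x ∈ s, f x * (ρ.2 - d2 x ρ.1) =
        (ρ.2 - ρ.1.1 ^ 2 - ρ.1.2 ^ 2) * f x + 2 * ρ.1.1 * (f x * x.1) + 2 * ρ.1.2 * (f x * x.2) -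
          f x * (x.1 ^ 2 + x.2 ^ 2) := by
      intro x _
      unfold d2
      ring
    rw [Finset.sum_congr rfl e, Finset.sum_sub_distrib, Finset.sum_add_distrib,
      Finset.sum_add_distrib, ← Finset.mul_sum, ← Finset.mul_sum, ← Finset.mul_sum, h0, h1, h2, h3]
    ring
  have hpos : 0 < ∑ x ∈ s, f x * (ρ.2 - d2 x ρ.1) := by
    obtain ⟨y, hy, hfy⟩ := hneg
    refine Finset.sum_pos' ?_ ⟨y, hy, ?_⟩
    · intro x hx
      by_cases hfx : 0 < f x
      · have := (hdm x hx).2 hfx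
        unfold dm at this
        exact mul_nonneg hfx.le (by linarith)
      · have : ¬ dm ρ x := fun h => hfx ((hdm x hx).1 h)
        unfold dm at this
        push Not at this
        exact mul_nonneg_of_nonpos_of_nonpos (not_lt.1 hfx) (by linarith)
    · have : ¬ dm ρ y := fun h => absurd ((hdm y hy).1 h) (not_lt.2 hfy.le)
      unfold dm at this
      push Not at this
      exact mul_pos_of_neg_of_neg hfy (by linarith)
  exact absurd hL hpos.ne'

lemma choose_sum (n : ℕ) : ∑ i ∈ Finset.range 5, n.choose i ≤ (n + 1) ^ 4 := by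
  have h : ∑ i ∈ Finset.range 5, n.choose i ≤ ∑ i ∈ Finset.range 5, n ^ i :=
    Finset.sum_le_sum fun i _ => Nat.choose_le_pow n i
  refine h.trans ?_
  simp only [Finset.sum_range_succ, Finset.sum_range_zero]
  have : (n + 1) ^ 4 = n ^ 4 + 4 * n ^ 3 + 6 * n ^ 2 + 4 * n + 1 := by ring
  rw [this]
  have e1 : n ^ 0 = 1 := pow_zero n
  have e2 : n ^ 1 = n := pow_one n
  rw [e1, e2]
  nlinarith [Nat.zero_le (n ^ 3), Nat.zero_le (n ^ 2), Nat.zero_le n]

lemma tr_card (X : Finset (ℝ × ℝ)) : (tr X).card ≤ (X.card + 1) ^ 4 := by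
  classical
  refine ((tr X).card_le_card_shatterer).trans ?_
  refine le_trans ?_ (choose_sum X.card)
  have hsub : (tr X).shatterer ⊆ (Finset.range 5).biUnion fun i => X.powersetCard i := by
    intro s hs
    obtain ⟨h1, h2⟩ := shat_card X s (Finset.mem_shatterer.1 hs)
    exact Finset.mem_biUnion.2 ⟨s.card, Finset.mem_range.2 (by omega),
      Finset.mem_powersetCard.2 ⟨h1, rfl⟩⟩
  refine (Finset.card_le_card hsub).trans ((Finset.card_biUnion_le).trans ?_)
  exact Finset.sum_le_sum fun i _ => (Finset.card_powersetCard i X).le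

end VCD_

/-- at most `(n+1)⁴` traces of discs on `n` points -/
theorem p_VCD : T_VCD := by
  classical
  intro X
  have hch : ∀ t : Finset (ℝ × ℝ), ∃ ρ : (ℝ × ℝ) × ℝ,
      t ∈ VCD_.tr X → ∀ x ∈ X, (dm ρ x ↔ x ∈ t) := by
    intro t
    by_cases ht : t ∈ VCD_.tr X
    · obtain ⟨_, ρ, hρ⟩ := (VCD_.mem_tr X t).1 ht
      exact ⟨ρ, fun _ => hρ⟩
    · exact ⟨((0, 0), 0), fun h => absurd h ht⟩
  choose g hg using hch
  refine ⟨(VCD_.tr X).image g, ?_, ?_⟩
  · have h1 : ((VCD_.tr X).image g).card ≤ (X.card + 1) ^ 4 :=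
      Finset.card_image_le.trans (VCD_.tr_card X)
    exact_mod_cast h1
  · intro ρ
    have ht : X.filter (fun x => dm ρ x) ∈ VCD_.tr X :=
      (VCD_.mem_tr X _).2 ⟨Finset.filter_subset _ _, ρ, fun x hx => by simp [hx]⟩
    refine ⟨g _, Finset.mem_image_of_mem g ht, fun x hx => ?_⟩
    rw [hg _ ht x hx]
    simp [hx]

end Wex
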