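import Pool.Agent.Wex.SLB
import Pool.Agent.Wex.SLI
import Pool.Agent.Wex.DYA
import Pool.Agent.Wex.HAT
import Pool.Agent.Wex.GAU
import Pool.Agent.Wex.FAR
import Pool.Agent.Wex.CUT
import Pool.Agent.Wex.SQW
import Pool.Agent.Wex.SQB
import Pool.Agent.Wex.INB
import Pool.Agent.Wex.INT
import Pool.Agent.Wex.ASM2
import Pool.Agent.Wex.THK2
import Pool.Agent.Wex.GRE
import Pool.Agent.Wex.POL
import Pool.Agent.Wex.LIM2
import Pool.Agent.Wex.DGP
import Pool.Agent.Wex.DMI
import Pool.Agent.Wex.DSH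
import Pool.Agent.Wex.VCD
import Pool.Agent.Wex.SHE
import Pool.Agent.Wex.PAT
import Pool.Agent.Wex.RUN
import Pool.Agent.Wex.CRO
import Pool.Agent.Wex.SPA
import Pool.Agent.Wex.LEV
import Pool.Agent.Wex.AMA
import Pool.Agent.Wex.CHI
import Pool.Agent.Wex.FI0
import Pool.Agent.Wex.SHI
import Pool.Agent.Wex.FIN
import Pool.Agent.Wey.All

/-!
# MP_5ab805_an: spectra on curves and time slices, assembly (helper91)
-/

set_option autoImplicit false

namespace Wex

theorem sqb : T_SQB := p_SQB p_GAU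

theorem sqw : T_SQW := p_SQW Wey.p_BEW

theorem cut : T_CUT :=
  p_CUT (p_SLB (p_SLI Wey.p_REP Wey.p_CNV) Wey.p_NEA (p_DYA Wey.p_DEC) p_HAT (p_FAR p_GAU))
    Wey.p_WIE

/-- the weighted theorem for spectra of bounded annular complexity -/
theorem asm2 : T_ASM2 := p_ASM2 cut sqw sqb p_INB p_INT

/-- spectra near a sequence of bounded annular complexity -/
theorem thk2 : T_THK2 := p_THK2 asm2 sqb

/-- spectra in the unit neighbourhood of a polynomial curve -/
theorem lim2 : T_LIM2 := p_LIM2 thk2 p_GRE p_POL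

/-- every finite set has an ordering of small annular complexity -/
theorem cro : T_CRO := p_CRO (p_DSH p_DGP p_DMI) p_VCD p_SHE p_PAT p_RUN

/-- the theorem in the disc, at every time -/
theorem fin : T_FIN := p_FIN (p_FI0 (p_LEV (p_SPA thk2 cro)) p_AMA p_CHI) p_SHI

end Wex
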