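import Pool.Agent.Wex.Targets3

/-!
# MP_5ab805_an, WEX3-AVE: bounded functions with large extension (helper2)

The mean over `θ = 2 π m / J`, `m < J`, is taken with the character `exp(i k θ)`, which isolates
one chirp; this gives the bound without the logarithm, and `T_WUP` is not needed.
-/

set_option autoImplicit false

namespace Wex

open MeasureTheory Set Filter
open scoped ENNReal NNReal Topology
open Pool.Agent.Restr (u E QQ norm_u enorm_u u_add u_zero continuous_u measurable_u measurable_E)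
open TriL (Sq n2)
open Wey (nq lam hat gup gdn blk Tk Sl Wi InD)

namespace AVE_

theorem tent_nonneg (a x : ℝ) : 0 ≤ tent a x := le_max_left _ _

theorem tent_le {a : ℝ} (x : ℝ) (ha : 0 ≤ a) : tent a x ≤ 1 :=
  max_le (by norm_num) (by nlinarith [abs_nonneg x, mul_nonneg ha (abs_nonneg x)])

theorem tent_zero {a x : ℝ} (h : 1 ≤ a * |x|) : tent a x = 0 := max_eq_left (by linarith)

theorem measurable_pyr (a : ℝ) : Measurable (pyr a) := by
  unfold pyr tent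
  fun_prop

theorem measurable_nq : Measurable nq := by
  unfold nq
  fun_prop

theorem measurable_ww : Measurable ww := by
  unfold ww gdn
  exact (Complex.measurable_ofReal.comp
    (Real.measurable_exp.comp measurable_nq.neg)).mul (measurable_pyr 3)

theorem norm_ww_le (x : ℝ × ℝ) : ‖ww x‖ ≤ 1 := by
  unfold ww gdn pyr
  rw [norm_mul, Complex.norm_real, Complex.norm_real, Real.norm_eq_abs, Real.norm_eq_abs,
    abs_of_pos (Real.exp_pos _),
    abs_of_nonneg (mul_nonneg (tent_nonneg _ _) (tent_nonneg _ _))]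
  have h1 : Real.exp (-nq x) ≤ 1 := by
    rw [Real.exp_le_one_iff]
    unfold nq
    nlinarith [sq_nonneg x.1, sq_nonneg x.2]
  have h2 : tent 3 x.1 * tent 3 x.2 ≤ 1 :=
    mul_le_one₀ (tent_le _ (by norm_num)) (tent_nonneg _ _) (tent_le _ (by norm_num))
  exact mul_le_one₀ h1 (mul_nonneg (tent_nonneg _ _) (tent_nonneg _ _)) h2

theorem ww_zero {x : ℝ × ℝ} (h : 1 / 4 < x.1 ^ 2 + x.2 ^ 2) : ww x = 0 := by
  have h3 : tent 3 x.1 = 0 ∨ tent 3 x.2 = 0 := by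
    by_contra hc
    push Not at hc
    have h1 : 3 * |x.1| < 1 := by
      by_contra h'
      exact hc.1 (tent_zero (not_lt.1 h'))
    have h2 : 3 * |x.2| < 1 := by
      by_contra h'
      exact hc.2 (tent_zero (not_lt.1 h'))
    have h4 := sq_abs x.1
    have h5 := sq_abs x.2
    nlinarith [abs_nonneg x.1, abs_nonneg x.2]
  unfold ww gdn pyr
  rcases h3 with h3 | h3 <;> simp [h3]

theorem ww_supp {x : ℝ × ℝ} (h : x ∉ QQ) : ww x = 0 := by
  apply ww_zero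
  unfold QQ at h
  rw [mem_prod, mem_Icc, mem_Icc] at h
  by_contra hc
  push Not at hc
  apply h
  constructor <;> constructor <;> nlinarith [sq_nonneg x.1, sq_nonneg x.2]

theorem integrable_u_ww (ξ : ℝ × ℝ × ℝ) : Integrable (fun x : ℝ × ℝ =>
    u (ξ.1 * x.1 + (ξ.2.1 * x.2 + ξ.2.2 * (x.1 ^ 2 + x.2 ^ 2))) * ww x) := by
  have hm : Measurable (fun x : ℝ × ℝ =>
      u (ξ.1 * x.1 + (ξ.2.1 * x.2 + ξ.2.2 * (x.1 ^ 2 + x.2 ^ 2))) * ww x) :=
    (measurable_u.comp (by fun_prop)).mul measurable_ww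
  have hc : IsCompact QQ := by
    unfold QQ
    exact isCompact_Icc.prod isCompact_Icc
  have h1 : IntegrableOn (fun x : ℝ × ℝ =>
      u (ξ.1 * x.1 + (ξ.2.1 * x.2 + ξ.2.2 * (x.1 ^ 2 + x.2 ^ 2))) * ww x) QQ := by
    refine Measure.integrableOn_of_bounded (M := 1) hc.measure_lt_top.ne
      hm.aestronglyMeasurable (ae_of_all _ fun x => ?_)
    rw [norm_mul, norm_u, one_mul]
    exact norm_ww_le x
  rw [← integrableOn_univ]
  refine h1.of_forall_sdiff_eq_zero MeasurableSet.univ fun x hx => ?_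
  rw [ww_supp hx.2, mul_zero]

/-- a chirp is a time shift -/
theorem E_ff (J : ℕ) (ε : ℕ → ℂ) (θ : ℝ) (ξ : ℝ × ℝ × ℝ) :
    E (ff J ε θ) ξ = ((1 / √(2 * J) : ℝ) : ℂ) * ∑ j ∈ Finset.range J,
      ε j * u (-(j * θ)) * E ww (ξ.1, ξ.2.1, ξ.2.2 - j * J) := by
  have h1 : E (ff J ε θ) ξ = ∫ x : ℝ × ℝ, ∑ j ∈ Finset.range J,
      (((1 / √(2 * J) : ℝ) : ℂ) * (ε j * u (-(j * θ)))) *
        (u (ξ.1 * x.1 + (ξ.2.1 * x.2 + (ξ.2.2 - j * J) * (x.1 ^ 2 + x.2 ^ 2))) * ww x) := by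
    unfold E ff
    refine integral_congr_ae (ae_of_all _ fun x => ?_)
    simp only
    rw [Finset.mul_sum, Finset.sum_mul, Finset.mul_sum]
    refine Finset.sum_congr rfl fun j _ => ?_
    have h2 : u (ξ.1 * x.1 + (ξ.2.1 * x.2 + ξ.2.2 * (x.1 ^ 2 + x.2 ^ 2))) *
        u (-(j * (θ + J * nq x))) =
        u (-(j * θ)) *
          u (ξ.1 * x.1 + (ξ.2.1 * x.2 + (ξ.2.2 - j * J) * (x.1 ^ 2 + x.2 ^ 2))) := by
      rw [← u_add, ← u_add]
      congr 1
      unfold nq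
      ring
    linear_combination ((1 / √(2 * J) : ℝ) : ℂ) * ε j * ww x * h2
  rw [h1, integral_finsetSum]
  · rw [Finset.mul_sum]
    refine Finset.sum_congr rfl fun j _ => ?_
    rw [integral_const_mul]
    unfold E
    simp only
    ring
  · intro j _
    exact (integrable_u_ww (ξ.1, ξ.2.1, ξ.2.2 - j * J)).const_mul _

/-- the geometric sum of the roots of unity -/
theorem sum_u_zero {J : ℕ} {d : ℤ} (hJ : 0 < J) (hd : d ≠ 0) (hd2 : |d| < J) :
    ∑ m ∈ Finset.range J, u (d * (2 * Real.pi * m / J)) = 0 := by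
  have hJ' : (J : ℂ) ≠ 0 := by exact_mod_cast hJ.ne'
  set z : ℂ := u (d * (2 * Real.pi / J)) with hz
  have h1 : ∀ m ∈ Finset.range J, u (d * (2 * Real.pi * m / J)) = z ^ m := by
    intro m _
    rw [hz]
    unfold u
    rw [← Complex.exp_nat_mul]
    congr 1
    push_cast
    ring
  rw [Finset.sum_congr rfl h1]
  have h2 : z ^ J = 1 := by
    rw [hz]
    unfold u
    rw [← Complex.exp_nat_mul, Complex.exp_eq_one_iff]
    refine ⟨-d, ?_⟩
    push_cast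
    field_simp
  have h3 : z ≠ 1 := by
    rw [hz]
    unfold u
    rw [Ne, Complex.exp_eq_one_iff]
    rintro ⟨n, hn⟩
    have hpi : (Real.pi : ℂ) ≠ 0 := by exact_mod_cast Real.pi_ne_zero
    have h4 : (d : ℂ) = -(n * J) := by
      push_cast at hn
      field_simp at hn
      linear_combination -hn
    have h5 : d = -(n * J) := by exact_mod_cast h4
    have h6 : (J : ℤ) ∣ d := ⟨-n, by rw [h5]; ring⟩
    exact hd (Int.eq_zero_of_abs_lt_dvd h6 hd2)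
  rw [geom_sum_eq h3, h2, sub_self, zero_div]

/-- the character `exp(i k θ)` isolates one term -/
theorem isolate {J k : ℕ} (hk : k < J) (a : ℕ → ℂ) :
    ∑ m ∈ Finset.range J, u (k * (2 * Real.pi * m / J)) *
      ∑ j ∈ Finset.range J, a j * u (-(j * (2 * Real.pi * m / J))) = J * a k := by
  have h1 : ∀ m ∈ Finset.range J, u (k * (2 * Real.pi * m / J)) *
      ∑ j ∈ Finset.range J, a j * u (-(j * (2 * Real.pi * m / J))) =
      ∑ j ∈ Finset.range J, a j * u (((k : ℤ) - j : ℤ) * (2 * Real.pi * m / J)) := by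
    intro m _
    rw [Finset.mul_sum]
    refine Finset.sum_congr rfl fun j _ => ?_
    have h2 : u (((k : ℤ) - j : ℤ) * (2 * Real.pi * m / J)) =
        u (k * (2 * Real.pi * m / J)) * u (-(j * (2 * Real.pi * m / J))) := by
      rw [← u_add]
      congr 1
      push_cast
      ring
    rw [h2]
    ring
  rw [Finset.sum_congr rfl h1, Finset.sum_comm]
  rw [Finset.sum_eq_single k]
  · rw [← Finset.mul_sum]
    simp [u_zero, mul_comm]
  · intro j hj hjk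
    rw [← Finset.mul_sum, sum_u_zero (by omega), mul_zero]
    · omega
    · rw [Finset.mem_range] at hj
      rw [abs_lt]
      omega
  · intro h
    exact absurd (Finset.mem_range.2 hk) h

theorem YY_eq (J : ℕ) : YY J = Icc (-(J / 32 : ℝ)) (J / 32) ×ˢ
    (Icc (-(J / 32 : ℝ)) (J / 32) ×ˢ
      ⋃ k ∈ Finset.range J, Icc (k * (J : ℝ) + J / 4) (k * (J : ℝ) + 3 * J / 4)) := by
  ext ξ
  simp only [YY, mem_ofPred_eq, mem_prod, mem_Icc, mem_iUnion, abs_le, exists_prop]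

theorem measurableSet_YY (J : ℕ) : MeasurableSet (YY J) := by
  rw [YY_eq]
  exact measurableSet_Icc.prod (measurableSet_Icc.prod
    (Finset.measurableSet_biUnion _ fun k _ => measurableSet_Icc))

theorem vol_YY (J : ℕ) : volume (YY J) = ENNReal.ofReal ((J : ℝ) ^ 4 / 512) := by
  have h0 : (0 : ℝ) ≤ J := Nat.cast_nonneg J
  have h2 : volume (⋃ k ∈ Finset.range J,
      Icc (k * (J : ℝ) + J / 4) (k * (J : ℝ) + 3 * J / 4)) = ENNReal.ofReal (J * (J / 2)) := by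
    rw [measure_biUnion_finset]
    · have h3 : ∀ k ∈ Finset.range J, volume (Icc (k * (J : ℝ) + J / 4)
          (k * (J : ℝ) + 3 * J / 4)) = ENNReal.ofReal (J / 2) := by
        intro k _
        rw [Real.volume_Icc]
        congr 1
        ring
      rw [Finset.sum_congr rfl h3, Finset.sum_const, Finset.card_range, nsmul_eq_mul,
        ENNReal.ofReal_mul h0, ENNReal.ofReal_natCast]
    · intro k _ l _ hkl
      rw [Function.onFun, Set.disjoint_left]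
      intro t ht ht'
      rw [mem_Icc] at ht ht'
      rcases lt_or_gt_of_ne hkl with h | h
      · have h4 : (k : ℝ) + 1 ≤ l := by exact_mod_cast h
        rcases h0.eq_or_lt with h5 | h5
        · have : J = 0 := by exact_mod_cast h5.symm
          subst this
          simp at *
        · nlinarith
      · have h4 : (l : ℝ) + 1 ≤ k := by exact_mod_cast h
        rcases h0.eq_or_lt with h5 | h5
        · have : J = 0 := by exact_mod_cast h5.symm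
          subst this
          simp at *
        · nlinarith
    · intro k _
      exact measurableSet_Icc
  rw [YY_eq, Measure.volume_eq_prod, Measure.prod_prod, Measure.volume_eq_prod, Measure.prod_prod,
    h2, Real.volume_Icc, show (J / 32 : ℝ) - -(J / 32) = J / 16 by ring,
    ← ENNReal.ofReal_mul (by positivity), ← ENNReal.ofReal_mul (by positivity)]
  congr 1
  ring

theorem InD_ff (J : ℕ) (ε : ℕ → ℂ) (θ : ℝ) : InD (ff J ε θ) := by
  refine ⟨?_, fun x hx => ?_⟩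
  · unfold ff
    refine (measurable_const.mul (Finset.measurable_sum _ fun j _ => ?_)).mul measurable_ww
    refine measurable_const.mul (measurable_u.comp ?_)
    have := measurable_nq
    fun_prop
  · unfold ff
    rw [ww_zero hx, mul_zero]

theorem norm_ff_le {n : ℕ} {ε : ℕ → ℂ} (hε : ∀ v : ℝ,
    ‖∑ j ∈ Finset.range (2 ^ n), ε j * u (-(j * v))‖ ≤ √(2 * (2 ^ n : ℕ))) (θ : ℝ)
    (x : ℝ × ℝ) : ‖ff (2 ^ n) ε θ x‖ ≤ 1 := by
  unfold ff
  have h0 : 0 < √(2 * ((2 ^ n : ℕ) : ℝ)) := Real.sqrt_pos.2 (by positivity)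
  rw [norm_mul, norm_mul, Complex.norm_real, Real.norm_eq_abs, abs_of_pos (by positivity)]
  have h1 := hε (θ + ((2 ^ n : ℕ) : ℝ) * nq x)
  calc 1 / √(2 * ((2 ^ n : ℕ) : ℝ)) * ‖∑ j ∈ Finset.range (2 ^ n),
        ε j * u (-(j * (θ + ((2 ^ n : ℕ) : ℝ) * nq x)))‖ * ‖ww x‖
      ≤ 1 / √(2 * ((2 ^ n : ℕ) : ℝ)) * √(2 * ((2 ^ n : ℕ) : ℝ)) * 1 := by
        gcongr
        exact norm_ww_le x
    _ = 1 := by
        field_simp

/-- the pointwise bound on `YY`, after the mean over `θ` -/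
theorem pointwise {c s₀ : ℝ} (hc : 0 < c) (hs : 1 ≤ s₀) (hW : ∀ (p : ℝ × ℝ) (s : ℝ), s₀ ≤ s →
    |p.1| ≤ s / 8 → |p.2| ≤ s / 8 → c / s ≤ ‖E ww (p.1, p.2, s)‖) {J : ℕ} (hJ : 4 * s₀ ≤ J)
    {ε : ℕ → ℂ} (hε : ∀ j, ‖ε j‖ = 1) {ξ : ℝ × ℝ × ℝ} (hξ : ξ ∈ YY J) :
    c / √(2 * J) ≤ ∑ m ∈ Finset.range J, ‖E (ff J ε (2 * Real.pi * m / J)) ξ‖ := by
  have hJ0 : (0 : ℝ) < J := by linarith
  obtain ⟨hp1, hp2, k, hk, ht1, ht2⟩ := hξ
  rw [Finset.mem_range] at hk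
  set a : ℕ → ℂ := fun j => ((1 / √(2 * J) : ℝ) : ℂ) * (ε j * E ww (ξ.1, ξ.2.1, ξ.2.2 - j * J))
    with ha
  have h1 : ∀ m ∈ Finset.range J, E (ff J ε (2 * Real.pi * m / J)) ξ =
      ∑ j ∈ Finset.range J, a j * u (-(j * (2 * Real.pi * m / J))) := by
    intro m _
    rw [E_ff, Finset.mul_sum]
    refine Finset.sum_congr rfl fun j _ => ?_
    rw [ha]
    ring
  have h2 := isolate hk a
  have h3 : (J : ℝ) * ‖a k‖ ≤ ∑ m ∈ Finset.range J, ‖E (ff J ε (2 * Real.pi * m / J)) ξ‖ := by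
    calc (J : ℝ) * ‖a k‖ = ‖(J : ℂ) * a k‖ := by
          rw [norm_mul (J : ℂ) (a k), Complex.norm_natCast]
      _ = ‖∑ m ∈ Finset.range J, u (k * (2 * Real.pi * m / J)) *
            ∑ j ∈ Finset.range J, a j * u (-(j * (2 * Real.pi * m / J)))‖ := by rw [h2]
      _ ≤ ∑ m ∈ Finset.range J, ‖u (k * (2 * Real.pi * m / J)) *
            ∑ j ∈ Finset.range J, a j * u (-(j * (2 * Real.pi * m / J)))‖ := norm_sum_le _ _
      _ = _ := by
        refine Finset.sum_congr rfl fun m hm => ?_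
        rw [norm_mul, norm_u, one_mul, h1 m hm]
  refine le_trans ?_ h3
  have h4 : c / J ≤ ‖E ww (ξ.1, ξ.2.1, ξ.2.2 - k * J)‖ := by
    have h5 := hW (ξ.1, ξ.2.1) (ξ.2.2 - k * J) (by linarith) (by simp only; linarith)
      (by simp only; linarith)
    refine le_trans ?_ h5
    exact div_le_div_of_nonneg_left hc.le (by linarith) (by linarith)
  rw [ha]
  simp only
  rw [norm_mul, norm_mul, hε, one_mul, Complex.norm_real, Real.norm_eq_abs,
    abs_of_nonneg (by positivity)]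
  have h6 : 0 < √(2 * (J : ℝ)) := Real.sqrt_pos.2 (by positivity)
  calc c / √(2 * J) = J * (1 / √(2 * J) * (c / J)) := by field_simp
    _ ≤ _ := by gcongr

theorem measurable_ff (J : ℕ) (ε : ℕ → ℂ) (θ : ℝ) : Measurable (ff J ε θ) := (InD_ff J ε θ).1

/-- the sum over the `J` functions -/
theorem sum_lower {c s₀ ρ : ℝ} (hρ : 1 ≤ ρ) (hc : 0 < c) (hs : 1 ≤ s₀)
    (hW : ∀ (p : ℝ × ℝ) (s : ℝ), s₀ ≤ s →
    |p.1| ≤ s / 8 → |p.2| ≤ s / 8 → c / s ≤ ‖E ww (p.1, p.2, s)‖) {J : ℕ} (hJ : 4 * s₀ ≤ J)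
    {ε : ℕ → ℂ} (hε : ∀ j, ‖ε j‖ = 1) :
    ENNReal.ofReal ((c / √(2 * J)) ^ ρ * (J : ℝ) ^ (1 - ρ) * ((J : ℝ) ^ 4 / 512)) ≤
      ∑ m ∈ Finset.range J, ∫⁻ ξ in YY J, ‖E (ff J ε (2 * Real.pi * m / J)) ξ‖ₑ ^ ρ := by
  have hJ0 : (0 : ℝ) < J := by linarith
  have hρ0 : 0 ≤ ρ := by linarith
  rw [← lintegral_finsetSum]
  swap
  · intro m _
    exact (measurable_E (measurable_ff _ _ _)).enorm.pow_const ρ
  have h1 : ∀ ξ ∈ YY J, ENNReal.ofReal ((c / √(2 * J)) ^ ρ * (J : ℝ) ^ (1 - ρ)) ≤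
      ∑ m ∈ Finset.range J, ‖E (ff J ε (2 * Real.pi * m / J)) ξ‖ₑ ^ ρ := by
    intro ξ hξ
    have h2 := pointwise hc hs hW hJ hε hξ
    have h3 : (∑ m ∈ Finset.range J, ‖E (ff J ε (2 * Real.pi * m / J)) ξ‖) ^ ρ ≤
        (J : ℝ) ^ (ρ - 1) *
          ∑ m ∈ Finset.range J, ‖E (ff J ε (2 * Real.pi * m / J)) ξ‖ ^ ρ := by
      have h4 := Real.rpow_sum_le_const_mul_sum_rpow (Finset.range J)
        (fun m : ℕ => ‖E (ff J ε (2 * Real.pi * m / J)) ξ‖) hρ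
      simpa using h4
    have h5 : (c / √(2 * J)) ^ ρ ≤
        (∑ m ∈ Finset.range J, ‖E (ff J ε (2 * Real.pi * m / J)) ξ‖) ^ ρ :=
      Real.rpow_le_rpow (by positivity) h2 hρ0
    have h6 : (c / √(2 * J)) ^ ρ * (J : ℝ) ^ (1 - ρ) ≤
        ∑ m ∈ Finset.range J, ‖E (ff J ε (2 * Real.pi * m / J)) ξ‖ ^ ρ := by
      have h7 : (J : ℝ) ^ (ρ - 1) * (J : ℝ) ^ (1 - ρ) = 1 := by
        rw [← Real.rpow_add hJ0]
        norm_num
      have h8 : (0 : ℝ) < (J : ℝ) ^ (1 - ρ) := Real.rpow_pos_of_pos hJ0 _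
      calc (c / √(2 * J)) ^ ρ * (J : ℝ) ^ (1 - ρ)
          ≤ ((J : ℝ) ^ (ρ - 1) *
            ∑ m ∈ Finset.range J, ‖E (ff J ε (2 * Real.pi * m / J)) ξ‖ ^ ρ) *
              (J : ℝ) ^ (1 - ρ) := mul_le_mul_of_nonneg_right (h5.trans h3) h8.le
        _ = ((J : ℝ) ^ (ρ - 1) * (J : ℝ) ^ (1 - ρ)) *
            ∑ m ∈ Finset.range J, ‖E (ff J ε (2 * Real.pi * m / J)) ξ‖ ^ ρ := by ring
        _ = _ := by rw [h7, one_mul]
    calc ENNReal.ofReal ((c / √(2 * J)) ^ ρ * (J : ℝ) ^ (1 - ρ))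
        ≤ ENNReal.ofReal (∑ m ∈ Finset.range J,
            ‖E (ff J ε (2 * Real.pi * m / J)) ξ‖ ^ ρ) := ENNReal.ofReal_le_ofReal h6
      _ = _ := by
        rw [ENNReal.ofReal_sum_of_nonneg (fun m _ => by positivity)]
        refine Finset.sum_congr rfl fun m _ => ?_
        rw [← ENNReal.ofReal_rpow_of_nonneg (norm_nonneg _) hρ0, ofReal_norm]
  calc ENNReal.ofReal ((c / √(2 * J)) ^ ρ * (J : ℝ) ^ (1 - ρ) * ((J : ℝ) ^ 4 / 512))
      = ∫⁻ _ in YY J, ENNReal.ofReal ((c / √(2 * J)) ^ ρ * (J : ℝ) ^ (1 - ρ)) := by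
        rw [lintegral_const, Measure.restrict_apply_univ, vol_YY,
          ENNReal.ofReal_mul (by positivity)]
    _ ≤ _ := setLIntegral_mono' (measurableSet_YY J) h1

end AVE_

open AVE_ in
theorem p_AVE (_h1 : T_WUP) (h2 : T_WLO) (h3 : T_RUD) : T_AVE := by
  intro ρ hρ1 hρ2
  obtain ⟨c, s₀, hc, hs, hW⟩ := h2
  obtain ⟨n₀, hn₀⟩ := pow_unbounded_of_one_lt (4 * s₀) (one_lt_two (α := ℝ))
  refine ⟨c ^ ρ * (2 : ℝ) ^ (-(ρ / 2)) / 512, by positivity, n₀, fun n hn => ?_⟩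
  obtain ⟨ε, hε1, hε2⟩ := h3 n
  have hJ : 4 * s₀ ≤ ((2 ^ n : ℕ) : ℝ) := by
    push_cast
    exact hn₀.le.trans (pow_le_pow_right₀ (by norm_num) hn)
  have hJ0 : (0 : ℝ) < ((2 ^ n : ℕ) : ℝ) := by linarith
  set J : ℕ := 2 ^ n with hJdef
  have hJpos : 0 < J := by rw [hJdef]; positivity
  have hsum := sum_lower hρ1 hc hs hW hJ hε1
  by_contra hcon
  push Not at hcon
  set B : ℝ := c ^ ρ * (2 : ℝ) ^ (-(ρ / 2)) / 512 * ((2 : ℝ) ^ n) ^ (4 - 3 * ρ / 2) *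
    (1 + n : ℝ) ^ (ρ - 2) with hB
  have hlt : ∑ m ∈ Finset.range J, ∫⁻ ξ in YY J,
      ‖E (ff J ε (2 * Real.pi * m / J)) ξ‖ₑ ^ ρ <
      ∑ _m ∈ Finset.range J, ENNReal.ofReal B := by
    refine ENNReal.sum_lt_sum_of_nonempty ⟨0, Finset.mem_range.2 hJpos⟩ fun m _ => ?_
    exact hcon _ (InD_ff J ε _) (norm_ff_le hε2 _)
  rw [Finset.sum_const, Finset.card_range, nsmul_eq_mul, ← ENNReal.ofReal_natCast,
    ← ENNReal.ofReal_mul hJ0.le] at hlt
  have hle := hsum.trans_lt hlt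
  refine absurd hle (not_lt.2 (ENNReal.ofReal_le_ofReal ?_))
  have hJ2 : ((J : ℕ) : ℝ) = (2 : ℝ) ^ n := by
    rw [hJdef]
    push_cast
    rfl
  rw [hB, ← hJ2]
  have h5 : (1 + n : ℝ) ^ (ρ - 2) ≤ 1 :=
    Real.rpow_le_one_of_one_le_of_nonpos (by linarith [Nat.cast_nonneg (α := ℝ) n])
      (by linarith)
  have h6 : (c / √(2 * J)) ^ ρ = c ^ ρ * (2 : ℝ) ^ (-(ρ / 2)) * (J : ℝ) ^ (-(ρ / 2)) := by
    rw [Real.div_rpow hc.le (Real.sqrt_nonneg _), Real.sqrt_eq_rpow,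
      ← Real.rpow_mul (by positivity), Real.mul_rpow (by norm_num) hJ0.le,
      Real.rpow_neg (by norm_num), Real.rpow_neg hJ0.le,
      show (1 / 2 : ℝ) * ρ = ρ / 2 by ring]
    field_simp
  have h7 : (J : ℝ) ^ (-(ρ / 2)) * (J : ℝ) ^ (1 - ρ) * (J : ℝ) ^ 4 =
      (J : ℝ) * (J : ℝ) ^ (4 - 3 * ρ / 2) := by
    have h8 : (J : ℝ) ^ 4 = (J : ℝ) ^ (4 : ℝ) := by norm_num
    have h9 : (J : ℝ) * (J : ℝ) ^ (4 - 3 * ρ / 2) = (J : ℝ) ^ (1 : ℝ) *
        (J : ℝ) ^ (4 - 3 * ρ / 2) := by rw [Real.rpow_one]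
    rw [h8, h9, ← Real.rpow_add hJ0, ← Real.rpow_add hJ0, ← Real.rpow_add hJ0]
    congr 1
    ring
  rw [h6]
  calc (J : ℝ) * (c ^ ρ * (2 : ℝ) ^ (-(ρ / 2)) / 512 * (J : ℝ) ^ (4 - 3 * ρ / 2) *
        (1 + n : ℝ) ^ (ρ - 2))
      ≤ (J : ℝ) * (c ^ ρ * (2 : ℝ) ^ (-(ρ / 2)) / 512 * (J : ℝ) ^ (4 - 3 * ρ / 2) * 1) := by
        gcongr
    _ = c ^ ρ * (2 : ℝ) ^ (-(ρ / 2)) / 512 * ((J : ℝ) * (J : ℝ) ^ (4 - 3 * ρ / 2)) := by ring
    _ = c ^ ρ * (2 : ℝ) ^ (-(ρ / 2)) * (J : ℝ) ^ (-(ρ / 2)) * (J : ℝ) ^ (1 - ρ) *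
        ((J : ℝ) ^ 4 / 512) := by
        rw [← h7]
        ring
    _ ≤ _ := le_refl _

end Wex
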