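import Pool.Agent.Wex.Targets3

/-!
# KNA (helper83): Knapp examples
-/

set_option autoImplicit false

namespace Wex

open MeasureTheory Set Filter
open scoped ENNReal NNReal Topology
open Pool.Agent.Restr (u E QQ)
open Wey (nq lam hat gup gdn blk Tk Sl Wi InD)

namespace KNA_

lemma tent_nonneg (a x : ℝ) : 0 ≤ tent a x := le_max_left _ _

lemma tent_le (a x : ℝ) (ha : 0 ≤ a) : tent a x ≤ 1 := by
  unfold tent
  apply max_le zero_le_one
  have := mul_nonneg ha (abs_nonneg x)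
  linarith

lemma tent_zero (a x : ℝ) (h : 1 ≤ a * |x|) : tent a x = 0 := by
  unfold tent
  exact max_eq_left (by linarith)

lemma tent_half (a x : ℝ) (h : a * |x| ≤ 1 / 2) : 1 / 2 ≤ tent a x := by
  unfold tent
  exact le_max_of_le_right (by linarith)

lemma tent_cont (a : ℝ) : Continuous (tent a) := by
  unfold tent; fun_prop

lemma pyr_cont (a : ℝ) : Continuous (pyr a) := by
  unfold pyr
  have h1 := tent_cont a
  fun_prop

/-- the square `[-r, r]²` -/
def sqr (r : ℝ) : Set (ℝ × ℝ) := Icc (-r) r ×ˢ Icc (-r) r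

lemma sqr_meas (r : ℝ) : MeasurableSet (sqr r) := measurableSet_Icc.prod measurableSet_Icc

lemma sqr_compact (r : ℝ) : IsCompact (sqr r) := isCompact_Icc.prod isCompact_Icc

lemma sqr_vol (r : ℝ) : volume (sqr r) = ENNReal.ofReal (2 * r) * ENNReal.ofReal (2 * r) := by
  unfold sqr
  rw [Measure.volume_eq_prod, Measure.prod_prod, Real.volume_Icc]
  congr 2 <;> ring

lemma mem_sqr (r : ℝ) (x : ℝ × ℝ) : x ∈ sqr r ↔ |x.1| ≤ r ∧ |x.2| ≤ r := by
  unfold sqr
  rw [mem_prod, mem_Icc, mem_Icc, abs_le, abs_le]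

lemma pyr_zero (J : ℝ) (hJ : 0 < J) (x : ℝ × ℝ) (hx : x ∉ sqr (1 / (2 * J))) :
    tent (2 * J) x.1 * tent (2 * J) x.2 = 0 := by
  rw [mem_sqr, not_and_or, not_le, not_le] at hx
  rcases hx with h | h
  · rw [tent_zero, zero_mul]
    rw [div_lt_iff₀ (by positivity)] at h
    linarith
  · rw [tent_zero (2 * J) x.2, mul_zero]
    rw [div_lt_iff₀ (by positivity)] at h
    linarith

lemma ind (J : ℕ) (hJ : 2 ≤ J) (A : ℂ) : InD (fun x => A * pyr (2 * J) x) := by
  have hJ' : (2 : ℝ) ≤ J := by exact_mod_cast hJ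
  refine ⟨(measurable_const.mul (pyr_cont _).measurable), ?_⟩
  intro x hx
  have hx' : x ∉ sqr (1 / (2 * (J : ℝ))) := by
    rw [mem_sqr]
    rintro ⟨h1, h2⟩
    have h3 : 1 / (2 * (J : ℝ)) ≤ 1 / 4 := by
      apply one_div_le_one_div_of_le (by norm_num); linarith
    have h4 : |x.1| ≤ 1 / 4 := h1.trans h3
    have h5 : |x.2| ≤ 1 / 4 := h2.trans h3
    have h6 : x.1 ^ 2 ≤ (1 / 4) ^ 2 := by rw [← sq_abs]; gcongr
    have h7 : x.2 ^ 2 ≤ (1 / 4) ^ 2 := by rw [← sq_abs]; gcongr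
    norm_num at h6 h7
    linarith
  show A * pyr (2 * J) x = 0
  unfold pyr
  rw [pyr_zero J (by linarith) x hx']
  simp

lemma norm_two (J : ℕ) (hJ : 2 ≤ J) :
    eLpNorm (fun x => (J : ℂ) * pyr (2 * J) x) 2 volume ≤ 1 := by
  have hJ' : (2 : ℝ) ≤ J := by exact_mod_cast hJ
  have h1 : ∀ x : ℝ × ℝ, ‖(J : ℂ) * pyr (2 * J) x‖ ≤
      ‖(sqr (1 / (2 * (J : ℝ)))).indicator (fun _ => (J : ℝ)) x‖ := by
    intro x
    by_cases hx : x ∈ sqr (1 / (2 * (J : ℝ)))
    · rw [indicator_of_mem hx, norm_mul]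
      unfold pyr
      rw [Complex.norm_real, Complex.norm_natCast, Real.norm_eq_abs, Real.norm_eq_abs]
      have h2 : |tent (2 * J) x.1 * tent (2 * J) x.2| ≤ 1 := by
        rw [abs_of_nonneg (mul_nonneg (tent_nonneg _ _) (tent_nonneg _ _))]
        exact mul_le_one₀ (tent_le _ _ (by positivity)) (tent_nonneg _ _)
          (tent_le _ _ (by positivity))
      have h3 : |(J : ℝ)| = J := abs_of_nonneg (by positivity)
      rw [h3]
      nlinarith
    · rw [indicator_of_notMem hx]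
      unfold pyr
      rw [pyr_zero J (by linarith) x hx]
      simp
  calc eLpNorm (fun x => (J : ℂ) * pyr (2 * J) x) 2 volume
      ≤ eLpNorm ((sqr (1 / (2 * (J : ℝ)))).indicator (fun _ => (J : ℝ))) 2 volume :=
        eLpNorm_mono h1
    _ ≤ ‖(J : ℝ)‖ₑ * volume (sqr (1 / (2 * (J : ℝ)))) ^ (1 / (2 : ℝ≥0∞).toReal) :=
        eLpNorm_indicator_const_le _ _
    _ = 1 := by
        rw [sqr_vol, show 2 * (1 / (2 * (J : ℝ))) = 1 / J by field_simp]
        rw [show ENNReal.ofReal (1 / (J : ℝ)) * ENNReal.ofReal (1 / (J : ℝ)) =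
          ENNReal.ofReal (1 / (J : ℝ)) ^ (2 : ℝ) by
            rw [ENNReal.rpow_two, sq], ← ENNReal.rpow_mul]
        norm_num
        rw [ENNReal.ofReal_inv_of_pos (by linarith), ENNReal.ofReal_natCast]
        exact ENNReal.mul_inv_cancel (by positivity) (ENNReal.natCast_ne_top J)

/-- the phase -/
def ph (ξ : ℝ × ℝ × ℝ) (x : ℝ × ℝ) : ℝ :=
  ξ.1 * x.1 + (ξ.2.1 * x.2 + ξ.2.2 * (x.1 ^ 2 + x.2 ^ 2))

lemma phase (J : ℕ) (hJ : 2 ≤ J) (ξ : ℝ × ℝ × ℝ) (hξ : ξ ∈ YY J) (x : ℝ × ℝ)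
    (hx : x ∈ sqr (1 / (2 * (J : ℝ)))) : 4 / 5 ≤ Real.cos (ph ξ x) := by
  have hJ' : (2 : ℝ) ≤ J := by exact_mod_cast hJ
  have hJ0 : (0 : ℝ) < J := by linarith
  obtain ⟨h1, h2, k, hk, h3, h4⟩ := hξ
  rw [mem_sqr] at hx
  rw [Finset.mem_range] at hk
  have hk' : (k : ℝ) + 1 ≤ J := by exact_mod_cast hk
  have hk0 : (0 : ℝ) ≤ k := Nat.cast_nonneg k
  have ht0 : 0 ≤ ξ.2.2 := by nlinarith
  have ht1 : ξ.2.2 ≤ J ^ 2 := by nlinarith
  have e1 : |ξ.1 * x.1| ≤ 1 / 64 := by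
    rw [abs_mul]
    calc |ξ.1| * |x.1| ≤ (J / 32) * (1 / (2 * J)) := by
          gcongr
          · exact hx.1
      _ = 1 / 64 := by field_simp; norm_num
  have e2 : |ξ.2.1 * x.2| ≤ 1 / 64 := by
    rw [abs_mul]
    calc |ξ.2.1| * |x.2| ≤ (J / 32) * (1 / (2 * J)) := by
          gcongr
          · exact hx.2
      _ = 1 / 64 := by field_simp; norm_num
  have e3 : x.1 ^ 2 + x.2 ^ 2 ≤ 1 / (2 * J ^ 2) := by
    have a1 : x.1 ^ 2 ≤ (1 / (2 * (J : ℝ))) ^ 2 := by rw [← sq_abs]; gcongr; exact hx.1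
    have a2 : x.2 ^ 2 ≤ (1 / (2 * (J : ℝ))) ^ 2 := by rw [← sq_abs]; gcongr; exact hx.2
    have a3 : (1 / (2 * (J : ℝ))) ^ 2 + (1 / (2 * (J : ℝ))) ^ 2 = 1 / (2 * J ^ 2) := by
      field_simp; norm_num
    linarith
  have e4 : ξ.2.2 * (x.1 ^ 2 + x.2 ^ 2) ≤ 1 / 2 := by
    calc ξ.2.2 * (x.1 ^ 2 + x.2 ^ 2) ≤ J ^ 2 * (1 / (2 * J ^ 2)) := by gcongr
      _ = 1 / 2 := by field_simp
  have e5 : 0 ≤ ξ.2.2 * (x.1 ^ 2 + x.2 ^ 2) := by positivity
  have e6 : |ph ξ x| ≤ 17 / 32 := by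
    unfold ph
    rw [abs_le] at e1 e2 ⊢
    constructor <;> linarith [e1.1, e1.2, e2.1, e2.2]
  have e7 := Real.one_sub_sq_div_two_le_cos (x := ph ξ x)
  have e8 : ph ξ x ^ 2 ≤ (17 / 32) ^ 2 := by rw [← sq_abs]; gcongr
  norm_num at e8
  linarith

lemma u_re (a : ℝ) : (u a).re = Real.cos a := by
  unfold Pool.Agent.Restr.u
  rw [Complex.exp_re]
  simp

lemma low (J : ℕ) (hJ : 2 ≤ J) (A : ℝ) (hA : 0 ≤ A) (ξ : ℝ × ℝ × ℝ) (hξ : ξ ∈ YY J) :
    A * (1 / (20 * (J : ℝ) ^ 2)) ≤ ‖E (fun x => (A : ℂ) * pyr (2 * J) x) ξ‖ := by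
  have hJ' : (2 : ℝ) ≤ J := by exact_mod_cast hJ
  have hJ0 : (0 : ℝ) < J := by linarith
  set F : ℝ × ℝ → ℂ := fun x => u (ph ξ x) * ((A : ℂ) * pyr (2 * J) x) with hF
  have hE : E (fun x => (A : ℂ) * pyr (2 * J) x) ξ = ∫ x, F x := rfl
  have huc : Continuous (fun x : ℝ × ℝ => u (ph ξ x)) := by
    unfold Pool.Agent.Restr.u ph; fun_prop
  have hFc : Continuous F := huc.mul (continuous_const.mul (pyr_cont _))
  have hFs : HasCompactSupport F := by
    apply HasCompactSupport.intro (sqr_compact (1 / (2 * (J : ℝ))))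
    intro x hx
    rw [hF]
    show u (ph ξ x) * ((A : ℂ) * pyr (2 * J) x) = 0
    unfold pyr
    rw [pyr_zero J hJ0 x hx]
    simp
  have hFi : Integrable F := hFc.integrable_of_hasCompactSupport hFs
  have hre : (∫ x, F x).re = ∫ x, (F x).re := by
    have := integral_re (𝕜 := ℂ) hFi
    exact this.symm
  have hlow : ∀ x, (sqr (1 / (4 * (J : ℝ)))).indicator (fun _ => A / 5) x ≤ (F x).re := by
    intro x
    have hval : (F x).re = Real.cos (ph ξ x) * (A * (tent (2 * J) x.1 * tent (2 * J) x.2)) := by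
      rw [hF]
      show (u (ph ξ x) * ((A : ℂ) * pyr (2 * J) x)).re = _
      unfold pyr
      rw [← Complex.ofReal_mul, Complex.re_mul_ofReal, u_re]
    rw [hval]
    have ht0 : 0 ≤ tent (2 * J) x.1 * tent (2 * J) x.2 :=
      mul_nonneg (tent_nonneg _ _) (tent_nonneg _ _)
    by_cases hx : x ∈ sqr (1 / (2 * (J : ℝ)))
    · have hc := phase J hJ ξ hξ x hx
      by_cases hx' : x ∈ sqr (1 / (4 * (J : ℝ)))
      · rw [indicator_of_mem hx']
        rw [mem_sqr] at hx'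
        have h1 : 1 / 2 ≤ tent (2 * J) x.1 := by
          apply tent_half
          calc 2 * (J : ℝ) * |x.1| ≤ 2 * J * (1 / (4 * J)) := by gcongr; exact hx'.1
            _ = 1 / 2 := by field_simp; norm_num
        have h2 : 1 / 2 ≤ tent (2 * J) x.2 := by
          apply tent_half
          calc 2 * (J : ℝ) * |x.2| ≤ 2 * J * (1 / (4 * J)) := by gcongr; exact hx'.2
            _ = 1 / 2 := by field_simp; norm_num
        have h3 : 1 / 4 ≤ tent (2 * J) x.1 * tent (2 * J) x.2 := by nlinarith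
        calc A / 5 = (4 / 5) * (A * (1 / 4)) := by ring
          _ ≤ Real.cos (ph ξ x) * (A * (tent (2 * J) x.1 * tent (2 * J) x.2)) := by
              apply mul_le_mul hc _ (by positivity) (by linarith)
              exact mul_le_mul_of_nonneg_left h3 hA
      · rw [indicator_of_notMem hx']
        exact mul_nonneg (by linarith) (mul_nonneg hA ht0)
    · rw [pyr_zero J hJ0 x hx]
      have hx' : x ∉ sqr (1 / (4 * (J : ℝ))) := by
        intro h
        apply hx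
        rw [mem_sqr] at h ⊢
        have : 1 / (4 * (J : ℝ)) ≤ 1 / (2 * J) := by
          apply one_div_le_one_div_of_le (by positivity); linarith
        exact ⟨h.1.trans this, h.2.trans this⟩
      rw [indicator_of_notMem hx']
      simp
  have hvol : volume.real (sqr (1 / (4 * (J : ℝ)))) = 1 / (4 * (J : ℝ) ^ 2) := by
    rw [Measure.real, sqr_vol, ← ENNReal.ofReal_mul (by positivity),
      ENNReal.toReal_ofReal (by positivity)]
    field_simp
    norm_num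
  have hint : ∫ x, (sqr (1 / (4 * (J : ℝ)))).indicator (fun _ => A / 5) x =
      A * (1 / (20 * (J : ℝ) ^ 2)) := by
    rw [integral_indicator (sqr_meas _), setIntegral_const, hvol, smul_eq_mul]
    field_simp
    ring
  have hII : Integrable (fun x => (sqr (1 / (4 * (J : ℝ)))).indicator (fun _ => A / 5) x)
      (volume : Measure (ℝ × ℝ)) := by
    apply (integrable_indicator_iff (sqr_meas _)).2
    exact integrableOn_const (sqr_compact _).measure_lt_top.ne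
  calc A * (1 / (20 * (J : ℝ) ^ 2))
      = ∫ x, (sqr (1 / (4 * (J : ℝ)))).indicator (fun _ => A / 5) x := hint.symm
    _ ≤ ∫ x, (F x).re := integral_mono hII hFi.re hlow
    _ = (∫ x, F x).re := hre.symm
    _ ≤ ‖∫ x, F x‖ := Complex.re_le_norm _
    _ = ‖E (fun x => (A : ℂ) * pyr (2 * J) x) ξ‖ := by rw [hE]

end KNA_

open KNA_ in
theorem p_KNA : T_KNA := by
  refine ⟨1 / 20, by norm_num, ?_⟩
  intro J hJ
  have hJ' : (2 : ℝ) ≤ J := by exact_mod_cast hJ
  have hJ0 : (0 : ℝ) < J := by linarith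
  refine ⟨ind J hJ _, ind J hJ _, norm_two J hJ, ?_⟩
  intro ξ hξ
  constructor
  · have h := low J hJ ((J : ℝ) ^ 2) (by positivity) ξ hξ
    have h1 : (J : ℝ) ^ 2 * (1 / (20 * (J : ℝ) ^ 2)) = 1 / 20 := by field_simp
    rw [h1] at h
    push_cast at h
    exact h
  · have h := low J hJ (J : ℝ) (by positivity) ξ hξ
    have h1 : (J : ℝ) * (1 / (20 * (J : ℝ) ^ 2)) = 1 / 20 / J := by field_simp
    rw [h1] at h
    push_cast at h
    exact h

end Wex
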