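import Pool.Agent.Wex.Targets3

/-!
# MP_5ab805_an, Wex part 3: NEC (helper49)

Necessary conditions.
-/

set_option autoImplicit false

namespace Wex

open MeasureTheory Set Filter
open scoped ENNReal NNReal Topology
open Pool.Agent.Restr (u E QQ)
open TriL (Sq n2)
open Wey (nq lam hat gup gdn blk Tk Sl Wi InD)

namespace NEC_

/-- comparison of exponents -/
theorem exponents {A K a b d : ℝ} (hA : 0 < A) {n₀ : ℕ}
    (h : ∀ n : ℕ, n₀ ≤ n → A * ((2 : ℝ) ^ n) ^ a * (1 + n : ℝ) ^ (-b) ≤ K * ((2 : ℝ) ^ n) ^ d) :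
    a ≤ d := by
  by_contra hc
  push Not at hc
  set θ := a - d with hθ
  have hθ0 : 0 < θ := by linarith
  obtain ⟨k, hk⟩ := exists_nat_ge b
  set r : ℝ := (2 : ℝ) ^ θ with hr
  have hr1 : 1 < r := Real.one_lt_rpow (by norm_num) hθ0
  have hr0 : 0 < r := by linarith
  have ht := tendsto_pow_const_div_const_pow_of_one_lt k hr1
  have ht2 : Tendsto (fun n : ℕ => |K| * r * (((n + 1 : ℕ) : ℝ) ^ k / r ^ (n + 1))) atTop
      (𝓝 (|K| * r * 0)) := by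
    have := (ht.comp (tendsto_add_atTop_nat 1))
    exact this.const_mul _
  rw [mul_zero] at ht2
  obtain ⟨N, hN⟩ := ((ht2.eventually (gt_mem_nhds hA)).and (eventually_ge_atTop n₀)).exists
  obtain ⟨h1, h2⟩ := hN
  have h3 := h N h2
  have hP : (0 : ℝ) < (2 : ℝ) ^ N := by positivity
  have hQ : (1 : ℝ) ≤ 1 + (N : ℝ) := by linarith [Nat.cast_nonneg (α := ℝ) N]
  have hQ0 : (0 : ℝ) < 1 + (N : ℝ) := by linarith
  -- multiply by (1+N)^b (2^N)^(-d)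
  have h4 : A * r ^ N ≤ K * (1 + (N : ℝ)) ^ b := by
    have e1 : ((2 : ℝ) ^ N) ^ a * ((2 : ℝ) ^ N) ^ (-d) = r ^ N := by
      rw [← Real.rpow_add hP, ← sub_eq_add_neg, ← hθ, hr, ← Real.rpow_natCast,
        ← Real.rpow_natCast, ← Real.rpow_mul (by norm_num), ← Real.rpow_mul (by norm_num),
        mul_comm]
    have e2 : ((2 : ℝ) ^ N) ^ d * ((2 : ℝ) ^ N) ^ (-d) = 1 := by
      rw [← Real.rpow_add hP, add_neg_cancel, Real.rpow_zero]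
    have e3 : (1 + (N : ℝ)) ^ (-b) * (1 + (N : ℝ)) ^ b = 1 := by
      rw [← Real.rpow_add hQ0, neg_add_cancel, Real.rpow_zero]
    have hw : 0 ≤ ((2 : ℝ) ^ N) ^ (-d) * (1 + (N : ℝ)) ^ b := by positivity
    have h5 := mul_le_mul_of_nonneg_right h3 hw
    calc A * r ^ N = A * (((2 : ℝ) ^ N) ^ a * ((2 : ℝ) ^ N) ^ (-d)) *
          ((1 + (N : ℝ)) ^ (-b) * (1 + (N : ℝ)) ^ b) := by rw [e1, e3, mul_one]
      _ = A * ((2 : ℝ) ^ N) ^ a * (1 + (N : ℝ)) ^ (-b) *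
          (((2 : ℝ) ^ N) ^ (-d) * (1 + (N : ℝ)) ^ b) := by ring
      _ ≤ K * ((2 : ℝ) ^ N) ^ d * (((2 : ℝ) ^ N) ^ (-d) * (1 + (N : ℝ)) ^ b) := h5
      _ = K * (((2 : ℝ) ^ N) ^ d * ((2 : ℝ) ^ N) ^ (-d)) * (1 + (N : ℝ)) ^ b := by ring
      _ = K * (1 + (N : ℝ)) ^ b := by rw [e2, mul_one]
  have h6 : (1 + (N : ℝ)) ^ b ≤ ((N + 1 : ℕ) : ℝ) ^ k := by
    rw [← Real.rpow_natCast]
    have : (((N + 1 : ℕ)) : ℝ) = 1 + (N : ℝ) := by push_cast; ring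
    rw [this]
    exact Real.rpow_le_rpow_of_exponent_le hQ hk
  have h7 : A * r ^ N ≤ |K| * ((N + 1 : ℕ) : ℝ) ^ k :=
    h4.trans (mul_le_mul (le_abs_self K) h6 (by positivity) (abs_nonneg K))
  have h8 : |K| * r * (((N + 1 : ℕ) : ℝ) ^ k / r ^ (N + 1)) =
      |K| * ((N + 1 : ℕ) : ℝ) ^ k / r ^ N := by
    rw [pow_succ]; field_simp
  rw [h8, div_lt_iff₀ (by positivity)] at h1
  linarith

theorem meas_YY (J : ℕ) : MeasurableSet (YY J) := by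
  have h1 : MeasurableSet {ξ : ℝ × ℝ × ℝ | |ξ.1| ≤ J / 32} :=
    measurableSet_le (continuous_fst.abs).measurable measurable_const
  have h2 : MeasurableSet {ξ : ℝ × ℝ × ℝ | |ξ.2.1| ≤ J / 32} :=
    measurableSet_le ((continuous_fst.comp continuous_snd).abs).measurable measurable_const
  have h3 : MeasurableSet (⋃ k ∈ Finset.range J, {ξ : ℝ × ℝ × ℝ |
      (k : ℝ) * (J : ℝ) + J / 4 ≤ ξ.2.2 ∧ ξ.2.2 ≤ (k : ℝ) * (J : ℝ) + 3 * J / 4}) := by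
    refine Finset.measurableSet_biUnion _ ?_
    intro k _
    have h4 : MeasurableSet {ξ : ℝ × ℝ × ℝ | (k : ℝ) * (J : ℝ) + J / 4 ≤ ξ.2.2} :=
      measurableSet_le measurable_const (continuous_snd.comp continuous_snd).measurable
    have h5 : MeasurableSet {ξ : ℝ × ℝ × ℝ | ξ.2.2 ≤ (k : ℝ) * (J : ℝ) + 3 * J / 4} :=
      measurableSet_le (continuous_snd.comp continuous_snd).measurable measurable_const
    exact h4.inter h5
  have h6 : YY J = ({ξ : ℝ × ℝ × ℝ | |ξ.1| ≤ J / 32} ∩ {ξ : ℝ × ℝ × ℝ | |ξ.2.1| ≤ J / 32}) ∩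
      (⋃ k ∈ Finset.range J, {ξ : ℝ × ℝ × ℝ |
      (k : ℝ) * (J : ℝ) + J / 4 ≤ ξ.2.2 ∧ ξ.2.2 ≤ (k : ℝ) * (J : ℝ) + 3 * J / 4}) := by
    ext ξ
    simp only [YY, Set.mem_setOf_eq, Set.mem_inter_iff, Set.mem_iUnion, exists_prop]
    tauto
  rw [h6]
  exact (h1.inter h2).inter h3

/-- lower bound of the norm of a product -/
theorem low {J : ℕ} {ρ κ X M : ℝ} (hρ : 1 ≤ ρ) (hκ : 0 ≤ κ) (hX : 0 ≤ X) (hM : 0 ≤ M)
    (f : ℝ × ℝ → ℂ) (F : ℝ × ℝ × ℝ → ℂ) (h1 : ∀ ξ ∈ YY J, κ * ‖E f ξ‖ ≤ ‖F ξ‖)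
    (h2 : ENNReal.ofReal X ≤ ∫⁻ ξ in YY J, ‖E f ξ‖ₑ ^ ρ)
    (h3 : eLpNorm F (ENNReal.ofReal ρ) volume ≤ ENNReal.ofReal M) : κ ^ ρ * X ≤ M ^ ρ := by
  have hρ0 : 0 < ρ := by linarith
  have hκρ : 0 ≤ κ ^ ρ := Real.rpow_nonneg hκ _
  have e1 : eLpNorm F (ENNReal.ofReal ρ) volume = (∫⁻ ξ, ‖F ξ‖ₑ ^ ρ) ^ (1 / ρ) := by
    rw [eLpNorm_eq_lintegral_rpow_enorm_toReal (by simpa using hρ0) ENNReal.ofReal_ne_top,
      ENNReal.toReal_ofReal hρ0.le]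
  have e2 : ENNReal.ofReal (κ ^ ρ * X) ≤ ∫⁻ ξ, ‖F ξ‖ₑ ^ ρ := by
    calc ENNReal.ofReal (κ ^ ρ * X) = ENNReal.ofReal (κ ^ ρ) * ENNReal.ofReal X :=
          ENNReal.ofReal_mul hκρ
      _ ≤ ENNReal.ofReal (κ ^ ρ) * ∫⁻ ξ in YY J, ‖E f ξ‖ₑ ^ ρ := by gcongr
      _ = ∫⁻ ξ in YY J, ENNReal.ofReal (κ ^ ρ) * ‖E f ξ‖ₑ ^ ρ := by
          rw [lintegral_const_mul' _ _ ENNReal.ofReal_ne_top]
      _ ≤ ∫⁻ ξ in YY J, ‖F ξ‖ₑ ^ ρ := by
          refine setLIntegral_mono' (meas_YY J) ?_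
          intro ξ hξ
          have h4 : ENNReal.ofReal (κ * ‖E f ξ‖) ≤ ‖F ξ‖ₑ := by
            rw [← ofReal_norm_eq_enorm (F ξ)]
            exact ENNReal.ofReal_le_ofReal (h1 ξ hξ)
          have h5 : ENNReal.ofReal (κ ^ ρ) * ‖E f ξ‖ₑ ^ ρ = ENNReal.ofReal (κ * ‖E f ξ‖) ^ ρ := by
            rw [ENNReal.ofReal_mul hκ, ENNReal.mul_rpow_of_nonneg _ _ hρ0.le,
              ENNReal.ofReal_rpow_of_nonneg hκ hρ0.le, ofReal_norm_eq_enorm]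
          rw [h5]
          exact ENNReal.rpow_le_rpow h4 hρ0.le
      _ ≤ ∫⁻ ξ, ‖F ξ‖ₑ ^ ρ := setLIntegral_le_lintegral _ _
  rw [e1] at h3
  have e3 : (∫⁻ ξ, ‖F ξ‖ₑ ^ ρ) ≤ ENNReal.ofReal M ^ ρ := by
    have h6 := ENNReal.rpow_le_rpow h3 hρ0.le
    rwa [← ENNReal.rpow_mul, one_div, inv_mul_cancel₀ hρ0.ne', ENNReal.rpow_one] at h6
  have e4 : ENNReal.ofReal (κ ^ ρ * X) ≤ ENNReal.ofReal (M ^ ρ) := by
    rw [← ENNReal.ofReal_rpow_of_nonneg hM hρ0.le]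
    exact e2.trans e3
  exact (ENNReal.ofReal_le_ofReal_iff (Real.rpow_nonneg hM _)).1 e4

end NEC_

open NEC_

theorem p_NEC (h1 : T_AVE) (h2 : T_KNA) (h3 : T_SLN) : T_NEC := by
  obtain ⟨c₁, hc₁, hK⟩ := h2
  constructor
  · intro ρ s hρ hρ2 hs hyp
    obtain ⟨C, hC⟩ := hyp
    obtain ⟨c, hc, n₀, hA⟩ := h1 ρ hρ hρ2
    obtain ⟨C₂, hC₂⟩ := h3 s hs
    have hρ0 : 0 < ρ := by linarith
    have hs0 : 0 < s := by linarith
    have key : (4 - 3 * ρ / 2) ≤ 2 * ρ / s := by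
      apply exponents (A := c₁ ^ ρ * c) (K := ((C : ℝ) * C₂) ^ ρ) (b := 2 - ρ) (n₀ := n₀ + 1)
        (mul_pos (Real.rpow_pos_of_pos hc₁ _) hc)
      intro n hn
      have hJ : 2 ≤ 2 ^ n := by
        calc 2 = 2 ^ 1 := rfl
          _ ≤ 2 ^ n := Nat.pow_le_pow_right (by norm_num) (by omega)
      obtain ⟨k1, k2, k3, k4⟩ := hK (2 ^ n) hJ
      obtain ⟨f, f1, f2, f3⟩ := hA n (by omega)
      have hP : (0 : ℝ) < (2 : ℝ) ^ n := by positivity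
      have hX : 0 ≤ c * ((2 : ℝ) ^ n) ^ (4 - 3 * ρ / 2) * (1 + n : ℝ) ^ (ρ - 2) := by positivity
      have h5 := low (J := 2 ^ n) (κ := c₁) (M := (C : ℝ) * (C₂ * ((2 : ℝ) ^ n) ^ (2 / s))) hρ
        hc₁.le hX (by positivity) f
        (fun ξ => E f ξ * E (fun x => ((2 ^ n : ℕ) : ℂ) ^ 2 * pyr (2 * ((2 ^ n : ℕ) : ℝ)) x) ξ)
        (by
          intro ξ hξ
          rw [norm_mul, mul_comm]
          exact mul_le_mul_of_nonneg_left (k4 ξ hξ).1 (norm_nonneg _)) f3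
        (by
          refine (hC f _ f1 f2 k1).trans ?_
          rw [ENNReal.ofReal_mul (by positivity), ENNReal.ofReal_mul (by positivity)]
          simp only [ENNReal.ofReal_coe_nnreal]
          have h6 := hC₂ (2 ^ n) hJ
          have h7 : (((2 ^ n : ℕ) : ℝ)) = (2 : ℝ) ^ n := by push_cast; ring
          rw [h7] at h6 ⊢
          gcongr)
      have h8 : ((C : ℝ) * (C₂ * ((2 : ℝ) ^ n) ^ (2 / s))) ^ ρ =
          ((C : ℝ) * C₂) ^ ρ * ((2 : ℝ) ^ n) ^ (2 * ρ / s) := by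
        rw [← mul_assoc, Real.mul_rpow (by positivity) (by positivity), ← Real.rpow_mul hP.le]
        congr 2
        ring
      rw [h8] at h5
      have h9 : -(2 - ρ) = ρ - 2 := by ring
      rw [h9]
      calc c₁ ^ ρ * c * ((2 : ℝ) ^ n) ^ (4 - 3 * ρ / 2) * (1 + n : ℝ) ^ (ρ - 2)
          = c₁ ^ ρ * (c * ((2 : ℝ) ^ n) ^ (4 - 3 * ρ / 2) * (1 + n : ℝ) ^ (ρ - 2)) := by ring
        _ ≤ _ := h5
    have h10 : (4 - 3 * ρ / 2) / (2 * ρ) ≤ (2 * ρ / s) / (2 * ρ) :=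
      div_le_div_of_nonneg_right key (by positivity)
    have h11 : (4 - 3 * ρ / 2) / (2 * ρ) = 2 / ρ - 3 / 4 := by field_simp; ring
    have h12 : (2 * ρ / s) / (2 * ρ) = 1 / s := by field_simp
    rw [h11, h12] at h10
    exact h10
  · intro μ t hμ hμ2 ht hyp
    obtain ⟨C, hC⟩ := hyp
    obtain ⟨c, hc, n₀, hA⟩ := h1 μ hμ hμ2
    obtain ⟨C₂, hC₂⟩ := h3 t ht
    have hμ0 : 0 < μ := by linarith
    have ht0 : 0 < t := by linarith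
    have key : (4 - 3 * μ / 2 - μ) ≤ 2 * μ / t := by
      apply exponents (A := (c₁ * c₁) ^ μ * c) (K := ((C : ℝ) * C₂) ^ μ) (b := 2 - μ)
        (n₀ := n₀ + 1) (mul_pos (Real.rpow_pos_of_pos (mul_pos hc₁ hc₁) _) hc)
      intro n hn
      have hJ : 2 ≤ 2 ^ n := by
        calc 2 = 2 ^ 1 := rfl
          _ ≤ 2 ^ n := Nat.pow_le_pow_right (by norm_num) (by omega)
      obtain ⟨k1, k2, k3, k4⟩ := hK (2 ^ n) hJ
      obtain ⟨f, f1, f2, f3⟩ := hA n (by omega)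
      have hP : (0 : ℝ) < (2 : ℝ) ^ n := by positivity
      have hcast : (((2 ^ n : ℕ) : ℝ)) = (2 : ℝ) ^ n := by push_cast; ring
      have hX : 0 ≤ c * ((2 : ℝ) ^ n) ^ (4 - 3 * μ / 2) * (1 + n : ℝ) ^ (μ - 2) := by positivity
      have h5 := low (J := 2 ^ n) (κ := c₁ * c₁ / (2 : ℝ) ^ n)
        (M := (C : ℝ) * (C₂ * ((2 : ℝ) ^ n) ^ (2 / t))) hμ
        (by positivity) hX (by positivity) f
        (fun ξ => E f ξ * E (fun x => ((2 ^ n : ℕ) : ℂ) * pyr (2 * ((2 ^ n : ℕ) : ℝ)) x) ξ *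
          E (fun x => ((2 ^ n : ℕ) : ℂ) ^ 2 * pyr (2 * ((2 ^ n : ℕ) : ℝ)) x) ξ)
        (by
          intro ξ hξ
          obtain ⟨a1, a3⟩ := k4 ξ hξ
          have a2 : c₁ / (2 : ℝ) ^ n ≤
              ‖E (fun x => ((2 ^ n : ℕ) : ℂ) * pyr (2 * ((2 ^ n : ℕ) : ℝ)) x) ξ‖ :=
            le_of_eq_of_le (by rw [hcast]) a3
          rw [norm_mul, norm_mul]
          calc c₁ * c₁ / (2 : ℝ) ^ n * ‖E f ξ‖ = ‖E f ξ‖ * (c₁ / (2 : ℝ) ^ n) * c₁ := by ring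
            _ ≤ _ := by gcongr) f3
        (by
          refine (hC f _ _ f1 f2 k2 k1).trans ?_
          rw [ENNReal.ofReal_mul (by positivity), ENNReal.ofReal_mul (by positivity)]
          simp only [ENNReal.ofReal_coe_nnreal]
          have h6 := hC₂ (2 ^ n) hJ
          rw [hcast] at h6 k3 ⊢
          calc _ ≤ (C : ℝ≥0∞) * (C₂ * ENNReal.ofReal (((2 : ℝ) ^ n) ^ (2 / t))) * 1 := by gcongr
            _ = _ := mul_one _)
      have h8 : ((C : ℝ) * (C₂ * ((2 : ℝ) ^ n) ^ (2 / t))) ^ μ =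
          ((C : ℝ) * C₂) ^ μ * ((2 : ℝ) ^ n) ^ (2 * μ / t) := by
        rw [← mul_assoc, Real.mul_rpow (by positivity) (by positivity), ← Real.rpow_mul hP.le]
        congr 2
        ring
      rw [h8] at h5
      have h9 : -(2 - μ) = μ - 2 := by ring
      have h13 : (c₁ * c₁ / (2 : ℝ) ^ n) ^ μ = (c₁ * c₁) ^ μ * ((2 : ℝ) ^ n) ^ (-μ) := by
        rw [Real.div_rpow (by positivity) hP.le, Real.rpow_neg hP.le]; rfl
      rw [h9]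
      calc (c₁ * c₁) ^ μ * c * ((2 : ℝ) ^ n) ^ (4 - 3 * μ / 2 - μ) * (1 + n : ℝ) ^ (μ - 2)
          = (c₁ * c₁) ^ μ * ((2 : ℝ) ^ n) ^ (-μ) *
            (c * ((2 : ℝ) ^ n) ^ (4 - 3 * μ / 2) * (1 + n : ℝ) ^ (μ - 2)) := by
            rw [sub_eq_add_neg (4 - 3 * μ / 2) μ, Real.rpow_add hP]; ring
        _ ≤ _ := by rw [← h13]; exact h5
    have h10 : (4 - 3 * μ / 2 - μ) / (2 * μ) ≤ (2 * μ / t) / (2 * μ) :=
      div_le_div_of_nonneg_right key (by positivity)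
    have h11 : (4 - 3 * μ / 2 - μ) / (2 * μ) = 2 / μ - 5 / 4 := by field_simp; ring
    have h12 : (2 * μ / t) / (2 * μ) = 1 / t := by field_simp
    rw [h11, h12] at h10
    exact h10

end Wex
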