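import Pool.Agent.Wex.Targets3

/-!
# MP_5ab805_an, time slices: Rudin-Shapiro polynomials
-/

set_option autoImplicit false

namespace Wex

open Pool.Agent.Restr (u)

namespace RUD_

/-- the splitting of a polynomial with `2 ^ (n + 1)` coefficients -/
theorem split (n : ℕ) (a b : ℕ → ℂ) (s z : ℂ) :
    ∑ j ∈ Finset.range (2 ^ (n + 1)), (if j < 2 ^ n then a j else s * b (j - 2 ^ n)) * z ^ j =
      ∑ j ∈ Finset.range (2 ^ n), a j * z ^ j +
        s * z ^ (2 ^ n) * ∑ j ∈ Finset.range (2 ^ n), b j * z ^ j := by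
  rw [pow_succ, mul_two, Finset.sum_range_add, Finset.mul_sum]
  congr 1
  · refine Finset.sum_congr rfl fun j hj => ?_
    rw [if_pos (Finset.mem_range.1 hj)]
  · refine Finset.sum_congr rfl fun j _ => ?_
    rw [if_neg (by omega), Nat.add_sub_cancel_left, pow_add]
    ring

theorem pair (n : ℕ) : ∃ a b : ℕ → ℂ, (∀ j, ‖a j‖ = 1) ∧ (∀ j, ‖b j‖ = 1) ∧
    ∀ z : ℂ, ‖z‖ = 1 → ‖∑ j ∈ Finset.range (2 ^ n), a j * z ^ j‖ ^ 2 +
      ‖∑ j ∈ Finset.range (2 ^ n), b j * z ^ j‖ ^ 2 = 2 * (2 ^ n : ℕ) := by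
  induction n with
  | zero =>
    refine ⟨fun _ => 1, fun _ => 1, fun _ => norm_one, fun _ => norm_one, fun z _ => ?_⟩
    simp
    norm_num
  | succ n ih =>
    obtain ⟨a, b, ha, hb, hab⟩ := ih
    refine ⟨fun j => if j < 2 ^ n then a j else 1 * b (j - 2 ^ n),
      fun j => if j < 2 ^ n then a j else (-1) * b (j - 2 ^ n), fun j => ?_, fun j => ?_,
      fun z hz => ?_⟩
    · dsimp only
      split_ifs
      · exact ha j
      · rw [one_mul]; exact hb _
    · dsimp only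
      split_ifs
      · exact ha j
      · rw [neg_one_mul, norm_neg]; exact hb _
    · dsimp only
      rw [split, split]
      set P := ∑ j ∈ Finset.range (2 ^ n), a j * z ^ j
      set Q := ∑ j ∈ Finset.range (2 ^ n), b j * z ^ j
      have h1 : P + 1 * z ^ (2 ^ n) * Q = P + z ^ (2 ^ n) * Q := by ring
      have h2 : P + (-1) * z ^ (2 ^ n) * Q = P - z ^ (2 ^ n) * Q := by ring
      have h3 : ‖z ^ (2 ^ n) * Q‖ = ‖Q‖ := by
        rw [norm_mul, norm_pow, hz, one_pow, one_mul]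
      have h4 := parallelogram_law_with_norm ℝ P (z ^ (2 ^ n) * Q)
      have h5 := hab z hz
      rw [h1, h2, h4, h3, h5]
      push_cast
      ring

end RUD_

theorem p_RUD : T_RUD := by
  intro n
  obtain ⟨a, b, ha, -, hab⟩ := RUD_.pair n
  refine ⟨a, ha, fun v => ?_⟩
  have hz : ‖u (-v)‖ = 1 := Pool.Agent.Restr.norm_u _
  have hu : ∀ j : ℕ, u (-(j * v)) = u (-v) ^ j := by
    intro j
    unfold u
    rw [← Complex.exp_nat_mul]
    congr 1
    push_cast
    ring
  have h1 : ∑ j ∈ Finset.range (2 ^ n), a j * u (-(j * v)) =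
      ∑ j ∈ Finset.range (2 ^ n), a j * u (-v) ^ j :=
    Finset.sum_congr rfl fun j _ => by rw [hu]
  rw [h1]
  apply Real.le_sqrt_of_sq_le
  have h2 := hab (u (-v)) hz
  nlinarith [sq_nonneg ‖∑ j ∈ Finset.range (2 ^ n), b j * u (-v) ^ j‖]

end Wex
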