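import Pool.Agent.Wex.Targets3

/-!
# MP_5ab805_an, block SLN: the norm of the slice of the Knapp example
-/

set_option autoImplicit false

namespace Wex

open MeasureTheory Set Filter
open scoped ENNReal NNReal Topology
open Pool.Agent.Restr (u E QQ)
open TriL (Sq n2)
open Wey (nq lam hat gup gdn blk Tk Sl Wi InD)

namespace SLN_

theorem tent_scale (J : ℝ) (hJ : 0 < J) (x : ℝ) : tent (2 * J) x = tent 2 (J * x) := by
  unfold tent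
  rw [abs_mul, abs_of_pos hJ]
  ring_nf

theorem pyr_scale (J : ℝ) (hJ : 0 < J) (x : ℝ × ℝ) : pyr (2 * J) x = pyr 2 (J • x) := by
  unfold pyr
  rw [tent_scale J hJ, tent_scale J hJ]
  rfl

theorem E_eq (J : ℕ) (hJ : 2 ≤ J) (y : ℝ × ℝ) :
    E (fun x => (J : ℂ) ^ 2 * pyr (2 * J) x) (y.1, y.2, 0) = hat (pyr 2) (((J : ℝ)⁻¹) • y) := by
  have hJ0 : (0 : ℝ) < J := by
    have : (2 : ℝ) ≤ J := by exact_mod_cast hJ
    linarith
  have h := Measure.integral_comp_smul (volume : Measure (ℝ × ℝ))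
    (fun z : ℝ × ℝ => u (((J : ℝ)⁻¹ • y).1 * z.1 + ((J : ℝ)⁻¹ • y).2 * z.2) * pyr 2 z) (J : ℝ)
  have h2 : Module.finrank ℝ (ℝ × ℝ) = 2 := by simp
  rw [h2] at h
  unfold E hat
  have h3 : ∀ x : ℝ × ℝ, u (y.1 * x.1 + (y.2 * x.2 + 0 * (x.1 ^ 2 + x.2 ^ 2))) *
      ((J : ℂ) ^ 2 * pyr (2 * J) x) = (J : ℂ) ^ 2 *
      (u (((J : ℝ)⁻¹ • y).1 * ((J : ℝ) • x).1 + ((J : ℝ)⁻¹ • y).2 * ((J : ℝ) • x).2) *
        pyr 2 ((J : ℝ) • x)) := by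
    intro x
    rw [pyr_scale J hJ0]
    have h4 : ((J : ℝ)⁻¹ • y).1 * ((J : ℝ) • x).1 + ((J : ℝ)⁻¹ • y).2 * ((J : ℝ) • x).2 =
        y.1 * x.1 + (y.2 * x.2 + 0 * (x.1 ^ 2 + x.2 ^ 2)) := by
      simp only [Prod.smul_fst, Prod.smul_snd, smul_eq_mul]
      field_simp
      ring
    rw [h4]
    ring
  simp only [h3]
  rw [integral_const_mul, h, abs_of_pos (by positivity)]
  rw [Complex.real_smul, ← mul_assoc]
  have h5 : (J : ℂ) ^ 2 * (((((J : ℝ) ^ 2)⁻¹ : ℝ)) : ℂ) = 1 := by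
    push_cast
    apply mul_inv_cancel₀
    have : (J : ℂ) ≠ 0 := by
      exact_mod_cast hJ0.ne'
    exact pow_ne_zero _ this
  rw [h5, one_mul]

theorem lint_scale (G : ℝ × ℝ → ℝ≥0∞) (J : ℝ) (hJ : 0 < J) :
    ∫⁻ y : ℝ × ℝ, G (J⁻¹ • y) = ENNReal.ofReal (J ^ 2) * ∫⁻ y : ℝ × ℝ, G y := by
  have hi : J⁻¹ ≠ 0 := by positivity
  have h1 := Measure.map_addHaar_smul (volume : Measure (ℝ × ℝ)) hi
  have h2 : Module.finrank ℝ (ℝ × ℝ) = 2 := by simp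
  rw [h2] at h1
  have h4 := ((Homeomorph.smulOfNeZero (α := ℝ × ℝ) J⁻¹ hi).measurableEmbedding).lintegral_map
    (μ := (volume : Measure (ℝ × ℝ))) G
  have h5 : (⇑(Homeomorph.smulOfNeZero (α := ℝ × ℝ) J⁻¹ hi)) = fun x : ℝ × ℝ => J⁻¹ • x := rfl
  rw [h5, h1] at h4
  rw [← h4, lintegral_smul_measure]
  have h6 : |((J⁻¹) ^ 2)⁻¹| = J ^ 2 := by
    rw [abs_of_pos (by positivity)]
    rw [inv_pow, inv_inv]
  rw [h6]
  rfl

end SLN_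

theorem p_SLN (h1 : T_TEN) : T_SLN := by
  intro s hs
  have hs0 : 0 < s := by linarith
  obtain ⟨_, _, hfin, _⟩ := h1 2 (by norm_num)
  have hK := hfin s hs
  set K : ℝ≥0∞ := ∫⁻ y, ‖hat (pyr 2) y‖ₑ ^ s with hKdef
  have hK2 : K ^ (1 / s) ≠ ∞ := ENNReal.rpow_ne_top_of_nonneg (by positivity) hK.ne
  refine ⟨(K ^ (1 / s)).toNNReal, fun J hJ => ?_⟩
  have hJ0 : (0 : ℝ) < J := by
    have : (2 : ℝ) ≤ J := by exact_mod_cast hJ
    linarith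
  rw [ENNReal.coe_toNNReal hK2]
  have hp0 : ENNReal.ofReal s ≠ 0 := by
    rw [Ne, ENNReal.ofReal_eq_zero]
    linarith
  rw [eLpNorm_eq_lintegral_rpow_enorm_toReal hp0 ENNReal.ofReal_ne_top,
    ENNReal.toReal_ofReal hs0.le]
  simp only [SLN_.E_eq J hJ]
  rw [SLN_.lint_scale (fun y => ‖hat (pyr 2) y‖ₑ ^ s) J hJ0,
    ENNReal.mul_rpow_of_nonneg _ _ (by positivity), mul_comm]
  apply le_of_eq
  congr 1
  rw [ENNReal.ofReal_rpow_of_nonneg (by positivity) (by positivity)]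
  congr 1
  rw [← Real.rpow_natCast, ← Real.rpow_mul hJ0.le]
  congr 1
  push_cast
  ring

end Wex
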