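import Pool.Agent.Wex.Targets3

/-!
# MP_5ab805_an, the Fourier transform of a product of tents (helper16)
-/

set_option autoImplicit false

namespace Wex

open MeasureTheory Set Filter
open scoped ENNReal NNReal Topology
open Pool.Agent.Restr (u E QQ)
open TriL (Sq n2)
open Wey (nq lam hat gup gdn blk Tk Sl Wi InD)

namespace TEN_

lemma tent_nonneg (a x : ℝ) : 0 ≤ tent a x := le_max_left _ _

lemma tent_continuous (a : ℝ) : Continuous (tent a) := by
  unfold tent; fun_prop

lemma tent_zero {a x : ℝ} (ha : 0 < a) (hx : 1 / a ≤ |x|) : tent a x = 0 := by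
  unfold tent
  apply max_eq_left
  rw [div_le_iff₀ ha] at hx
  linarith

lemma tent_compact {a : ℝ} (ha : 0 < a) : HasCompactSupport (fun x => ((tent a x : ℝ) : ℂ)) := by
  apply HasCompactSupport.intro (isCompact_Icc (a := -(1 / a)) (b := 1 / a))
  intro x hx
  have : 1 / a ≤ |x| := by
    by_contra h
    push Not at h
    rw [abs_lt] at h
    exact hx ⟨h.1.le, h.2.le⟩
  rw [tent_zero ha this]; simp

lemma tentC_continuous (a : ℝ) : Continuous (fun x => ((tent a x : ℝ) : ℂ)) :=
  Complex.continuous_ofReal.comp (tent_continuous a)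

lemma tent_integrable {a : ℝ} (ha : 0 < a) : Integrable (fun x => ((tent a x : ℝ) : ℂ)) :=
  (tentC_continuous a).integrable_of_hasCompactSupport (tent_compact ha)

/-- the transform in one variable -/
noncomputable def T (a s : ℝ) : ℂ := ∫ x : ℝ, u (s * x) * ((tent a x : ℝ) : ℂ)

lemma u_meas (s : ℝ) : Continuous (fun x : ℝ => u (s * x)) := by
  exact Pool.Agent.Restr.continuous_u.comp (continuous_const.mul continuous_id)

lemma T_int {a : ℝ} (ha : 0 < a) (s : ℝ) : Integrable (fun x : ℝ => u (s * x) * ((tent a x : ℝ) : ℂ)) := by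
  refine (tent_integrable ha).bdd_mul (c := 1) (u_meas s).aestronglyMeasurable ?_
  exact Filter.Eventually.of_forall fun x => (Pool.Agent.Restr.norm_u _).le

lemma T_continuous {a : ℝ} (ha : 0 < a) : Continuous (T a) := by
  unfold T
  apply MeasureTheory.continuous_of_dominated (bound := fun x => ‖((tent a x : ℝ) : ℂ)‖)
  · intro s
    exact (T_int ha s).aestronglyMeasurable
  · intro s
    refine Filter.Eventually.of_forall fun x => ?_
    rw [norm_mul, Pool.Agent.Restr.norm_u, one_mul]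
  · exact (tent_integrable ha).norm
  · refine Filter.Eventually.of_forall fun x => ?_
    exact (Pool.Agent.Restr.continuous_u.comp (continuous_id.mul continuous_const)).mul
      continuous_const

lemma T_le {a : ℝ} (s : ℝ) : ‖T a s‖ ≤ ∫ x : ℝ, tent a x := by
  unfold T
  refine (norm_integral_le_integral_norm _).trans (le_of_eq ?_)
  congr 1
  ext x
  rw [norm_mul, Pool.Agent.Restr.norm_u, one_mul, Complex.norm_real, Real.norm_eq_abs,
    abs_of_nonneg (tent_nonneg a x)]

lemma u_exp (s x : ℝ) : u (s * x) = Complex.exp (-(Complex.I * s) * x) := by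
  unfold Pool.Agent.Restr.u
  congr 1
  push_cast
  ring

/-- derivative formula -/
lemma hasDeriv (A c : ℂ) (hc : c ≠ 0) (x : ℝ) :
    HasDerivAt (fun x : ℝ => (1 + A * x) * Complex.exp (c * x) / c - A * Complex.exp (c * x) / c ^ 2)
      ((1 + A * x) * Complex.exp (c * x)) x := by
  have h1 : HasDerivAt (fun x : ℝ => (x : ℂ)) 1 x := Complex.ofRealCLM.hasDerivAt
  have h2 : HasDerivAt (fun x : ℝ => c * (x : ℂ)) (c * 1) x := h1.const_mul c
  have h3 := h2.cexp
  have h4 : HasDerivAt (fun x : ℝ => 1 + A * (x : ℂ)) (A * 1) x := (h1.const_mul A).const_add 1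
  have h5 := ((h4.mul h3).div_const c).sub ((h3.const_mul A).div_const (c ^ 2))
  refine h5.congr_deriv ?_
  field_simp
  ring

lemma T_formula {a : ℝ} (ha : 0 < a) (s : ℝ) (hs : s ≠ 0) (c : ℂ) (hc : c = -(Complex.I * s)) :
    T a s = a * (Complex.exp (c * (1 / a : ℝ)) + Complex.exp (c * (-(1 / a) : ℝ)) - 2) / c ^ 2 := by
  have hc0 : c ≠ 0 := by
    rw [hc]; simp [hs]
  have ha' : (a : ℂ) ≠ 0 := by exact_mod_cast ha.ne'
  have h1a : 0 < 1 / a := by positivity
  have hT : T a s = ∫ x in (-(1 / a))..(1 / a), u (s * x) * ((tent a x : ℝ) : ℂ) := by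
    unfold T
    rw [intervalIntegral.integral_eq_integral_of_support_subset]
    intro x hx
    by_contra hcon
    apply hx
    have : 1 / a ≤ |x| := by
      by_contra h
      push Not at h
      rw [abs_lt] at h
      exact hcon ⟨h.1, h.2.le⟩
    show u (s * x) * ((tent a x : ℝ) : ℂ) = 0
    rw [tent_zero ha this]; simp
  have hcont : Continuous (fun x : ℝ => u (s * x) * ((tent a x : ℝ) : ℂ)) :=
    (u_meas s).mul (tentC_continuous a)
  rw [hT, ← intervalIntegral.integral_add_adjacent_intervals (b := 0)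
    (hcont.intervalIntegrable _ _) (hcont.intervalIntegrable _ _)]
  have hL : ∫ x in (-(1 / a))..0, u (s * x) * ((tent a x : ℝ) : ℂ) =
      ∫ x in (-(1 / a))..0, (1 + (a : ℂ) * x) * Complex.exp (c * x) := by
    apply intervalIntegral.integral_congr
    intro x hx
    rw [uIcc_of_le (by linarith)] at hx
    have hx0 : x ≤ 0 := hx.2
    have htx : tent a x = 1 + a * x := by
      unfold tent
      rw [abs_of_nonpos hx0]
      rw [max_eq_right]
      · ring
      · have := hx.1
        have h3 : a * (-(1 / a)) ≤ a * x := mul_le_mul_of_nonneg_left this ha.le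
        have h4 : a * (-(1 / a)) = -1 := by field_simp
        nlinarith
    show u (s * x) * ((tent a x : ℝ) : ℂ) = (1 + (a : ℂ) * x) * Complex.exp (c * x)
    rw [htx, u_exp, hc]
    push_cast
    ring
  have hR : ∫ x in (0 : ℝ)..(1 / a), u (s * x) * ((tent a x : ℝ) : ℂ) =
      ∫ x in (0 : ℝ)..(1 / a), (1 + (-a : ℂ) * x) * Complex.exp (c * x) := by
    apply intervalIntegral.integral_congr
    intro x hx
    rw [uIcc_of_le (by linarith)] at hx
    have hx0 : 0 ≤ x := hx.1
    have htx : tent a x = 1 - a * x := by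
      unfold tent
      rw [abs_of_nonneg hx0]
      rw [max_eq_right]
      have := hx.2
      have h3 : a * x ≤ a * (1 / a) := mul_le_mul_of_nonneg_left this ha.le
      have h4 : a * (1 / a) = 1 := by field_simp
      linarith
    show u (s * x) * ((tent a x : ℝ) : ℂ) = (1 + (-a : ℂ) * x) * Complex.exp (c * x)
    rw [htx, u_exp, hc]
    push_cast
    ring
  have hcint : ∀ A : ℂ, ∀ p q : ℝ, IntervalIntegrable
      (fun x : ℝ => (1 + A * x) * Complex.exp (c * x)) volume p q := fun A p q =>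
    Continuous.intervalIntegrable (by fun_prop) _ _
  rw [hL, hR, intervalIntegral.integral_eq_sub_of_hasDerivAt (fun x _ => hasDeriv a c hc0 x)
    (hcint _ _ _), intervalIntegral.integral_eq_sub_of_hasDerivAt
    (fun x _ => hasDeriv (-a) c hc0 x) (hcint _ _ _)]
  push_cast
  simp only [mul_zero, Complex.exp_zero, add_zero]
  field_simp
  ring

lemma T_decay {a : ℝ} (ha : 0 < a) (s : ℝ) (hs : s ≠ 0) : ‖T a s‖ ≤ 4 * a / s ^ 2 := by
  rw [T_formula ha s hs _ rfl, norm_div, norm_mul, Complex.norm_real, Real.norm_eq_abs,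
    abs_of_pos ha, norm_pow, norm_neg, norm_mul, Complex.norm_I, one_mul, Complex.norm_real,
    Real.norm_eq_abs, sq_abs]
  have hs2 : 0 < s ^ 2 := by positivity
  rw [div_le_div_iff_of_pos_right hs2]
  have hn : ∀ r : ℝ, ‖Complex.exp (-(Complex.I * s) * (r : ℝ))‖ = 1 := fun r => by
    rw [← u_exp]; exact Pool.Agent.Restr.norm_u _
  have h1 : ‖Complex.exp (-(Complex.I * s) * (1 / a : ℝ)) +
      Complex.exp (-(Complex.I * s) * (-(1 / a) : ℝ)) - 2‖ ≤ 4 := by
    refine (norm_sub_le _ _).trans ?_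
    have := norm_add_le (Complex.exp (-(Complex.I * s) * (1 / a : ℝ)))
      (Complex.exp (-(Complex.I * s) * (-(1 / a) : ℝ)))
    rw [hn, hn] at this
    have h2 : ‖(2 : ℂ)‖ = 2 := by simp
    linarith
  calc a * _ ≤ a * 4 := mul_le_mul_of_nonneg_left h1 ha.le
    _ = 4 * a := by ring

lemma T_bound {a : ℝ} (ha : 0 < a) (s : ℝ) :
    ‖T a s‖ ≤ (2 * (∫ x : ℝ, tent a x) + 8 * a) * (1 + s ^ 2)⁻¹ := by
  have hK : 0 ≤ ∫ x : ℝ, tent a x := integral_nonneg (tent_nonneg a)
  have hp : 0 < 1 + s ^ 2 := by positivity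
  rw [← div_eq_mul_inv, le_div_iff₀ hp]
  rcases le_or_gt (s ^ 2) 1 with h | h
  · have h1 := T_le (a := a) s
    have : ‖T a s‖ * (1 + s ^ 2) ≤ (∫ x : ℝ, tent a x) * 2 :=
      mul_le_mul h1 (by linarith) hp.le hK
    nlinarith
  · have hs : s ≠ 0 := by rintro rfl; norm_num at h
    have h1 := T_decay ha s hs
    have hs2 : 0 < s ^ 2 := by positivity
    rw [le_div_iff₀ hs2] at h1
    have : ‖T a s‖ * (1 + s ^ 2) ≤ ‖T a s‖ * (2 * s ^ 2) :=
      mul_le_mul_of_nonneg_left (by linarith) (norm_nonneg _)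
    nlinarith

lemma T_integrable {a : ℝ} (ha : 0 < a) : Integrable (T a) := by
  refine Integrable.mono' (integrable_inv_one_add_sq.const_mul
    (2 * (∫ x : ℝ, tent a x) + 8 * a)) (T_continuous ha).aestronglyMeasurable ?_
  exact Filter.Eventually.of_forall fun s => T_bound ha s

lemma T_fourier (a ξ : ℝ) : FourierTransform.fourier (fun x : ℝ => ((tent a x : ℝ) : ℂ)) ξ =
    T a (2 * Real.pi * ξ) := by
  rw [Real.fourier_real_eq_integral_exp_smul]
  unfold T
  congr 1
  ext x
  rw [u_exp, smul_eq_mul]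
  congr 2
  push_cast
  ring

lemma T_inv {a : ℝ} (ha : 0 < a) (x : ℝ) :
    ∫ s : ℝ, u (-(s * x)) * T a s = 2 * Real.pi * ((tent a x : ℝ) : ℂ) := by
  have hpi : (2 * Real.pi : ℝ) ≠ 0 := by positivity
  have hFeq : FourierTransform.fourier (fun x : ℝ => ((tent a x : ℝ) : ℂ)) =
      fun ξ => T a (2 * Real.pi * ξ) := by
    ext ξ; exact T_fourier a ξ
  have hint : Integrable (FourierTransform.fourier (fun x : ℝ => ((tent a x : ℝ) : ℂ))) := by
    rw [hFeq]
    exact (T_integrable ha).comp_mul_left' hpi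
  have hinv := congrFun ((tentC_continuous a).fourierInv_fourier_eq (tent_integrable ha) hint) x
  rw [Real.fourierInv_eq', hFeq] at hinv
  have h := MeasureTheory.Measure.integral_comp_mul_left (fun s : ℝ => u (-(s * x)) * T a s)
    (2 * Real.pi)
  have h2 : (∫ ξ : ℝ, u (-(2 * Real.pi * ξ * x)) * T a (2 * Real.pi * ξ)) =
      ((tent a x : ℝ) : ℂ) := by
    rw [← hinv]
    congr 1
    ext ξ
    rw [smul_eq_mul]
    congr 1
    unfold Pool.Agent.Restr.u
    congr 1
    simp
    ring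
  rw [h2] at h
  rw [abs_of_pos (by positivity), eq_comm, inv_smul_eq_iff₀ hpi] at h
  rw [h]
  rw [Complex.real_smul]
  push_cast
  ring

lemma hat_pyr (a : ℝ) (y : ℝ × ℝ) : hat (pyr a) y = T a y.1 * T a y.2 := by
  unfold hat T
  rw [← integral_prod_mul (fun x : ℝ => u (y.1 * x) * ((tent a x : ℝ) : ℂ))
    (fun x : ℝ => u (y.2 * x) * ((tent a x : ℝ) : ℂ))]
  congr 1
  ext z
  unfold pyr
  rw [Pool.Agent.Restr.u_add]
  push_cast
  ring

lemma pyr_integrable {a : ℝ} (ha : 0 < a) : Integrable (pyr a) := by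
  have h := (tent_integrable ha).mul_prod (tent_integrable ha)
  refine h.congr (Filter.Eventually.of_forall fun x => ?_)
  unfold pyr
  push_cast
  rfl

lemma hat_integrable {a : ℝ} (ha : 0 < a) : Integrable (hat (pyr a)) := by
  have h := (T_integrable ha).mul_prod (T_integrable ha)
  refine h.congr (Filter.Eventually.of_forall fun y => ?_)
  exact (hat_pyr a y).symm

end TEN_

theorem p_TEN : T_TEN := by
  intro a ha
  refine ⟨TEN_.pyr_integrable ha, TEN_.hat_integrable ha, ?_, ?_⟩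
  · intro s hs
    set K : ℝ := (∫ x : ℝ, tent a x) * (∫ x : ℝ, tent a x) with hK
    have hK0 : 0 ≤ ∫ x : ℝ, tent a x := integral_nonneg (TEN_.tent_nonneg a)
    have hb : ∀ y, ‖hat (pyr a) y‖ₑ ≤ ENNReal.ofReal K := by
      intro y
      rw [← ofReal_norm]
      apply ENNReal.ofReal_le_ofReal
      rw [TEN_.hat_pyr, norm_mul]
      exact mul_le_mul (TEN_.T_le _) (TEN_.T_le _) (norm_nonneg _) hK0
    have hle : ∀ y, ‖hat (pyr a) y‖ₑ ^ s ≤ (ENNReal.ofReal K) ^ (s - 1) * ‖hat (pyr a) y‖ₑ := by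
      intro y
      calc ‖hat (pyr a) y‖ₑ ^ s = ‖hat (pyr a) y‖ₑ ^ (s - 1 + 1) := by ring_nf
        _ = ‖hat (pyr a) y‖ₑ ^ (s - 1) * ‖hat (pyr a) y‖ₑ ^ (1 : ℝ) :=
            ENNReal.rpow_add_of_nonneg _ _ (by linarith) (by norm_num)
        _ = ‖hat (pyr a) y‖ₑ ^ (s - 1) * ‖hat (pyr a) y‖ₑ := by rw [ENNReal.rpow_one]
        _ ≤ _ := mul_le_mul_left (ENNReal.rpow_le_rpow (hb y) (by linarith)) _
    calc ∫⁻ y, ‖hat (pyr a) y‖ₑ ^ s
        ≤ ∫⁻ y, (ENNReal.ofReal K) ^ (s - 1) * ‖hat (pyr a) y‖ₑ := lintegral_mono hle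
      _ = (ENNReal.ofReal K) ^ (s - 1) * ∫⁻ y, ‖hat (pyr a) y‖ₑ :=
          lintegral_const_mul' _ _ (ENNReal.rpow_ne_top_of_nonneg (by linarith) ENNReal.ofReal_ne_top)
      _ < ∞ := ENNReal.mul_lt_top
          (ENNReal.rpow_ne_top_of_nonneg (by linarith) ENNReal.ofReal_ne_top).lt_top
          (TEN_.hat_integrable ha).2
  · intro x
    have h1 : ∀ y : ℝ × ℝ, u (-(y.1 * x.1 + y.2 * x.2)) * hat (pyr a) y =
        (u (-(y.1 * x.1)) * TEN_.T a y.1) * (u (-(y.2 * x.2)) * TEN_.T a y.2) := by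
      intro y
      rw [TEN_.hat_pyr, neg_add, Pool.Agent.Restr.u_add]
      ring
    simp_rw [h1]
    rw [show (volume : Measure (ℝ × ℝ)) = (volume : Measure ℝ).prod volume from rfl,
      integral_prod_mul (fun s : ℝ => u (-(s * x.1)) * TEN_.T a s)
      (fun s : ℝ => u (-(s * x.2)) * TEN_.T a s), TEN_.T_inv ha, TEN_.T_inv ha]
    unfold pyr
    push_cast
    ring

end Wex
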