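import Pool.Agent.Wex.Targets3
import Pool.Agent.Wey.SLI

/-!
# MP_5ab805_an, time slices: dispersion for the fixed function (helper10)
-/

set_option autoImplicit false

namespace Wex

open MeasureTheory Set Filter
open scoped ENNReal NNReal Topology
open Pool.Agent.Restr (u E QQ)
open TriL (Sq n2)
open Wey (nq lam hat gup gdn blk Tk Sl Wi InD)

namespace WUP_

theorem tent_zero {x : ℝ} (hx : 1 / 2 < |x|) : tent 3 x = 0 := by
  unfold tent
  apply max_eq_left
  linarith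

theorem tent_cont (a : ℝ) : Continuous (tent a) := by
  unfold tent
  fun_prop

theorem pyr_cont (a : ℝ) : Continuous (pyr a) := by
  have := tent_cont a
  unfold pyr
  fun_prop

theorem pyr_zero {x : ℝ × ℝ} (hx : x ∉ QQ) : pyr 3 x = 0 := by
  have h : 1 / 2 < |x.1| ∨ 1 / 2 < |x.2| := by
    by_contra hc
    push Not at hc
    apply hx
    obtain ⟨h1, h2⟩ := hc
    rw [abs_le] at h1 h2
    exact ⟨⟨by linarith [h1.1], h1.2⟩, ⟨by linarith [h2.1], h2.2⟩⟩
  unfold pyr
  rcases h with h | h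
  · rw [tent_zero h]; simp
  · rw [tent_zero h]; simp

theorem nq_nonneg (x : ℝ × ℝ) : 0 ≤ nq x := by
  unfold nq; positivity

theorem gup_ww : gup ww = pyr 3 := by
  funext x
  unfold gup ww gdn
  rw [← mul_assoc, ← Complex.ofReal_mul, ← Real.exp_add, add_neg_cancel, Real.exp_zero]
  simp

theorem ww_cont : Continuous ww := by
  have h := pyr_cont 3
  unfold ww gdn nq
  fun_prop

theorem ww_sq : Sq ww := by
  refine ⟨ww_cont.measurable, fun x hx => ?_⟩
  unfold ww gdn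
  rw [pyr_zero hx, mul_zero]

theorem ww_int (h : Integrable (pyr 3)) : Integrable ww := by
  refine h.mono ww_cont.aestronglyMeasurable (Eventually.of_forall fun x => ?_)
  unfold ww gdn
  rw [norm_mul, Complex.norm_real, Real.norm_eq_abs, abs_of_pos (Real.exp_pos _)]
  have h1 : Real.exp (-nq x) ≤ 1 := Real.exp_le_one_iff.2 (by linarith [nq_nonneg x])
  exact mul_le_of_le_one_left (norm_nonneg _) h1

theorem norm_lam_le (s : ℝ) : ‖lam s‖ ≤ 1 / (1 + |s|) := by
  have h1 := Wey.SLI_.norm_lam_sq s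
  have h2 : 0 < 1 + |s| := by positivity
  have h3 : ‖lam s‖ ^ 2 ≤ (1 / (1 + |s|)) ^ 2 := by
    rw [h1, div_pow, one_pow]
    apply one_div_le_one_div_of_le (by positivity)
    have := sq_abs s
    nlinarith [sq_nonneg (|s| - 1)]
  exact le_of_sq_le_sq h3 (by positivity)

end WUP_

open WUP_ in
theorem p_WUP (h1 : Wey.T_REP) (h2 : T_TEN) : T_WUP := by
  obtain ⟨hi, hh, -, -⟩ := h2 3 (by norm_num)
  have hI : 0 ≤ ∫ y, ‖hat (pyr 3) y‖ := integral_nonneg fun _ => norm_nonneg _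
  refine ⟨(∫ y, ‖hat (pyr 3) y‖) / Real.pi + 1, by positivity, fun p s => ?_⟩
  rw [h1.1 ww ww_sq (ww_int hi) p s, gup_ww, norm_mul, norm_div, Complex.norm_real,
    Real.norm_eq_abs, abs_of_pos Real.pi_pos]
  have h3 : ‖∫ y : ℝ × ℝ, Complex.exp (-(lam s * ((nq (p.1 - y.1, p.2 - y.2) : ℝ) : ℂ))) *
      hat (pyr 3) y‖ ≤ ∫ y, ‖hat (pyr 3) y‖ := by
    refine norm_integral_le_of_norm_le hh.norm (Eventually.of_forall fun y => ?_)
    rw [norm_mul, Complex.norm_exp]
    have h4 : (-(lam s * ((nq (p.1 - y.1, p.2 - y.2) : ℝ) : ℂ))).re ≤ 0 := by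
      rw [Complex.neg_re, Complex.re_mul_ofReal]
      have := Wey.SLI_.lam_re_pos s
      have := nq_nonneg (p.1 - y.1, p.2 - y.2)
      nlinarith
    exact mul_le_of_le_one_left (norm_nonneg _) (Real.exp_le_one_iff.2 h4)
  have h5 := norm_lam_le s
  have h6 : 0 < 1 + |s| := by positivity
  calc ‖lam s‖ / Real.pi * ‖∫ y : ℝ × ℝ,
        Complex.exp (-(lam s * ((nq (p.1 - y.1, p.2 - y.2) : ℝ) : ℂ))) * hat (pyr 3) y‖
      ≤ (1 / (1 + |s|)) / Real.pi * ∫ y, ‖hat (pyr 3) y‖ := by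
        gcongr
    _ = ((∫ y, ‖hat (pyr 3) y‖) / Real.pi) / (1 + |s|) := by
        field_simp
    _ ≤ ((∫ y, ‖hat (pyr 3) y‖) / Real.pi + 1) / (1 + |s|) := by
        gcongr
        linarith

end Wex
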