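import Pool.Agent.Wex.Targets3
import Pool.Agent.Wex.WUP
import Pool.Agent.Wey.SLI

/-!
# MP_5ab805_an, time slices: lower bound near the axis (helper76)
-/

set_option autoImplicit false

namespace Wex

open MeasureTheory Set Filter
open scoped ENNReal NNReal Topology
open Pool.Agent.Restr (u E QQ)
open TriL (Sq n2)
open Wey (nq lam hat gup gdn blk Tk Sl Wi InD)

namespace WLO_

theorem exp_sub_one {z : ℂ} {c : ℝ} (hc : 0 ≤ c) (hz : z.re ≤ c) :
    ‖Complex.exp z - 1‖ ≤ Real.exp c * ‖z‖ := by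
  have h := Convex.norm_image_sub_le_of_norm_deriv_le (𝕜 := ℂ) (f := Complex.exp)
    (s := {w : ℂ | w.re ≤ c}) (C := Real.exp c) (x := 0) (y := z)
    (fun w _ => Complex.differentiableAt_exp)
    (fun w hw => by
      rw [Complex.deriv_exp, Complex.norm_exp]
      exact Real.exp_le_exp.mpr hw) (convex_halfSpace_re_le c) (by simpa using hc) hz
  simpa using h

theorem one_ne (s : ℝ) : (1 + (s : ℂ) * Complex.I) ≠ 0 := by
  intro h
  have := congrArg Complex.re h
  simp at this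

theorem sub_ne (s : ℝ) : ((s : ℂ) - Complex.I) ≠ 0 := by
  intro h
  have := congrArg Complex.im h
  simp at this

/-- the coefficient of `p · y` -/
theorem lam_two {s : ℝ} (hs : s ≠ 0) :
    2 * lam s + Complex.I / (2 * s) = 1 / (2 * s * (s - Complex.I)) := by
  unfold lam
  have h1 := one_ne s
  have h2 := sub_ne s
  have h3 : (s : ℂ) ≠ 0 := by exact_mod_cast hs
  field_simp
  ring_nf
  rw [show (Complex.I : ℂ) ^ 3 = -Complex.I by rw [pow_succ, Complex.I_sq]; ring]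
  rw [Complex.I_sq]
  ring

theorem norm_lam_two {s : ℝ} (hs : 0 < s) :
    ‖2 * lam s + Complex.I / (2 * s)‖ ≤ 1 / (2 * s ^ 2) := by
  rw [lam_two hs.ne', norm_div, norm_one, norm_mul, norm_mul, Complex.norm_real,
    Real.norm_eq_abs, abs_of_pos hs]
  have h1 : s ≤ ‖(s : ℂ) - Complex.I‖ := by
    have := Complex.abs_re_le_norm ((s : ℂ) - Complex.I)
    simp only [Complex.sub_re, Complex.ofReal_re, Complex.I_re, sub_zero] at this
    exact (le_abs_self s).trans this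
  have h2 : ‖(2 : ℂ)‖ = 2 := by norm_num
  rw [h2]
  apply one_div_le_one_div_of_le (by positivity)
  nlinarith

theorem norm_lam_up {s : ℝ} (hs : 0 < s) : ‖lam s‖ ≤ 1 / (4 * s) := by
  have h1 := Wey.SLI_.norm_lam_sq s
  have h3 : ‖lam s‖ ^ 2 ≤ (1 / (4 * s)) ^ 2 := by
    rw [h1, div_pow, one_pow]
    apply one_div_le_one_div_of_le (by positivity)
    nlinarith
  exact le_of_sq_le_sq h3 (by positivity)

theorem norm_lam_lo {s : ℝ} (hs : 1 ≤ s) : 1 / (8 * s) ≤ ‖lam s‖ := by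
  have h1 := Wey.SLI_.norm_lam_sq s
  have h3 : (1 / (8 * s)) ^ 2 ≤ ‖lam s‖ ^ 2 := by
    rw [h1, div_pow, one_pow]
    apply one_div_le_one_div_of_le (by positivity)
    nlinarith
  exact le_of_sq_le_sq h3 (norm_nonneg _)

theorem lam_re (s : ℝ) : (lam s).re = 1 / (4 * (1 + s ^ 2)) := by
  have h1 := one_ne s
  have h2 : lam s = ((1 / (4 * (1 + s ^ 2)) : ℝ) : ℂ) * (1 - s * Complex.I) := by
    unfold lam
    have h3 : (1 + (s : ℂ) ^ 2) ≠ 0 := by
      have : (0 : ℝ) < 1 + s ^ 2 := by positivity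
      exact_mod_cast this.ne'
    push_cast
    field_simp
    ring_nf
    rw [Complex.I_sq]
    ring
  rw [h2, Complex.re_ofReal_mul]
  simp

/-- the weight -/
noncomputable def w (y : ℝ × ℝ) : ℝ := (|y.1| + |y.2| + nq y) / 4

theorem w_nonneg (y : ℝ × ℝ) : 0 ≤ w y := by
  have := WUP_.nq_nonneg y
  unfold w
  positivity

theorem w_cont : Continuous w := by
  unfold w nq
  fun_prop

/-- the exponents -/
noncomputable def A (p : ℝ × ℝ) (s : ℝ) (y : ℝ × ℝ) : ℂ :=
  2 * lam s * ((p.1 * y.1 + p.2 * y.2 : ℝ) : ℂ) - lam s * ((nq y : ℝ) : ℂ)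

noncomputable def B (p : ℝ × ℝ) (s : ℝ) (y : ℝ × ℝ) : ℂ :=
  -(Complex.I / (2 * s)) * ((p.1 * y.1 + p.2 * y.2 : ℝ) : ℂ)

theorem A_cont (p : ℝ × ℝ) (s : ℝ) : Continuous (A p s) := by
  unfold A nq
  fun_prop

theorem B_cont (p : ℝ × ℝ) (s : ℝ) : Continuous (B p s) := by
  unfold B
  fun_prop

theorem nq_le {p : ℝ × ℝ} {s : ℝ} (h1 : |p.1| ≤ s / 8) (h2 : |p.2| ≤ s / 8) :
    nq p ≤ s ^ 2 / 32 := by
  unfold nq
  have e1 : p.1 ^ 2 ≤ (s / 8) ^ 2 := by
    rw [← sq_abs]; exact pow_le_pow_left₀ (abs_nonneg _) h1 2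
  have e2 : p.2 ^ 2 ≤ (s / 8) ^ 2 := by
    rw [← sq_abs]; exact pow_le_pow_left₀ (abs_nonneg _) h2 2
  nlinarith

theorem lam_nq_le {p : ℝ × ℝ} {s : ℝ} (h1 : |p.1| ≤ s / 8) (h2 : |p.2| ≤ s / 8) :
    (lam s).re * nq p ≤ 1 / 128 := by
  rw [lam_re]
  have h := nq_le h1 h2
  have h3 : (0 : ℝ) < 4 * (1 + s ^ 2) := by positivity
  rw [div_mul_eq_mul_div, one_mul, div_le_div_iff₀ h3 (by norm_num)]
  nlinarith [sq_nonneg s]

theorem A_re {p : ℝ × ℝ} {s : ℝ} (h1 : |p.1| ≤ s / 8) (h2 : |p.2| ≤ s / 8) (y : ℝ × ℝ) :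
    (A p s y).re ≤ 1 / 128 := by
  have h3 : (A p s y).re = (lam s).re * (nq p - nq (p.1 - y.1, p.2 - y.2)) := by
    unfold A
    rw [Complex.sub_re, Complex.re_mul_ofReal, Complex.re_mul_ofReal]
    have : (2 * lam s).re = 2 * (lam s).re := by simp
    rw [this]
    unfold nq
    ring
  rw [h3, mul_sub]
  have h4 := lam_nq_le h1 h2
  have h5 := mul_nonneg (Wey.SLI_.lam_re_pos s).le (WUP_.nq_nonneg (p.1 - y.1, p.2 - y.2))
  linarith

theorem B_norm (p : ℝ × ℝ) (s : ℝ) (y : ℝ × ℝ) : ‖Complex.exp (B p s y)‖ = 1 := by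
  have : B p s y = ((-((p.1 * y.1 + p.2 * y.2) / (2 * s)) : ℝ) : ℂ) * Complex.I := by
    unfold B
    push_cast
    ring
  rw [this, Complex.norm_exp_ofReal_mul_I]

theorem B_re (p : ℝ × ℝ) (s : ℝ) (y : ℝ × ℝ) : (B p s y).re = 0 := by
  have : B p s y = ((-((p.1 * y.1 + p.2 * y.2) / (2 * s)) : ℝ) : ℂ) * Complex.I := by
    unfold B
    push_cast
    ring
  rw [this, Complex.re_ofReal_mul]
  simp

theorem exp_small : Real.exp (1 / 128) ≤ 2 := by
  have h1 : Real.exp (1 / 128) ≤ Real.exp (Real.log 2) := by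
    apply Real.exp_le_exp.2
    have := Real.log_two_gt_d9
    linarith
  rwa [Real.exp_log (by norm_num)] at h1

theorem A_norm {p : ℝ × ℝ} {s : ℝ} (h1 : |p.1| ≤ s / 8) (h2 : |p.2| ≤ s / 8) (y : ℝ × ℝ) :
    ‖Complex.exp (A p s y)‖ ≤ 2 := by
  rw [Complex.norm_exp]
  exact (Real.exp_le_exp.2 (A_re h1 h2 y)).trans exp_small

theorem AB {p : ℝ × ℝ} {s : ℝ} (hs : 0 < s) (h1 : |p.1| ≤ s / 8) (h2 : |p.2| ≤ s / 8)
    (y : ℝ × ℝ) : ‖A p s y - B p s y‖ ≤ w y / s := by
  have e1 : A p s y - B p s y = (2 * lam s + Complex.I / (2 * s)) *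
      ((p.1 * y.1 + p.2 * y.2 : ℝ) : ℂ) - lam s * ((nq y : ℝ) : ℂ) := by
    unfold A B
    ring
  rw [e1]
  have h3 := norm_lam_two hs
  have h4 := norm_lam_up hs
  have h5 : |p.1 * y.1 + p.2 * y.2| ≤ s / 8 * (|y.1| + |y.2|) := by
    calc |p.1 * y.1 + p.2 * y.2| ≤ |p.1 * y.1| + |p.2 * y.2| := abs_add_le _ _
      _ = |p.1| * |y.1| + |p.2| * |y.2| := by rw [abs_mul, abs_mul]
      _ ≤ s / 8 * |y.1| + s / 8 * |y.2| := by gcongr
      _ = _ := by ring
  have h6 := WUP_.nq_nonneg y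
  calc ‖(2 * lam s + Complex.I / (2 * s)) * ((p.1 * y.1 + p.2 * y.2 : ℝ) : ℂ) -
        lam s * ((nq y : ℝ) : ℂ)‖
      ≤ ‖2 * lam s + Complex.I / (2 * s)‖ * |p.1 * y.1 + p.2 * y.2| + ‖lam s‖ * nq y := by
        refine (norm_sub_le _ _).trans ?_
        rw [norm_mul, norm_mul, Complex.norm_real, Complex.norm_real, Real.norm_eq_abs,
          Real.norm_eq_abs, abs_of_nonneg h6]
    _ ≤ 1 / (2 * s ^ 2) * (s / 8 * (|y.1| + |y.2|)) + 1 / (4 * s) * nq y := by
        gcongr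
    _ = ((|y.1| + |y.2|) / 16 + nq y / 4) / s := by
        field_simp
        ring
    _ ≤ w y / s := by
        unfold w
        have := abs_nonneg y.1
        have := abs_nonneg y.2
        gcongr
        linarith

theorem diff {p : ℝ × ℝ} {s : ℝ} (hs : 0 < s) (h1 : |p.1| ≤ s / 8) (h2 : |p.2| ≤ s / 8)
    (y : ℝ × ℝ) :
    ‖Complex.exp (A p s y) - Complex.exp (B p s y)‖ ≤ min 3 (2 * w y / s) := by
  refine le_min ?_ ?_
  · calc ‖Complex.exp (A p s y) - Complex.exp (B p s y)‖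
        ≤ ‖Complex.exp (A p s y)‖ + ‖Complex.exp (B p s y)‖ := norm_sub_le _ _
      _ ≤ 2 + 1 := add_le_add (A_norm h1 h2 y) (B_norm p s y).le
      _ = 3 := by norm_num
  · have e : Complex.exp (A p s y) - Complex.exp (B p s y) =
        Complex.exp (B p s y) * (Complex.exp (A p s y - B p s y) - 1) := by
      rw [mul_sub, ← Complex.exp_add]
      ring_nf
    rw [e, norm_mul, B_norm, one_mul]
    have h3 : (A p s y - B p s y).re ≤ 1 / 128 := by
      rw [Complex.sub_re, B_re, sub_zero]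
      exact A_re h1 h2 y
    refine (exp_sub_one (by norm_num) h3).trans ?_
    calc Real.exp (1 / 128) * ‖A p s y - B p s y‖ ≤ 2 * (w y / s) :=
          mul_le_mul exp_small (AB hs h1 h2 y) (norm_nonneg _) (by norm_num)
      _ = 2 * w y / s := by ring

theorem tendsto (H : ℝ × ℝ → ℂ) (hH : Integrable H) :
    Tendsto (fun s : ℝ => ∫ y, min 3 (2 * w y / s) * ‖H y‖) atTop (𝓝 0) := by
  have h := tendsto_integral_filter_of_dominated_convergence (μ := volume)
    (F := fun (s : ℝ) (y : ℝ × ℝ) => min 3 (2 * w y / s) * ‖H y‖) (f := fun _ => (0 : ℝ))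
    (l := (atTop : Filter ℝ)) (fun y => 3 * ‖H y‖) ?_ ?_ (hH.norm.const_mul 3) ?_
  · simpa using h
  · refine Eventually.of_forall fun s => ?_
    have h1 : Continuous fun y : ℝ × ℝ => min 3 (2 * w y / s) := by
      have := w_cont
      fun_prop
    exact h1.aestronglyMeasurable.mul hH.norm.aestronglyMeasurable
  · filter_upwards [eventually_ge_atTop 1] with s hs
    refine Eventually.of_forall fun y => ?_
    have h2 : 0 ≤ min 3 (2 * w y / s) := by
      have := w_nonneg y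
      exact le_min (by norm_num) (by positivity)
    rw [norm_mul, norm_norm, Real.norm_eq_abs, abs_of_nonneg h2]
    exact mul_le_mul_of_nonneg_right (min_le_left _ _) (norm_nonneg _)
  · refine Eventually.of_forall fun y => ?_
    have h1 : Tendsto (fun s : ℝ => 2 * w y / s) atTop (𝓝 0) :=
      tendsto_const_nhds.div_atTop tendsto_id
    have h2 : Tendsto (fun s : ℝ => min 3 (2 * w y / s)) atTop (𝓝 (min 3 0)) :=
      tendsto_const_nhds.min h1
    rw [min_eq_right (by norm_num : (0 : ℝ) ≤ 3)] at h2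
    simpa using h2.mul_const ‖H y‖

/-- the tent near the origin -/
theorem pyr_lo {x : ℝ × ℝ} (h1 : |x.1| ≤ 1 / 16) (h2 : |x.2| ≤ 1 / 16) :
    1 / 2 ≤ ‖pyr 3 x‖ := by
  have e1 : 13 / 16 ≤ tent 3 x.1 := by
    unfold tent
    exact le_max_of_le_right (by linarith)
  have e2 : 13 / 16 ≤ tent 3 x.2 := by
    unfold tent
    exact le_max_of_le_right (by linarith)
  unfold pyr
  rw [Complex.norm_real, Real.norm_eq_abs, abs_of_nonneg (by positivity)]
  nlinarith

end WLO_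

open WLO_ in
theorem p_WLO (h1 : Wey.T_REP) (h2 : T_TEN) : T_WLO := by
  obtain ⟨hi, hh, -, hinv⟩ := h2 3 (by norm_num)
  have hpi := Real.pi_pos
  have hev := (tendsto (hat (pyr 3)) hh).eventually_lt_const (show (0 : ℝ) < Real.pi ^ 2 by
    positivity)
  obtain ⟨s₁, hs₁⟩ := eventually_atTop.1 hev
  refine ⟨Real.pi / 16, max 1 s₁, by positivity, le_max_left _ _, fun p s hs hp1 hp2 => ?_⟩
  have hs1 : 1 ≤ s := (le_max_left _ _).trans hs
  have hs0 : 0 < s := by linarith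
  have hsm := hs₁ s ((le_max_right _ _).trans hs)
  rw [h1.1 ww WUP_.ww_sq (WUP_.ww_int hi) p s, WUP_.gup_ww]
  -- factor out the Gaussian of `p`
  have e1 : ∀ y : ℝ × ℝ, Complex.exp (-(lam s * ((nq (p.1 - y.1, p.2 - y.2) : ℝ) : ℂ))) *
      hat (pyr 3) y = Complex.exp (-(lam s * ((nq p : ℝ) : ℂ))) *
        (Complex.exp (A p s y) * hat (pyr 3) y) := by
    intro y
    rw [← mul_assoc, ← Complex.exp_add]
    congr 2
    unfold A nq
    push_cast
    ring
  simp_rw [e1]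
  rw [integral_const_mul]
  -- the two integrals
  have hAi : Integrable fun y : ℝ × ℝ => Complex.exp (A p s y) * hat (pyr 3) y := by
    refine Integrable.mono' (hh.norm.const_mul 2) ?_ (Eventually.of_forall fun y => ?_)
    · exact ((A_cont p s).cexp.aestronglyMeasurable).mul hh.aestronglyMeasurable
    · rw [norm_mul]
      exact mul_le_mul_of_nonneg_right (A_norm hp1 hp2 y) (norm_nonneg _)
  have hBi : Integrable fun y : ℝ × ℝ => Complex.exp (B p s y) * hat (pyr 3) y := by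
    refine Integrable.mono' hh.norm ?_ (Eventually.of_forall fun y => ?_)
    · exact ((B_cont p s).cexp.aestronglyMeasurable).mul hh.aestronglyMeasurable
    · rw [norm_mul, B_norm, one_mul]
  have hmain : ∫ y : ℝ × ℝ, Complex.exp (B p s y) * hat (pyr 3) y =
      4 * Real.pi ^ 2 * pyr 3 (-(p.1 / (2 * s)), -(p.2 / (2 * s))) := by
    rw [← hinv (-(p.1 / (2 * s)), -(p.2 / (2 * s)))]
    refine integral_congr_ae (Eventually.of_forall fun y => ?_)
    simp only
    congr 1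
    unfold u B
    congr 1
    push_cast
    ring
  have hx : ∀ a : ℝ, |a| ≤ s / 8 → |-(a / (2 * s))| ≤ 1 / 16 := by
    intro a ha
    rw [abs_neg, abs_div, abs_of_pos (by positivity : (0 : ℝ) < 2 * s), div_le_iff₀ (by positivity)]
    linarith
  have hlow : 2 * Real.pi ^ 2 ≤ ‖∫ y : ℝ × ℝ, Complex.exp (B p s y) * hat (pyr 3) y‖ := by
    rw [hmain, norm_mul, norm_mul, norm_pow, Complex.norm_real, Real.norm_eq_abs,
      abs_of_pos hpi]
    have h3 := pyr_lo (x := (-(p.1 / (2 * s)), -(p.2 / (2 * s)))) (hx _ hp1) (hx _ hp2)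
    have h4 : ‖(4 : ℂ)‖ = 4 := by norm_num
    rw [h4]
    have h5 : 0 < Real.pi ^ 2 := by positivity
    nlinarith
  have hdiff : ‖(∫ y : ℝ × ℝ, Complex.exp (A p s y) * hat (pyr 3) y) -
      ∫ y : ℝ × ℝ, Complex.exp (B p s y) * hat (pyr 3) y‖ ≤ Real.pi ^ 2 := by
    rw [← integral_sub hAi hBi]
    refine (norm_integral_le_of_norm_le (g := fun y => min 3 (2 * w y / s) * ‖hat (pyr 3) y‖)
      ?_ (Eventually.of_forall fun y => ?_)).trans hsm.le
    · refine Integrable.mono' (hh.norm.const_mul 3) ?_ (Eventually.of_forall fun y => ?_)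
      · have h1 : Continuous fun y : ℝ × ℝ => min 3 (2 * w y / s) := by
          have := w_cont
          fun_prop
        exact h1.aestronglyMeasurable.mul hh.norm.aestronglyMeasurable
      · have h2 : 0 ≤ min 3 (2 * w y / s) := by
          have := w_nonneg y
          exact le_min (by norm_num) (by positivity)
        rw [norm_mul, norm_norm, Real.norm_eq_abs, abs_of_nonneg h2]
        exact mul_le_mul_of_nonneg_right (min_le_left _ _) (norm_nonneg _)
    · rw [← sub_mul, norm_mul]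
      exact mul_le_mul_of_nonneg_right (diff hs0 hp1 hp2 y) (norm_nonneg _)
  have hint : Real.pi ^ 2 ≤ ‖∫ y : ℝ × ℝ, Complex.exp (A p s y) * hat (pyr 3) y‖ := by
    have h3 := norm_sub_norm_le (∫ y : ℝ × ℝ, Complex.exp (B p s y) * hat (pyr 3) y)
      (∫ y : ℝ × ℝ, Complex.exp (A p s y) * hat (pyr 3) y)
    rw [norm_sub_rev] at h3
    linarith
  have hg : 1 / 2 ≤ ‖Complex.exp (-(lam s * ((nq p : ℝ) : ℂ)))‖ := by
    rw [Wey.SLI_.norm_gauss]
    have h3 := lam_nq_le hp1 hp2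
    have h4 := Real.add_one_le_exp (-((lam s).re * nq p))
    linarith
  have hlam := norm_lam_lo hs1
  rw [norm_mul, norm_mul, norm_div, Complex.norm_real, Real.norm_eq_abs, abs_of_pos hpi]
  calc Real.pi / 16 / s = 1 / (8 * s) / Real.pi * (1 / 2 * Real.pi ^ 2) := by
        field_simp
        norm_num
    _ ≤ ‖lam s‖ / Real.pi * (‖Complex.exp (-(lam s * ((nq p : ℝ) : ℂ)))‖ *
        ‖∫ y : ℝ × ℝ, Complex.exp (A p s y) * hat (pyr 3) y‖) := by
        gcongr

end Wex
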