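import Pool.Agent.Wex.All
import Pool.Agent.Wex.TEN
import Pool.Agent.Wex.WUP
import Pool.Agent.Wex.WLO
import Pool.Agent.Wex.RUD
import Pool.Agent.Wex.AVE
import Pool.Agent.Wex.KNA
import Pool.Agent.Wex.SLN
import Pool.Agent.Wex.NEC

/-!
# MP_5ab805_an: time slices, necessary conditions, assembly (helper91)
-/

set_option autoImplicit false

namespace Wex

/-- necessary conditions for the bilinear and the trilinear inequality -/
theorem nec : T_NEC :=
  p_NEC (p_AVE (p_WUP Wey.p_REP p_TEN) (p_WLO Wey.p_REP p_TEN) p_RUD) p_KNA (p_SLN p_TEN)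

end Wex
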