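import Pool.Agent.Wex.Targets2

/-!
# MP_5ab805_an, spectra on curves and arbitrary spectra: DSH (helper67)

`s` discs separate at most `16 (s+1)²` points of the plane.
-/

set_option autoImplicit false

namespace Wex

namespace DSH_

/-- two different circles, and the side of the line through the centres: one point -/
lemma two_circles {a b p q : ℝ × ℝ} {ra rb : ℝ} (hab : a ≠ b)
    (hp : d2 p a = ra) (hp' : d2 p b = rb) (hq : d2 q a = ra) (hq' : d2 q b = rb)
    (hs : 0 ≤ (p.1 - a.1) * (b.2 - a.2) - (p.2 - a.2) * (b.1 - a.1) ↔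
      0 ≤ (q.1 - a.1) * (b.2 - a.2) - (q.2 - a.2) * (b.1 - a.1)) : p = q := by
  unfold d2 at hp hp' hq hq'
  set u := b.1 - a.1 with hu
  set v := b.2 - a.2 with hv
  set X := p.1 - a.1 with hX
  set Y := p.2 - a.2 with hY
  set X' := q.1 - a.1 with hX'
  set Y' := q.2 - a.2 with hY'
  have e1 : p.1 - b.1 = X - u := by rw [hX, hu]; ring
  have e2 : p.2 - b.2 = Y - v := by rw [hY, hv]; ring
  have e3 : q.1 - b.1 = X' - u := by rw [hX', hu]; ring
  have e4 : q.2 - b.2 = Y' - v := by rw [hY', hv]; ring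
  rw [e1, e2] at hp'
  rw [e3, e4] at hq'
  have hD : 0 < u ^ 2 + v ^ 2 := by
    rcases lt_or_eq_of_le (show 0 ≤ u ^ 2 + v ^ 2 by positivity) with h | h
    · exact h
    · exfalso
      have h1 : u = 0 := by nlinarith [sq_nonneg u, sq_nonneg v]
      have h2 : v = 0 := by nlinarith [sq_nonneg u, sq_nonneg v]
      apply hab
      ext
      · rw [hu] at h1; linarith
      · rw [hv] at h2; linarith
  -- inner products agree
  have hin : X * u + Y * v = X' * u + Y' * v := by nlinarith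
  -- squares of the cross products agree
  have hsq : (X * v - Y * u) ^ 2 = (X' * v - Y' * u) ^ 2 := by
    have h1 : (X * v - Y * u) ^ 2 = (X ^ 2 + Y ^ 2) * (u ^ 2 + v ^ 2) - (X * u + Y * v) ^ 2 := by
      ring
    have h2 : (X' * v - Y' * u) ^ 2 =
        (X' ^ 2 + Y' ^ 2) * (u ^ 2 + v ^ 2) - (X' * u + Y' * v) ^ 2 := by ring
    rw [h1, h2, hin, hp, hq]
  have hcr : X * v - Y * u = X' * v - Y' * u := by
    rcases sq_eq_sq_iff_eq_or_eq_neg.mp hsq with h | h
    · exact h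
    · by_cases h0 : 0 ≤ X * v - Y * u
      · have h0' := hs.mp h0
        linarith
      · have h0' : ¬ 0 ≤ X' * v - Y' * u := fun h' => h0 (hs.mpr h')
        push Not at h0 h0'
        linarith
  have hXX : (X - X') * (u ^ 2 + v ^ 2) = 0 := by linear_combination u * hin + v * hcr
  have hYY : (Y - Y') * (u ^ 2 + v ^ 2) = 0 := by linear_combination v * hin - u * hcr
  have h1 : X - X' = 0 := by
    rcases mul_eq_zero.mp hXX with h | h
    · exact h
    · exact absurd h hD.ne'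
  have h2 : Y - Y' = 0 := by
    rcases mul_eq_zero.mp hYY with h | h
    · exact h
    · exact absurd h hD.ne'
  ext
  · rw [hX, hX'] at h1; linarith
  · rw [hY, hY'] at h2; linarith

/-- the two horizontal points of a circle -/
lemma horizontal {a p q : ℝ × ℝ} {ra : ℝ} (hp : d2 p a = ra) (hq : d2 q a = ra)
    (hp2 : p.2 = a.2) (hq2 : q.2 = a.2) (hs : 0 ≤ p.1 - a.1 ↔ 0 ≤ q.1 - a.1) : p = q := by
  unfold d2 at hp hq
  rw [hp2] at hp
  rw [hq2] at hq
  have h : (p.1 - a.1) ^ 2 = (q.1 - a.1) ^ 2 := by linarith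
  have h1 : p.1 - a.1 = q.1 - a.1 := by
    rcases sq_eq_sq_iff_eq_or_eq_neg.mp h with h | h
    · exact h
    · by_cases h0 : 0 ≤ p.1 - a.1
      · have h0' := hs.mp h0
        linarith
      · have h0' : ¬ 0 ≤ q.1 - a.1 := fun h' => h0 (hs.mpr h')
        push Not at h0 h0'
        linarith
  ext
  · linarith
  · rw [hp2, hq2]

/-- `p` lies in the closed region of `x` -/
def Reg {n : ℕ} (c : Fin n → ℝ × ℝ) (r : Fin n → ℝ) (p x : ℝ × ℝ) : Prop :=
  ∀ i, (d2 x (c i) ≤ r i → d2 p (c i) ≤ r i) ∧ (r i < d2 x (c i) → r i ≤ d2 p (c i))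

/-- off the circles through `p`, the points of the closed regions with vertex `p` are on the same
side -/
lemma same_side {n : ℕ} {c : Fin n → ℝ × ℝ} {r : Fin n → ℝ} {p x y : ℝ × ℝ}
    (hx : Reg c r p x) (hy : Reg c r p y) {k : Fin n} (hk : d2 p (c k) ≠ r k) :
    d2 x (c k) ≤ r k ↔ d2 y (c k) ≤ r k := by
  constructor
  · intro h
    by_contra h'
    push Not at h'
    exact hk (le_antisymm ((hx k).1 h) ((hy k).2 h'))
  · intro h
    by_contra h'
    push Not at h'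
    exact hk (le_antisymm ((hy k).1 h) ((hx k).2 h'))

/-- labels of the first kind -/
def GoodA {n : ℕ} (c : Fin n → ℝ × ℝ) (r : Fin n → ℝ) (x : ℝ × ℝ)
    (l : Fin n × Fin n × Bool × Bool × Bool) : Prop :=
  ∃ p, Reg c r p x ∧ l.1 ≠ l.2.1 ∧ d2 p (c l.1) = r l.1 ∧ d2 p (c l.2.1) = r l.2.1 ∧
    (l.2.2.1 = true ↔ 0 ≤ (p.1 - (c l.1).1) * ((c l.2.1).2 - (c l.1).2) -
      (p.2 - (c l.1).2) * ((c l.2.1).1 - (c l.1).1)) ∧
    (l.2.2.2.1 = true ↔ d2 x (c l.1) ≤ r l.1) ∧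
    (l.2.2.2.2 = true ↔ d2 x (c l.2.1) ≤ r l.2.1)

/-- labels of the second kind -/
def GoodB {n : ℕ} (c : Fin n → ℝ × ℝ) (r : Fin n → ℝ) (x : ℝ × ℝ)
    (l : Fin n × Bool × Bool) : Prop :=
  ∃ p, Reg c r p x ∧ d2 p (c l.1) = r l.1 ∧ p.2 = (c l.1).2 ∧
    (∀ k, k ≠ l.1 → d2 p (c k) ≠ r k) ∧
    (l.2.1 = true ↔ 0 ≤ p.1 - (c l.1).1) ∧ (l.2.2 = true ↔ d2 x (c l.1) ≤ r l.1)

/-- labels -/
def Good {n : ℕ} (c : Fin n → ℝ × ℝ) (r : Fin n → ℝ) (x : ℝ × ℝ) :
    (Fin n × Fin n × Bool × Bool × Bool) ⊕ (Fin n × Bool × Bool) → Prop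
  | Sum.inl l => GoodA c r x l
  | Sum.inr l => GoodB c r x l

lemma exists_good {n : ℕ} {c : Fin n → ℝ × ℝ} {r : Fin n → ℝ} {x p : ℝ × ℝ}
    (h : Reg c r p x)
    (hv : (∃ i j, i ≠ j ∧ d2 p (c i) = r i ∧ d2 p (c j) = r j) ∨
      ∃ i, d2 p (c i) = r i ∧ p.2 = (c i).2) :
    ∃ l, Good c r x l := by
  classical
  by_cases hA : ∃ i j, i ≠ j ∧ d2 p (c i) = r i ∧ d2 p (c j) = r j
  · obtain ⟨i, j, hij, hi, hj⟩ := hA
    refine ⟨Sum.inl (i, j, decide (0 ≤ (p.1 - (c i).1) * ((c j).2 - (c i).2) -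
      (p.2 - (c i).2) * ((c j).1 - (c i).1)), decide (d2 x (c i) ≤ r i),
      decide (d2 x (c j) ≤ r j)), p, h, hij, hi, hj, ?_, ?_, ?_⟩ <;> simp
  · rcases hv with hv | ⟨i, hi, hi2⟩
    · exact absurd hv hA
    · refine ⟨Sum.inr (i, decide (0 ≤ p.1 - (c i).1), decide (d2 x (c i) ≤ r i)), p, h, hi, hi2,
        ?_, ?_, ?_⟩
      · intro k hk hk'
        exact hA ⟨k, i, hk, hk', hi⟩
      · simp
      · simp

/-- equal labels: the same traces -/
lemma good_inj {n : ℕ} {c : Fin n → ℝ × ℝ} {r : Fin n → ℝ} {x y : ℝ × ℝ}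
    (hc : ∀ i j, i ≠ j → c i = c j → r i ≠ r j)
    (h3 : ∀ i j k, i ≠ j → j ≠ k → i ≠ k → ∀ p,
      ¬ (d2 p (c i) = r i ∧ d2 p (c j) = r j ∧ d2 p (c k) = r k))
    {l : (Fin n × Fin n × Bool × Bool × Bool) ⊕ (Fin n × Bool × Bool)}
    (hx : Good c r x l) (hy : Good c r y l) (k : Fin n) :
    d2 x (c k) ≤ r k ↔ d2 y (c k) ≤ r k := by
  rcases l with l | l
  · obtain ⟨p, hp, hij, hi, hj, h1, h2, h3'⟩ := hx
    obtain ⟨q, hq, -, hi', hj', h1', h2', h3''⟩ := hy
    have hcc : c l.1 ≠ c l.2.1 := by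
      intro he
      apply hc _ _ hij he
      rw [← hi, ← hj, he]
    have hpq : p = q := two_circles hcc hi hj hi' hj' (h1.symm.trans h1')
    by_cases hk1 : k = l.1
    · rw [hk1]
      exact h2.symm.trans h2'
    by_cases hk2 : k = l.2.1
    · rw [hk2]
      exact h3'.symm.trans h3''
    rw [← hpq] at hq
    refine same_side hp hq ?_
    intro hk
    exact h3 l.1 l.2.1 k hij (fun h => hk2 h.symm) (fun h => hk1 h.symm) p ⟨hi, hj, hk⟩
  · obtain ⟨p, hp, hi, hi2, hne, h1, h2⟩ := hx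
    obtain ⟨q, hq, hi', hi2', hne', h1', h2'⟩ := hy
    have hpq : p = q := horizontal hi hi' hi2 hi2' (h1.symm.trans h1')
    by_cases hk1 : k = l.1
    · rw [hk1]
      exact h2.symm.trans h2'
    rw [← hpq] at hq
    exact same_side hp hq (hne k hk1)

end DSH_

open DSH_ in
theorem p_DSH (h1 : T_DGP) (h2 : T_DMI) : T_DSH := by
  classical
  intro s ρ X hX
  -- one more disc, which contains `X`
  set c : Fin (s + 1) → ℝ × ℝ := Fin.cons (0, 0) (fun i => (ρ i).1) with hc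
  set r : Fin (s + 1) → ℝ := Fin.cons (∑ x ∈ X, d2 x (0, 0)) (fun i => (ρ i).2) with hr
  have hin : ∀ x ∈ X, d2 x (c 0) ≤ r 0 := by
    intro x hx
    have : d2 x (0, 0) ≤ ∑ x ∈ X, d2 x (0, 0) :=
      Finset.single_le_sum (f := fun x : ℝ × ℝ => d2 x (0, 0))
        (fun y _ => by unfold d2; positivity) hx
    simpa [hc, hr] using this
  obtain ⟨r', htr, hcc, h3⟩ := h1 (s + 1) c r X
  have hgood : ∀ x ∈ X, ∃ l, Good c r' x l := by
    intro x hx
    obtain ⟨p, hp, hv⟩ := h2 (s + 1) c r' x 0 ((htr 0 x hx).mp (hin x hx))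
    exact exists_good hp hv
  choose! f hf using hgood
  have hinj : Set.InjOn f (X : Set (ℝ × ℝ)) := by
    intro x hx y hy hxy
    by_contra hne
    obtain ⟨i, hi⟩ := hX x hx y hy hne
    apply hi
    have hlx := hf x hx
    have hly := hf y hy
    rw [← hxy] at hly
    have hk := good_inj hcc h3 hlx hly i.succ
    rw [← htr i.succ x hx, ← htr i.succ y hy] at hk
    simpa [hc, hr, dm] using hk
  have hcard : X.card ≤ Fintype.card ((Fin (s + 1) × Fin (s + 1) × Bool × Bool × Bool) ⊕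
      (Fin (s + 1) × Bool × Bool)) := by
    rw [← Finset.card_univ]
    exact Finset.card_le_card_of_injOn f (fun x _ => Finset.mem_univ _) hinj
  simp only [Fintype.card_sum, Fintype.card_prod, Fintype.card_fin, Fintype.card_bool] at hcard
  have hcard' : (X.card : ℝ) ≤ (s + 1) * ((s + 1) * (2 * (2 * 2))) + (s + 1) * (2 * 2) := by
    exact_mod_cast hcard
  have hs : (0 : ℝ) ≤ s := Nat.cast_nonneg s
  nlinarith

end Wex
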