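import Pool.Agent.Wey.Targets2

/-!
# MP_5ab805_an, spectra on curves: definitions (helper91)

Generalisation of `Pool/Agent/Wey` from the frequencies `(h n, ψ n)` to arbitrary separated
sequences `z_n = (φ n, ψ n)`, `α ≤ n < β`, of bounded annular complexity.
-/

set_option autoImplicit false

namespace Wex

open MeasureTheory Set Filter
open scoped ENNReal NNReal Topology
open Pool.Agent.Restr (u E QQ)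
open TriL (Sq n2)
open Wey (nq lam hat gup gdn blk Tk Sl Wi)

/-- the exponential sum `∑ a_n exp(i z_n·x)`, `z_n = (φ n, ψ n)` -/
noncomputable def Gs (φ ψ : ℤ → ℝ) (s : Finset ℤ) (a : ℤ → ℂ) (x : ℝ × ℝ) : ℂ :=
  ∑ n ∈ s, a n * u (-(φ n * x.1 + ψ n * x.2))

/-- the modulated sum `∑ a_n exp(i n v) exp(i z_n·x)` -/
noncomputable def Gv (φ ψ : ℤ → ℝ) (s : Finset ℤ) (a : ℤ → ℂ) (v : ℝ) (x : ℝ × ℝ) : ℂ :=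
  ∑ n ∈ s, a n * u (-(n * v)) * u (-(φ n * x.1 + ψ n * x.2))

/-- `ν_n(σ) = |σ - 2 z_n|²` -/
def nu (φ ψ : ℤ → ℝ) (σ : ℝ × ℝ) (n : ℤ) : ℝ := (σ.1 - 2 * φ n) ^ 2 + (σ.2 - 2 * ψ n) ^ 2

/-- the coefficients `a_n F^(σ - z_n)` -/
noncomputable def cf (φ ψ : ℤ → ℝ) (a : ℤ → ℂ) (F : ℝ × ℝ → ℂ) (σ : ℝ × ℝ) (n : ℤ) : ℂ :=
  a n * hat F (σ.1 - φ n, σ.2 - ψ n)

/-- the function of `t` and `σ` to which Plancherel reduces the product -/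
noncomputable def BB (φ ψ : ℤ → ℝ) (s : Finset ℤ) (a : ℤ → ℂ) (F : ℝ × ℝ → ℂ) (t : ℝ)
    (σ : ℝ × ℝ) : ℂ :=
  ∑ n ∈ s, cf φ ψ a F σ n * Complex.exp (-(lam t / 2 * ((nu φ ψ σ n : ℝ) : ℂ)))

/-- annular complexity at most `m` -/
def Ann (m : ℕ) (φ ψ : ℤ → ℝ) (s : Finset ℤ) : Prop := ∀ c d a b : ℝ,
  ∃ P : Fin m → Set ℤ, (∀ i, (P i).OrdConnected) ∧ (∀ i j, i ≠ j → Disjoint (P i) (P j)) ∧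
    ∀ n ∈ s, (a < (φ n - c) ^ 2 + (ψ n - d) ^ 2 ∧ (φ n - c) ^ 2 + (ψ n - d) ^ 2 ≤ b) ↔
      ∃ i, n ∈ P i

/-- separated frequencies -/
def Sep (φ ψ : ℤ → ℝ) (s : Finset ℤ) : Prop := ∀ n ∈ s, ∀ k ∈ s, n ≠ k →
  1 ≤ (φ n - φ k) ^ 2 + (ψ n - ψ k) ^ 2

/-- the square function bound for the pair `f`, `Gs φ ψ s a` -/
def SQ (φ ψ : ℤ → ℝ) (s : Finset ℤ) (a : ℤ → ℂ) (f : ℝ × ℝ → ℂ) (N : ℝ≥0∞) : Prop :=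
  (∀ i : ℕ, ∑' j : ℤ, ∫⁻ x, ‖f x‖ₑ ^ 2 *
    ‖blk s (fun n => a n * u (-(φ n * x.1 + ψ n * x.2))) i j‖ₑ ^ 2 ≤
      ENNReal.ofReal ((i + 3) ^ 2) * N) ∧
  ∀ n ∈ s, ‖a n‖ₑ ^ 2 * n2 f ≤ N

/-- the square of `f`, integrated against the square of any modulated sum, is at most `N` -/
def NB (φ ψ : ℤ → ℝ) (s : Finset ℤ) (a : ℤ → ℂ) (f : ℝ × ℝ → ℂ) (N : ℝ≥0∞) : Prop :=
  ∀ v : ℝ, ∫⁻ x : ℝ × ℝ, ‖f x‖ₑ ^ 2 * ‖Gv φ ψ s a v x‖ₑ ^ 2 ≤ N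

/-- `|Ef| |E(χG)|` -/
noncomputable def XX (φ ψ : ℤ → ℝ) (s : Finset ℤ) (a : ℤ → ℂ) (χ f : ℝ × ℝ → ℂ)
    (ξ : ℝ × ℝ × ℝ) : ℝ≥0∞ :=
  ‖E f ξ‖ₑ * ‖E (fun x => χ x * Gs φ ψ s a x) ξ‖ₑ

/-- inverse Fourier transform on the plane -/
noncomputable def chk (γ : ℝ × ℝ → ℂ) (x : ℝ × ℝ) : ℂ :=
  ∫ y : ℝ × ℝ, u (-(y.1 * x.1 + y.2 * x.2)) * γ y

/-- the chirp `exp(i c |x|²)` times `f` -/
noncomputable def chp (c : ℝ) (f : ℝ × ℝ → ℂ) (x : ℝ × ℝ) : ℂ := u (-(c * nq x)) * f x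

end Wex
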