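import Pool.Agent.Wex.Targets

/-!
# MP_5ab805_an: the weighted estimate on a slab (helper91)
-/

set_option autoImplicit false

namespace Wex

open MeasureTheory Set Filter
open scoped ENNReal NNReal Topology
open Pool.Agent.Restr (u E QQ)
open TriL (Sq n2)
open Wey (nq lam hat gup gdn blk Tk Sl Wi)

namespace SLB_

theorem measurable_hat {F : ℝ × ℝ → ℂ} (hF : Measurable F) : Measurable (hat F) := by
  have h1 : StronglyMeasurable (fun w : ℝ × ℝ => ∫ x : ℝ × ℝ, u (w.1 * x.1 + w.2 * x.2) * F x) := by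
    apply StronglyMeasurable.integral_prod_right
      (f := fun w x : ℝ × ℝ => u (w.1 * x.1 + w.2 * x.2) * F x)
    apply Measurable.stronglyMeasurable
    exact (Pool.Agent.Restr.measurable_u.comp (by fun_prop)).mul (hF.comp measurable_snd)
  exact h1.measurable

theorem nq_le {x : ℝ × ℝ} (hx : x ∈ QQ) : nq x ≤ 1 / 2 := by
  obtain ⟨⟨h1, h2⟩, h3, h4⟩ := hx
  unfold nq
  nlinarith

theorem gup_sq {f : ℝ × ℝ → ℂ} (hf : Sq f) (x : ℝ × ℝ) :
    ‖gup f x‖ₑ ^ 2 ≤ ENNReal.ofReal (Real.exp 1) * ‖f x‖ₑ ^ 2 := by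
  by_cases hx : x ∈ QQ
  · unfold gup
    rw [enorm_mul, mul_pow]
    refine mul_le_mul_left ?_ _
    rw [← ofReal_norm, Complex.norm_real, Real.norm_of_nonneg (Real.exp_pos _).le,
      ← ENNReal.ofReal_pow (Real.exp_pos _).le, ← Real.exp_nat_mul]
    refine ENNReal.ofReal_le_ofReal (Real.exp_le_exp.2 ?_)
    have := nq_le hx
    push_cast
    linarith
  · unfold gup
    rw [hf.2 x hx]
    simp

theorem gup_meas {f : ℝ × ℝ → ℂ} (hf : Sq f) : Measurable (gup f) := by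
  unfold gup nq
  have := hf.1
  fun_prop

theorem gup_int {f : ℝ × ℝ → ℂ} (hf : Sq f) (hi : Integrable f) : Integrable (gup f) := by
  refine Integrable.mono' (g := fun x => Real.exp 1 * ‖f x‖) (hi.norm.const_mul _)
    (gup_meas hf).aestronglyMeasurable (Eventually.of_forall fun x => ?_)
  by_cases hx : x ∈ QQ
  · unfold gup
    rw [norm_mul, Complex.norm_real, Real.norm_of_nonneg (Real.exp_pos _).le]
    refine mul_le_mul_of_nonneg_right (Real.exp_le_exp.2 ?_) (norm_nonneg _)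
    have := nq_le hx
    linarith
  · unfold gup
    rw [hf.2 x hx]
    simp

theorem measurable_nu (φ ψ : ℤ → ℝ) (n : ℤ) : Measurable fun σ => nu φ ψ σ n := by
  unfold nu
  fun_prop

theorem measurable_cf (φ ψ : ℤ → ℝ) (a : ℤ → ℂ) {F : ℝ × ℝ → ℂ} (hF : Measurable F)
    (n : ℤ) : Measurable fun σ => cf φ ψ a F σ n := by
  unfold cf
  exact ((measurable_hat hF).comp (by fun_prop)).const_mul _

theorem measurable_lam : Measurable lam := by
  unfold lam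
  fun_prop

/-- the sum over the `n` with `ν_n` in the set `W` -/
noncomputable def pr (φ ψ : ℤ → ℝ) (s : Finset ℤ) (a : ℤ → ℂ) (F : ℝ × ℝ → ℂ) (W : Set ℝ)
    [DecidablePred (· ∈ W)] (t : ℝ) (σ : ℝ × ℝ) : ℂ :=
  ∑ n ∈ s with nu φ ψ σ n ∈ W, cf φ ψ a F σ n *
    Complex.exp (-(lam t / 2 * ((nu φ ψ σ n : ℝ) : ℂ)))

theorem measurable_pr (φ ψ : ℤ → ℝ) (s : Finset ℤ) (a : ℤ → ℂ) {F : ℝ × ℝ → ℂ}
    (hF : Measurable F) {W : Set ℝ} [DecidablePred (· ∈ W)] (hW : MeasurableSet W) :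
    Measurable fun z : ℝ × (ℝ × ℝ) => pr φ ψ s a F W z.1 z.2 := by
  unfold pr
  simp only [Finset.sum_filter]
  refine Finset.measurable_fun_sum _ fun n _ => ?_
  refine Measurable.ite ?_ ?_ measurable_const
  · exact ((measurable_nu φ ψ n).comp measurable_snd) hW
  · refine ((measurable_cf φ ψ a hF n).comp measurable_snd).mul ?_
    refine Complex.measurable_exp.comp ?_
    refine Measurable.neg ?_
    refine ((measurable_lam.comp measurable_fst).div_const _).mul ?_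
    exact Complex.measurable_ofReal.comp ((measurable_nu φ ψ n).comp measurable_snd)

theorem sq_add_le (x y : ℂ) : ‖x + y‖ₑ ^ 2 ≤ 2 * ‖x‖ₑ ^ 2 + 2 * ‖y‖ₑ ^ 2 := by
  have h1 : ‖x + y‖ ^ 2 ≤ 2 * ‖x‖ ^ 2 + 2 * ‖y‖ ^ 2 := by
    have := norm_add_le x y
    nlinarith [norm_nonneg (x + y), norm_nonneg x, norm_nonneg y, sq_nonneg (‖x‖ - ‖y‖)]
  have e : ∀ z : ℂ, ‖z‖ₑ ^ 2 = ENNReal.ofReal (‖z‖ ^ 2) := fun z => by
    rw [← ofReal_norm, ENNReal.ofReal_pow (norm_nonneg _)]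
  rw [e, e, e, show (2 : ℝ≥0∞) = ENNReal.ofReal 2 by simp, ← ENNReal.ofReal_mul (by norm_num),
    ← ENNReal.ofReal_mul (by norm_num), ← ENNReal.ofReal_add (by positivity) (by positivity)]
  exact ENNReal.ofReal_le_ofReal h1

/-- polynomials against exponentials -/
theorem poly_le {ε : ℝ} (hε : 0 < ε) : ∃ D : ℝ≥0, ∀ k : ℕ,
    ((k : ℝ) + 10) ^ 5 ≤ D * (2 : ℝ) ^ (ε * k) := by
  have hr : (1 : ℝ) < 2 ^ ε := Real.one_lt_rpow (by norm_num) hε
  have ht := tendsto_pow_const_div_const_pow_of_one_lt 5 hr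
  obtain ⟨D, hD⟩ := ht.bddAbove_range
  have hD0 : 0 ≤ D := by
    have := hD ⟨0, rfl⟩
    simpa using this
  refine ⟨⟨D * ((2 : ℝ) ^ ε) ^ 10, by positivity⟩, fun k => ?_⟩
  have h1 : ((k + 10 : ℕ) : ℝ) ^ 5 / ((2 : ℝ) ^ ε) ^ (k + 10) ≤ D := hD ⟨k + 10, rfl⟩
  rw [div_le_iff₀ (by positivity)] at h1
  push_cast at h1
  refine h1.trans (le_of_eq ?_)
  change D * ((2 : ℝ) ^ ε) ^ (k + 10) = D * ((2 : ℝ) ^ ε) ^ 10 * (2 : ℝ) ^ (ε * k)
  rw [pow_add, Real.rpow_mul (by norm_num), Real.rpow_natCast]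
  ring

theorem vol_Tk {T : ℝ} (hT : 0 < T) :
    volume {t : ℝ | T ≤ |t| ∧ |t| ≤ 2 * T} ≤ ENNReal.ofReal (2 * T) := by
  have h1 : {t : ℝ | T ≤ |t| ∧ |t| ≤ 2 * T} ⊆ Icc T (2 * T) ∪ Icc (-(2 * T)) (-T) := by
    rintro t ⟨h1, h2⟩
    rcases le_total 0 t with h | h
    · rw [abs_of_nonneg h] at h1 h2
      exact Or.inl ⟨h1, h2⟩
    · rw [abs_of_nonpos h] at h1 h2
      exact Or.inr ⟨by linarith, by linarith⟩
  refine (measure_mono h1).trans ((measure_union_le _ _).trans ?_)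
  rw [Real.volume_Icc, Real.volume_Icc, ← ENNReal.ofReal_add (by linarith) (by linarith)]
  exact ENNReal.ofReal_le_ofReal (by linarith)

theorem Tk_succ (k : ℕ) : Tk (k + 1) = {t : ℝ | 2 ^ (k + 1) ≤ |t| ∧ |t| ≤ 2 * 2 ^ (k + 1)} := by
  unfold Tk
  rw [if_neg (by omega)]
  ext t
  simp only [Set.mem_ofPred_eq]
  rw [pow_succ (2 : ℝ) (k + 1), mul_comm ((2 : ℝ) ^ (k + 1)) 2]

theorem measurableSet_Tk (k : ℕ) : MeasurableSet (Tk k) := by
  unfold Tk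
  split
  · exact measurableSet_le continuous_abs.measurable measurable_const
  · exact (measurableSet_le measurable_const continuous_abs.measurable).inter
      (measurableSet_le continuous_abs.measurable measurable_const)

/-- the norm of the coefficients -/
theorem coef {φ ψ : ℤ → ℝ} {s : Finset ℤ} {a : ℤ → ℂ} {f : ℝ × ℝ → ℂ} {N : ℝ≥0∞}
    (hS : SQ φ ψ s a f N) : ∃ A : ℝ≥0, (∀ n ∈ s, ‖a n‖ₑ ≤ A) ∧ (A : ℝ≥0∞) ^ 2 * n2 f ≤ N := by
  refine ⟨s.sup fun n => ‖a n‖₊, fun n hn => ?_, ?_⟩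
  · rw [enorm_eq_nnnorm]
    exact_mod_cast Finset.le_sup (f := fun n => ‖a n‖₊) hn
  · rcases s.eq_empty_or_nonempty with h0 | h0
    · subst h0
      simp
    · obtain ⟨n, hn, e⟩ := Finset.exists_mem_eq_sup s h0 fun n => ‖a n‖₊
      rw [e]
      exact hS.2 n hn

/-- the sum of the square functions -/
theorem sqsum (h4 : T_HAT) {φ ψ : ℤ → ℝ} {s : Finset ℤ} {a : ℤ → ℂ} {f : ℝ × ℝ → ℂ}
    {N : ℝ≥0∞} (hf : Sq f) (hi : Integrable f) (hS : SQ φ ψ s a f N) (ℓ : ℕ) :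
    ∫⁻ σ, ∑ i ∈ Finset.range (ℓ + 1), ∑' j : ℤ, ‖blk s (cf φ ψ a (gup f) σ) i j‖ₑ ^ 2 ≤
      ENNReal.ofReal (4 * Real.pi ^ 2 * Real.exp 1 * ((ℓ + 1) * (ℓ + 3) ^ 2)) * N := by
  have hm : ∀ (i : ℕ) (j : ℤ), Measurable fun σ => ‖blk s (cf φ ψ a (gup f) σ) i j‖ₑ ^ 2 := by
    intro i j
    unfold blk
    refine Measurable.pow_const (Measurable.enorm ?_) _
    exact Finset.measurable_fun_sum _ fun n _ => measurable_cf φ ψ a (gup_meas hf) n
  rw [lintegral_finsetSum _ fun i _ => Measurable.tsum fun j => hm i j]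
  have h1 : ∀ i ∈ Finset.range (ℓ + 1), ∫⁻ σ, ∑' j : ℤ, ‖blk s (cf φ ψ a (gup f) σ) i j‖ₑ ^ 2 ≤
      ENNReal.ofReal (4 * Real.pi ^ 2 * Real.exp 1 * (ℓ + 3) ^ 2) * N := by
    intro i hi'
    have hil : (i : ℝ) ≤ ℓ := by
      have := Finset.mem_range.1 hi'
      exact_mod_cast (by omega : i ≤ ℓ)
    rw [lintegral_tsum fun j => (hm i j).aemeasurable]
    calc ∑' j : ℤ, ∫⁻ σ, ‖blk s (cf φ ψ a (gup f) σ) i j‖ₑ ^ 2
        ≤ ∑' j : ℤ, ENNReal.ofReal (4 * Real.pi ^ 2 * Real.exp 1) * ∫⁻ x, ‖f x‖ₑ ^ 2 *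
          ‖blk s (fun n => a n * u (-(φ n * x.1 + ψ n * x.2))) i j‖ₑ ^ 2 := by
          refine ENNReal.tsum_le_tsum fun j => ?_
          refine (h4 φ ψ s a (gup f) i j (gup_meas hf) (gup_int hf hi)).trans ?_
          rw [ENNReal.ofReal_mul (p := 4 * Real.pi ^ 2) (by positivity), mul_assoc]
          refine mul_le_mul_right ?_ _
          rw [← lintegral_const_mul' _ _ ENNReal.ofReal_ne_top]
          refine lintegral_mono fun x => ?_
          rw [← mul_assoc]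
          exact mul_le_mul_left (gup_sq hf x) _
      _ ≤ ENNReal.ofReal (4 * Real.pi ^ 2 * Real.exp 1) * (ENNReal.ofReal ((i + 3) ^ 2) * N) := by
          rw [ENNReal.tsum_mul_left]
          exact mul_le_mul_right (hS.1 i) _
      _ ≤ _ := by
          rw [← mul_assoc, ← ENNReal.ofReal_mul (by positivity)]
          refine mul_le_mul_left (ENNReal.ofReal_le_ofReal ?_) _
          refine mul_le_mul_of_nonneg_left ?_ (by positivity)
          have : (0 : ℝ) ≤ i := by positivity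
          gcongr
  refine (Finset.sum_le_sum h1).trans ?_
  rw [Finset.sum_const, Finset.card_range, nsmul_eq_mul, ← mul_assoc]
  refine mul_le_mul_left (le_of_eq ?_) _
  rw [show (((ℓ + 1 : ℕ) : ℕ) : ℝ≥0∞) = ENNReal.ofReal (ℓ + 1) by
    rw [show ((ℓ : ℝ) + 1) = ((ℓ + 1 : ℕ) : ℝ) by push_cast; ring, ENNReal.ofReal_natCast],
    ← ENNReal.ofReal_mul (by positivity)]
  congr 1
  ring

/-- the near part -/
theorem near (h2 : Wey.T_NEA) (h3 : T_DYA) (h4 : T_HAT) : ∃ C : ℝ≥0, ∀ (m : ℕ)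
    (φ ψ : ℤ → ℝ) (α β : ℤ) (a : ℤ → ℂ) (f : ℝ × ℝ → ℂ) (N : ℝ≥0∞) (M T : ℝ) (ℓ : ℕ),
    Sep φ ψ (Finset.Ico α β) → Ann m φ ψ (Finset.Ico α β) → Sq f → Integrable f →
    SQ φ ψ (Finset.Ico α β) a f N → 2 ≤ T → 0 ≤ M → (2 * √M + 3) ^ 2 ≤ 2 ^ ℓ →
    ∫⁻ t in {t : ℝ | T ≤ |t| ∧ |t| ≤ 2 * T}, ENNReal.ofReal (Real.pi ^ 2 / (1 + t ^ 2)) *
      ∫⁻ σ, ‖pr φ ψ (Finset.Ico α β) a (gup f) (Iic M) t σ‖ₑ ^ 2 ≤
    C * m * ENNReal.ofReal ((1 + M / T ^ 2) / T * ((2 * ℓ + 2) * ((ℓ + 1) * (ℓ + 3) ^ 2))) * N := by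
  obtain ⟨C, hC⟩ := h2
  refine ⟨C * (Real.pi ^ 2 * 8 * (4 * Real.pi ^ 2 * Real.exp 1)).toNNReal, ?_⟩
  intro m φ ψ α β a f N M T ℓ hh hA hf hi hS hT hM hℓ
  set s : Finset ℤ := Finset.Ico α β with hsdef
  have hFm := gup_meas hf
  have hmeas : Measurable fun z : ℝ × (ℝ × ℝ) =>
      ‖pr φ ψ s a (gup f) (Iic M) z.1 z.2‖ₑ ^ 2 * ENNReal.ofReal (1 / (1 + z.1 ^ 2)) := by
    refine ((measurable_pr φ ψ s a hFm measurableSet_Iic).enorm.pow_const 2).mul ?_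
    exact ENNReal.measurable_ofReal.comp (by fun_prop)
  calc ∫⁻ t in {t : ℝ | T ≤ |t| ∧ |t| ≤ 2 * T}, ENNReal.ofReal (Real.pi ^ 2 / (1 + t ^ 2)) *
      ∫⁻ σ, ‖pr φ ψ s a (gup f) (Iic M) t σ‖ₑ ^ 2
      = ENNReal.ofReal (Real.pi ^ 2) * ∫⁻ t in {t : ℝ | T ≤ |t| ∧ |t| ≤ 2 * T},
        ∫⁻ σ, ‖pr φ ψ s a (gup f) (Iic M) t σ‖ₑ ^ 2 * ENNReal.ofReal (1 / (1 + t ^ 2)) := by
        rw [← lintegral_const_mul' _ _ ENNReal.ofReal_ne_top]
        refine lintegral_congr fun t => ?_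
        rw [lintegral_mul_const' _ _ ENNReal.ofReal_ne_top, ← mul_assoc,
          mul_comm (ENNReal.ofReal (Real.pi ^ 2)), mul_assoc, mul_comm (_ : ℝ≥0∞) (_ * _)]
        congr 1
        rw [← ENNReal.ofReal_mul (by positivity)]
        congr 1
        ring
    _ = ENNReal.ofReal (Real.pi ^ 2) * ∫⁻ σ, ∫⁻ t in {t : ℝ | T ≤ |t| ∧ |t| ≤ 2 * T},
        ‖pr φ ψ s a (gup f) (Iic M) t σ‖ₑ ^ 2 * ENNReal.ofReal (1 / (1 + t ^ 2)) := by
        rw [lintegral_lintegral_swap hmeas.aemeasurable]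
    _ ≤ ENNReal.ofReal (Real.pi ^ 2) * ∫⁻ σ, C * ENNReal.ofReal ((1 + M / T ^ 2) / T ^ 2) *
        (ENNReal.ofReal (8 * T * (m * (2 * ℓ + 2))) *
        ∑ i ∈ Finset.range (ℓ + 1), ∑' j : ℤ, ‖blk s (cf φ ψ a (gup f) σ) i j‖ₑ ^ 2) := by
        refine mul_le_mul_right (lintegral_mono fun σ => ?_) _
        refine (hC (s.filter fun n => nu φ ψ σ n ≤ M) (cf φ ψ a (gup f) σ) (nu φ ψ σ) M T hT hM
          fun n hn => ⟨by unfold nu; positivity, (Finset.mem_filter.1 hn).2⟩).trans ?_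
        refine mul_le_mul_right ?_ _
        refine le_trans (le_of_eq ?_) (h3 m φ ψ α β hh hA (cf φ ψ a (gup f) σ) σ M T ℓ
          (by linarith) hM hℓ)
        refine lintegral_congr fun τ => ?_
        rw [Finset.filter_filter]
    _ = ENNReal.ofReal (Real.pi ^ 2) * (C * ENNReal.ofReal ((1 + M / T ^ 2) / T ^ 2) *
        (ENNReal.ofReal (8 * T * (m * (2 * ℓ + 2))) *
        ∫⁻ σ, ∑ i ∈ Finset.range (ℓ + 1), ∑' j : ℤ, ‖blk s (cf φ ψ a (gup f) σ) i j‖ₑ ^ 2)) := by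
        rw [lintegral_const_mul' _ _ (by finiteness), lintegral_const_mul' _ _ (by finiteness)]
    _ ≤ ENNReal.ofReal (Real.pi ^ 2) * (C * ENNReal.ofReal ((1 + M / T ^ 2) / T ^ 2) *
        (ENNReal.ofReal (8 * T * (m * (2 * ℓ + 2))) *
        (ENNReal.ofReal (4 * Real.pi ^ 2 * Real.exp 1 * ((ℓ + 1) * (ℓ + 3) ^ 2)) * N))) := by
        refine mul_le_mul_right (mul_le_mul_right (mul_le_mul_right ?_ _) _) _
        exact sqsum h4 hf hi hS ℓ
    _ = _ := by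
        have hm : (m : ℝ≥0∞) = ENNReal.ofReal m := by simp
        have hT0 : 0 < T := by linarith
        rw [ENNReal.coe_mul, hm]
        change _ = C * ENNReal.ofReal (Real.pi ^ 2 * 8 * (4 * Real.pi ^ 2 * Real.exp 1)) * _ * _ * _
        calc _ = C * (ENNReal.ofReal (Real.pi ^ 2) * ENNReal.ofReal ((1 + M / T ^ 2) / T ^ 2) *
              ENNReal.ofReal (8 * T * (m * (2 * ℓ + 2))) *
              ENNReal.ofReal (4 * Real.pi ^ 2 * Real.exp 1 * ((ℓ + 1) * (ℓ + 3) ^ 2))) * N := by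
              ring
          _ = C * (ENNReal.ofReal (Real.pi ^ 2 * 8 * (4 * Real.pi ^ 2 * Real.exp 1)) *
              ENNReal.ofReal m * ENNReal.ofReal ((1 + M / T ^ 2) / T *
              ((2 * ℓ + 2) * ((ℓ + 1) * (ℓ + 3) ^ 2)))) * N := by
              congr 2
              rw [← ENNReal.ofReal_mul (by positivity), ← ENNReal.ofReal_mul (by positivity),
                ← ENNReal.ofReal_mul (by positivity), ← ENNReal.ofReal_mul (by positivity),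
                ← ENNReal.ofReal_mul (by positivity)]
              congr 1
              field_simp
          _ = _ := by ring

/-- the far part -/
theorem far (h5 : T_FAR) : ∃ C : ℝ≥0, ∀ (φ ψ : ℤ → ℝ)
    (s : Finset ℤ) (a : ℤ → ℂ) (f : ℝ × ℝ → ℂ) (N : ℝ≥0∞) (M t : ℝ), Sep φ ψ s →
    Sq f → Integrable f → SQ φ ψ s a f N →
    ENNReal.ofReal (Real.pi ^ 2 / (1 + t ^ 2)) *
      ∫⁻ σ, ‖pr φ ψ s a (gup f) (Ioi M) t σ‖ₑ ^ 2 ≤
    C * ENNReal.ofReal ((1 + t ^ 2) * Real.exp (-M / (8 * (1 + t ^ 2)))) * N := by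
  obtain ⟨C, hC⟩ := h5
  refine ⟨C * (Real.pi ^ 2 * Real.exp 1).toNNReal, ?_⟩
  intro φ ψ s a f N M t hh hf hi hS
  obtain ⟨A, hA, hAN⟩ := coef hS
  have h1 := hC φ ψ s a (gup f) A M t hh (gup_meas hf) (gup_int hf hi) hA
  have h2 : ∫⁻ x, ‖gup f x‖ₑ ^ 2 ≤ ENNReal.ofReal (Real.exp 1) * n2 f := by
    unfold n2
    rw [← lintegral_const_mul' _ _ ENNReal.ofReal_ne_top]
    exact lintegral_mono fun x => gup_sq hf x
  calc ENNReal.ofReal (Real.pi ^ 2 / (1 + t ^ 2)) *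
      ∫⁻ σ, ‖pr φ ψ s a (gup f) (Ioi M) t σ‖ₑ ^ 2
      ≤ ENNReal.ofReal (Real.pi ^ 2 / (1 + t ^ 2)) *
        (C * ENNReal.ofReal ((1 + t ^ 2) ^ 2 * Real.exp (-M / (8 * (1 + t ^ 2)))) *
        ((A : ℝ≥0∞) ^ 2 * (ENNReal.ofReal (Real.exp 1) * n2 f))) := by
        refine mul_le_mul_right (h1.trans ?_) _
        exact mul_le_mul_right (mul_le_mul_right h2 _) _
    _ = C * (ENNReal.ofReal (Real.pi ^ 2 / (1 + t ^ 2)) * ENNReal.ofReal (Real.exp 1) *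
        ENNReal.ofReal ((1 + t ^ 2) ^ 2 * Real.exp (-M / (8 * (1 + t ^ 2))))) *
        ((A : ℝ≥0∞) ^ 2 * n2 f) := by ring
    _ ≤ C * (ENNReal.ofReal (Real.pi ^ 2 / (1 + t ^ 2)) * ENNReal.ofReal (Real.exp 1) *
        ENNReal.ofReal ((1 + t ^ 2) ^ 2 * Real.exp (-M / (8 * (1 + t ^ 2))))) * N :=
        mul_le_mul_right hAN _
    _ = C * (ENNReal.ofReal (Real.pi ^ 2 * Real.exp 1) *
        ENNReal.ofReal ((1 + t ^ 2) * Real.exp (-M / (8 * (1 + t ^ 2))))) * N := by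
        congr 2
        rw [← ENNReal.ofReal_mul (by positivity), ← ENNReal.ofReal_mul (by positivity),
          ← ENNReal.ofReal_mul (by positivity)]
        congr 1
        have : (1 + t ^ 2 : ℝ) ≠ 0 := by positivity
        field_simp
    _ = _ := by
        rw [ENNReal.coe_mul]
        change _ = C * ENNReal.ofReal (Real.pi ^ 2 * Real.exp 1) * _ * _
        ring

theorem BB_split (φ ψ : ℤ → ℝ) (s : Finset ℤ) (a : ℤ → ℂ) (F : ℝ × ℝ → ℂ) (M t : ℝ)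
    (σ : ℝ × ℝ) : BB φ ψ s a F t σ = pr φ ψ s a F (Iic M) t σ + pr φ ψ s a F (Ioi M) t σ := by
  unfold BB pr
  rw [← Finset.sum_filter_add_sum_filter_not s (fun n => nu φ ψ σ n ∈ Iic M)]
  congr 1
  refine Finset.sum_congr ?_ fun _ _ => rfl
  ext n
  simp only [Finset.mem_filter, mem_Iic, mem_Ioi, not_le]

theorem BB_all (φ ψ : ℤ → ℝ) (s : Finset ℤ) (a : ℤ → ℂ) (F : ℝ × ℝ → ℂ) (t : ℝ)
    (σ : ℝ × ℝ) : BB φ ψ s a F t σ = pr φ ψ s a F (Ioi (-1)) t σ := by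
  unfold BB pr
  rw [Finset.filter_true_of_mem fun n _ => ?_]
  have : 0 ≤ nu φ ψ σ n := by unfold nu; positivity
  simp only [mem_Ioi]
  linarith

theorem rootM {k : ℕ} : (2 * √(160 * ((2 : ℝ) ^ (k + 1)) ^ 2 * Real.log (2 ^ (k + 1))) + 3) ^ 2 ≤
    2 ^ (3 * (k + 1) + 10) := by
  have hk : ((k + 1 : ℕ) : ℝ) ≤ 2 ^ (k + 1) := by exact_mod_cast (Nat.lt_two_pow_self).le
  have hl : Real.log (2 ^ (k + 1)) ≤ 0.7 * 2 ^ (k + 1) := by
    rw [Real.log_pow]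
    have := Real.log_two_lt_d9
    have h0 : (0 : ℝ) ≤ ((k + 1 : ℕ) : ℝ) := by positivity
    nlinarith
  set T : ℝ := 2 ^ (k + 1) with hT
  have hT2 : 2 ≤ T := by
    rw [hT, pow_succ]
    have : (1 : ℝ) ≤ 2 ^ k := one_le_pow₀ (by norm_num)
    linarith
  have hL : 0 ≤ Real.log T := Real.log_nonneg (by linarith)
  have hX : 0 ≤ 160 * T ^ 2 * Real.log T := by positivity
  have h1 : (2 * √(160 * T ^ 2 * Real.log T) + 3) ^ 2 ≤ 8 * (160 * T ^ 2 * Real.log T) + 18 := by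
    have h4 := Real.sq_sqrt hX
    nlinarith [sq_nonneg (2 * √(160 * T ^ 2 * Real.log T) - 3)]
  have h3 : 160 * T ^ 2 * Real.log T ≤ 112 * T ^ 3 := by
    calc 160 * T ^ 2 * Real.log T ≤ 160 * T ^ 2 * (0.7 * T) := by gcongr
      _ = _ := by ring
  have h2 : (2 : ℝ) ^ (3 * (k + 1) + 10) = 1024 * T ^ 3 := by
    rw [hT, pow_add, pow_mul']
    norm_num
    ring
  have h5 : (8 : ℝ) ≤ T ^ 3 := by
    calc (8 : ℝ) = 2 ^ 3 := by norm_num
      _ ≤ T ^ 3 := by gcongr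
  rw [h2]
  linarith

theorem expo {T t : ℝ} (hT : 2 ≤ T) (ht : |t| ≤ 2 * T) :
    (1 + t ^ 2) * Real.exp (-(160 * T ^ 2 * Real.log T) / (8 * (1 + t ^ 2))) ≤
      5 * (T ^ 2)⁻¹ := by
  have h0 : 0 < Real.log T := Real.log_pos (by linarith)
  have h1 : t ^ 2 ≤ 4 * T ^ 2 := by
    have := sq_le_sq' (by linarith [abs_nonneg t] : -(2 * T) ≤ |t|) ht
    rw [sq_abs] at this
    linarith
  have h2 : -(160 * T ^ 2 * Real.log T) / (8 * (1 + t ^ 2)) ≤ -(4 * Real.log T) := by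
    rw [div_le_iff₀ (by positivity)]
    have h3 : 8 * (1 + t ^ 2) ≤ 40 * T ^ 2 := by nlinarith
    nlinarith
  have h4 : Real.exp (-(160 * T ^ 2 * Real.log T) / (8 * (1 + t ^ 2))) ≤ (T ^ 4)⁻¹ := by
    refine (Real.exp_le_exp.2 h2).trans (le_of_eq ?_)
    rw [Real.exp_neg, ← Real.exp_log (by positivity : 0 < T ^ 4), Real.log_pow]
    norm_num
  have h5 : 1 + t ^ 2 ≤ 5 * T ^ 2 := by nlinarith
  calc (1 + t ^ 2) * Real.exp (-(160 * T ^ 2 * Real.log T) / (8 * (1 + t ^ 2)))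
      ≤ (5 * T ^ 2) * (T ^ 4)⁻¹ := by gcongr
    _ = 5 * (T ^ 2)⁻¹ := by
      have : T ≠ 0 := by positivity
      field_simp

theorem numbers {k : ℕ} {T : ℝ} (hT : T = 2 ^ (k + 1)) {D ε : ℝ}
    (hD : (((k + 1 : ℕ) : ℝ) + 10) ^ 5 ≤ D * (2 : ℝ) ^ (ε * ((k + 1 : ℕ) : ℝ))) :
    (1 + 160 * T ^ 2 * Real.log T / T ^ 2) / T * ((2 * ((3 * (k + 1) + 10 : ℕ) : ℝ) + 2) *
      ((((3 * (k + 1) + 10 : ℕ) : ℝ) + 1) * (((3 * (k + 1) + 10 : ℕ) : ℝ) + 3) ^ 2)) ≤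
      25920 * D * (2 : ℝ) ^ ((-1 + ε) * ((k + 1 : ℕ) : ℝ)) := by
  have hT0 : 0 < T := by rw [hT]; positivity
  have h1 : 1 + 160 * T ^ 2 * Real.log T / T ^ 2 ≤ 160 * (((k + 1 : ℕ) : ℝ) + 10) := by
    have e : 160 * T ^ 2 * Real.log T / T ^ 2 = 160 * Real.log T := by field_simp
    rw [e, hT, Real.log_pow]
    have := Real.log_two_lt_d9
    have h0 : (0 : ℝ) ≤ ((k + 1 : ℕ) : ℝ) := by positivity
    nlinarith
  set x : ℝ := ((k + 1 : ℕ) : ℝ) with hx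
  have hx0 : 0 ≤ x := by positivity
  have e1 : ((3 * (k + 1) + 10 : ℕ) : ℝ) = 3 * x + 10 := by rw [hx]; push_cast; ring
  rw [e1]
  have h2 : (2 * (3 * x + 10) + 2) * ((3 * x + 10 + 1) * (3 * x + 10 + 3) ^ 2) ≤
      162 * (x + 10) ^ 4 := by
    have a1 : 2 * (3 * x + 10) + 2 ≤ 6 * (x + 10) := by linarith
    have a2 : 3 * x + 10 + 1 ≤ 3 * (x + 10) := by linarith
    have a3 : 3 * x + 10 + 3 ≤ 3 * (x + 10) := by linarith
    calc (2 * (3 * x + 10) + 2) * ((3 * x + 10 + 1) * (3 * x + 10 + 3) ^ 2)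
        ≤ (6 * (x + 10)) * ((3 * (x + 10)) * (3 * (x + 10)) ^ 2) := by gcongr
      _ = _ := by ring
  have h3 : T⁻¹ * (2 : ℝ) ^ (ε * x) = (2 : ℝ) ^ ((-1 + ε) * x) := by
    rw [add_mul, neg_one_mul, Real.rpow_add (by norm_num), Real.rpow_neg (by norm_num), hx,
      Real.rpow_natCast, hT]
  calc _ ≤ (160 * (x + 10)) / T * (162 * (x + 10) ^ 4) := by gcongr
    _ = 25920 * T⁻¹ * (x + 10) ^ 5 := by
      field_simp
      ring
    _ ≤ 25920 * T⁻¹ * (D * (2 : ℝ) ^ (ε * x)) := by gcongr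
    _ = _ := by rw [← h3]; ring

end SLB_

open SLB_ in
/-- the weighted estimate on a slab -/
theorem p_SLB (h1 : T_SLI) (h2 : Wey.T_NEA) (h3 : T_DYA) (h4 : T_HAT) (h5 : T_FAR) :
    T_SLB := by
  intro ε hε
  obtain ⟨D, hD⟩ := poly_le hε
  obtain ⟨C₁, hC₁⟩ := near h2 h3 h4
  obtain ⟨C₂, hC₂⟩ := far h5
  refine ⟨51840 * C₁ * D + 60 * C₂, ?_⟩
  intro m φ ψ α β a f N k hm hh hA hf hi hS
  set s : Finset ℤ := Finset.Ico α β with hsdef
  have hFm := gup_meas hf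
  have hsli : ∫⁻ t in Tk k, ∫⁻ p : ℝ × ℝ, (‖E f (p.1, p.2, t)‖ₑ *
      ‖E (gdn (Gs φ ψ s a)) (p.1, p.2, t)‖ₑ) ^ 2 ≤
      ∫⁻ t in Tk k, ENNReal.ofReal (Real.pi ^ 2 / (1 + t ^ 2)) *
        ∫⁻ σ, ‖BB φ ψ s a (gup f) t σ‖ₑ ^ 2 :=
    lintegral_mono fun t => h1 φ ψ s a f t hf hi
  refine hsli.trans ?_
  have hm1 : (1 : ℝ≥0∞) ≤ m := by exact_mod_cast hm
  rcases k with _ | k
  · have hT : volume (Tk 0) ≤ 4 := by
      have : Tk 0 = Icc (-2) 2 := by
        unfold Tk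
        ext t
        simp [abs_le]
      rw [this, Real.volume_Icc]
      norm_num
    calc _ ≤ ∫⁻ t in Tk 0, C₂ * ENNReal.ofReal 15 * N := by
          refine setLIntegral_mono' (measurableSet_Tk 0) fun t ht => ?_
          simp only [BB_all]
          refine (hC₂ φ ψ s a f N (-1) t hh hf hi hS).trans ?_
          refine mul_le_mul_left (mul_le_mul_right (ENNReal.ofReal_le_ofReal ?_) _) _
          have ht2 : |t| ≤ 2 := by
            unfold Tk at ht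
            simpa using ht
          have h3 : t ^ 2 ≤ 4 := by
            have := sq_le_sq' (by linarith [abs_nonneg t] : -2 ≤ |t|) ht2
            rw [sq_abs] at this
            linarith
          have h4 : Real.exp (- -1 / (8 * (1 + t ^ 2))) ≤ 3 := by
            refine (Real.exp_le_exp.2 (?_ : _ ≤ (1 : ℝ))).trans
              (by linarith [Real.exp_one_lt_d9])
            rw [neg_neg, div_le_one (by positivity)]
            nlinarith [sq_nonneg t]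
          calc (1 + t ^ 2) * Real.exp (- -1 / (8 * (1 + t ^ 2))) ≤ 5 * 3 := by
                gcongr
                linarith
            _ = 15 := by norm_num
      _ = C₂ * ENNReal.ofReal 15 * N * volume (Tk 0) := by
          rw [lintegral_const, Measure.restrict_apply_univ]
      _ ≤ C₂ * 15 * N * 4 := by
          refine mul_le_mul' (mul_le_mul_left (mul_le_mul_right ?_ _) _) hT
          rw [show (15 : ℝ≥0∞) = ENNReal.ofReal 15 by simp]
      _ ≤ 60 * C₂ * m * N := by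
          calc (C₂ : ℝ≥0∞) * 15 * N * 4 = 60 * C₂ * 1 * N := by ring
            _ ≤ 60 * C₂ * m * N := by gcongr
      _ ≤ _ := by
          push_cast
          simp only [mul_zero, Real.rpow_zero, ENNReal.ofReal_one, mul_one]
          gcongr
          exact le_add_self
  · rw [Tk_succ]
    set T : ℝ := 2 ^ (k + 1) with hT
    have hT2 : 2 ≤ T := by
      rw [hT, pow_succ]
      have : (1 : ℝ) ≤ 2 ^ k := one_le_pow₀ (by norm_num)
      linarith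
    have hT0 : 0 < T := by linarith
    set M : ℝ := 160 * T ^ 2 * Real.log T with hM
    have hM0 : 0 ≤ M := by
      have := Real.log_nonneg (by linarith : 1 ≤ T)
      positivity
    set S : Set ℝ := {t : ℝ | T ≤ |t| ∧ |t| ≤ 2 * T} with hSS
    have hSm : MeasurableSet S := by
      have := measurableSet_Tk (k + 1)
      rwa [Tk_succ] at this
    have hnear := hC₁ m φ ψ α β a f N M T (3 * (k + 1) + 10) hh hA hf hi hS hT2 hM0 rootM
    have hfar : ∫⁻ t in S, ENNReal.ofReal (Real.pi ^ 2 / (1 + t ^ 2)) *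
        ∫⁻ σ, ‖pr φ ψ s a (gup f) (Ioi M) t σ‖ₑ ^ 2 ≤ 10 * C₂ * ENNReal.ofReal T⁻¹ * N := by
      calc _ ≤ ∫⁻ t in S, C₂ * ENNReal.ofReal (5 * (T ^ 2)⁻¹) * N := by
            refine setLIntegral_mono' hSm fun t ht => ?_
            refine (hC₂ φ ψ s a f N M t hh hf hi hS).trans ?_
            refine mul_le_mul_left (mul_le_mul_right (ENNReal.ofReal_le_ofReal ?_) _) _
            exact expo hT2 ht.2
        _ = C₂ * ENNReal.ofReal (5 * (T ^ 2)⁻¹) * N * volume S := by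
            rw [lintegral_const, Measure.restrict_apply_univ]
        _ ≤ C₂ * ENNReal.ofReal (5 * (T ^ 2)⁻¹) * N * ENNReal.ofReal (2 * T) :=
            mul_le_mul_right (vol_Tk hT0) _
        _ = C₂ * (ENNReal.ofReal (5 * (T ^ 2)⁻¹) * ENNReal.ofReal (2 * T)) * N := by ring
        _ = C₂ * (10 * ENNReal.ofReal T⁻¹) * N := by
            rw [← ENNReal.ofReal_mul (by positivity),
              show (10 : ℝ≥0∞) = ENNReal.ofReal 10 by simp, ← ENNReal.ofReal_mul (by norm_num)]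
            congr 3
            field_simp
            norm_num
        _ = _ := by ring
    have hmn : Measurable fun t => ENNReal.ofReal (Real.pi ^ 2 / (1 + t ^ 2)) *
        ∫⁻ σ, ‖pr φ ψ s a (gup f) (Iic M) t σ‖ₑ ^ 2 := by
      refine (ENNReal.measurable_ofReal.comp (by fun_prop)).mul ?_
      exact ((measurable_pr φ ψ s a hFm measurableSet_Iic).enorm.pow_const 2).lintegral_prod_right'
    have hT1 : T⁻¹ ≤ (2 : ℝ) ^ ((-1 + ε) * ((k + 1 : ℕ) : ℝ)) := by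
      have h3 : T⁻¹ * (2 : ℝ) ^ (ε * ((k + 1 : ℕ) : ℝ)) =
          (2 : ℝ) ^ ((-1 + ε) * ((k + 1 : ℕ) : ℝ)) := by
        rw [add_mul, neg_one_mul, Real.rpow_add (by norm_num), Real.rpow_neg (by norm_num),
          Real.rpow_natCast, hT]
      rw [← h3]
      have h4 : (1 : ℝ) ≤ (2 : ℝ) ^ (ε * ((k + 1 : ℕ) : ℝ)) :=
        Real.one_le_rpow (by norm_num) (by positivity)
      have h5 : 0 < T⁻¹ := by positivity
      nlinarith
    calc ∫⁻ t in S, ENNReal.ofReal (Real.pi ^ 2 / (1 + t ^ 2)) *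
        ∫⁻ σ, ‖BB φ ψ s a (gup f) t σ‖ₑ ^ 2
        ≤ ∫⁻ t in S, (2 * (ENNReal.ofReal (Real.pi ^ 2 / (1 + t ^ 2)) *
          ∫⁻ σ, ‖pr φ ψ s a (gup f) (Iic M) t σ‖ₑ ^ 2) +
          2 * (ENNReal.ofReal (Real.pi ^ 2 / (1 + t ^ 2)) *
          ∫⁻ σ, ‖pr φ ψ s a (gup f) (Ioi M) t σ‖ₑ ^ 2)) := by
          refine lintegral_mono fun t => ?_
          have hmt : Measurable fun σ => ‖pr φ ψ s a (gup f) (Iic M) t σ‖ₑ ^ 2 :=
            ((measurable_pr φ ψ s a hFm measurableSet_Iic).comp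
              (measurable_const.prodMk measurable_id)).enorm.pow_const 2
          have h6 : ∫⁻ σ, ‖BB φ ψ s a (gup f) t σ‖ₑ ^ 2 ≤
              2 * (∫⁻ σ, ‖pr φ ψ s a (gup f) (Iic M) t σ‖ₑ ^ 2) +
              2 * ∫⁻ σ, ‖pr φ ψ s a (gup f) (Ioi M) t σ‖ₑ ^ 2 := by
            rw [← lintegral_const_mul' _ _ (by norm_num), ← lintegral_const_mul' _ _ (by norm_num),
              ← lintegral_add_left (hmt.const_mul 2)]
            refine lintegral_mono fun σ => ?_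
            rw [BB_split φ ψ s a (gup f) M t σ]
            exact sq_add_le _ _
          refine (mul_le_mul_right h6 _).trans (le_of_eq ?_)
          ring
      _ = 2 * (∫⁻ t in S, ENNReal.ofReal (Real.pi ^ 2 / (1 + t ^ 2)) *
          ∫⁻ σ, ‖pr φ ψ s a (gup f) (Iic M) t σ‖ₑ ^ 2) +
          2 * ∫⁻ t in S, ENNReal.ofReal (Real.pi ^ 2 / (1 + t ^ 2)) *
          ∫⁻ σ, ‖pr φ ψ s a (gup f) (Ioi M) t σ‖ₑ ^ 2 := by
          rw [lintegral_add_left (hmn.const_mul 2), lintegral_const_mul' _ _ (by norm_num),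
            lintegral_const_mul' _ _ (by norm_num)]
      _ ≤ 2 * (C₁ * m * ENNReal.ofReal (25920 * D *
          (2 : ℝ) ^ ((-1 + ε) * ((k + 1 : ℕ) : ℝ))) * N) +
          2 * (10 * C₂ * ENNReal.ofReal ((2 : ℝ) ^ ((-1 + ε) * ((k + 1 : ℕ) : ℝ))) * N) := by
          refine add_le_add (mul_le_mul_right (hnear.trans ?_) _)
            (mul_le_mul_right (hfar.trans ?_) _)
          · refine mul_le_mul_left (mul_le_mul_right (ENNReal.ofReal_le_ofReal ?_) _) _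
            exact numbers hT (hD (k + 1))
          · exact mul_le_mul_left (mul_le_mul_right (ENNReal.ofReal_le_ofReal hT1) _) _
      _ = (51840 * C₁ * D * m + 20 * C₂ * 1) *
          ENNReal.ofReal ((2 : ℝ) ^ ((-1 + ε) * ((k + 1 : ℕ) : ℝ))) * N := by
          rw [ENNReal.ofReal_mul (by positivity), ENNReal.ofReal_mul (by norm_num)]
          rw [show ENNReal.ofReal (D : ℝ) = D by simp, show ENNReal.ofReal 25920 = 25920 by simp]
          ring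
      _ ≤ (51840 * C₁ * D * m + 60 * C₂ * m) *
          ENNReal.ofReal ((2 : ℝ) ^ ((-1 + ε) * ((k + 1 : ℕ) : ℝ))) * N := by
          gcongr
          norm_num
      _ = _ := by
          push_cast
          ring

end Wex
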