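import Pool.Agent.Wex.Defs

/-!
# MP_5ab805_an, spectra on curves: targets (helper91)

The targets `T_NEA`, `T_DEC`, `T_WIE`, `T_IN1`, `T_IN2`, `T_BEW`, `T_REP`, `T_CNV` of
`Pool/Agent/Wey` are used unchanged.
-/

set_option autoImplicit false

namespace Wex

open MeasureTheory Set Filter
open scoped ENNReal NNReal Topology
open Pool.Agent.Restr (u E QQ)
open TriL (Sq n2)
open Wey (nq lam hat gup gdn blk Tk Sl Wi)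

/-- SLI (from Wey.T_REP, Wey.T_CNV): the product at a fixed time -/
def T_SLI : Prop := ∀ (φ ψ : ℤ → ℝ) (s : Finset ℤ) (a : ℤ → ℂ) (f : ℝ × ℝ → ℂ) (t : ℝ),
  Sq f → Integrable f →
  ∫⁻ p : ℝ × ℝ, (‖E f (p.1, p.2, t)‖ₑ * ‖E (gdn (Gs φ ψ s a)) (p.1, p.2, t)‖ₑ) ^ 2 ≤
    ENNReal.ofReal (Real.pi ^ 2 / (1 + t ^ 2)) * ∫⁻ σ, ‖BB φ ψ s a (gup f) t σ‖ₑ ^ 2

/-- DYA (from Wey.T_DEC): windows and dyadic intervals -/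
def T_DYA : Prop := ∀ (m : ℕ) (φ ψ : ℤ → ℝ) (α β : ℤ), Sep φ ψ (Finset.Ico α β) →
  Ann m φ ψ (Finset.Ico α β) →
  ∀ (c : ℤ → ℂ) (σ : ℝ × ℝ) (M T : ℝ) (ℓ : ℕ), 0 < T → 0 ≤ M → (2 * √M + 3) ^ 2 ≤ 2 ^ ℓ →
  ∫⁻ τ : ℝ, ‖∑ n ∈ Finset.Ico α β with
      (nu φ ψ σ n ≤ M ∧ τ - 8 * T < nu φ ψ σ n ∧ nu φ ψ σ n ≤ τ), c n‖ₑ ^ 2 ≤
    ENNReal.ofReal (8 * T * (m * (2 * ℓ + 2))) *
      ∑ i ∈ Finset.range (ℓ + 1), ∑' j : ℤ, ‖blk (Finset.Ico α β) c i j‖ₑ ^ 2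

/-- HAT: Plancherel for the blocks -/
def T_HAT : Prop := ∀ (φ ψ : ℤ → ℝ) (s : Finset ℤ) (a : ℤ → ℂ) (F : ℝ × ℝ → ℂ) (i : ℕ)
  (j : ℤ), Measurable F → Integrable F →
  ∫⁻ σ, ‖blk s (cf φ ψ a F σ) i j‖ₑ ^ 2 ≤ ENNReal.ofReal (4 * Real.pi ^ 2) *
    ∫⁻ x, ‖F x‖ₑ ^ 2 * ‖blk s (fun n => a n * u (-(φ n * x.1 + ψ n * x.2))) i j‖ₑ ^ 2

/-- GAU: Gaussian sums over separated points -/
def T_GAU : Prop := ∃ C : ℝ, 0 < C ∧ ∀ (φ ψ : ℤ → ℝ) (s : Finset ℤ) (b : ℝ) (x : ℝ × ℝ),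
  Sep φ ψ s → 0 < b →
  ∑ n ∈ s, Real.exp (-(b * ((φ n - x.1) ^ 2 + (ψ n - x.2) ^ 2))) ≤ C * (1 + 1 / b)

/-- FAR (from GAU): the far terms, at a fixed time -/
def T_FAR : Prop := ∃ C : ℝ≥0, ∀ (φ ψ : ℤ → ℝ) (s : Finset ℤ) (a : ℤ → ℂ)
  (F : ℝ × ℝ → ℂ) (A : ℝ≥0) (M t : ℝ), Sep φ ψ s → Measurable F → Integrable F →
  (∀ n ∈ s, ‖a n‖ₑ ≤ A) →
  ∫⁻ σ, ‖∑ n ∈ s with M < nu φ ψ σ n, cf φ ψ a F σ n *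
      Complex.exp (-(lam t / 2 * ((nu φ ψ σ n : ℝ) : ℂ)))‖ₑ ^ 2 ≤
    C * ENNReal.ofReal ((1 + t ^ 2) ^ 2 * Real.exp (-M / (8 * (1 + t ^ 2)))) *
      ((A : ℝ≥0∞) ^ 2 * ∫⁻ x, ‖F x‖ₑ ^ 2)

/-- SLB (from SLI, Wey.T_NEA, DYA, HAT, FAR): the weighted estimate on a slab, Gaussian cut-off -/
def T_SLB : Prop := ∀ ε : ℝ, 0 < ε → ∃ C : ℝ≥0, ∀ (m : ℕ) (φ ψ : ℤ → ℝ) (α β : ℤ)
  (a : ℤ → ℂ) (f : ℝ × ℝ → ℂ) (N : ℝ≥0∞) (k : ℕ), 1 ≤ m → Sep φ ψ (Finset.Ico α β) →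
  Ann m φ ψ (Finset.Ico α β) → Sq f → Integrable f → SQ φ ψ (Finset.Ico α β) a f N →
  ∫⁻ t in Tk k, ∫⁻ p : ℝ × ℝ, (‖E f (p.1, p.2, t)‖ₑ *
      ‖E (gdn (Gs φ ψ (Finset.Ico α β) a)) (p.1, p.2, t)‖ₑ) ^ 2 ≤
    C * m * ENNReal.ofReal (2 ^ ((-1 + ε) * k)) * N

/-- CUT (from SLB, Wey.T_WIE): the weighted estimate on a slab -/
def T_CUT : Prop := ∀ ε : ℝ, 0 < ε → ∃ C : ℝ≥0, ∀ (m : ℕ) (φ ψ : ℤ → ℝ) (α β : ℤ)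
  (a : ℤ → ℂ) (χ f : ℝ × ℝ → ℂ) (K : ℝ≥0) (N : ℝ≥0∞) (k : ℕ), 1 ≤ m →
  Sep φ ψ (Finset.Ico α β) → Ann m φ ψ (Finset.Ico α β) →
  Wi K χ → (∀ x, x ∉ QQ → χ x = 0) → Sq f → Integrable f → SQ φ ψ (Finset.Ico α β) a f N →
  ∫⁻ ξ in Sl k, XX φ ψ (Finset.Ico α β) a χ f ξ ^ 2 ≤
    C * (K : ℝ≥0∞) ^ 2 * m * ENNReal.ofReal (2 ^ ((-1 + ε) * k)) * N

/-- SQW (from Wey.T_BEW) -/
def T_SQW : Prop := ∀ (φ ψ : ℤ → ℝ) (s : Finset ℤ) (a : ℤ → ℂ) (f : ℝ × ℝ → ℂ) (N : ℝ≥0∞),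
  Sq f → NB φ ψ s a f N → SQ φ ψ s a f N ∧ n2 f * ∑ n ∈ s, ‖a n‖ₑ ^ 2 ≤ N

/-- SQB (from GAU): almost orthogonality of separated exponentials on the square -/
def T_SQB : Prop := ∃ C : ℝ≥0, ∀ (φ ψ : ℤ → ℝ) (s : Finset ℤ) (a : ℤ → ℂ), Sep φ ψ s →
  ∫⁻ x in QQ, ‖Gs φ ψ s a x‖ₑ ^ 2 ≤ C * ∑ n ∈ s, ‖a n‖ₑ ^ 2

/-- ASM (from CUT, SQW, SQB, Wey.T_IN1, Wey.T_IN2): the weighted theorem on the square -/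
def T_ASM : Prop := ∀ q : ℝ, 3 < q → q < 4 → ∃ C : ℝ≥0, ∀ (m : ℕ) (φ ψ : ℤ → ℝ) (α β : ℤ)
  (a : ℤ → ℂ) (χ : ℝ × ℝ → ℂ) (K : ℝ≥0), 1 ≤ m → Sep φ ψ (Finset.Ico α β) →
  Ann m φ ψ (Finset.Ico α β) → Wi K χ → (∀ x, x ∉ QQ → χ x = 0) →
  ∀ (f : ℝ × ℝ → ℂ) (B : ℝ≥0∞), Sq f → NB φ ψ (Finset.Ico α β) a f (B ^ 2) →
    eLpNorm (fun ξ => E f ξ * E (fun x => χ x * Gs φ ψ (Finset.Ico α β) a x) ξ)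
      (ENNReal.ofReal (q / 2)) volume ≤ C * K * NNReal.sqrt m * B ∧
    ∀ g : ℝ × ℝ → ℂ, Sq g →
    eLpNorm (fun ξ => E f ξ * E g ξ * E (fun x => χ x * Gs φ ψ (Finset.Ico α β) a x) ξ)
      (ENNReal.ofReal (q / 3)) volume ≤ C * K * NNReal.sqrt m * B * eLpNorm g 2 volume

/-- SHI: a chirp can be moved to the other factor (time shift) -/
def T_SHI : Prop := ∀ (c : ℝ) (r : ℝ≥0∞) (f g h : ℝ × ℝ → ℂ),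
  eLpNorm (fun ξ => E f ξ * E (chp c h) ξ) r volume =
    eLpNorm (fun ξ => E (chp (-c) f) ξ * E h ξ) r volume ∧
  eLpNorm (fun ξ => E f ξ * E g ξ * E (chp c h) ξ) r volume =
    eLpNorm (fun ξ => E (chp (-c) f) ξ * E (chp (-c) g) ξ * E h ξ) r volume

/-- THK (from ASM, SQB): functions with spectrum near a separated sequence of bounded annular
complexity -/
def T_THK : Prop := ∀ q : ℝ, 3 < q → q < 4 → ∃ C : ℝ≥0, ∀ (m : ℕ) (φ ψ : ℤ → ℝ) (α β : ℤ)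
  (χ γ : ℝ × ℝ → ℂ) (K : ℝ≥0), 1 ≤ m → Sep φ ψ (Finset.Ico α β) →
  Ann m φ ψ (Finset.Ico α β) → Wi K χ → (∀ x, x ∉ QQ → χ x = 0) →
  Measurable γ → Integrable γ →
  (∀ y : ℝ × ℝ, (∀ n ∈ Finset.Ico α β, 4 < (y.1 - φ n) ^ 2 + (y.2 - ψ n) ^ 2) → γ y = 0) →
  ∀ f : ℝ × ℝ → ℂ, Sq f → (∀ x, ‖f x‖ ≤ 1) →
    eLpNorm (fun ξ => E f ξ * E (fun x => χ x * chk γ x) ξ)
      (ENNReal.ofReal (q / 2)) volume ≤ C * K * NNReal.sqrt m * eLpNorm γ 2 volume ∧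
    ∀ g : ℝ × ℝ → ℂ, Sq g →
    eLpNorm (fun ξ => E f ξ * E g ξ * E (fun x => χ x * chk γ x) ξ)
      (ENNReal.ofReal (q / 3)) volume ≤
      C * K * NNReal.sqrt m * eLpNorm γ 2 volume * eLpNorm g 2 volume

/-- GRE: a maximal separated subset of an arc -/
def T_GRE : Prop := ∀ z : ℝ → ℝ × ℝ, Continuous z → ∀ R : ℝ, ∃ (N : ℕ) (v : ℤ → ℝ),
  MonotoneOn v (Finset.Ico (0 : ℤ) N) ∧
  Sep (fun n => (z (v n)).1) (fun n => (z (v n)).2) (Finset.Ico 0 N) ∧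
  ∀ r ∈ Icc (-R) R, ∃ n ∈ Finset.Ico (0 : ℤ) N,
    ((z r).1 - (z (v n)).1) ^ 2 + ((z r).2 - (z (v n)).2) ^ 2 ≤ 1

/-- POL: polynomial curves have bounded annular complexity -/
def T_POL : Prop := ∀ (P Q : Polynomial ℝ) (v : ℤ → ℝ) (s : Finset ℤ), MonotoneOn v s →
  Ann (2 * max P.natDegree Q.natDegree + 1) (fun n => P.eval (v n)) (fun n => Q.eval (v n)) s

/-- LIM (from THK, GRE, POL): functions with spectrum in the unit neighbourhood of a polynomial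
curve -/
def T_LIM : Prop := ∀ q : ℝ, 3 < q → q < 4 → ∃ C : ℝ≥0, ∀ (P Q : Polynomial ℝ)
  (χ γ : ℝ × ℝ → ℂ) (K : ℝ≥0), Wi K χ → (∀ x, x ∉ QQ → χ x = 0) →
  Measurable γ → Integrable γ →
  (∀ y : ℝ × ℝ, (∀ r : ℝ, 1 < (y.1 - P.eval r) ^ 2 + (y.2 - Q.eval r) ^ 2) → γ y = 0) →
  ∀ f : ℝ × ℝ → ℂ, Sq f → (∀ x, ‖f x‖ ≤ 1) →
    eLpNorm (fun ξ => E f ξ * E (fun x => χ x * chk γ x) ξ)
      (ENNReal.ofReal (q / 2)) volume ≤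
      C * K * NNReal.sqrt (2 * max P.natDegree Q.natDegree + 1) * eLpNorm γ 2 volume ∧
    ∀ g : ℝ × ℝ → ℂ, Sq g →
    eLpNorm (fun ξ => E f ξ * E g ξ * E (fun x => χ x * chk γ x) ξ)
      (ENNReal.ofReal (q / 3)) volume ≤
      C * K * NNReal.sqrt (2 * max P.natDegree Q.natDegree + 1) * eLpNorm γ 2 volume *
        eLpNorm g 2 volume

end Wex
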