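import Pool.Agent.Wex.Targets

/-!
# MP_5ab805_an, spectra on curves and arbitrary spectra: targets, second part (helper91)

Second part: better dependence on the complexity, orderings of arbitrary finite sets with few runs
in every annulus, and the theorem for arbitrary functions `g`, with the `L^s` norm of `E g (·, c)`.
-/

set_option autoImplicit false

namespace Wex

open MeasureTheory Set Filter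
open scoped ENNReal NNReal Topology
open Pool.Agent.Restr (u E QQ)
open TriL (Sq n2)
open Wey (nq lam hat gup gdn blk Tk Sl Wi InD)

/-! ### Analysis -/

/-- admissible exponents, `ρ = q/2` bilinear, `μ = q/3` trilinear -/
def Par (ρ κ μ ν : ℝ) : Prop :=
  (3 / 2 < ρ ∧ ρ < 2 ∧ 2 - ρ < κ ∧ κ ≤ ρ - 1) ∧
    (1 < μ ∧ μ < 4 / 3 ∧ 2 - 3 * μ / 2 < ν ∧ ν ≤ μ / 2)

/-- `m ^ e` -/
noncomputable def pw (m : ℕ) (e : ℝ) : ℝ≥0∞ := ENNReal.ofReal ((m : ℝ) ^ e)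

/-- INB: summation over the slabs, bilinear form -/
def T_INB : Prop := ∀ ρ κ : ℝ, 3 / 2 < ρ → ρ < 2 → 2 - ρ < κ → κ ≤ ρ - 1 →
  ∃ ε : ℝ, 0 < ε ∧ ∃ C : ℝ≥0, ∀ (m : ℕ) (X : ℝ × ℝ × ℝ → ℝ≥0∞) (N : ℝ≥0), 1 ≤ m → Measurable X →
  (∀ k : ℕ, ∫⁻ ξ in Sl k, X ξ ^ 2 ≤ (N : ℝ≥0∞) ^ 2) →
  (∀ k : ℕ, ∫⁻ ξ in Sl k, X ξ ^ 2 ≤
    (N : ℝ≥0∞) ^ 2 * m * ENNReal.ofReal (2 ^ ((-1 + ε) * k))) →
  (∀ k : ℕ, ∫⁻ ξ in Sl k, X ξ ≤ N * 2 ^ k) →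
  ∫⁻ ξ, X ξ ^ ρ ≤ C * pw m κ * (N : ℝ≥0∞) ^ ρ

/-- INT: summation over the slabs, trilinear form -/
def T_INT : Prop := ∀ μ ν : ℝ, 1 < μ → μ < 4 / 3 → 2 - 3 * μ / 2 < ν → ν ≤ μ / 2 →
  ∃ ε : ℝ, 0 < ε ∧ ∃ C : ℝ≥0, ∀ (m : ℕ) (X : ℝ × ℝ × ℝ → ℝ≥0∞) (N : ℝ≥0) (f : ℝ × ℝ → ℂ),
  1 ≤ m → Measurable X → Measurable f →
  (∀ k : ℕ, ∫⁻ ξ in Sl k, X ξ ^ 2 ≤ (N : ℝ≥0∞) ^ 2) →
  (∀ k : ℕ, ∫⁻ ξ in Sl k, X ξ ^ 2 ≤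
    (N : ℝ≥0∞) ^ 2 * m * ENNReal.ofReal (2 ^ ((-1 + ε) * k))) →
  ∫⁻ ξ, (X ξ * ‖E f ξ‖ₑ) ^ μ ≤ C * pw m ν * (N : ℝ≥0∞) ^ μ * n2 f ^ (μ / 2)

/-- ASM2 (from CUT, SQW, SQB, INB, INT): replaces ASM -/
def T_ASM2 : Prop := ∀ ρ κ μ ν : ℝ, Par ρ κ μ ν → ∃ C : ℝ≥0, ∀ (m : ℕ) (φ ψ : ℤ → ℝ) (α β : ℤ)
  (a : ℤ → ℂ) (χ : ℝ × ℝ → ℂ) (K : ℝ≥0), 1 ≤ m → Sep φ ψ (Finset.Ico α β) →
  Ann m φ ψ (Finset.Ico α β) → Wi K χ → (∀ x, x ∉ QQ → χ x = 0) →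
  ∀ (f : ℝ × ℝ → ℂ) (B : ℝ≥0∞), Sq f → NB φ ψ (Finset.Ico α β) a f (B ^ 2) →
    eLpNorm (fun ξ => E f ξ * E (fun x => χ x * Gs φ ψ (Finset.Ico α β) a x) ξ)
      (ENNReal.ofReal ρ) volume ≤ C * K * pw m (κ / ρ) * B ∧
    ∀ g : ℝ × ℝ → ℂ, Sq g →
    eLpNorm (fun ξ => E f ξ * E g ξ * E (fun x => χ x * Gs φ ψ (Finset.Ico α β) a x) ξ)
      (ENNReal.ofReal μ) volume ≤ C * K * pw m (ν / μ) * B * eLpNorm g 2 volume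

/-- THK2 (from ASM2, SQB): replaces THK -/
def T_THK2 : Prop := ∀ ρ κ μ ν : ℝ, Par ρ κ μ ν → ∃ C : ℝ≥0, ∀ (m : ℕ) (φ ψ : ℤ → ℝ) (α β : ℤ)
  (χ γ : ℝ × ℝ → ℂ) (K : ℝ≥0), 1 ≤ m → Sep φ ψ (Finset.Ico α β) →
  Ann m φ ψ (Finset.Ico α β) → Wi K χ → (∀ x, x ∉ QQ → χ x = 0) →
  Measurable γ → Integrable γ →
  (∀ y : ℝ × ℝ, (∀ n ∈ Finset.Ico α β, 4 < (y.1 - φ n) ^ 2 + (y.2 - ψ n) ^ 2) → γ y = 0) →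
  ∀ f : ℝ × ℝ → ℂ, Sq f → (∀ x, ‖f x‖ ≤ 1) →
    eLpNorm (fun ξ => E f ξ * E (fun x => χ x * chk γ x) ξ)
      (ENNReal.ofReal ρ) volume ≤ C * K * pw m (κ / ρ) * eLpNorm γ 2 volume ∧
    ∀ g : ℝ × ℝ → ℂ, Sq g →
    eLpNorm (fun ξ => E f ξ * E g ξ * E (fun x => χ x * chk γ x) ξ)
      (ENNReal.ofReal μ) volume ≤
      C * K * pw m (ν / μ) * eLpNorm γ 2 volume * eLpNorm g 2 volume

/-- LIM2 (from THK2, GRE, POL): replaces LIM -/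
def T_LIM2 : Prop := ∀ ρ κ μ ν : ℝ, Par ρ κ μ ν → ∃ C : ℝ≥0, ∀ (P Q : Polynomial ℝ)
  (χ γ : ℝ × ℝ → ℂ) (K : ℝ≥0), Wi K χ → (∀ x, x ∉ QQ → χ x = 0) →
  Measurable γ → Integrable γ →
  (∀ y : ℝ × ℝ, (∀ r : ℝ, 1 < (y.1 - P.eval r) ^ 2 + (y.2 - Q.eval r) ^ 2) → γ y = 0) →
  ∀ f : ℝ × ℝ → ℂ, Sq f → (∀ x, ‖f x‖ ≤ 1) →
    eLpNorm (fun ξ => E f ξ * E (fun x => χ x * chk γ x) ξ)
      (ENNReal.ofReal ρ) volume ≤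
      C * K * pw (2 * max P.natDegree Q.natDegree + 1) (κ / ρ) * eLpNorm γ 2 volume ∧
    ∀ g : ℝ × ℝ → ℂ, Sq g →
    eLpNorm (fun ξ => E f ξ * E g ξ * E (fun x => χ x * chk γ x) ξ)
      (ENNReal.ofReal μ) volume ≤
      C * K * pw (2 * max P.natDegree Q.natDegree + 1) (ν / μ) * eLpNorm γ 2 volume *
        eLpNorm g 2 volume

/-! ### Orderings with few runs -/

/-- the square of the distance -/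
def d2 (x c : ℝ × ℝ) : ℝ := (x.1 - c.1) ^ 2 + (x.2 - c.2) ^ 2

/-- `r` separates `x` and `y` -/
def Cross {α ι : Type} (mem : ι → α → Prop) (r : ι) (x y : α) : Prop := ¬ (mem r x ↔ mem r y)

open Classical in
/-- the number of consecutive pairs of the list which `r` separates -/
noncomputable def cr {α ι : Type} (mem : ι → α → Prop) (r : ι) : List α → ℕ
  | x :: y :: l => (if Cross mem r x y then 1 else 0) + cr mem r (y :: l)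
  | _ => 0

open Classical in
/-- weight of the ranges separating `x` and `y` -/
noncomputable def sw {α ι : Type} (mem : ι → α → Prop) (R : Finset ι) (w : ι → ℝ) (x y : α) : ℝ :=
  ∑ r ∈ R with Cross mem r x y, w r

/-- the bound `δ(n)` of the short edge lemma -/
noncomputable def del (n : ℕ) : ℝ := 16 * (1 + Real.log n) / √n

/-- membership in the disc with centre `ρ.1` and square of the radius `ρ.2` -/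
def dm (ρ : (ℝ × ℝ) × ℝ) (x : ℝ × ℝ) : Prop := d2 x ρ.1 ≤ ρ.2

/-- DGP: general position -/
def T_DGP : Prop := ∀ (s : ℕ) (c : Fin s → ℝ × ℝ) (r : Fin s → ℝ) (X : Finset (ℝ × ℝ)),
  ∃ r' : Fin s → ℝ, (∀ i, ∀ x ∈ X, (d2 x (c i) ≤ r i ↔ d2 x (c i) ≤ r' i)) ∧
    (∀ i j, i ≠ j → c i = c j → r' i ≠ r' j) ∧
    ∀ i j k, i ≠ j → j ≠ k → i ≠ k → ∀ p,
      ¬ (d2 p (c i) = r' i ∧ d2 p (c j) = r' j ∧ d2 p (c k) = r' k)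

/-- DMI: the leftmost point of the closed region of `x` is a vertex -/
def T_DMI : Prop := ∀ (s : ℕ) (c : Fin s → ℝ × ℝ) (r : Fin s → ℝ) (x : ℝ × ℝ) (i₀ : Fin s),
  d2 x (c i₀) ≤ r i₀ → ∃ p : ℝ × ℝ,
    (∀ i, (d2 x (c i) ≤ r i → d2 p (c i) ≤ r i) ∧ (r i < d2 x (c i) → r i ≤ d2 p (c i))) ∧
    ((∃ i j, i ≠ j ∧ d2 p (c i) = r i ∧ d2 p (c j) = r j) ∨
      ∃ i, d2 p (c i) = r i ∧ p.2 = (c i).2)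

/-- DSH (from DGP, DMI): `s` discs separate at most `16 (s+1)²` points -/
def T_DSH : Prop := ∀ (s : ℕ) (ρ : Fin s → (ℝ × ℝ) × ℝ) (X : Finset (ℝ × ℝ)),
  (∀ x ∈ X, ∀ y ∈ X, x ≠ y → ∃ i, Cross dm (ρ i) x y) → (X.card : ℝ) ≤ 16 * (s + 1) ^ 2

/-- VCD: at most `(n+1)⁴` traces of discs on `n` points -/
def T_VCD : Prop := ∀ X : Finset (ℝ × ℝ), ∃ R : Finset ((ℝ × ℝ) × ℝ),
  (R.card : ℝ) ≤ (X.card + 1) ^ 4 ∧ ∀ ρ, ∃ σ ∈ R, ∀ x ∈ X, (dm ρ x ↔ dm σ x)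

/-- SHE: the short edge lemma (abstract) -/
def T_SHE : Prop := ∀ (α ι : Type) (mem : ι → α → Prop) (X : Finset α) (R : Finset ι),
  (∀ (s : ℕ) (ρ : Fin s → ι), (∀ x ∈ X, ∀ y ∈ X, x ≠ y → ∃ i, Cross mem (ρ i) x y) →
    (X.card : ℝ) ≤ 16 * (s + 1) ^ 2) →
  ∀ w : ι → ℝ, (∀ r ∈ R, 0 ≤ w r) → 2 ≤ X.card →
  ∃ x ∈ X, ∃ y ∈ X, x ≠ y ∧ sw mem R w x y ≤ del X.card * ∑ r ∈ R, w r

/-- PAT: reweighting (abstract) -/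
def T_PAT : Prop := ∀ (α ι : Type) (mem : ι → α → Prop) (X : Finset α) (R : Finset ι),
  (∀ Y ⊆ X, ∀ w : ι → ℝ, (∀ r ∈ R, 0 ≤ w r) → 2 ≤ Y.card →
    ∃ x ∈ Y, ∃ y ∈ Y, x ≠ y ∧ sw mem R w x y ≤ del Y.card * ∑ r ∈ R, w r) →
  X.Nonempty → ∃ l : List α, l.Nodup ∧ (∀ x, x ∈ l ↔ x ∈ X) ∧
    ∀ r ∈ R, (2 : ℝ) ^ cr mem r l ≤ (R.card * ∏ k ∈ Finset.Icc 2 X.card, (1 + del k)) ^ 2

/-- RUN: few crossings give few runs in every annulus -/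
def T_RUN : Prop := ∀ (l : List (ℝ × ℝ)) (k : ℕ), (∀ ρ, cr dm ρ l ≤ k) →
  Ann (2 * k + 1) (fun n => (l.getD n.toNat 0).1) (fun n => (l.getD n.toNat 0).2)
    (Finset.Ico 0 (l.length : ℤ))

/-- CRO (from DSH, VCD, SHE, PAT, RUN): every finite set has an ordering of small annular
complexity -/
def T_CRO : Prop := ∃ C : ℝ, 0 < C ∧ ∀ S : Finset (ℝ × ℝ), S.Nonempty →
  ∃ (φ ψ : ℤ → ℝ) (m : ℕ), 1 ≤ m ∧ (m : ℝ) ≤ C * (√S.card * (1 + Real.log S.card)) ∧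
    Ann m φ ψ (Finset.Ico 0 (S.card : ℤ)) ∧
    (∀ n ∈ Finset.Ico 0 (S.card : ℤ), ∀ k ∈ Finset.Ico 0 (S.card : ℤ),
      φ n = φ k → ψ n = ψ k → n = k) ∧
    ∀ x, x ∈ S ↔ ∃ n ∈ Finset.Ico 0 (S.card : ℤ), x = (φ n, ψ n)

/-! ### Arbitrary spectra -/

/-- the unit cell of the integer point `k` -/
def cell (k : ℤ × ℤ) : Set (ℝ × ℝ) := Ico (k.1 : ℝ) (k.1 + 1) ×ˢ Ico (k.2 : ℝ) (k.2 + 1)

/-- SPA (from THK2, CRO): spectrum in the union of finitely many cells -/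
def T_SPA : Prop := ∀ ρ κ μ ν : ℝ, 3 / 2 < ρ → ρ < 2 → 1 / ρ - 1 / 2 < κ → 1 < μ → μ < 4 / 3 →
  1 / μ - 3 / 4 < ν → ∃ C : ℝ≥0, ∀ (χ γ : ℝ × ℝ → ℂ) (K : ℝ≥0) (S : Finset (ℤ × ℤ)), Wi K χ →
  (∀ x, x ∉ QQ → χ x = 0) → Measurable γ → Integrable γ →
  (∀ y : ℝ × ℝ, (∀ k ∈ S, y ∉ cell k) → γ y = 0) →
  ∀ f : ℝ × ℝ → ℂ, Sq f → (∀ x, ‖f x‖ ≤ 1) →
    eLpNorm (fun ξ => E f ξ * E (fun x => χ x * chk γ x) ξ)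
      (ENNReal.ofReal ρ) volume ≤ C * K * pw S.card κ * eLpNorm γ 2 volume ∧
    ∀ g : ℝ × ℝ → ℂ, Sq g →
    eLpNorm (fun ξ => E f ξ * E g ξ * E (fun x => χ x * chk γ x) ξ)
      (ENNReal.ofReal μ) volume ≤
      C * K * pw S.card ν * eLpNorm γ 2 volume * eLpNorm g 2 volume

/-- the amalgam norm, `ℓ^s` of the `L²` norms on the cells -/
noncomputable def amal (s : ℝ) (γ : ℝ × ℝ → ℂ) : ℝ≥0∞ :=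
  (∑' k : ℤ × ℤ, (∫⁻ y in cell k, ‖γ y‖ₑ ^ 2) ^ (s / 2)) ^ (1 / s)

/-- LEV (from SPA): level sets -/
def T_LEV : Prop := ∀ ρ s μ t : ℝ, 3 / 2 < ρ → ρ < 2 → 1 ≤ s → s < ρ → 1 < μ → μ < 4 / 3 →
  1 ≤ t → 1 / μ - 1 / 4 < 1 / t → ∃ C : ℝ≥0, ∀ (χ γ : ℝ × ℝ → ℂ) (K : ℝ≥0) (S : Finset (ℤ × ℤ)),
  Wi K χ → (∀ x, x ∉ QQ → χ x = 0) → Measurable γ → Integrable γ →
  ∫⁻ y, ‖γ y‖ₑ ^ 2 < ∞ → (∀ y : ℝ × ℝ, (∀ k ∈ S, y ∉ cell k) → γ y = 0) →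
  ∀ f : ℝ × ℝ → ℂ, Sq f → (∀ x, ‖f x‖ ≤ 1) →
    eLpNorm (fun ξ => E f ξ * E (fun x => χ x * chk γ x) ξ)
      (ENNReal.ofReal ρ) volume ≤ C * K * amal s γ ∧
    ∀ g : ℝ × ℝ → ℂ, Sq g →
    eLpNorm (fun ξ => E f ξ * E g ξ * E (fun x => χ x * chk γ x) ξ)
      (ENNReal.ofReal μ) volume ≤ C * K * amal t γ * eLpNorm g 2 volume

/-- AMA: the amalgam norm of the Fourier transform of a function on the square -/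
def T_AMA : Prop := ∀ s : ℝ, 1 ≤ s → s ≤ 2 → ∃ C : ℝ≥0, ∀ g : ℝ × ℝ → ℂ, Sq g → Integrable g →
  amal s (hat g) ≤ C * (∫⁻ y, ‖hat g y‖ₑ ^ s) ^ (1 / s)

/-- CHI: a cut-off, with the inversion formula for its products -/
def T_CHI : Prop := ∃ (χ : ℝ × ℝ → ℂ) (K : ℝ≥0), Wi K χ ∧ (∀ x, x ∉ QQ → χ x = 0) ∧
  (∀ x : ℝ × ℝ, |x.1| ≤ 1 / 4 → |x.2| ≤ 1 / 4 → χ x = 1) ∧
  ∀ g : ℝ × ℝ → ℂ, Measurable g → Integrable g → ∀ ξ : ℝ × ℝ × ℝ,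
    Tendsto (fun R : ℕ => E (fun x => χ x * chk (fun y =>
      if -(R : ℝ) ≤ y.1 ∧ y.1 < R ∧ -(R : ℝ) ≤ y.2 ∧ y.2 < R then hat g y else 0) x) ξ) atTop
      (𝓝 (4 * Real.pi ^ 2 * E (fun x => χ x * g x) ξ))

/-- FI0 (from LEV, AMA, CHI): the theorem for functions on the small square, time `0` -/
def T_FI0 : Prop := ∀ ρ s μ t : ℝ, 3 / 2 < ρ → ρ < 2 → 1 ≤ s → s < ρ → 1 < μ → μ < 4 / 3 →
  1 ≤ t → 1 / μ - 1 / 4 < 1 / t → ∃ C : ℝ≥0, ∀ f g : ℝ × ℝ → ℂ, Sq f → (∀ x, ‖f x‖ ≤ 1) →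
  Measurable g → Integrable g → (∀ x : ℝ × ℝ, (1 / 4 < |x.1| ∨ 1 / 4 < |x.2|) → g x = 0) →
    eLpNorm (fun ξ => E f ξ * E g ξ) (ENNReal.ofReal ρ) volume ≤
      C * (∫⁻ y, ‖hat g y‖ₑ ^ s) ^ (1 / s) ∧
    ∀ h : ℝ × ℝ → ℂ, Sq h →
    eLpNorm (fun ξ => E f ξ * E h ξ * E g ξ) (ENNReal.ofReal μ) volume ≤
      C * (∫⁻ y, ‖hat g y‖ₑ ^ t) ^ (1 / t) * eLpNorm h 2 volume

/-- FIN (from FI0, SHI): the theorem in the disc, at every time `c` -/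
def T_FIN : Prop := ∀ ρ s μ t : ℝ, 3 / 2 < ρ → ρ < 2 → 1 ≤ s → s < ρ → 1 < μ → μ < 4 / 3 →
  1 ≤ t → 1 / μ - 1 / 4 < 1 / t → ∃ C : ℝ≥0, ∀ (c : ℝ) (f g : ℝ × ℝ → ℂ), InD f →
  (∀ x, ‖f x‖ ≤ 1) → InD g →
    eLpNorm (fun ξ => E f ξ * E g ξ) (ENNReal.ofReal ρ) volume ≤
      C * eLpNorm (fun y : ℝ × ℝ => E g (y.1, y.2, c)) (ENNReal.ofReal s) volume ∧
    ∀ h : ℝ × ℝ → ℂ, InD h →
    eLpNorm (fun ξ => E f ξ * E h ξ * E g ξ) (ENNReal.ofReal μ) volume ≤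
      C * eLpNorm (fun y : ℝ × ℝ => E g (y.1, y.2, c)) (ENNReal.ofReal t) volume *
        eLpNorm h 2 volume

end Wex
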