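import Pool.Agent.Wex.Targets2

/-!
# MP_5ab805_an, time slices: necessary conditions, targets (helper91)
-/

set_option autoImplicit false

namespace Wex

open MeasureTheory Set Filter
open scoped ENNReal NNReal Topology
open Pool.Agent.Restr (u E QQ)
open TriL (Sq n2)
open Wey (nq lam hat gup gdn blk Tk Sl Wi InD)

/-- the tent of width `1/a` -/
noncomputable def tent (a : ℝ) (x : ℝ) : ℝ := max 0 (1 - a * |x|)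

/-- the product of two tents, of height one and support `|x_i| ≤ 1/a` -/
noncomputable def pyr (a : ℝ) (x : ℝ × ℝ) : ℂ := ((tent a x.1 * tent a x.2 : ℝ) : ℂ)

/-- the fixed function `w` of the examples -/
noncomputable def ww (x : ℝ × ℝ) : ℂ := gdn (pyr 3) x

/-- the bounded functions `(2J)^(-1/2) ∑_{j<J} ε_j exp(i j (θ + J |x|²)) w(x)` -/
noncomputable def ff (J : ℕ) (ε : ℕ → ℂ) (θ : ℝ) (x : ℝ × ℝ) : ℂ :=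
  ((1 / √(2 * J) : ℝ) : ℂ) * (∑ j ∈ Finset.range J, ε j * u (-(j * (θ + J * nq x)))) * ww x

/-- the set of `(p,t)`, `|p_i| ≤ J/32`, `t` in the middle half of one of the intervals
`[k J, (k+1) J]`, `k < J` -/
def YY (J : ℕ) : Set (ℝ × ℝ × ℝ) :=
  {ξ | |ξ.1| ≤ J / 32 ∧ |ξ.2.1| ≤ J / 32 ∧
    ∃ k ∈ Finset.range J, k * (J : ℝ) + J / 4 ≤ ξ.2.2 ∧ ξ.2.2 ≤ k * (J : ℝ) + 3 * J / 4}

/-- TEN: the Fourier transform of the product of two tents -/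
def T_TEN : Prop := ∀ a : ℝ, 0 < a → Integrable (pyr a) ∧ Integrable (hat (pyr a)) ∧
  (∀ s : ℝ, 1 ≤ s → ∫⁻ y, ‖hat (pyr a) y‖ₑ ^ s < ∞) ∧
  ∀ x : ℝ × ℝ, ∫ y : ℝ × ℝ, u (-(y.1 * x.1 + y.2 * x.2)) * hat (pyr a) y =
    4 * Real.pi ^ 2 * pyr a x

/-- WUP (from Wey.T_REP, TEN): dispersion -/
def T_WUP : Prop := ∃ C : ℝ, 0 < C ∧ ∀ (p : ℝ × ℝ) (s : ℝ), ‖E ww (p.1, p.2, s)‖ ≤ C / (1 + |s|)

/-- WLO (from Wey.T_REP, TEN): lower bound near the axis -/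
def T_WLO : Prop := ∃ c s₀ : ℝ, 0 < c ∧ 1 ≤ s₀ ∧ ∀ (p : ℝ × ℝ) (s : ℝ), s₀ ≤ s →
  |p.1| ≤ s / 8 → |p.2| ≤ s / 8 → c / s ≤ ‖E ww (p.1, p.2, s)‖

/-- RUD: Rudin-Shapiro polynomials -/
def T_RUD : Prop := ∀ n : ℕ, ∃ ε : ℕ → ℂ, (∀ j, ‖ε j‖ = 1) ∧ ∀ v : ℝ,
  ‖∑ j ∈ Finset.range (2 ^ n), ε j * u (-(j * v))‖ ≤ √(2 * (2 ^ n : ℕ))

/-- AVE (from WUP, WLO, RUD): bounded functions with large extension on `YY` -/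
def T_AVE : Prop := ∀ ρ : ℝ, 1 ≤ ρ → ρ < 2 → ∃ c : ℝ, 0 < c ∧ ∃ n₀ : ℕ, ∀ n : ℕ, n₀ ≤ n →
  ∃ f : ℝ × ℝ → ℂ, InD f ∧ (∀ x, ‖f x‖ ≤ 1) ∧
    ENNReal.ofReal (c * ((2 : ℝ) ^ n) ^ (4 - 3 * ρ / 2) * (1 + n : ℝ) ^ (ρ - 2)) ≤
      ∫⁻ ξ in YY (2 ^ n), ‖E f ξ‖ₑ ^ ρ

/-- KNA: Knapp examples -/
def T_KNA : Prop := ∃ c : ℝ, 0 < c ∧ ∀ J : ℕ, 2 ≤ J →
  InD (fun x => (J : ℂ) ^ 2 * pyr (2 * J) x) ∧ InD (fun x => (J : ℂ) * pyr (2 * J) x) ∧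
  eLpNorm (fun x => (J : ℂ) * pyr (2 * J) x) 2 volume ≤ 1 ∧
  ∀ ξ ∈ YY J, c ≤ ‖E (fun x => (J : ℂ) ^ 2 * pyr (2 * J) x) ξ‖ ∧
    c / J ≤ ‖E (fun x => (J : ℂ) * pyr (2 * J) x) ξ‖

/-- SLN (from TEN): the norm of the slice of the Knapp example -/
def T_SLN : Prop := ∀ s : ℝ, 1 ≤ s → ∃ C : ℝ≥0, ∀ J : ℕ, 2 ≤ J →
  eLpNorm (fun y : ℝ × ℝ => E (fun x => (J : ℂ) ^ 2 * pyr (2 * J) x) (y.1, y.2, 0))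
    (ENNReal.ofReal s) volume ≤ C * ENNReal.ofReal ((J : ℝ) ^ (2 / s))

/-- NEC (from AVE, KNA, SLN): necessary conditions -/
def T_NEC : Prop :=
  (∀ ρ s : ℝ, 1 ≤ ρ → ρ < 2 → 1 ≤ s → (∃ C : ℝ≥0, ∀ f g : ℝ × ℝ → ℂ, InD f →
    (∀ x, ‖f x‖ ≤ 1) → InD g →
    eLpNorm (fun ξ => E f ξ * E g ξ) (ENNReal.ofReal ρ) volume ≤
      C * eLpNorm (fun y : ℝ × ℝ => E g (y.1, y.2, 0)) (ENNReal.ofReal s) volume) →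
    2 / ρ - 3 / 4 ≤ 1 / s) ∧
  (∀ μ t : ℝ, 1 ≤ μ → μ < 2 → 1 ≤ t → (∃ C : ℝ≥0, ∀ f h g : ℝ × ℝ → ℂ, InD f →
    (∀ x, ‖f x‖ ≤ 1) → InD h → InD g →
    eLpNorm (fun ξ => E f ξ * E h ξ * E g ξ) (ENNReal.ofReal μ) volume ≤
      C * eLpNorm (fun y : ℝ × ℝ => E g (y.1, y.2, 0)) (ENNReal.ofReal t) volume *
        eLpNorm h 2 volume) →
    2 / μ - 5 / 4 ≤ 1 / t)

end Wex
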